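import Pool.Agent.TH558.J193
import Pool.Agent.TH624.J191
import Pool.Agent.TH624.J192

/-! # Job 193, unconditional form -/

set_option autoImplicit false

open Set Topology Filter

namespace Pool.Agent.TH558.J193

open Pool.Agent.TH567.TE

theorem square {X O : Type} [TopologicalSpace X] [CompactSpace X] [T2Space X]
    [TotallyDisconnectedSpace X] [LinearOrder O] {inf : X} {T : O → Set X} {R : O → X → X}
    (h : Ax X O inf T R) (F : Set (X × X)) (hF : IsClosed F) : TEmb F :=
  square_of (fun T D a b c d e F f C0 C g h i j => Pool.Agent.TH624.J191.glue T D a b c d e F f C0 C g h i j)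
    (fun Y a b c => Pool.Agent.TH624.J192.exists_retr Y a b c)
    (fun Y a b => Pool.Agent.TH624.J192.countable_closed Y a b) h F hF

end Pool.Agent.TH558.J193
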