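import Pool.Agent.TH186.Rank3

/-!
# Two independent homomorphisms `E → L` give an exact sequence `0 → X → E → L ⊕ L → 0`
-/

set_option autoImplicit false

open scoped WithZero Matrix
open Pool.Agent.Helper395.CS hiding genus
open Pool.Agent.Helper395.BC
open Pool.Agent.W525.BNK (mem_det_one det_one_degree)

namespace Pool.Agent.TH558.J435

open Pool.Agent.TH186

variable {K : Type} [Field K] [Algebra ℂ K]

/-- a nonzero homomorphism `E → L` is surjective -/
theorem onto (hK : IsCurve K) (hg : genus K ≠ 0) {E : Bundle K 3} (hd : E.degree = 14)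
    (h6 : h0 E = 6)
    (hplane : ∀ (N : Bundle K 2) (j : (Fin 2 → K) →ₗ[K] (Fin 3 → K)), IsSubbundle N E j →
      3 ≤ h0 N → N.degree = 7 ∧ h0 N = 3)
    (L : LineBundle K) (hL : L.degree = 7) (hL3 : l0 L = 3)
    {ψ : Fin 3 → K} (hψ0 : ψ ≠ 0) (hψ : ψ ∈ (btw (bdual E) L).sections) (v : Point K) :
    ∃ s ∈ E.stalk v, ∑ i, ψ i * s i = (L.frame v : K) := by
  have hfL := (rrL hK hg L).1
  have hmem : ∀ u : Point K, ∀ s ∈ E.stalk u, u.val (∑ i, ψ i * s i) ≤ u.val (L.frame u : K) := by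
    intro u s hs
    have h1 := (mem_bdual E u _).1 ((mem_btw _ L u ψ).1 (hψ u)) s hs
    have h2 : ∑ i, ((L.frame u : K)⁻¹ • ψ) i * s i = (L.frame u : K)⁻¹ * ∑ i, ψ i * s i := by
      rw [Finset.mul_sum]
      exact Finset.sum_congr rfl fun i _ => by rw [Pi.smul_apply, smul_eq_mul, mul_assoc]
    rw [h2, map_mul, map_inv₀, ← div_eq_inv_mul, div_le_one₀ (frame_pos L u)] at h1
    exact h1
  obtain ⟨k, hk⟩ : ∃ k, ψ k ≠ 0 := by
    by_contra hcon
    push Not at hcon
    exact hψ0 (funext hcon)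
  -- the linear form
  obtain ⟨ℓ, hℓ⟩ : ∃ ℓ : (Fin 3 → K) →ₗ[K] (Fin 1 → K), ∀ s l, ℓ s l = ∑ i, ψ i * s i :=
    ⟨LinearMap.pi fun _ => ∑ i, ψ i • LinearMap.proj i, fun s l => by
      simp [LinearMap.sum_apply]⟩
  have hsurj : Function.Surjective ℓ := by
    intro y
    refine ⟨Pi.single k ((ψ k)⁻¹ * y 0), ?_⟩
    funext l
    rw [hℓ, Subsingleton.elim l 0, Finset.sum_eq_single k]
    · rw [Pi.single_eq_same, mul_inv_cancel_left₀ hk]
    · intro i _ hik
      rw [Pi.single_eq_of_ne hik, mul_zero]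
    · intro h
      exact absurd (Finset.mem_univ k) h
  obtain ⟨G, jG, hG, hG1, hG2⟩ := exists_ker_sub (m := 2) hK E ℓ hsurj (by norm_num)
  obtain ⟨M, P, hQ⟩ := exists_quot (q := 1) hK hG (by norm_num)
  -- the comparison
  obtain ⟨s1, hs1⟩ := hQ.surj (fun _ => 1)
  obtain ⟨a, ha⟩ : ∃ a : K, a = ℓ s1 0 := ⟨_, rfl⟩
  have hPℓ : ∀ s, ℓ s 0 = a * P s 0 := by
    intro s
    have h1 : P (s - P s 0 • s1) = 0 := by
      rw [map_sub, map_smul, hs1]
      funext l
      rw [Subsingleton.elim l 0]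
      simp
    have h2 := (hQ.ker _).1 h1
    obtain ⟨y, hy⟩ := h2
    have h3 : ℓ (s - P s 0 • s1) = 0 := by rw [← hy]; exact hG2 y
    rw [map_sub, map_smul, sub_eq_zero] at h3
    rw [h3, ha, Pi.smul_apply, smul_eq_mul, mul_comm]
  have ha0 : a ≠ 0 := by
    intro h
    obtain ⟨s, hs⟩ := hsurj (fun _ => 1)
    have h1 := hPℓ s
    rw [hs, h, zero_mul] at h1
    exact one_ne_zero h1
  let A : GL (Fin 1) K := Matrix.GeneralLinearGroup.mkOfDetNeZero (Matrix.diagonal fun _ => a) (by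
    rw [Matrix.det_diagonal, Fin.prod_univ_one]; exact ha0)
  have hA : ∀ y : Fin 1 → K, A.1 *ᵥ y = a • y := by
    intro y
    change (Matrix.diagonal fun _ => a) *ᵥ y = _
    funext l
    rw [Matrix.mulVec_diagonal]
    rfl
  have hcmp := degree_compare hK (E := lsum L 1) (F := M) (A := A) (by
    intro u y hy
    obtain ⟨s, hs, rfl⟩ := (hQ.stalk u y).1 hy
    rw [hA, mem_lsum_stalk]
    intro l
    rw [Subsingleton.elim l 0, Pi.smul_apply, smul_eq_mul, ← hPℓ, hℓ]
    exact hmem u s hs)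
  have hfM := (rr hK hg M).1
  have hM3 : h0 M ≤ 3 := by
    have hin : ∀ y ∈ M.sections, a * y 0 ∈ H0 L := by
      intro y hy u
      obtain ⟨s, hs, hsy⟩ := (hQ.stalk u y).1 (hy u)
      rw [← hsy, ← hPℓ, hℓ]
      exact hmem u s hs
    let e : M.sections →ₗ[ℂ] H0 L :=
      { toFun := fun y => ⟨a * y.1 0, hin y.1 y.2⟩
        map_add' := fun y z => Subtype.ext (mul_add _ _ _)
        map_smul' := fun c y => Subtype.ext (mul_smul_comm _ _ _) }
    have h1 := LinearMap.finrank_le_finrank_of_injective (f := e) (fun y z hyz => by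
      have h2 : a * y.1 0 = a * z.1 0 := congrArg Subtype.val hyz
      apply Subtype.ext
      funext l
      rw [Subsingleton.elim l 0]
      exact mul_left_cancel₀ ha0 h2)
    have h2 : Module.finrank ℂ (H0 L) = 3 := hL3
    unfold h0
    omega
  have h1 := hQ.h0_le hK hg
  obtain ⟨hG7, -⟩ := hplane G jG hG (by omega)
  have h2 := hQ.degree hK
  have h3 : M.degree = (lsum L 1).degree := by
    rw [lsum_degree, hL]
    push_cast
    linarith
  have h4 := hcmp.2 h3 v (a⁻¹ • fun _ => (L.frame v : K))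
  have h5 : (a⁻¹ • fun _ => (L.frame v : K)) ∈ M.stalk v := by
    rw [h4, hA, smul_smul, mul_inv_cancel₀ ha0, one_smul, mem_lsum_stalk]
    intro l
    change v.val _ ≤ v.val _
    exact le_refl _
  obtain ⟨s, hs, hsy⟩ := (hQ.stalk v _).1 h5
  refine ⟨s, hs, ?_⟩
  have h6 := hPℓ s
  rw [hsy, hℓ] at h6
  rw [h6]
  change a * (a⁻¹ * (L.frame v : K)) = _
  rw [mul_inv_cancel_left₀ ha0]

/-- Two independent homomorphisms `E → L` give an exact sequence `0 → X → E → L ⊕ L → 0`. -/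
theorem two_maps {K : Type} [Field K] [Algebra ℂ K] (hK : IsCurve K) (hg : 7 ≤ genus K)
    (_hLB : LB K) {E : Bundle K 3} (hd : E.degree = 14) (h6 : h0 E = 6)
    (hplane : ∀ (N : Bundle K 2) (j : (Fin 2 → K) →ₗ[K] (Fin 3 → K)), IsSubbundle N E j →
      3 ≤ h0 N → N.degree = 7 ∧ h0 N = 3)
    (L : LineBundle K) (hL : L.degree = 7) (hL3 : l0 L = 3)
    (h2 : 2 ≤ h0 (btw (bdual E) L)) :
    ∃ (X : Bundle K 1) (j : (Fin 1 → K) →ₗ[K] (Fin 3 → K))
      (P : (Fin 3 → K) →ₗ[K] (Fin 2 → K)), IsQuot X E (lsum L 2) j P := by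
  have hg0 : genus K ≠ 0 := by omega
  have hfB := (rr hK hg0 (btw (bdual E) L)).1
  -- two independent homomorphisms
  obtain ⟨p, q, hp, hq, hli⟩ : ∃ p q : Fin 3 → K, p ∈ (btw (bdual E) L).sections ∧
      q ∈ (btw (bdual E) L).sections ∧ ∀ c d : ℂ, c • p + d • q = 0 → c = 0 ∧ d = 0 := by
    obtain ⟨f, hf⟩ := exists_linearIndependent_of_le_finrank
      (R := ℂ) (M := (btw (bdual E) L).sections) h2
    refine ⟨(f 0).1, (f 1).1, (f 0).2, (f 1).2, ?_⟩
    intro c d hcd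
    have h1 := Fintype.linearIndependent_iff.1 hf ![c, d] (by
      rw [Fin.sum_univ_two]
      exact Subtype.ext hcd)
    exact ⟨h1 0, h1 1⟩
  have hon := fun (ψ : Fin 3 → K) (h0' : ψ ≠ 0) (h1 : ψ ∈ (btw (bdual E) L).sections) =>
    onto hK hg0 hd h6 hplane L hL hL3 h0' h1
  have hmem : ∀ ψ ∈ (btw (bdual E) L).sections, ∀ u : Point K, ∀ s ∈ E.stalk u,
      u.val (∑ i, ψ i * s i) ≤ u.val (L.frame u : K) := by
    intro ψ hψ u s hs
    have h1 := (mem_bdual E u _).1 ((mem_btw _ L u ψ).1 (hψ u)) s hs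
    have h2 : ∑ i, ((L.frame u : K)⁻¹ • ψ) i * s i = (L.frame u : K)⁻¹ * ∑ i, ψ i * s i := by
      rw [Finset.mul_sum]
      exact Finset.sum_congr rfl fun i _ => by rw [Pi.smul_apply, smul_eq_mul, mul_assoc]
    rw [h2, map_mul, map_inv₀, ← div_eq_inv_mul, div_le_one₀ (frame_pos L u)] at h1
    exact h1
  obtain ⟨P, hP⟩ : ∃ P : (Fin 3 → K) →ₗ[K] (Fin 2 → K), ∀ s, P s = ![∑ i, p i * s i, ∑ i, q i * s i] :=
    ⟨LinearMap.pi ![∑ i, p i • LinearMap.proj i, ∑ i, q i • LinearMap.proj i], fun s => by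
      funext l
      fin_cases l <;> simp [LinearMap.sum_apply]⟩
  -- local surjectivity
  have hloc : ∀ v : Point K, ∃ s s' : Fin 3 → K, s ∈ E.stalk v ∧ s' ∈ E.stalk v ∧
      P s = ![(L.frame v : K), 0] ∧ P s' = ![0, (L.frame v : K)] := by
    intro v
    have hl0 : (L.frame v : K) ≠ 0 := (L.frame v).ne_zero
    have hpos := frame_pos L v
    have hp0 : p ≠ 0 := by
      intro h
      have := (hli 1 0 (by rw [h]; simp)).1
      exact one_ne_zero this
    obtain ⟨s1, hs1, hps1⟩ := hon p hp0 hp v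
    obtain ⟨b, hb⟩ : ∃ b : K, b = (∑ i, q i * s1 i) / (L.frame v : K) := ⟨_, rfl⟩
    have hb1 : v.val b ≤ 1 := by
      rw [hb, map_div₀, div_le_one₀ hpos]
      exact hmem q hq v s1 hs1
    have hqs1 : ∑ i, q i * s1 i = b * (L.frame v : K) := by
      rw [hb, div_mul_cancel₀ _ hl0]
    obtain ⟨β, hβ⟩ := exists_res hK v hb1
    have hψ0 : q - β • p ≠ 0 := by
      intro h
      have := (hli (-β) 1 (by rw [neg_smul, one_smul, neg_add_eq_sub, h])).2
      exact one_ne_zero this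
    have hψm : q - β • p ∈ (btw (bdual E) L).sections :=
      Submodule.sub_mem _ hq (Submodule.smul_mem _ β hp)
    obtain ⟨s2, hs2, hqs2⟩ := hon _ hψ0 hψm v
    have hqs2' : ∑ i, q i * s2 i = (L.frame v : K) + algebraMap ℂ K β * ∑ i, p i * s2 i := by
      rw [← hqs2, Finset.mul_sum, ← Finset.sum_add_distrib]
      refine Finset.sum_congr rfl fun i _ => ?_
      rw [Pi.sub_apply, Pi.smul_apply, Algebra.smul_def]
      ring
    obtain ⟨r, hr⟩ : ∃ r : K, r = (∑ i, p i * s2 i) / (L.frame v : K) := ⟨_, rfl⟩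
    have hr1 : v.val r ≤ 1 := by
      rw [hr, map_div₀, div_le_one₀ hpos]
      exact hmem p hp v s2 hs2
    have hps2 : ∑ i, p i * s2 i = r * (L.frame v : K) := by
      rw [hr, div_mul_cancel₀ _ hl0]
    obtain ⟨s3, hs3⟩ : ∃ s3 : Fin 3 → K, s3 = s2 - r • s1 := ⟨_, rfl⟩
    have hs3m : s3 ∈ E.stalk v := by
      rw [hs3]; exact stalk_sub hs2 (stalk_smul hs1 hr1)
    have hsum : ∀ (f g h : Fin 3 → K) (c : K), ∑ i, f i * (g - c • h) i =
        ∑ i, f i * g i - c * ∑ i, f i * h i := by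
      intro f g h c
      rw [Finset.mul_sum, ← Finset.sum_sub_distrib]
      refine Finset.sum_congr rfl fun i _ => ?_
      rw [Pi.sub_apply, Pi.smul_apply, smul_eq_mul]
      ring
    have hsum' : ∀ (f h : Fin 3 → K) (c : K), ∑ i, f i * (c • h) i = c * ∑ i, f i * h i := by
      intro f h c
      rw [Finset.mul_sum]
      refine Finset.sum_congr rfl fun i _ => ?_
      rw [Pi.smul_apply, smul_eq_mul]
      ring
    have hps3 : ∑ i, p i * s3 i = 0 := by
      rw [hs3, hsum, hps2, hps1, sub_self]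
    obtain ⟨u, hu⟩ : ∃ u : K, u = 1 + (algebraMap ℂ K β - b) * r := ⟨_, rfl⟩
    have hqs3 : ∑ i, q i * s3 i = u * (L.frame v : K) := by
      rw [hs3, hsum, hqs2', hps2, hqs1, hu]
      ring
    have hlt : v.val ((algebraMap ℂ K β - b) * r) < 1 := by
      rw [map_mul]
      have h3 : v.val (algebraMap ℂ K β - b) < 1 := by
        rw [← neg_sub, Valuation.map_neg]; exact hβ
      exact mul_lt_one_of_lt_of_le h3 hr1
    have hu1 : v.val u = 1 := by
      rw [hu]
      exact v.val.map_one_add_of_lt hlt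
    have hu0 : u ≠ 0 := by
      intro h
      rw [h, map_zero] at hu1
      exact zero_ne_one hu1
    have huinv : v.val u⁻¹ = 1 := by rw [map_inv₀, hu1, inv_one]
    refine ⟨s1 - (b * u⁻¹) • s3, u⁻¹ • s3, stalk_sub hs1 (stalk_smul hs3m ?_),
      stalk_smul hs3m huinv.le, ?_, ?_⟩
    · rw [map_mul, huinv, mul_one]; exact hb1
    · rw [hP, hsum, hsum, hps1, hps3, hqs1, hqs3]
      congr 1
      · ring
      · congr 1
        field_simp
        ring
    · rw [hP, hsum', hsum', hps3, hqs3, mul_zero, inv_mul_cancel_left₀ hu0]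
  have hfull : ∀ (v : Point K) (y : Fin 2 → K), ∃ s, P s = y ∧
      ((∀ l, v.val (y l) ≤ v.val (L.frame v : K)) → s ∈ E.stalk v) := by
    intro v y
    obtain ⟨s, s', hs, hs', hPs, hPs'⟩ := hloc v
    have hl0 : (L.frame v : K) ≠ 0 := (L.frame v).ne_zero
    have hpos := frame_pos L v
    refine ⟨(y 0 / (L.frame v : K)) • s + (y 1 / (L.frame v : K)) • s', ?_, ?_⟩
    · rw [map_add, map_smul, map_smul, hPs, hPs']
      funext l
      fin_cases l
      · simp [div_mul_cancel₀ _ hl0]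
      · simp [div_mul_cancel₀ _ hl0]
    · intro hy
      refine stalk_add (stalk_smul hs ?_) (stalk_smul hs' ?_)
      · rw [map_div₀, div_le_one₀ hpos]; exact hy 0
      · rw [map_div₀, div_le_one₀ hpos]; exact hy 1
  have hsurj : Function.Surjective P := by
    intro y
    have hinf := Pool.Agent.W525.BA.infinite_points hK
    obtain ⟨v⟩ : Nonempty (Point K) := inferInstance
    obtain ⟨s, hs, -⟩ := hfull v y
    exact ⟨s, hs⟩
  obtain ⟨X, j, hj, h3, h4⟩ := exists_ker_sub (m := 1) hK E P hsurj (by norm_num)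
  refine ⟨X, j, P, ⟨hj, hsurj, ?_, ?_⟩⟩
  · intro s
    refine ⟨h3 s, ?_⟩
    rintro ⟨x, rfl⟩
    exact h4 x
  · intro v y
    rw [mem_lsum_stalk]
    constructor
    · intro hy
      obtain ⟨s, hs, hs'⟩ := hfull v y
      exact ⟨s, hs' hy, hs⟩
    · rintro ⟨s, hs, rfl⟩ l
      rw [hP]
      fin_cases l
      · exact hmem p hp v s hs
      · exact hmem q hq v s hs

end Pool.Agent.TH558.J435
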