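import Pool.Agent.TH186.Rank3

/-!
# An extension of `L ⊕ L` by a line bundle without sections
-/

set_option autoImplicit false

open scoped WithZero Matrix
open Pool.Agent.Helper395.CS hiding genus
open Pool.Agent.Helper395.BC
open Pool.Agent.W525.BNK (mem_det_one det_one_degree)

namespace Pool.Agent.TH558.J436

open Pool.Agent.TH186

variable {K : Type} [Field K] [Algebra ℂ K]

theorem smul_eq (c : ℂ) {n : ℕ} (s : Fin n → K) : c • s = (algebraMap ℂ K c) • s := by
  rw [algebraMap_smul]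

/-- two independent sections are not proportional -/
theorem no_prop (hK : IsCurve K) (hg : genus K ≠ 0) {n : ℕ} {E : Bundle K n} (hE : NoLine E)
    {s s' : Fin n → K} (hs : s ∈ E.sections) (hs' : s' ∈ E.sections)
    (hli : LinearIndependent ℂ ![s, s']) {a : K} (h : s' = a • s) : False := by
  have hs0 : s ≠ 0 := hli.ne_zero (i := 0)
  obtain ⟨X, i, hX, -, h1⟩ := exists_sub_of_subspace hK hg E (Submodule.span K {s})
    (finrank_span_singleton hs0) (Submodule.span ℂ (Set.range ![s, s']))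
    (Submodule.span_le.2 (by
      rintro _ ⟨i, rfl⟩
      fin_cases i
      · exact hs
      · exact hs'))
    (by
      intro x hx
      have h2 : Submodule.span ℂ (Set.range ![s, s']) ≤
          (Submodule.span K {s}).restrictScalars ℂ := by
        rw [Submodule.span_le]
        rintro _ ⟨i, rfl⟩
        fin_cases i
        · exact Submodule.mem_span_singleton_self s
        · show s' ∈ Submodule.span K {s}
          rw [h]
          exact Submodule.smul_mem _ _ (Submodule.mem_span_singleton_self s)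
      exact h2 hx)
  have h2 := hE X i hX
  rw [finrank_span_eq_card hli, Fintype.card_fin] at h1
  omega

/-- the basic argument with the cross product -/
theorem core (hK : IsCurve K) (hg : genus K ≠ 0) {n : ℕ} {E : Bundle K n} (hE : NoLine E)
    {x0 x1 x2 m0 m1 m2 : K} {g0 g1 g2 t : Fin n → K} (hx : LinearIndependent ℂ ![x0, x1, x2])
    (hgl : LinearIndependent ℂ ![g0, g1, g2]) (h0' : g0 ∈ E.sections) (h1' : g1 ∈ E.sections)
    (h2' : g2 ∈ E.sections) (r0 : x1 • g2 - x2 • g1 = m0 • t) (r1 : x2 • g0 - x0 • g2 = m1 • t)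
    (r2 : x0 • g1 - x1 • g0 = m2 • t) {a b c : ℂ} (h : a • m0 + b • m1 + c • m2 = 0) : c = 0 := by
  by_contra hc
  have hx' : ∀ u v w : ℂ, u • x0 + v • x1 + w • x2 = 0 → u = 0 ∧ v = 0 ∧ w = 0 := by
    intro u v w huvw
    have h1 := Fintype.linearIndependent_iff.1 hx ![u, v, w] (by
      rw [Fin.sum_univ_three]
      exact huvw)
    exact ⟨h1 0, h1 1, h1 2⟩
  have hg' : ∀ u v w : ℂ, u • g0 + v • g1 + w • g2 = 0 → u = 0 ∧ v = 0 ∧ w = 0 := by
    intro u v w huvw
    have h1 := Fintype.linearIndependent_iff.1 hgl ![u, v, w] (by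
      rw [Fin.sum_univ_three]
      exact huvw)
    exact ⟨h1 0, h1 1, h1 2⟩
  have hne : c • x0 - a • x2 ≠ 0 := by
    intro h1
    exact hc (hx' c 0 (-a) (by rw [zero_smul, add_zero, neg_smul, ← sub_eq_add_neg, h1])).1
  have hkey : (c • x0 - a • x2) • (c • g1 - b • g2) = (c • x1 - b • x2) • (c • g0 - a • g2) := by
    funext i
    have e0 := congrFun r0 i
    have e1 := congrFun r1 i
    have e2 := congrFun r2 i
    simp only [Pi.sub_apply, Pi.smul_apply, smul_eq_mul] at e0 e1 e2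
    simp only [Pi.sub_apply, Pi.smul_apply, smul_eq_mul]
    simp only [Algebra.smul_def] at h ⊢
    linear_combination (algebraMap ℂ K c) ^ 2 * e2 + algebraMap ℂ K c * algebraMap ℂ K b * e1 +
      algebraMap ℂ K a * algebraMap ℂ K c * e0 + algebraMap ℂ K c * t i * h
  refine no_prop hK hg hE (s := c • g0 - a • g2) (s' := c • g1 - b • g2)
    (E.sections.sub_mem (E.sections.smul_mem c h0') (E.sections.smul_mem a h2'))
    (E.sections.sub_mem (E.sections.smul_mem c h1') (E.sections.smul_mem b h2')) ?_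
    (a := (c • x0 - a • x2)⁻¹ * (c • x1 - b • x2)) ?_
  · rw [LinearIndependent.pair_iff]
    intro u v huv
    have h1 := hg' (u * c) (v * c) (-(u * a) - v * b) (by
      rw [← huv, sub_smul, neg_smul, smul_sub, smul_sub, smul_smul, smul_smul, smul_smul, smul_smul]
      abel)
    exact ⟨(mul_eq_zero.1 h1.1).resolve_right hc, (mul_eq_zero.1 h1.2.1).resolve_right hc⟩
  · rw [mul_smul, ← hkey, smul_smul, inv_mul_cancel₀ hne, one_smul]

theorem li_rot {M : Type} [AddCommGroup M] [Module ℂ M] {a b c : M}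
    (h : LinearIndependent ℂ ![a, b, c]) : LinearIndependent ℂ ![b, c, a] := by
  rw [Fintype.linearIndependent_iff] at h ⊢
  intro u hu
  have h1 := h ![u 2, u 0, u 1] (by
    rw [Fin.sum_univ_three] at hu ⊢
    simp only [Matrix.cons_val_zero, Matrix.cons_val_one, Matrix.cons_val] at hu ⊢
    rw [← hu]; abel)
  intro i
  fin_cases i
  · exact h1 1
  · exact h1 2
  · exact h1 0

theorem core' (hK : IsCurve K) (hg : genus K ≠ 0) {n : ℕ} {E : Bundle K n} (hE : NoLine E)
    {x0 x1 x2 m0 m1 m2 : K} {g0 g1 g2 t : Fin n → K} (hx : LinearIndependent ℂ ![x0, x1, x2])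
    (hgl : LinearIndependent ℂ ![g0, g1, g2]) (h0' : g0 ∈ E.sections) (h1' : g1 ∈ E.sections)
    (h2' : g2 ∈ E.sections) (r0 : x1 • g2 - x2 • g1 = m0 • t) (r1 : x2 • g0 - x0 • g2 = m1 • t)
    (r2 : x0 • g1 - x1 • g0 = m2 • t) : LinearIndependent ℂ ![m0, m1, m2] := by
  rw [Fintype.linearIndependent_iff]
  intro u hu
  rw [Fin.sum_univ_three] at hu
  simp only [Matrix.cons_val_zero, Matrix.cons_val_one, Matrix.cons_val] at hu
  intro i
  fin_cases i
  · refine core hK hg hE (li_rot hx) (li_rot hgl) h1' h2' h0' r1 r2 r0 (a := u 1) (b := u 2) ?_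
    rw [← hu]; abel
  · refine core hK hg hE (li_rot (li_rot hx)) (li_rot (li_rot hgl)) h2' h0' h1' r2 r0 r1
      (a := u 2) (b := u 0) ?_
    rw [← hu]; abel
  · exact core hK hg hE hx hgl h0' h1' h2' r0 r1 r2 hu

/-- An extension of `L ⊕ L` by a line bundle without sections. -/
theorem case_zero {K : Type} [Field K] [Algebra ℂ K] (hK : IsCurve K) (hg : genus K ≠ 0)
    (L : LineBundle K) (hL : L.degree = 7) (hL3 : l0 L = 3)
    (hU : ∀ M : LineBundle K, M.degree = 7 → 3 ≤ l0 M →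
      Module.finrank ℂ ↥(H0 L * H0 M) ≤ 7 →
      ∃ c : Kˣ, ∀ v : Point K, v.val (M.frame v : K) = v.val (c : K) * v.val (L.frame v : K))
    (hLB3 : ∀ M : LineBundle K, M.degree = 7 → l0 M ≤ 3)
    {E : Bundle K 3} (hE : NoLine E) (hd : E.degree = 14) (h6 : h0 E = 6)
    {X : Bundle K 1} {j : (Fin 1 → K) →ₗ[K] (Fin 3 → K)} {P : (Fin 3 → K) →ₗ[K] (Fin 2 → K)}
    (hQ : IsQuot X E (lsum L 2) j P) (hX : h0 X = 0) : False := by
  have hfX := (rrL hK hg X.det).1
  have hfL := (rrL hK hg L).1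
  have hfE := (rr hK hg E).1
  -- the generator of the kernel
  obtain ⟨t, ht⟩ : ∃ t : Fin 3 → K, t = j (fun _ => 1) := ⟨_, rfl⟩
  have hjt : ∀ w : K, j (fun _ => w) = w • t := by
    intro w
    rw [ht, ← map_smul]
    congr 1
    funext i
    simp
  have ht0 : t ≠ 0 := by
    intro h
    rw [ht, map_eq_zero_iff j hQ.sub.injective] at h
    exact one_ne_zero (congrFun h 0)
  have hker : ∀ s, P s = 0 → ∃ w : K, s = w • t := by
    intro s hs
    obtain ⟨y, hy⟩ := (hQ.ker s).1 hs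
    refine ⟨y 0, ?_⟩
    rw [← hy, ← hjt]
    congr 1
    funext i
    rw [Subsingleton.elim i 0]
  have htst : ∀ (w : K) (v : Point K), w • t ∈ E.stalk v ↔ w ∈ X.det.stalk v := by
    intro w v
    rw [← hjt, ← hQ.sub.stalk, mem_det_one]
  have hX0 : l0 X.det = 0 := by rw [← h0_one]; exact hX
  have hH0X : ∀ w, w ∈ H0 X.det → w = 0 := by
    intro w hw
    have h1 : H0 X.det = ⊥ := Submodule.finrank_eq_zero.1 hX0
    rw [h1] at hw
    exact hw
  have hXd : X.det.degree = 0 := by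
    have h1 := hQ.degree hK
    rw [lsum_degree, hd, hL] at h1
    rw [det_one_degree]
    push_cast at h1
    linarith
  -- the map on sections
  let ψ : E.sections →ₗ[ℂ] (lsum L 2).sections :=
    { toFun := fun s => ⟨P s.1, fun v => (hQ.stalk v _).2 ⟨s.1, s.2 v, rfl⟩⟩
      map_add' := fun s t => Subtype.ext (map_add _ _ _)
      map_smul' := fun c s => Subtype.ext (by
        change P (c • s.1) = c • P s.1
        rw [← algebraMap_smul K c s.1, map_smul, algebraMap_smul]) }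
  have hψ : Function.Injective ψ := by
    rw [← LinearMap.ker_eq_bot, LinearMap.ker_eq_bot']
    intro s hs
    have h1 : P s.1 = 0 := congrArg Subtype.val hs
    obtain ⟨w, hw⟩ := hker _ h1
    have h2 : w = 0 := hH0X w (fun v => (htst w v).1 (hw ▸ s.2 v))
    apply Subtype.ext
    rw [hw, h2, zero_smul]
    rfl
  have hfS : FiniteDimensional ℂ (lsum L 2).sections := (secEquiv L 2).symm.finiteDimensional
  have hdim : Module.finrank ℂ (lsum L 2).sections = 6 := by
    rw [(secEquiv L 2).finrank_eq, Module.finrank_pi_fintype, Fin.sum_univ_two]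
    change l0 L + l0 L = 6
    omega
  have hψs : Function.Surjective ψ := by
    rwa [← LinearMap.injective_iff_surjective_of_finrank_eq_finrank (by rw [hdim]; exact h6)]
  have hlift : ∀ u : Fin 2 → K, u 0 ∈ H0 L → u 1 ∈ H0 L → ∃ s ∈ E.sections, P s = u := by
    intro u hu0 hu1
    obtain ⟨s, hs⟩ := hψs ⟨u, fun v => (mem_lsum_stalk L v u).2 (fun i => by
      fin_cases i
      · exact hu0 v
      · exact hu1 v)⟩
    exact ⟨s.1, s.2, congrArg Subtype.val hs⟩
  -- a basis of `H0 L`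
  obtain ⟨b, -⟩ : ∃ b : Module.Basis (Fin 3) ℂ (H0 L), True :=
    ⟨Module.finBasisOfFinrankEq ℂ (H0 L) hL3, trivial⟩
  obtain ⟨x, hxd⟩ : ∃ x : Fin 3 → K, ∀ i, x i = (b i : K) := ⟨_, fun _ => rfl⟩
  have hxL : ∀ i, x i ∈ H0 L := fun i => by rw [hxd]; exact (b i).2
  have hxli : LinearIndependent ℂ x := by
    have h1 : x = (H0 L).subtype ∘ b := by funext i; exact hxd i
    rw [h1]
    exact b.linearIndependent.map' _ (H0 L).ker_subtype
  have hx3 : LinearIndependent ℂ ![x 0, x 1, x 2] := by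
    have h1 : ![x 0, x 1, x 2] = x := by
      funext i
      fin_cases i <;> rfl
    rw [h1]; exact hxli
  choose e heE heP using fun i : Fin 3 => hlift ![x i, 0] (hxL i) (H0 L).zero_mem
  choose f hfE' hfP using fun i : Fin 3 => hlift ![0, x i] (H0 L).zero_mem (hxL i)
  have hrel : ∀ g : Fin 3 → Fin 3 → K, ∀ (y : Fin 2 → ℂ), (∀ i, P (g i) = fun k => y k • x i) →
      ∀ i k, ∃ m : K, x i • g k - x k • g i = m • t := by
    intro g y hg' i k
    apply hker
    rw [map_sub, map_smul, map_smul, hg', hg']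
    funext l
    simp only [Pi.sub_apply, Pi.smul_apply, smul_eq_mul, Pi.zero_apply]
    simp only [Algebra.smul_def]
    ring
  have heP' : ∀ i, P (e i) = fun k => (![1, 0] : Fin 2 → ℂ) k • x i := by
    intro i
    rw [heP]
    funext k
    fin_cases k <;> simp
  have hfP' : ∀ i, P (f i) = fun k => (![0, 1] : Fin 2 → ℂ) k • x i := by
    intro i
    rw [hfP]
    funext k
    fin_cases k <;> simp
  obtain ⟨m0, hm0⟩ := hrel e _ heP' 1 2
  obtain ⟨m1, hm1⟩ := hrel e _ heP' 2 0
  obtain ⟨m2, hm2⟩ := hrel e _ heP' 0 1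
  obtain ⟨n0, hn0⟩ := hrel f _ hfP' 1 2
  obtain ⟨n1, hn1⟩ := hrel f _ hfP' 2 0
  obtain ⟨n2, hn2⟩ := hrel f _ hfP' 0 1
  -- independence of lifts
  have hli : ∀ g : Fin 3 → Fin 3 → K, ∀ (y : Fin 2 → ℂ), (∀ i, P (g i) = fun k => y k • x i) →
      y ≠ 0 → LinearIndependent ℂ ![g 0, g 1, g 2] := by
    intro g y hg' hy
    obtain ⟨k, hk⟩ : ∃ k, y k ≠ 0 := by
      by_contra hcon
      push Not at hcon
      exact hy (funext hcon)
    rw [Fintype.linearIndependent_iff]
    intro u hu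
    have h1 := congrArg P hu
    rw [map_zero, map_sum] at h1
    have h2 := congrFun h1 k
    rw [Fin.sum_univ_three] at h2
    simp only [Matrix.cons_val_zero, Matrix.cons_val_one, Matrix.cons_val, smul_eq, map_smul,
      hg', Pi.add_apply, Pi.smul_apply, Pi.zero_apply, smul_eq_mul] at h2
    simp only [Algebra.smul_def] at h2
    have h3 : algebraMap ℂ K (y k) ≠ 0 := by
      rw [Ne, map_eq_zero_iff _ (algebraMap ℂ K).injective]; exact hk
    have h4 : u 0 • x 0 + u 1 • x 1 + u 2 • x 2 = 0 := by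
      apply mul_left_cancel₀ h3
      simp only [Algebra.smul_def]
      linear_combination h2
    exact Fintype.linearIndependent_iff.1 hx3 u (by
      rw [Fin.sum_univ_three]; exact h4)
  have heli := hli e _ heP' (by
    intro h
    have := congrFun h 0
    simp at this)
  have hmli : LinearIndependent ℂ ![m0, m1, m2] :=
    core' hK hg hE hx3 heli (heE 0) (heE 1) (heE 2) hm0 hm1 hm2
  -- the line bundle `M`
  obtain ⟨M, hM⟩ : ∃ M : LineBundle K, M = lmul X.det L := ⟨_, rfl⟩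
  have hMd : M.degree = 7 := by rw [hM, lmul_degree, hXd, hL]; norm_num
  have hfM := (rrL hK hg M).1
  have hmem : ∀ (i k : Fin 3) (g g' : Fin 3 → K) (m : K), g ∈ E.sections → g' ∈ E.sections →
      x i • g - x k • g' = m • t → m ∈ H0 M := by
    intro i k g g' m hgs hgs' hm v
    rw [hM, mem_lmul]
    have hl0 : (L.frame v : K) ≠ 0 := (L.frame v).ne_zero
    have hpos := frame_pos L v
    have h1 : ∀ i, v.val ((L.frame v : K)⁻¹ * x i) ≤ 1 := by
      intro i
      rw [map_mul, map_inv₀, ← div_eq_inv_mul, div_le_one₀ hpos]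
      exact hxL i v
    have h2 : ((L.frame v : K)⁻¹ * m) • t ∈ E.stalk v := by
      rw [mul_smul, ← hm, smul_sub, smul_smul, smul_smul]
      exact stalk_sub (stalk_smul (hgs v) (h1 i)) (stalk_smul (hgs' v) (h1 k))
    rw [htst] at h2
    have h3 : v.val ((L.frame v : K)⁻¹ * m) ≤ v.val (X.det.frame v : K) := h2
    rw [map_mul, map_inv₀, ← div_eq_inv_mul, div_le_iff₀ hpos] at h3
    exact h3
  have hm0M := hmem 1 2 _ _ m0 (heE 2) (heE 1) hm0
  have hm1M := hmem 2 0 _ _ m1 (heE 0) (heE 2) hm1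
  have hm2M := hmem 0 1 _ _ m2 (heE 1) (heE 0) hm2
  have hn0M := hmem 1 2 _ _ n0 (hfE' 2) (hfE' 1) hn0
  have hn1M := hmem 2 0 _ _ n1 (hfE' 0) (hfE' 2) hn1
  have hn2M := hmem 0 1 _ _ n2 (hfE' 1) (hfE' 0) hn2
  have hM3 : 3 ≤ l0 M := by
    have h1 : LinearIndependent ℂ ![(⟨m0, hm0M⟩ : H0 M), ⟨m1, hm1M⟩, ⟨m2, hm2M⟩] := by
      apply LinearIndependent.of_comp (H0 M).subtype
      have h2 : ((H0 M).subtype ∘ ![(⟨m0, hm0M⟩ : H0 M), ⟨m1, hm1M⟩, ⟨m2, hm2M⟩]) =
          ![m0, m1, m2] := by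
        funext i
        fin_cases i <;> rfl
      rw [h2]; exact hmli
    have := h1.fintype_card_le_finrank
    simpa using this
  -- the relations
  have hrelm : ∀ (g : Fin 3 → Fin 3 → K) (a0 a1 a2 : K), x 1 • g 2 - x 2 • g 1 = a0 • t →
      x 2 • g 0 - x 0 • g 2 = a1 • t → x 0 • g 1 - x 1 • g 0 = a2 • t →
      x 0 * a0 + x 1 * a1 + x 2 * a2 = 0 := by
    intro g a0 a1 a2 h1 h2 h3
    obtain ⟨l, hl⟩ : ∃ l, t l ≠ 0 := by
      by_contra hcon
      push Not at hcon
      exact ht0 (funext hcon)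
    have e1 := congrFun h1 l
    have e2 := congrFun h2 l
    have e3 := congrFun h3 l
    simp only [Pi.sub_apply, Pi.smul_apply, smul_eq_mul] at e1 e2 e3
    apply mul_right_cancel₀ hl
    linear_combination -(x 0) * e1 - x 1 * e2 - x 2 * e3
  let Φ : (Fin 3 → H0 M) →ₗ[ℂ] K :=
    ∑ i : Fin 3, (LinearMap.mulLeft ℂ (x i)) ∘ₗ (H0 M).subtype ∘ₗ (LinearMap.proj i)
  have hΦ : ∀ w : Fin 3 → H0 M, Φ w = x 0 * (w 0 : K) + x 1 * (w 1 : K) + x 2 * (w 2 : K) := by
    intro w
    simp only [Φ, Fin.sum_univ_three]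
    rfl
  have hrange : H0 L * H0 M ≤ LinearMap.range Φ := by
    rw [Submodule.mul_le]
    intro a ha w hw
    have h1 := b.sum_repr ⟨a, ha⟩
    have h2 : a = ∑ i, b.repr ⟨a, ha⟩ i • x i := by
      have h3 : ((∑ i, b.repr ⟨a, ha⟩ i • b i : H0 L) : K) = a := congrArg Subtype.val h1
      calc a = ((∑ i, b.repr ⟨a, ha⟩ i • b i : H0 L) : K) := h3.symm
        _ = ∑ i, b.repr ⟨a, ha⟩ i • x i := by
            rw [AddSubmonoidClass.coe_finsetSum]
            exact Finset.sum_congr rfl fun i _ => by rw [hxd]; rfl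
    refine ⟨fun i => b.repr ⟨a, ha⟩ i • ⟨w, hw⟩, ?_⟩
    rw [hΦ]
    conv_rhs => rw [h2, Fin.sum_univ_three]
    simp only [Submodule.coe_smul, Algebra.smul_def]
    ring
  have hkerΦ : 2 ≤ Module.finrank ℂ (LinearMap.ker Φ) := by
    obtain ⟨k1, hk1⟩ : ∃ k1 : LinearMap.ker Φ, (k1 : Fin 3 → H0 M) =
        ![⟨m0, hm0M⟩, ⟨m1, hm1M⟩, ⟨m2, hm2M⟩] :=
      ⟨⟨![⟨m0, hm0M⟩, ⟨m1, hm1M⟩, ⟨m2, hm2M⟩], by
        rw [LinearMap.mem_ker, hΦ]
        exact hrelm e m0 m1 m2 hm0 hm1 hm2⟩, rfl⟩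
    obtain ⟨k2, hk2⟩ : ∃ k2 : LinearMap.ker Φ, (k2 : Fin 3 → H0 M) =
        ![⟨n0, hn0M⟩, ⟨n1, hn1M⟩, ⟨n2, hn2M⟩] :=
      ⟨⟨![⟨n0, hn0M⟩, ⟨n1, hn1M⟩, ⟨n2, hn2M⟩], by
        rw [LinearMap.mem_ker, hΦ]
        exact hrelm f n0 n1 n2 hn0 hn1 hn2⟩, rfl⟩
    have h1' : ∀ c1 c2 : ℂ, c1 • k1 + c2 • k2 = 0 → c1 = 0 ∧ c2 = 0 := by
      intro c1 c2 hc
      by_contra hne
      have h2 : c1 • (k1 : Fin 3 → H0 M) + c2 • (k2 : Fin 3 → H0 M) = 0 :=
        congrArg Subtype.val hc
      rw [hk1, hk2] at h2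
      have h30 : c1 • m0 + c2 • n0 = 0 := congrArg Subtype.val (congrFun h2 0)
      have h31 : c1 • m1 + c2 • n1 = 0 := congrArg Subtype.val (congrFun h2 1)
      have h32 : c1 • m2 + c2 • n2 = 0 := congrArg Subtype.val (congrFun h2 2)
      have hgP : ∀ i, P (c1 • e i + c2 • f i) = fun k => (![c1, c2] : Fin 2 → ℂ) k • x i := by
        intro i
        rw [smul_eq, smul_eq, map_add, map_smul, map_smul, heP, hfP]
        funext k
        fin_cases k <;> simp [Algebra.smul_def]
      have h4 := hli (fun i => c1 • e i + c2 • f i) ![c1, c2] hgP (by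
        intro h
        apply hne
        exact ⟨congrFun h 0, congrFun h 1⟩)
      have hz : ∀ (i k : Fin 3) (a a' : K), x i • e k - x k • e i = a • t →
          x i • f k - x k • f i = a' • t → c1 • a + c2 • a' = 0 →
          x i • (c1 • e k + c2 • f k) - x k • (c1 • e i + c2 • f i) = (0 : K) • t := by
        intro i k a a' h5 h6 h7
        funext l
        have e5 := congrFun h5 l
        have e6 := congrFun h6 l
        simp only [Pi.sub_apply, Pi.add_apply, Pi.smul_apply, smul_eq_mul] at e5 e6 ⊢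
        simp only [Algebra.smul_def] at h7 ⊢
        linear_combination algebraMap ℂ K c1 * e5 + algebraMap ℂ K c2 * e6 + t l * h7
      have h5 := core hK hg hE hx3 h4
        (E.sections.add_mem (E.sections.smul_mem c1 (heE 0)) (E.sections.smul_mem c2 (hfE' 0)))
        (E.sections.add_mem (E.sections.smul_mem c1 (heE 1)) (E.sections.smul_mem c2 (hfE' 1)))
        (E.sections.add_mem (E.sections.smul_mem c1 (heE 2)) (E.sections.smul_mem c2 (hfE' 2)))
        (hz 1 2 _ _ hm0 hn0 h30) (hz 2 0 _ _ hm1 hn1 h31) (hz 0 1 _ _ hm2 hn2 h32)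
        (a := 0) (b := 0) (c := 1) (by simp)
      exact one_ne_zero h5
    have h1 : LinearIndependent ℂ ![(k1 : Fin 3 → H0 M), (k2 : Fin 3 → H0 M)] := by
      rw [LinearIndependent.pair_iff]
      intro c1 c2 hc
      exact h1' c1 c2 (Subtype.ext hc)
    have h2 : Submodule.span ℂ (Set.range ![(k1 : Fin 3 → H0 M), (k2 : Fin 3 → H0 M)]) ≤
        LinearMap.ker Φ := by
      rw [Submodule.span_le]
      rintro _ ⟨i, rfl⟩
      fin_cases i
      · exact k1.2
      · exact k2.2
    have h3 := Submodule.finrank_mono h2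
    rw [finrank_span_eq_card h1, Fintype.card_fin] at h3
    exact h3
  have hle7 : Module.finrank ℂ ↥(H0 L * H0 M) ≤ 7 := by
    have h1 := Submodule.finrank_mono hrange
    have h2 := Φ.finrank_range_add_finrank_ker
    have h3 : Module.finrank ℂ (Fin 3 → H0 M) = 3 * l0 M := by
      rw [Module.finrank_pi_fintype, Fin.sum_univ_three]
      ring
    have h4 := hLB3 M hMd
    rw [h3] at h2
    omega
  obtain ⟨c, hc⟩ := hU M hMd hM3 hle7
  have h1 : (c : K) ∈ H0 X.det := by
    intro v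
    have h2 := hc v
    have h3 : v.val (M.frame v : K) = v.val (X.det.frame v : K) * v.val (L.frame v : K) := by
      rw [hM]
      change v.val ((X.det.frame v * L.frame v : Kˣ) : K) = _
      rw [Units.val_mul, map_mul]
    rw [h3] at h2
    have h4 := mul_right_cancel₀ (frame_pos L v).ne' h2
    exact h4.ge
  exact c.ne_zero (hH0X _ h1)

end Pool.Agent.TH558.J436
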