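import Pool.Agent.TH186.Rank3

/-!
# An extension of `L ⊕ L` by a line bundle with a section
-/

set_option autoImplicit false

open scoped WithZero Matrix
open Pool.Agent.Helper395.CS hiding genus
open Pool.Agent.Helper395.BC
open Pool.Agent.W525.BNK (mem_det_one det_one_degree)
open Pool.Agent.W525.BA (h0_lsub)

namespace Pool.Agent.TH558.J437

open Pool.Agent.TH186

variable {K : Type} [Field K] [Algebra ℂ K]

/-- An extension of `L ⊕ L` by a line bundle with a section. -/
theorem case_one {K : Type} [Field K] [Algebra ℂ K] (hPR : PRProp) (hK : IsCurve K)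
    (hg : genus K ≠ 0) (L : LineBundle K) (hL : L.degree = 7) (hL3 : l0 L = 3)
    (hL2 : ∀ v : Point K, l0 (lsub L v) ≤ 2)
    {E : Bundle K 3} (hE : NoLine E) (hd : E.degree = 14) (h6 : h0 E = 6)
    (hplane : ∀ (N : Bundle K 2) (j : (Fin 2 → K) →ₗ[K] (Fin 3 → K)), IsSubbundle N E j →
      3 ≤ h0 N → N.degree = 7 ∧ h0 N = 3)
    {X : Bundle K 1} {j : (Fin 1 → K) →ₗ[K] (Fin 3 → K)} {P : (Fin 3 → K) →ₗ[K] (Fin 2 → K)}
    (hQ : IsQuot X E (lsum L 2) j P) (hX : h0 X = 1) : False := by
  have hfX := (rr hK hg X).1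
  have hfL := (rrL hK hg L).1
  have hfE := (rr hK hg E).1
  have hXd : X.det.degree = 0 := by
    have h1 := hQ.degree hK
    rw [lsum_degree, hd, hL] at h1
    rw [det_one_degree]
    push_cast at h1
    linarith
  -- the section of `X`
  obtain ⟨x0, hx0, hx0n⟩ : ∃ x0 ∈ X.sections, x0 ≠ 0 := by
    by_contra hcon
    push Not at hcon
    have h1 : X.sections = ⊥ := by
      rw [eq_bot_iff]
      intro s hs
      exact hcon s hs
    have h2 : h0 X = 0 := by
      unfold h0
      rw [h1, finrank_bot]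
    omega
  have hx00 : x0 0 ≠ 0 := by
    intro h
    apply hx0n
    funext i
    rw [Subsingleton.elim i 0, h]
    rfl
  have hval : ∀ v : Point K, v.val (X.det.frame v : K) = v.val (x0 0) := by
    intro v
    have h1 := lstalk_eq_of_degree_eq hK (L := lprin hK (Units.mk0 _ hx00)) (M := X.det)
      (fun v s hs => by
        have h2 : v.val s ≤ v.val (x0 0) := hs
        exact h2.trans ((mem_det_one X v x0).1 (hx0 v))) (by rw [lprin_degree, hXd]) v
    refine le_antisymm ?_ ((mem_det_one X v x0).1 (hx0 v))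
    have h3 : (X.det.frame v : K) ∈ X.det.stalk v := by
      change v.val _ ≤ v.val _
      exact le_refl _
    rw [← h1] at h3
    exact h3
  obtain ⟨t, ht⟩ : ∃ t : Fin 3 → K, t = j x0 := ⟨_, rfl⟩
  have htE : t ∈ E.sections := fun v => by rw [ht]; exact (hQ.sub.stalk v _).1 (hx0 v)
  have ht0 : t ≠ 0 := by
    intro h
    rw [ht, map_eq_zero_iff j hQ.sub.injective] at h
    exact hx0n h
  have htP : P t = 0 := (hQ.ker t).2 ⟨x0, ht.symm⟩
  have hker : ∀ s, P s = 0 → ∃ w : K, s = w • t := by
    intro s hs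
    obtain ⟨y, hy⟩ := (hQ.ker s).1 hs
    refine ⟨y 0 * (x0 0)⁻¹, ?_⟩
    rw [← hy, ht, ← map_smul]
    congr 1
    funext i
    rw [Subsingleton.elim i 0, Pi.smul_apply, smul_eq_mul, inv_mul_cancel_right₀ hx00]
  have htst : ∀ (w : K) (v : Point K), w • t ∈ E.stalk v ↔ v.val w ≤ 1 := by
    intro w v
    have hpos : 0 < v.val (x0 0) := zero_lt_iff.2 (v.val_ne_zero hx00)
    rw [ht, ← map_smul, ← hQ.sub.stalk, mem_det_one]
    change v.val (w * x0 0) ≤ v.val (X.det.frame v : K) ↔ _
    rw [hval, map_mul]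
    exact mul_le_iff_le_one_left hpos
  -- the map on sections
  let ψ : E.sections →ₗ[ℂ] (Fin 2 → H0 L) :=
    { toFun := fun s i => ⟨P s.1 i, fun v =>
        (mem_lsum_stalk L v _).1 ((hQ.stalk v _).2 ⟨s.1, s.2 v, rfl⟩) i⟩
      map_add' := fun s t => by
        funext i
        apply Subtype.ext
        change P (s.1 + t.1) i = P s.1 i + P t.1 i
        rw [map_add]; rfl
      map_smul' := fun c s => by
        funext i
        apply Subtype.ext
        change P (c • s.1) i = c • P s.1 i
        rw [← algebraMap_smul K c s.1, map_smul, Pi.smul_apply, algebraMap_smul] }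
  have hψ : ∀ s i, (ψ s i : K) = P s.1 i := fun s i => rfl
  have hψker : ∀ s, ψ s = 0 ↔ P s.1 = 0 := by
    intro s
    constructor
    · intro h
      funext i
      rw [← hψ, h]; rfl
    · intro h
      funext i
      apply Subtype.ext
      rw [hψ, h]; rfl
  have hdimV : Module.finrank ℂ (Fin 2 → H0 L) = 6 := by
    rw [Module.finrank_pi_fintype, Fin.sum_univ_two]
    change l0 L + l0 L = 6
    omega
  have hk1 : Module.finrank ℂ (LinearMap.ker ψ) ≤ 1 := by
    let jS : X.sections →ₗ[ℂ] E.sections :=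
      { toFun := fun s => ⟨j s.1, fun v => (hQ.sub.stalk v _).1 (s.2 v)⟩
        map_add' := fun s t => Subtype.ext (map_add _ _ _)
        map_smul' := fun c s => Subtype.ext (by
          change j (c • s.1) = c • j s.1
          rw [← algebraMap_smul K c s.1, map_smul, algebraMap_smul]) }
    have h1 : LinearMap.ker ψ ≤ LinearMap.range jS := by
      intro s hs
      rw [LinearMap.mem_ker, hψker] at hs
      obtain ⟨y, hy⟩ := (hQ.ker s.1).1 hs
      refine ⟨⟨y, fun v => (hQ.sub.stalk v y).2 (by rw [hy]; exact s.2 v)⟩, Subtype.ext hy⟩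
    have h2 := Submodule.finrank_mono h1
    have h3 := LinearMap.finrank_range_le jS
    have h4 : Module.finrank ℂ X.sections = 1 := hX
    omega
  have hk2 : 1 ≤ Module.finrank ℂ (LinearMap.ker ψ) := by
    rw [Nat.one_le_iff_ne_zero]
    intro h
    have h1 := Submodule.finrank_eq_zero.1 h
    have h2 : (⟨t, htE⟩ : E.sections) ∈ LinearMap.ker ψ := by
      rw [LinearMap.mem_ker, hψker]; exact htP
    rw [h1, Submodule.mem_bot] at h2
    exact ht0 (congrArg Subtype.val h2)
  have hrn := ψ.finrank_range_add_finrank_ker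
  have hE6 : Module.finrank ℂ E.sections = 6 := h6
  have hr5 : Module.finrank ℂ (LinearMap.range ψ) = 5 := by omega
  -- the functional
  obtain ⟨φ, hφ⟩ : ∃ φ : (Fin 2 → H0 L) →ₗ[ℂ] ℂ, LinearMap.ker φ = LinearMap.range ψ := by
    have hlt : LinearMap.range ψ < ⊤ := by
      rw [lt_top_iff_ne_top]
      intro h
      rw [h, finrank_top, hdimV] at hr5
      omega
    obtain ⟨φ, hφ0, hφ⟩ := Submodule.exists_le_ker_of_lt_top _ hlt
    refine ⟨φ, (Submodule.eq_of_le_of_finrank_eq hφ ?_).symm⟩
    have h1 := φ.finrank_range_add_finrank_ker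
    have h2 : Module.finrank ℂ (LinearMap.range φ) = 1 := by
      have h3 : LinearMap.range φ = ⊤ := by
        rw [LinearMap.range_eq_top]
        exact LinearMap.surjective_of_ne_zero hφ0
      rw [h3, finrank_top, Module.finrank_self]
    rw [h2, hdimV] at h1
    omega
  -- the functionals `w c`
  let w : (Fin 2 → ℂ) → (H0 L →ₗ[ℂ] ℂ) := fun c =>
    φ ∘ₗ LinearMap.pi fun i => c i • (LinearMap.id : H0 L →ₗ[ℂ] H0 L)
  have hw : ∀ c a, w c a = φ (fun i => c i • a) := fun c a => rfl
  have hw2 : ∀ c a, w c a = c 0 * φ ![a, 0] + c 1 * φ ![0, a] := by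
    intro c a
    rw [hw]
    have h1 : (fun i => c i • a) = c 0 • ![a, 0] + c 1 • ![0, a] := by
      funext i
      fin_cases i <;> simp
    rw [h1, map_add, map_smul, map_smul, smul_eq_mul, smul_eq_mul]
  -- the subbundles `N c`
  have hN : ∀ c : Fin 2 → ℂ, c ≠ 0 → ∃ (N : Bundle K 2) (i : (Fin 2 → K) →ₗ[K] (Fin 3 → K)),
      IsSubbundle N E i ∧ (∀ y ∈ N.sections, ∃ h : y 0 ∈ H0 L, w c ⟨y 0, h⟩ = 0) ∧
      (∀ v, ∀ y ∈ N.stalk v, ∀ y' ∈ N.stalk v, ∀ r : K, r ≠ 0 →
        v.val (y 0) ≤ v.val r → v.val (y' 0) ≤ v.val r → v.val (y 0 * y' 1 - y 1 * y' 0) ≤ v.val r) ∧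
      1 + Module.finrank ℂ (LinearMap.ker (w c)) ≤ h0 N := by
    intro c hc
    obtain ⟨s1, hs1⟩ := hQ.surj (fun i => algebraMap ℂ K (c i))
    obtain ⟨k, hk⟩ : ∃ k, c k ≠ 0 := by
      by_contra hcon
      push Not at hcon
      exact hc (funext hcon)
    have hk' : algebraMap ℂ K (c k) ≠ 0 := by
      rw [Ne, map_eq_zero_iff _ (algebraMap ℂ K).injective]; exact hk
    obtain ⟨i, hi⟩ : ∃ i : (Fin 2 → K) →ₗ[K] (Fin 3 → K), ∀ y, i y = y 0 • s1 + y 1 • t :=
      ⟨(LinearMap.proj 0).smulRight s1 + (LinearMap.proj 1).smulRight t, fun y => rfl⟩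
    have hPi : ∀ y, P (i y) = fun l => y 0 * algebraMap ℂ K (c l) := by
      intro y
      rw [hi, map_add, map_smul, map_smul, htP, hs1, smul_zero, add_zero]
      rfl
    have hinj : Function.Injective i := by
      rw [← LinearMap.ker_eq_bot, LinearMap.ker_eq_bot']
      intro y hy
      have h1 := congrFun (hPi y) k
      rw [hy, map_zero, Pi.zero_apply] at h1
      have h2 : y 0 = 0 := (mul_eq_zero.1 h1.symm).resolve_right hk'
      rw [hi, h2, zero_smul, zero_add] at hy
      have h3 : y 1 = 0 := (smul_eq_zero.1 hy).resolve_right ht0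
      funext l
      fin_cases l
      · exact h2
      · exact h3
    obtain ⟨N, hN⟩ := exists_sub hK E i hinj
    have hfN := (rr hK hg N).1
    have hy0 : ∀ y ∈ N.sections, y 0 ∈ H0 L := by
      intro y hy v
      have h1 := (mem_lsum_stalk L v _).1 ((hQ.stalk v _).2 ⟨i y, (hN.stalk v y).1 (hy v), rfl⟩) k
      rw [hPi] at h1
      have h2 : v.val (y 0 * algebraMap ℂ K (c k)) ≤ v.val (L.frame v : K) := h1
      rw [map_mul, v.const _ hk, mul_one] at h2
      exact h2
    refine ⟨N, i, hN, ?_, ?_, ?_⟩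
    · intro y hy
      refine ⟨hy0 y hy, ?_⟩
      rw [hw, ← LinearMap.mem_ker, hφ]
      refine ⟨⟨i y, fun v => (hN.stalk v y).1 (hy v)⟩, ?_⟩
      funext l
      apply Subtype.ext
      rw [hψ]
      change P (i y) l = c l • y 0
      rw [hPi, Algebra.smul_def, mul_comm]
    · intro v y hy y' hy' r hr hyr hyr'
      have hr0 : 0 < v.val r := zero_lt_iff.2 (v.val_ne_zero hr)
      have h1 : ∀ z : K, v.val z ≤ v.val r → v.val (r⁻¹ * z) ≤ 1 := by
        intro z hz
        rw [map_mul, map_inv₀, ← div_eq_inv_mul, div_le_one₀ hr0]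
        exact hz
      have h2 : (r⁻¹ * (y 0 * y' 1 - y 1 * y' 0)) • t ∈ E.stalk v := by
        have h3 : (r⁻¹ * (y 0 * y' 1 - y 1 * y' 0)) • t =
            (r⁻¹ * y 0) • i y' - (r⁻¹ * y' 0) • i y := by
          rw [hi, hi]
          funext l
          simp only [Pi.sub_apply, Pi.add_apply, Pi.smul_apply, smul_eq_mul]
          ring
        rw [h3]
        exact stalk_sub (stalk_smul ((hN.stalk v y').1 hy') (h1 _ hyr))
          (stalk_smul ((hN.stalk v y).1 hy) (h1 _ hyr'))
      rw [htst, map_mul, map_inv₀, ← div_eq_inv_mul, div_le_one₀ hr0] at h2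
      exact h2
    · -- the first coordinate
      let ρ : N.sections →ₗ[ℂ] H0 L :=
        { toFun := fun y => ⟨y.1 0, hy0 y.1 y.2⟩
          map_add' := fun y y' => rfl
          map_smul' := fun c y => rfl }
      have hρ : LinearMap.ker (w c) ≤ LinearMap.range ρ := by
        intro a ha
        rw [LinearMap.mem_ker, hw, ← LinearMap.mem_ker, hφ] at ha
        obtain ⟨s, hs⟩ := ha
        have h1 : ∀ l, P s.1 l = c l • (a : K) := by
          intro l
          rw [← hψ, hs]; rfl
        have h2 : P (s.1 - (a : K) • s1) = 0 := by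
          rw [map_sub, map_smul, hs1]
          funext l
          rw [Pi.sub_apply, h1, Pi.smul_apply, Pi.zero_apply, smul_eq_mul, Algebra.smul_def]
          ring
        obtain ⟨τ, hτ⟩ := hker _ h2
        have h3 : i ![(a : K), τ] = s.1 := by
          rw [hi]
          change (a : K) • s1 + τ • t = s.1
          rw [← hτ]; abel
        refine ⟨⟨![(a : K), τ], fun v => (hN.stalk v _).2 (by rw [h3]; exact s.2 v)⟩, ?_⟩
        exact Subtype.ext rfl
      have h1 := Submodule.finrank_mono hρ
      have h2 := ρ.finrank_range_add_finrank_ker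
      have h3 : 1 ≤ Module.finrank ℂ (LinearMap.ker ρ) := by
        rw [Nat.one_le_iff_ne_zero]
        intro h
        have h4 := Submodule.finrank_eq_zero.1 h
        have h5 : i ![0, 1] = t := by
          rw [hi]
          change (0 : K) • s1 + (1 : K) • t = t
          rw [zero_smul, zero_add, one_smul]
        have h6 : (⟨![0, 1], fun v => (hN.stalk v _).2 (by rw [h5]; exact htE v)⟩ : N.sections) ∈
            LinearMap.ker ρ := by
          rw [LinearMap.mem_ker]
          exact Subtype.ext rfl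
        rw [h4, Submodule.mem_bot] at h6
        have h7 := congrFun (congrArg Subtype.val h6) 1
        exact one_ne_zero h7
      unfold h0
      omega
  -- dimensions of the kernels
  have hL3' : Module.finrank ℂ (H0 L) = 3 := hL3
  have hker2 : ∀ c : Fin 2 → ℂ, c ≠ 0 → Module.finrank ℂ (LinearMap.ker (w c)) = 2 := by
    intro c hc
    obtain ⟨N, i, hN1, -, -, hN4⟩ := hN c hc
    have h1 := (w c).finrank_range_add_finrank_ker
    have h2 : Module.finrank ℂ (LinearMap.range (w c)) ≤ 1 := by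
      have := Submodule.finrank_le (LinearMap.range (w c))
      rwa [Module.finrank_self] at this
    have h3 := hplane N i hN1 (by omega)
    omega
  -- the section `z0`
  obtain ⟨z0, hz0, hz1, hz2⟩ : ∃ z0 : H0 L, z0 ≠ 0 ∧ φ ![z0, 0] = 0 ∧ φ ![0, z0] = 0 := by
    have h1 := hker2 ![1, 0] (by intro h; have := congrFun h 0; simp at this)
    have h2 := hker2 ![0, 1] (by intro h; have := congrFun h 1; simp at this)
    have h3 := Submodule.finrank_sup_add_finrank_inf_eq (LinearMap.ker (w ![1, 0]))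
      (LinearMap.ker (w ![0, 1]))
    have h4 := Submodule.finrank_le (LinearMap.ker (w ![1, 0]) ⊔ LinearMap.ker (w ![0, 1]))
    have h5 : LinearMap.ker (w ![1, 0]) ⊓ LinearMap.ker (w ![0, 1]) ≠ ⊥ := by
      intro h
      rw [h, finrank_bot] at h3
      omega
    obtain ⟨z, hz, hz0⟩ := Submodule.exists_mem_ne_zero_of_ne_bot h5
    obtain ⟨h6, h7⟩ := Submodule.mem_inf.1 hz
    rw [LinearMap.mem_ker, hw2] at h6 h7
    refine ⟨z, hz0, ?_, ?_⟩
    · simpa using h6
    · simpa using h7
  have hz0' : (z0 : K) ≠ 0 := fun h => hz0 (Subtype.ext h)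
  -- a zero of `z0`
  obtain ⟨v, hv⟩ : ∃ v : Point K, v.val (z0 : K) < v.val (L.frame v : K) := by
    by_contra hcon
    push Not at hcon
    have h1 := ldegree_le hK (L := L) (M := lprin hK (Units.mk0 _ hz0')) (fun v s hs => by
      have h2 : v.val s ≤ v.val (L.frame v : K) := hs
      exact h2.trans (hcon v))
    rw [lprin_degree, hL] at h1
    omega
  have hsubL : H0 (lsub L v) ≤ H0 L := by
    apply H0_mono
    intro u s hs
    rcases eq_or_ne u v with rfl | hu
    · rw [mem_lsub_self] at hs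
      exact hs.le
    · rwa [mem_lsub_ne L hu] at hs
  have hfLv := (rrL hK hg (lsub L v)).1
  have hLv : Module.finrank ℂ (H0 (lsub L v)) = 2 := by
    have h1 := h0_lsub hK hg L v
    have h2 : Module.finrank ℂ (H0 (lsub L v)) ≤ 2 := hL2 v
    omega
  have hz0v : (z0 : K) ∈ H0 (lsub L v) := by
    intro u
    rcases eq_or_ne u v with rfl | hu
    · rw [mem_lsub_self]; exact hv
    · rw [mem_lsub_ne L hu]; exact z0.2 u
  -- `V_v` as a subspace of `H0 L`
  obtain ⟨Vv, hVv⟩ : ∃ Vv : Submodule ℂ (H0 L), ∀ a, a ∈ Vv ↔ (a : K) ∈ H0 (lsub L v) :=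
    ⟨(H0 (lsub L v)).comap (H0 L).subtype, fun a => Iff.rfl⟩
  have hVv2 : Module.finrank ℂ Vv = 2 := by
    rw [← hLv]
    let e : Vv ≃ₗ[ℂ] H0 (lsub L v) :=
      { toFun := fun a => ⟨a.1.1, (hVv a.1).1 a.2⟩
        invFun := fun a => ⟨⟨a.1, hsubL a.2⟩, (hVv _).2 a.2⟩
        left_inv := fun a => rfl
        right_inv := fun a => rfl
        map_add' := fun a b => rfl
        map_smul' := fun c a => rfl }
    exact e.finrank_eq
  obtain ⟨y, hy, hyz⟩ : ∃ y ∈ Vv, y ∉ Submodule.span ℂ {z0} := by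
    by_contra hcon
    push Not at hcon
    have h1 := Submodule.finrank_mono (show Vv ≤ Submodule.span ℂ {z0} from hcon)
    rw [hVv2, finrank_span_singleton hz0] at h1
    omega
  have hspan : ∀ a ∈ Vv, ∃ p q : ℂ, a = p • z0 + q • y := by
    have h1 : Submodule.span ℂ {z0, y} ≤ Vv := by
      rw [Submodule.span_le]
      rintro a (rfl | rfl)
      · exact (hVv _).2 hz0v
      · exact hy
    have h2 : LinearIndependent ℂ ![z0, y] := by
      rw [LinearIndependent.pair_iff]
      intro p q hpq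
      have hq : q = 0 := by
        by_contra hq
        apply hyz
        rw [Submodule.mem_span_singleton]
        refine ⟨-(q⁻¹ * p), ?_⟩
        have h3 : q • y = -(p • z0) := by
          rw [eq_neg_iff_add_eq_zero, add_comm]; exact hpq
        have h4 : y = q⁻¹ • (q • y) := by rw [smul_smul, inv_mul_cancel₀ hq, one_smul]
        rw [h4, h3, smul_neg, smul_smul, neg_smul]
      rw [hq, zero_smul, add_zero] at hpq
      exact ⟨(smul_eq_zero.1 hpq).resolve_right hz0, hq⟩
    have h3 : Module.finrank ℂ (Submodule.span ℂ {z0, y}) = 2 := by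
      have h4 := finrank_span_eq_card h2
      rw [Matrix.range_cons, Matrix.range_cons, Matrix.range_empty, Set.union_empty,
        Set.singleton_union, Fintype.card_fin] at h4
      exact h4
    have h4 := Submodule.eq_of_le_of_finrank_eq h1 (by rw [h3, hVv2])
    intro a ha
    rw [← h4, Submodule.mem_span_pair] at ha
    obtain ⟨p, q, hpq⟩ := ha
    exact ⟨p, q, hpq.symm⟩
  -- choice of `c`
  obtain ⟨c, hc, hcy⟩ : ∃ c : Fin 2 → ℂ, c ≠ 0 ∧ w c y = 0 := by
    by_cases h : φ ![0, y] = 0 ∧ φ ![y, 0] = 0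
    · refine ⟨![1, 0], ?_, ?_⟩
      · intro h'; have := congrFun h' 0; simp at this
      · rw [hw2]; simp [h.2]
    · refine ⟨![φ ![0, y], -φ ![y, 0]], ?_, ?_⟩
      · intro h'
        apply h
        have h1 := congrFun h' 0
        have h2 := congrFun h' 1
        simp at h1 h2
        exact ⟨h1, h2⟩
      · rw [hw2]
        simp only [Matrix.cons_val_zero, Matrix.cons_val_one]
        ring
  have hcz : w c z0 = 0 := by rw [hw2, hz1, hz2]; ring
  have hVw : Vv = LinearMap.ker (w c) := by
    apply Submodule.eq_of_le_of_finrank_eq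
    · intro a ha
      obtain ⟨p, q, rfl⟩ := hspan a ha
      rw [LinearMap.mem_ker, map_add, map_smul, map_smul, hcz, hcy, smul_zero, smul_zero, add_zero]
    · rw [hVv2, hker2 c hc]
  -- the contradiction
  obtain ⟨N, i, hN1, hN2, hN3, hN4⟩ := hN c hc
  rw [hker2 c hc] at hN4
  obtain ⟨-, hN5⟩ := hplane N i hN1 (by omega)
  have hfN := (rr hK hg N).1
  have hN5' : Module.finrank ℂ N.sections = 3 := hN5
  have hlast := hPR K 2 (by norm_num) N.sections (by omega) (H0 (lsub L v)) (by
    intro s hs u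
    have h1 : ∀ l, u.val (s l 0) ≤ u.val ((lsub L v).frame u : K) := by
      intro l
      obtain ⟨h2, h3⟩ := hN2 (s l) (hs l)
      rw [← LinearMap.mem_ker, ← hVw, hVv] at h3
      exact h3 u
    have h2 := hN3 u (s 0) (hs 0 u) (s 1) (hs 1 u) _ ((lsub L v).frame u).ne_zero (h1 0) (h1 1)
    change u.val _ ≤ _
    rw [Matrix.det_fin_two]
    simp only [Matrix.of_apply]
    exact h2)
    (fun s hs hli => det_ne_zero_two hK hg (hE.sub hN1) s hs hli)
  rw [hLv, hN5'] at hlast
  omega

end Pool.Agent.TH558.J437
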