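import Mathlib
import Pool.Agent.TH974.IH.Box

set_option autoImplicit false

open Finset MeasureTheory ProbabilityTheory Filter Topology
open scoped ENNReal NNReal

namespace Pool.Agent.TH558.IH

open Pool.Agent.TH974.IH

theorem dv_image {V W : Type*} [DecidableEq V] [DecidableEq W] {adj : V → V → Prop} {S : Set V}
    {E : Finset (V × V)} {R : Type*} [CommRing R] (hN : Nw adj S E) (f : V → W)
    (hf : Set.InjOn f S) (u : W → R) (x : V) (hx : x ∈ S) :
    dv (E.image (Prod.map f f)) u (f x) = dv E (u ∘ f) x := by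
  unfold dv
  rw [Finset.sum_image]
  · apply Finset.sum_congr rfl
    intro e he
    have h1 : f e.1 = f x ↔ e.1 = x := ⟨fun h => hf (hN.mem e he).1 hx h, fun h => by rw [h]⟩
    have h2 : f e.2 = f x ↔ e.2 = x := ⟨fun h => hf (hN.mem e he).2 hx h, fun h => by rw [h]⟩
    simp only [Prod.map_fst, Prod.map_snd, h1, h2, Function.comp_apply]
  · intro e he e' he' h
    have h3 := congrArg Prod.fst h
    have h4 := congrArg Prod.snd h
    simp only [Prod.map_fst, Prod.map_snd] at h3 h4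
    exact Prod.ext (hf (hN.mem e he).1 (hN.mem e' he').1 h3)
      (hf (hN.mem e he).2 (hN.mem e' he').2 h4)

theorem Nw_map {V W : Type*} [DecidableEq V] [DecidableEq W] {adj : V → V → Prop}
    {adj' : W → W → Prop} {S : Set V} {E : Finset (V × V)} (f : V → W)
    (hN : Nw adj S E) (hf : Set.InjOn f S)
    (hadj : ∀ x ∈ S, ∀ y ∈ S, adj x y → adj' (f x) (f y)) :
    Nw adj' (f '' S) (E.image (Prod.map f f)) := by
  refine ⟨?_, ?_, ?_⟩
  · intro e he
    obtain ⟨e', he', rfl⟩ := Finset.mem_image.1 he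
    exact ⟨⟨e'.1, (hN.mem e' he').1, rfl⟩, ⟨e'.2, (hN.mem e' he').2, rfl⟩⟩
  · intro e he
    obtain ⟨e', he', rfl⟩ := Finset.mem_image.1 he
    exact hadj _ (hN.mem e' he').1 _ (hN.mem e' he').2 (hN.adj e' he')
  · intro x y h1 h2
    obtain ⟨e, he, h3⟩ := Finset.mem_image.1 h1
    obtain ⟨e', he', h4⟩ := Finset.mem_image.1 h2
    have a1 : f e.1 = x := congrArg Prod.fst h3
    have a2 : f e.2 = y := congrArg Prod.snd h3
    have a3 : f e'.1 = y := congrArg Prod.fst h4
    have a4 : f e'.2 = x := congrArg Prod.snd h4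
    have b1 : e'.1 = e.2 := hf (hN.mem e' he').1 (hN.mem e he).2 (a3.trans a2.symm)
    have b2 : e'.2 = e.1 := hf (hN.mem e' he').2 (hN.mem e he).1 (a4.trans a1.symm)
    have h5 : (e.2, e.1) ∈ E := by
      have : e' = (e.2, e.1) := Prod.ext b1 b2
      rwa [this] at he'
    exact hN.anti e.1 e.2 he h5

theorem OP_map {V W : Type*} [DecidableEq V] [DecidableEq W] {adj : V → V → Prop}
    {adj' : W → W → Prop} {S : Set V} {E : Finset (V × V)} {a b : V} {r : ℚ} (f : V → W)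
    (h : OP adj S E a b r) (hf : Set.InjOn f S)
    (hadj : ∀ x ∈ S, ∀ y ∈ S, adj x y → adj' (f x) (f y)) :
    OP adj' (f '' S) (E.image (Prod.map f f)) (f a) (f b) r := by
  obtain ⟨hN, ha, hb, hab, h⟩ := h
  refine ⟨Nw_map f hN hf hadj, ⟨a, ha, rfl⟩, ⟨b, hb, rfl⟩, fun h' => hab (hf ha hb h'), ?_⟩
  intro u hu
  rw [dv_image hN f hf u a ha, dv_image hN f hf u b hb]
  refine h (u ∘ f) ?_
  intro x hx hxa hxb
  rw [← dv_image hN f hf u x hx]
  exact hu (f x) ⟨x, hx, rfl⟩ (fun h' => hxa (hf hx ha h')) (fun h' => hxb (hf hx hb h'))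

theorem GD_map {V W : Type*} [DecidableEq V] [DecidableEq W] {adj : V → V → Prop}
    {adj' : W → W → Prop} {S : Set V} {E : Finset (V × V)} {a b : V} {r : ℚ} {q : ℕ} (f : V → W)
    (h : GD adj S E a b r q) (hf : Set.InjOn f S)
    (hadj : ∀ x ∈ S, ∀ y ∈ S, adj x y → adj' (f x) (f y)) :
    GD adj' (f '' S) (E.image (Prod.map f f)) (f a) (f b) r q := by
  obtain ⟨hO, h⟩ := h
  refine ⟨OP_map f hO hf hadj, ?_⟩
  obtain ⟨hN, ha, hb, hab, -⟩ := hO
  intro u hu
  rw [dv_image hN f hf u a ha]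
  refine h (u ∘ f) ?_
  intro x hx hxa hxb
  rw [← dv_image hN f hf u x hx]
  exact hu (f x) ⟨x, hx, rfl⟩ (fun h' => hxa (hf hx ha h')) (fun h' => hxb (hf hx hb h'))

end Pool.Agent.TH558.IH
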