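import Mathlib
import Pool.Agent.TH974.IH.Box

set_option autoImplicit false

open Finset MeasureTheory ProbabilityTheory Filter Topology
open scoped ENNReal NNReal

namespace Pool.Agent.TH558.IH

open Pool.Agent.TH974.IH

/-! ### the parameters -/

def rn (j : ℕ) : ℕ := 8 * c0 / (4 + j)
def sg2 (j j' : ℕ) : ℕ := 4 * c0 * (4 + 2 * j - j') / ((4 + j) * (4 + j'))
def b1 (j : ℕ) : ℕ := c0 * (4 + 2 * j) / (4 + j) - c0 / 2
def s2 (j : ℕ) : ℕ := c0 * (4 + j) / 8
def t0 (j : ℕ) : ℕ := c0 * (4 + j) / (12 + j)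
def t2 (j j' : ℕ) : ℕ := c0 * (4 + j) * (4 + j') / (4 * (4 + 2 * j - j'))
def b2 (j : ℕ) : ℕ := c0 * (4 + j) / (4 + 2 * j)

def L1 : ℕ → List ℕ → List (ℕ × ℕ)
  | j, [] => [(c0 / 2, rn j)]
  | j, j' :: js => (sg2 j j', rn j) :: L1 j' js

def be1 : ℕ → List ℕ → ℕ
  | j, [] => b1 j
  | _, j' :: js => be1 j' js

def L2 : ℕ → List ℕ → List (ℕ × ℕ)
  | _, [] => []
  | j, j' :: js => (s2 j', t2 j j') :: L2 j' js

def be2 : ℕ → List ℕ → ℕ
  | j, [] => b2 j
  | _, j' :: js => be2 j' js

def MV : List ℕ → ℕ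
  | [] => 2
  | j :: js => (4 + j) * 4 ^ js.length + MV js

theorem rn_cast (j : ℕ) (hj : j ≤ 3) : (rn j : ℚ) = c0 * (8 / (4 + j)) := by
  unfold rn c0; interval_cases j <;> norm_num

theorem sg2_cast (j j' : ℕ) (hj : j ≤ 3) (hj' : j' ≤ 3) :
    (sg2 j j' : ℚ) = c0 * (4 * (2 * (4 + j) - (4 + j')) / ((4 + j) * (4 + j'))) := by
  unfold sg2 c0; interval_cases j <;> interval_cases j' <;> norm_num

theorem b1_cast (j : ℕ) (hj : j ≤ 3) :
    (b1 j : ℚ) = c0 * ((4 + 2 * j) / (4 + j) - 1 / 2) := by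
  unfold b1 c0; interval_cases j <;> norm_num

theorem s2_cast (j : ℕ) (hj : j ≤ 3) : (s2 j : ℚ) = c0 * ((4 + j) / 8) := by
  unfold s2 c0; interval_cases j <;> norm_num

theorem t0_cast (j : ℕ) (hj : j ≤ 3) : (t0 j : ℚ) = c0 * ((4 + j) / (8 + (4 + j))) := by
  unfold t0 c0; interval_cases j <;> norm_num

theorem t2_cast (j j' : ℕ) (hj : j ≤ 3) (hj' : j' ≤ 3) :
    (t2 j j' : ℚ) = c0 * ((4 + j) * (4 + j') / (4 * (2 * (4 + j) - (4 + j')))) := by
  unfold t2 c0; interval_cases j <;> interval_cases j' <;> norm_num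

theorem b2_cast (j : ℕ) (hj : j ≤ 3) : (b2 j : ℚ) = c0 * ((4 + j) / (4 + 2 * j)) := by
  unfold b2 c0; interval_cases j <;> norm_num

theorem okS_rn (j : ℕ) (hj : j ≤ 3) : P0.okS (rn j) := by
  unfold rn c0 Par.okS P0; interval_cases j <;> norm_num [Nat.even_iff]

theorem okS_sg2 (j j' : ℕ) (hj : j ≤ 3) (hj' : j' ≤ 3) : P0.okS (sg2 j j') := by
  unfold sg2 c0 Par.okS P0; interval_cases j <;> interval_cases j' <;> norm_num [Nat.even_iff]

theorem okS_half : P0.okS (c0 / 2) := by
  unfold c0 Par.okS P0; norm_num [Nat.even_iff]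

theorem okS_s2 (j : ℕ) (hj : j ≤ 3) : P0.okS (s2 j) := by
  unfold s2 c0 Par.okS P0; interval_cases j <;> norm_num [Nat.even_iff]

theorem okT_c0 : P0.okT c0 := by
  unfold c0 Par.okT P0; norm_num [Nat.even_iff]

theorem okT_rn (j : ℕ) (hj : j ≤ 3) : P0.okT (rn j) := by
  unfold rn c0 Par.okT P0; interval_cases j <;> norm_num [Nat.even_iff]

theorem okT_b1 (j : ℕ) (hj : j ≤ 3) : P0.okT (b1 j) := by
  unfold b1 c0 Par.okT P0; interval_cases j <;> norm_num [Nat.even_iff]

theorem okT_t0 (j : ℕ) (hj : j ≤ 3) : P0.okT (t0 j) := by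
  unfold t0 c0 Par.okT P0; interval_cases j <;> norm_num [Nat.even_iff]

theorem okT_t2 (j j' : ℕ) (hj : j ≤ 3) (hj' : j' ≤ 3) : P0.okT (t2 j j') := by
  unfold t2 c0 Par.okT P0; interval_cases j <;> interval_cases j' <;> norm_num [Nat.even_iff]

theorem okT_b2 (j : ℕ) (hj : j ≤ 3) : P0.okT (b2 j) := by
  unfold b2 c0 Par.okT P0; interval_cases j <;> norm_num [Nat.even_iff]

theorem MV_pos (js : List ℕ) : 0 < MV js := by
  cases js with
  | nil => exact Nat.zero_lt_two
  | cons j js =>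
    unfold MV
    have : 0 < 4 ^ js.length := by positivity
    nlinarith [Nat.zero_le (MV js), Nat.zero_le j]

theorem MV_lt (js : List ℕ) (h : ∀ j ∈ js, j ≤ 3) : MV js < 4 * 4 ^ js.length := by
  induction js with
  | nil => simp [MV]
  | cons j js ih =>
    have h1 := ih (fun i hi => h i (List.mem_cons_of_mem _ hi))
    have h2 := h j List.mem_cons_self
    unfold MV
    rw [List.length_cons, pow_succ]
    have : (4 + j) * 4 ^ js.length ≤ 7 * 4 ^ js.length := Nat.mul_le_mul_right _ (by omega)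
    omega

theorem lad1 (js : List ℕ) : ∀ j : ℕ, j ≤ 3 → (∀ i ∈ js, i ≤ 3) →
    lad (L1 j js) (be1 j js) = c0 * (8 * ((4 + j) * 4 ^ js.length - MV js) /
      ((4 + j) * ((4 + j) * 4 ^ js.length + MV js))) := by
  have hc : (c0 : ℚ) ≠ 0 := by unfold c0; norm_num
  induction js with
  | nil =>
    intro j hj _
    simp only [L1, be1, lad, par, MV, List.length_nil, pow_zero]
    rw [rn_cast j hj, b1_cast j hj]
    have e : ((c0 / 2 : ℕ) : ℚ) = c0 / 2 := by unfold c0; norm_num
    rw [e]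
    unfold c0
    interval_cases j <;> norm_num
  | cons j' js ih =>
    intro j hj h
    have hj' := h j' List.mem_cons_self
    have hM := MV_pos js
    have h3 := ih j' hj' (fun i hi => h i (List.mem_cons_of_mem _ hi))
    simp only [L1, be1, lad, MV, List.length_cons]
    rw [h3, rn_cast j hj, sg2_cast j j' hj hj']
    have hA : (0 : ℚ) < 4 + j := by positivity
    have hB : (0 : ℚ) < 4 + j' := by positivity
    have hP : (0 : ℚ) < 4 ^ js.length := by positivity
    have hM' : (0 : ℚ) < MV js := by exact_mod_cast hM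
    push_cast
    rw [pow_succ]
    set A : ℚ := 4 + j
    set B : ℚ := 4 + j'
    set P : ℚ := 4 ^ js.length
    set M : ℚ := ((MV js : ℕ) : ℚ)
    set c : ℚ := ((c0 : ℕ) : ℚ)
    have hN : 0 < B * P + M := by positivity
    have hy : c * (4 * (2 * A - B) / (A * B)) + c * (8 * (B * P - M) / (B * (B * P + M))) =
        c * (4 * (4 * P * A - (B * P + M)) / (A * (B * P + M))) := by
      field_simp
      ring
    rw [hy]
    unfold par
    have hs : c * (8 / A) + c * (4 * (4 * P * A - (B * P + M)) / (A * (B * P + M))) =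
        c * (4 * (4 * P * A + (B * P + M)) / (A * (B * P + M))) := by
      field_simp
      ring
    rw [hs]
    have hD : 0 < 4 * P * A + (B * P + M) := by positivity
    have e1 : A * (P * 4) + (B * P + M) = 4 * P * A + (B * P + M) := by ring
    have e2 : A * (P * 4) - (B * P + M) = 4 * P * A - (B * P + M) := by ring
    rw [e1, e2]
    field_simp
    try ring

theorem lad2 (js : List ℕ) : ∀ j : ℕ, j ≤ 3 → (∀ i ∈ js, i ≤ 3) →
    lad (L2 j js) (be2 j js) = c0 * ((4 + j) * MV js / (4 * ((4 + j) * 4 ^ js.length - MV js))) := by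
  have hc : (c0 : ℚ) ≠ 0 := by unfold c0; norm_num
  induction js with
  | nil =>
    intro j hj _
    simp only [L2, be2, lad, MV, List.length_nil, pow_zero]
    rw [b2_cast j hj]
    unfold c0
    interval_cases j <;> norm_num
  | cons j' js ih =>
    intro j hj h
    have hj' := h j' List.mem_cons_self
    have hM := MV_pos js
    have hMl := MV_lt js (fun i hi => h i (List.mem_cons_of_mem _ hi))
    have hMl2 := MV_lt (j' :: js) h
    have h3 := ih j' hj' (fun i hi => h i (List.mem_cons_of_mem _ hi))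
    simp only [L2, be2, lad, MV, List.length_cons] at hMl2 ⊢
    rw [h3, s2_cast j' hj', t2_cast j j' hj hj']
    have hA : (4 : ℚ) ≤ 4 + j := by
      have : (0 : ℚ) ≤ j := by positivity
      linarith
    have hB : (4 : ℚ) ≤ 4 + j' := by
      have : (0 : ℚ) ≤ j' := by positivity
      linarith
    have hB7 : (4 + j' : ℚ) ≤ 7 := by
      have : (j' : ℚ) ≤ 3 := by exact_mod_cast hj'
      linarith
    have hP : (0 : ℚ) < 4 ^ js.length := by positivity
    have hM' : (0 : ℚ) < MV js := by exact_mod_cast hM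
    have hM2 : (MV js : ℚ) < 4 * 4 ^ js.length := by exact_mod_cast hMl
    have hM3 : ((4 + j') * 4 ^ js.length + MV js : ℚ) < 4 * 4 ^ (js.length + 1) := by
      exact_mod_cast hMl2
    push_cast
    rw [pow_succ] at hM3 ⊢
    set A : ℚ := 4 + j
    set B : ℚ := 4 + j'
    set P : ℚ := 4 ^ js.length
    set M : ℚ := ((MV js : ℕ) : ℚ)
    set c : ℚ := ((c0 : ℕ) : ℚ)
    have hA0 : 0 < A := by linarith
    have hB0 : 0 < B := by linarith
    have h2AB : 0 < 2 * A - B := by linarith
    have hN : 0 < B * P + M := by positivity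
    have hBM : 0 < B * P - M := by nlinarith
    have hD : 0 < 4 * P * A - (B * P + M) := by nlinarith
    have hn1 : 2 * A - B ≠ 0 := h2AB.ne'
    have hn2 : B * P - M ≠ 0 := hBM.ne'
    have hn3 : 4 * P * A - (B * P + M) ≠ 0 := hD.ne'
    have hy : c * (B / 8) + c * (B * M / (4 * (B * P - M))) =
        c * (B * (B * P + M) / (8 * (B * P - M))) := by
      field_simp
      ring
    rw [hy]
    unfold par
    have hs : c * (A * B / (4 * (2 * A - B))) + c * (B * (B * P + M) / (8 * (B * P - M))) =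
        c * (B * B * (4 * P * A - (B * P + M)) / (8 * (2 * A - B) * (B * P - M))) := by
      obtain ⟨X1, hX1⟩ : ∃ X, X = 2 * A - B := ⟨_, rfl⟩
      obtain ⟨X2, hX2⟩ : ∃ X, X = B * P - M := ⟨_, rfl⟩
      rw [← hX1] at hn1
      rw [← hX2] at hn2
      rw [← hX1, ← hX2]
      field_simp
      rw [hX1, hX2]
      ring
    rw [hs]
    have e2 : A * (P * 4) - (B * P + M) = 4 * P * A - (B * P + M) := by ring
    rw [e2]
    generalize 4 * P * A - (B * P + M) = X3 at hn3 ⊢
    generalize 2 * A - B = X1 at hn1 ⊢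
    generalize B * P - M = X2 at hn2 ⊢
    field_simp
    try ring

theorem ok1 (js : List ℕ) : ∀ j : ℕ, j ≤ 3 → (∀ i ∈ js, i ≤ 3) →
    (∀ c ∈ L1 j js, P0.okS c.1 ∧ P0.okT c.2) ∧ P0.okT (be1 j js) ∧
      (L1 j js).length = js.length + 1 := by
  induction js with
  | nil =>
    intro j hj _
    refine ⟨?_, okT_b1 j hj, rfl⟩
    intro c hc
    simp only [L1, List.mem_singleton] at hc
    subst hc
    exact ⟨okS_half, okT_rn j hj⟩
  | cons j' js ih =>
    intro j hj h
    have hj' := h j' List.mem_cons_self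
    obtain ⟨h1, h2, h3⟩ := ih j' hj' (fun i hi => h i (List.mem_cons_of_mem _ hi))
    refine ⟨?_, h2, by simp only [L1, List.length_cons, h3]⟩
    intro c hc
    simp only [L1, List.mem_cons] at hc
    rcases hc with rfl | hc
    · exact ⟨okS_sg2 j j' hj hj', okT_rn j hj⟩
    · exact h1 c hc

theorem ok2 (js : List ℕ) : ∀ j : ℕ, j ≤ 3 → (∀ i ∈ js, i ≤ 3) →
    (∀ c ∈ L2 j js, P0.okS c.1 ∧ P0.okT c.2) ∧ P0.okT (be2 j js) ∧
      (L2 j js).length = js.length := by
  induction js with
  | nil =>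
    intro j hj _
    refine ⟨?_, okT_b2 j hj, rfl⟩
    intro c hc
    simp [L2] at hc
  | cons j' js ih =>
    intro j hj h
    have hj' := h j' List.mem_cons_self
    obtain ⟨h1, h2, h3⟩ := ih j' hj' (fun i hi => h i (List.mem_cons_of_mem _ hi))
    refine ⟨?_, h2, by simp only [L2, List.length_cons, h3]⟩
    intro c hc
    simp only [L2, List.mem_cons] at hc
    rcases hc with rfl | hc
    · exact ⟨okS_s2 j' hj', okT_t2 j j' hj hj'⟩
    · exact h1 c hc

/-- the smallest value -/
def M0 : ℕ → ℕ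
  | 0 => 2
  | n + 1 => 4 * 4 ^ n + M0 n

theorem exists_digits (n : ℕ) : ∀ r < 4 ^ n, ∃ js : List ℕ, js.length = n ∧ (∀ j ∈ js, j ≤ 3) ∧
    MV js = M0 n + r := by
  induction n with
  | zero =>
    intro r hr
    have : r = 0 := by simpa using hr
    subst this
    exact ⟨[], rfl, by simp, rfl⟩
  | succ n ih =>
    intro r hr
    have hp : 0 < 4 ^ n := by positivity
    obtain ⟨js, h1, h2, h3⟩ := ih (r % 4 ^ n) (Nat.mod_lt _ hp)
    refine ⟨r / 4 ^ n :: js, by rw [List.length_cons, h1], ?_, ?_⟩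
    · intro j hj
      rw [List.mem_cons] at hj
      rcases hj with rfl | hj
      · have : r / 4 ^ n < 4 := by
          rw [Nat.div_lt_iff_lt_mul hp]
          rw [pow_succ, mul_comm] at hr
          exact hr
        omega
      · exact h2 j hj
    · simp only [MV, M0]
      rw [h1, h3]
      have := Nat.div_add_mod r (4 ^ n)
      nlinarith

theorem digits (n : ℕ) (hn : 1 ≤ n) (q : ℕ) (hq : q.Prime) (h1 : c0 < q) (h2 : q ≤ 4 ^ n) :
    ∃ (l₁ l₂ : List (ℕ × ℕ)) (β₁ β₂ : ℕ), l₁.length = n + 1 ∧ l₂.length = n ∧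
      (∀ c ∈ l₁, P0.okS c.1 ∧ P0.okT c.2) ∧ (∀ c ∈ l₂, P0.okS c.1 ∧ P0.okT c.2) ∧
      P0.okT β₁ ∧ P0.okT β₂ ∧ lad l₁ β₁ + lad l₂ β₂ = c0 ∧ 0 < lad l₁ β₁ ∧ 0 < lad l₂ β₂ ∧
      ∃ A D : ℕ, lad l₁ β₁ * D = A ∧ q ∣ D ∧ ¬ q ∣ A := by
  have hq0 : 0 < q := hq.pos
  -- choice of the digits
  obtain ⟨r, hr, hrd⟩ : ∃ r < 4 ^ n, q ∣ 4 ^ (n + 1) + (M0 n + r) := by
    refine ⟨(q - (4 ^ (n + 1) + M0 n) % q) % q, (Nat.mod_lt _ hq0).trans_le h2, ?_⟩
    have hlt := Nat.mod_lt (4 ^ (n + 1) + M0 n) hq0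
    have h3 := Nat.div_add_mod (4 ^ (n + 1) + M0 n) q
    by_cases h0 : (4 ^ (n + 1) + M0 n) % q = 0
    · rw [h0, Nat.sub_zero, Nat.mod_self, add_zero]
      exact Nat.dvd_of_mod_eq_zero h0
    · rw [Nat.mod_eq_of_lt (by omega)]
      refine ⟨(4 ^ (n + 1) + M0 n) / q + 1, ?_⟩
      rw [mul_add, mul_one]
      omega
  obtain ⟨js, hl, hd, hM⟩ := exists_digits n r hr
  cases js with
  | nil =>
    rw [List.length_nil] at hl
    omega
  | cons j js =>
    have hj := hd j List.mem_cons_self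
    have hd' : ∀ i ∈ js, i ≤ 3 := fun i hi => hd i (List.mem_cons_of_mem _ hi)
    rw [List.length_cons] at hl
    obtain ⟨a1, a2, a3⟩ := ok1 js j hj hd'
    obtain ⟨a4, a5, a6⟩ := ok2 js j hj hd'
    have hcq : (c0 : ℚ) ≠ 0 := by unfold c0; norm_num
    have hcp : (0 : ℚ) < c0 := by unfold c0; norm_num
    have hMp := MV_pos js
    have hMl := MV_lt js hd'
    have hM' : (0 : ℚ) < MV js := by exact_mod_cast hMp
    have hM2 : (MV js : ℚ) < 4 * 4 ^ js.length := by exact_mod_cast hMl
    have hP : (0 : ℚ) < 4 ^ js.length := by positivity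
    have hA : (4 : ℚ) ≤ 4 + j := by
      have : (0 : ℚ) ≤ j := by positivity
      linarith
    have e1 : lad ((rn j, c0) :: L1 j js) (be1 j js) =
        c0 * (16 * 4 ^ js.length / (16 * 4 ^ js.length + ((4 + j) * 4 ^ js.length + MV js))) := by
      rw [lad, lad1 js j hj hd', rn_cast j hj]
      set A : ℚ := 4 + j
      set P : ℚ := 4 ^ js.length
      set M : ℚ := ((MV js : ℕ) : ℚ)
      set c : ℚ := ((c0 : ℕ) : ℚ)
      have hA0 : 0 < A := by linarith
      have hN : 0 < A * P + M := by positivity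
      have hy : c * (8 / A) + c * (8 * (A * P - M) / (A * (A * P + M))) =
          c * (16 * P / (A * P + M)) := by
        field_simp
        ring
      rw [hy]
      unfold par
      have hs : c + c * (16 * P / (A * P + M)) = c * ((16 * P + (A * P + M)) / (A * P + M)) := by
        field_simp
        ring
      rw [hs]
      have : 0 < 16 * P + (A * P + M) := by positivity
      field_simp
      try ring
    have e2 : lad ((s2 j, t0 j) :: L2 j js) (be2 j js) =
        c0 * (((4 + j) * 4 ^ js.length + MV js) /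
          (16 * 4 ^ js.length + ((4 + j) * 4 ^ js.length + MV js))) := by
      rw [lad, lad2 js j hj hd', s2_cast j hj, t0_cast j hj]
      set A : ℚ := 4 + j
      set P : ℚ := 4 ^ js.length
      set M : ℚ := ((MV js : ℕ) : ℚ)
      set c : ℚ := ((c0 : ℕ) : ℚ)
      have hA0 : 0 < A := by linarith
      have hN : 0 < A * P + M := by positivity
      have hBM : 0 < A * P - M := by nlinarith
      have hy : c * (A / 8) + c * (A * M / (4 * (A * P - M))) =
          c * (A * (A * P + M) / (8 * (A * P - M))) := by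
        field_simp
        ring
      rw [hy]
      unfold par
      have hA8 : 0 < 8 + A := by positivity
      have hs : c * (A / (8 + A)) + c * (A * (A * P + M) / (8 * (A * P - M))) =
          c * (A * A * (16 * P + (A * P + M)) / (8 * (8 + A) * (A * P - M))) := by
        field_simp
        ring
      rw [hs]
      have : 0 < 16 * P + (A * P + M) := by positivity
      field_simp
      try ring
    have hNp : (0 : ℚ) < (4 + j) * 4 ^ js.length + MV js := by positivity
    refine ⟨(rn j, c0) :: L1 j js, (s2 j, t0 j) :: L2 j js, be1 j js, be2 j js, ?_, ?_, ?_, ?_,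
      a2, a5, ?_, ?_, ?_, c0 * 4 ^ (n + 1), 4 ^ (n + 1) + MV (j :: js), ?_, ?_, ?_⟩
    · rw [List.length_cons, a3, hl]
    · rw [List.length_cons, a6, hl]
    · intro c hc
      rw [List.mem_cons] at hc
      rcases hc with rfl | hc
      · exact ⟨okS_rn j hj, okT_c0⟩
      · exact a1 c hc
    · intro c hc
      rw [List.mem_cons] at hc
      rcases hc with rfl | hc
      · exact ⟨okS_s2 j hj, okT_t0 j hj⟩
      · exact a4 c hc
    · rw [e1, e2]
      field_simp
    · rw [e1]
      positivity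
    · rw [e2]
      positivity
    · rw [e1]
      have e3 : (4 : ℚ) ^ (n + 1) = 16 * 4 ^ js.length := by
        rw [← hl, pow_succ, pow_succ]
        ring
      simp only [MV]
      push_cast
      rw [e3]
      field_simp
    · rw [hM]
      exact hrd
    · intro h
      rcases (Nat.Prime.dvd_mul hq).1 h with h | h
      · have := Nat.le_of_dvd (by unfold c0; norm_num) h
        omega
      · have h4 := hq.dvd_of_dvd_pow h
        have := Nat.le_of_dvd (by norm_num) h4
        unfold c0 at h1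
        omega

end Pool.Agent.TH558.IH
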