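import Mathlib
import Pool.Agent.TH974.IH.Box

set_option autoImplicit false

open Finset MeasureTheory ProbabilityTheory Filter Topology
open scoped ENNReal NNReal

namespace Pool.Agent.TH558.IH

open Pool.Agent.TH974.IH

theorem OP_path {V : Type*} [DecidableEq V] {adj : V → V → Prop} (p : List V) (a b : V)
    (hn : p.Nodup) (hc : List.IsChain adj p) (ha : p.head? = some a) (hb : p.getLast? = some b)
    (hab : a ≠ b) :
    ∃ E : Finset (V × V), OP adj {v | v ∈ p} E a b ((p.length : ℚ) - 1) ∧
      ∀ e ∈ E, [e.1, e.2] <:+: p := by
  induction p generalizing a with
  | nil => simp at ha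
  | cons x p ih =>
    rw [List.head?_cons, Option.some.injEq] at ha
    subst ha
    cases p with
    | nil =>
      simp at hb
      exact absurd hb hab
    | cons y rest =>
      have hxy : adj x y := by
        rw [List.isChain_cons_cons] at hc
        exact hc.1
      have hc' : List.IsChain adj (y :: rest) := by
        rw [List.isChain_cons_cons] at hc
        exact hc.2
      have hxn : x ∉ y :: rest := (List.nodup_cons.1 hn).1
      have hn' : (y :: rest).Nodup := (List.nodup_cons.1 hn).2
      have hb' : (y :: rest).getLast? = some b := by
        rwa [List.getLast?_cons_cons] at hb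
      have hbm : b ∈ y :: rest := List.mem_of_getLast? hb'
      have hxb : x ≠ b := hab
      have hxyne : x ≠ y := fun h => hxn (by rw [h]; exact List.mem_cons_self)
      cases rest with
      | nil =>
        have hyb : y = b := by simpa using hb'
        subst hyb
        refine ⟨{(x, y)}, ⟨⟨?_, ?_, ?_⟩, ?_, ?_, hxyne, ?_⟩, ?_⟩
        · intro e he
          rw [Finset.mem_singleton] at he
          subst he
          simp
        · intro e he
          rw [Finset.mem_singleton] at he
          subst he
          exact hxy
        · intro v w h1 h2
          rw [Finset.mem_singleton, Prod.mk.injEq] at h1 h2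
          exact hxyne (h1.1.symm.trans h2.2)
        · simp
        · simp
        · intro u _
          unfold dv
          rw [Finset.sum_singleton, Finset.sum_singleton]
          simp [hxyne, hxyne.symm]
          norm_num
        · intro e he
          rw [Finset.mem_singleton] at he
          subst he
          exact List.infix_refl _
      | cons z rest =>
        have hyb : y ≠ b := by
          intro h
          have h1 : b ∈ z :: rest := List.mem_of_getLast? (by
            rwa [List.getLast?_cons_cons] at hb')
          rw [← h] at h1
          exact (List.nodup_cons.1 hn').1 h1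
        obtain ⟨E, ⟨hN, hay, hb2, -, hO⟩, hinf⟩ := ih y hn' hc' rfl hb' hyb
        have hEx : ∀ e ∈ E, e.1 ≠ x ∧ e.2 ≠ x := fun e he =>
          ⟨fun h => hxn (h ▸ (hN.mem e he).1), fun h => hxn (h ▸ (hN.mem e he).2)⟩
        have hnotin : (x, y) ∉ E := fun h => (hEx _ h).1 rfl
        have hdv : ∀ (u : V → ℚ) (v : V), dv (insert (x, y) E) u v =
            ((if x = v then u y - u v else 0) + (if y = v then u x - u v else 0)) + dv E u v := by
          intro u v
          unfold dv
          rw [Finset.sum_insert hnotin]
        have hdvx : ∀ (u : V → ℚ), dv E u x = 0 := by
          intro u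
          unfold dv
          apply Finset.sum_eq_zero
          intro e he
          rw [if_neg (hEx e he).1, if_neg (hEx e he).2, add_zero]
        refine ⟨insert (x, y) E, ⟨⟨?_, ?_, ?_⟩, ?_, ?_, hab, ?_⟩, ?_⟩
        · intro e he
          rw [Finset.mem_insert] at he
          rcases he with rfl | he
          · simp
          · exact ⟨List.mem_cons_of_mem _ (hN.mem e he).1, List.mem_cons_of_mem _ (hN.mem e he).2⟩
        · intro e he
          rw [Finset.mem_insert] at he
          rcases he with rfl | he
          · exact hxy
          · exact hN.adj e he
        · intro v w h1 h2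
          rw [Finset.mem_insert, Prod.mk.injEq] at h1 h2
          rcases h1 with ⟨rfl, rfl⟩ | h1
          · rcases h2 with h2 | h2
            · exact hxyne h2.2
            · exact (hEx _ h2).2 rfl
          · rcases h2 with ⟨rfl, rfl⟩ | h2
            · exact (hEx _ h1).2 rfl
            · exact hN.anti v w h1 h2
        · exact List.mem_cons_self
        · exact List.mem_cons_of_mem _ hbm
        · intro u hu
          have h1 : ∀ v ∈ {v | v ∈ y :: z :: rest}, v ≠ y → v ≠ b → dv E u v = 0 := by
            intro v hv hvy hvb
            have hvx : x ≠ v := fun h => hxn (h ▸ hv)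
            have := hu v (List.mem_cons_of_mem _ hv) hvx.symm hvb
            rwa [hdv, if_neg hvx, if_neg hvy.symm, add_zero, zero_add] at this
          obtain ⟨h2, h3⟩ := hO u h1
          have h4 := hu y (by simp) hxyne.symm hyb
          rw [hdv, if_neg hxyne, if_pos rfl, zero_add] at h4
          have h5 : dv (insert (x, y) E) u x = u y - u x := by
            rw [hdv, if_pos rfl, if_neg hxyne.symm, add_zero, hdvx, add_zero]
          have h6 : dv (insert (x, y) E) u b = dv E u b := by
            rw [hdv, if_neg hxb, if_neg hyb, add_zero, zero_add]
          have h7 : dv E u y = u y - u x := by linarith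
          rw [h5, h6, h2, h7]
          rw [h7] at h3
          refine ⟨rfl, ?_⟩
          have e : u b - u x = (u b - u y) + (u y - u x) := by ring
          have hl : ((x :: y :: z :: rest).length : ℚ) = ((y :: z :: rest).length : ℚ) + 1 := by
            rw [List.length_cons (a := x)]
            push_cast
            rfl
          rw [e, h3, hl]
          ring
        · intro e he
          rw [Finset.mem_insert] at he
          rcases he with rfl | he
          · exact ⟨[], z :: rest, rfl⟩
          · exact (hinf e he).trans (List.suffix_cons x _).isInfix

end Pool.Agent.TH558.IH
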