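import Mathlib
import Pool.Agent.TH91.LG.Defs
import Pool.Agent.TH91.RF.Bch
set_option autoImplicit false

/-!
# LG-2d (job 1262, helper91, MP_87965e_co): the logarithm of a unipotent automorphism is a derivation
-/

namespace Pool.Agent.TH558.J1262

open Pool.Agent.TH91.LG Pool.Agent.TH91.RF

section rexp

variable {A : Type*} [Ring A] [Algebra ℝ A]

/-- the rational algebra structure of a real algebra -/
noncomputable abbrev ratAlg (A : Type*) [Ring A] [Algebra ℝ A] : Algebra ℚ A :=
  Algebra.compHom A (algebraMap ℚ ℝ)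

theorem rat_smul (q : ℚ) (a : A) : letI := ratAlg A; q • a = (q : ℝ) • a := rfl

/-- exponential of a nilpotent element of a real algebra -/
noncomputable def rexp (a : A) : A := letI := ratAlg A; IsNilpotent.exp a

theorem rexp_eq_sum {a : A} {k : ℕ} (h : a ^ k = 0) :
    rexp a = ∑ i ∈ Finset.range k, ((i.factorial : ℝ)⁻¹) • a ^ i := by
  let _ := ratAlg A
  have h1 : rexp a = ∑ i ∈ Finset.range k, (i.factorial : ℚ)⁻¹ • (a ^ i) :=
    IsNilpotent.exp_eq_sum h
  rw [h1]
  refine Finset.sum_congr rfl fun i _ => ?_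
  rw [rat_smul]
  push_cast
  rfl

theorem rexp_add {a b : A} (h₁ : Commute a b) (h₂ : IsNilpotent a) (h₃ : IsNilpotent b) :
    rexp (a + b) = rexp a * rexp b := by
  let _ := ratAlg A
  exact IsNilpotent.exp_add_of_commute h₁ h₂ h₃

theorem rexp_zero : rexp (0 : A) = 1 := by
  let _ := ratAlg A
  exact IsNilpotent.exp_zero

/-- logarithm of a unipotent element -/
theorem exists_log (u : A) (hu : IsNilpotent (u - 1)) : ∃ D : A, IsNilpotent D ∧ rexp D = u := by
  let _ := ratAlg A
  obtain ⟨m, hm⟩ := hu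
  set n := u - 1 with hn
  set S := Algebra.adjoin ℝ {n} with hS
  have hcomm : ∀ x ∈ S, ∀ y ∈ S, x * y = y * x := by
    intro x hx y hy
    have := Algebra.isMulCommutative_adjoin ℝ (s := {n}) (by
      intro a ha b hb; rw [Set.mem_singleton_iff.mp ha, Set.mem_singleton_iff.mp hb])
    have h2 := this.is_comm.comm ⟨x, hx⟩ ⟨y, hy⟩
    exact congrArg Subtype.val h2
  have hnS : n ∈ S := Algebra.subset_adjoin rfl
  let Φ : Filt A m :=
    { F := fun k =>
        { carrier := {x | ∃ y ∈ S, x = n ^ k * y}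
          add_mem' := by
            rintro _ _ ⟨y, hy, rfl⟩ ⟨z, hz, rfl⟩
            exact ⟨y + z, S.add_mem hy hz, by rw [mul_add]⟩
          zero_mem' := ⟨0, S.zero_mem, by simp⟩
          smul_mem' := by
            rintro q _ ⟨y, hy, rfl⟩
            refine ⟨(q : ℝ) • y, S.smul_mem hy _, ?_⟩
            rw [rat_smul, mul_smul_comm] }
      anti := by
        rintro i j hij _ ⟨y, hy, rfl⟩
        refine ⟨n ^ (j - i) * y, S.mul_mem (S.pow_mem hnS _) hy, ?_⟩
        rw [← mul_assoc, ← pow_add, Nat.add_sub_cancel' hij]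
      mul := by
        rintro i j _ _ ⟨y, hy, rfl⟩ ⟨z, hz, rfl⟩
        refine ⟨y * z, S.mul_mem hy hz, ?_⟩
        rw [pow_add, mul_assoc, mul_assoc, ← mul_assoc y, hcomm y hy _ (S.pow_mem hnS j), mul_assoc]
      bot := by
        rintro _ ⟨y, hy, rfl⟩
        rw [hm, zero_mul] }
  have h1 : u - 1 ∈ Φ.F 1 := ⟨1, S.one_mem, by simp [hn]⟩
  obtain ⟨z, hz, hzu⟩ := Φ.exp_surj h1
  exact ⟨z, Φ.nilp hz, hzu⟩

end rexp

/-- if `exp T` fixes `v` then `T v = 0` -/
theorem fix_of_exp {M : Type*} [AddCommGroup M] [Module ℝ M] {T : Module.End ℝ M}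
    (hT : IsNilpotent T) {v : M} (h : rexp T v = v) : T v = 0 := by
  obtain ⟨n, hn⟩ := hT
  have h2 : T ^ (n + 2) = 0 := by rw [pow_add, hn, zero_mul]
  set S' : Module.End ℝ M := ∑ i ∈ Finset.range n, (((i + 1 + 1).factorial : ℝ)⁻¹) • T ^ i with hS'
  have hS : rexp T = 1 + T * (1 + T * S') := by
    have e : ∀ i, (((i + 1 + 1).factorial : ℝ)⁻¹) • T ^ (i + 1 + 1) =
        T * (T * ((((i + 1 + 1).factorial : ℝ)⁻¹) • T ^ i)) := by
      intro i
      rw [mul_smul_comm, mul_smul_comm, pow_succ', pow_succ']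
    rw [rexp_eq_sum h2, Finset.sum_range_succ', Finset.sum_range_succ',
      Finset.sum_congr rfl fun i _ => e i, ← Finset.mul_sum, ← Finset.mul_sum, ← hS']
    simp only [zero_add, Nat.factorial_one, Nat.factorial_zero, Nat.cast_one, inv_one, one_smul,
      pow_one, pow_zero]
    rw [mul_add, mul_one]
    abel
  have hTS : Commute T S' := by
    rw [hS']
    refine Commute.sum_right _ _ _ fun i _ => ?_
    exact ((Commute.refl T).pow_right i).smul_right _
  have hunit : IsUnit (1 + T * S') := by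
    have : IsNilpotent (T * S') := hTS.isNilpotent_mul_right ⟨n, hn⟩
    exact this.isUnit_one_add
  have hc : (1 + T * S') * T = T * (1 + T * S') := by
    rw [add_mul, mul_add, one_mul, mul_one, mul_assoc, ← hTS.eq]
  have h3 : (1 + T * S') (T v) = 0 := by
    have h4 : ((1 + T * S') * T) v = 0 := by
      rw [hc]
      have h5 := h
      rw [hS, LinearMap.add_apply, Module.End.one_apply] at h5
      simpa using h5
    simpa using h4
  obtain ⟨w, hw⟩ := hunit
  have h6 : (↑w⁻¹ : Module.End ℝ M) ((1 + T * S') (T v)) = T v := by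
    rw [← hw]
    change ((↑w⁻¹ : Module.End ℝ M) * (w : Module.End ℝ M)) (T v) = T v
    rw [Units.inv_mul]
    rfl
  rw [← h6, h3, map_zero]

/-- commuting nilpotent operators -/
theorem add_of_exp {M : Type*} [AddCommGroup M] [Module ℝ M] {a b c : Module.End ℝ M}
    (ha : IsNilpotent a) (hb : IsNilpotent b) (hc : IsNilpotent c) (hab : Commute a b)
    (hac : Commute a c) (hbc : Commute b c) {v : M} (h : rexp a v = rexp b (rexp c v)) :
    a v = b v + c v := by
  have n12 : IsNilpotent (b + c) := hbc.isNilpotent_add hb hc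
  have cc : Commute a (b + c) := hab.add_right hac
  have hT : IsNilpotent (a + -(b + c)) := cc.neg_right.isNilpotent_add ha n12.neg
  have hfix : rexp (a + -(b + c)) v = v := by
    have h1 : rexp a v = rexp (b + c) v := by
      rw [rexp_add hbc hb hc, h]
      rfl
    rw [add_comm, rexp_add cc.neg_right.symm n12.neg ha, Module.End.mul_apply, h1,
      ← Module.End.mul_apply, ← rexp_add (Commute.refl _).neg_left n12.neg n12,
      neg_add_cancel, rexp_zero]
    rfl
  have hz := fix_of_exp hT hfix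
  rw [LinearMap.add_apply, LinearMap.neg_apply, ← sub_eq_add_neg, sub_eq_zero] at hz
  exact hz

section main

variable {E : Type*} [AddCommGroup E] [Module ℝ E]

/-- post-composition -/
def post (D : Module.End ℝ E) : Module.End ℝ (E →ₗ[ℝ] E →ₗ[ℝ] E) where
  toFun C := C.compr₂ D
  map_add' a b := by ext x y; simp
  map_smul' a b := by ext x y; simp

/-- pre-composition in the first argument -/
def pre1 (D : Module.End ℝ E) : Module.End ℝ (E →ₗ[ℝ] E →ₗ[ℝ] E) where
  toFun C := C.comp D
  map_add' a b := by ext x y; simp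
  map_smul' a b := by ext x y; simp

/-- pre-composition in the second argument -/
def pre2 (D : Module.End ℝ E) : Module.End ℝ (E →ₗ[ℝ] E →ₗ[ℝ] E) where
  toFun C := C.compl₂ D
  map_add' a b := by ext x y; simp
  map_smul' a b := by ext x y; simp

theorem post_apply (D : Module.End ℝ E) (C : E →ₗ[ℝ] E →ₗ[ℝ] E) (x y : E) :
    post D C x y = D (C x y) := rfl

theorem pre1_apply (D : Module.End ℝ E) (C : E →ₗ[ℝ] E →ₗ[ℝ] E) (x y : E) :
    pre1 D C x y = C (D x) y := rfl

theorem pre2_apply (D : Module.End ℝ E) (C : E →ₗ[ℝ] E →ₗ[ℝ] E) (x y : E) :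
    pre2 D C x y = C x (D y) := rfl

theorem post_pow (D : Module.End ℝ E) (C : E →ₗ[ℝ] E →ₗ[ℝ] E) (x y : E) (k : ℕ) :
    (post D ^ k) C x y = (D ^ k) (C x y) := by
  induction k generalizing C x y with
  | zero => rfl
  | succ k ih =>
    rw [pow_succ, pow_succ, Module.End.mul_apply, ih, post_apply, Module.End.mul_apply]

theorem pre1_pow (D : Module.End ℝ E) (C : E →ₗ[ℝ] E →ₗ[ℝ] E) (x y : E) (k : ℕ) :
    (pre1 D ^ k) C x y = C ((D ^ k) x) y := by
  induction k generalizing C x y with
  | zero => rfl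
  | succ k ih =>
    rw [pow_succ, pow_succ', Module.End.mul_apply, ih, pre1_apply, Module.End.mul_apply]

theorem pre2_pow (D : Module.End ℝ E) (C : E →ₗ[ℝ] E →ₗ[ℝ] E) (x y : E) (k : ℕ) :
    (pre2 D ^ k) C x y = C x ((D ^ k) y) := by
  induction k generalizing C x y with
  | zero => rfl
  | succ k ih =>
    rw [pow_succ, pow_succ', Module.End.mul_apply, ih, pre2_apply, Module.End.mul_apply]

theorem log_aut [FiniteDimensional ℝ E]
    (B : E →ₗ[ℝ] E →ₗ[ℝ] E) (u : Module.End ℝ E) (hu : IsNilpotent (u - 1))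
    (haut : ∀ x y, u (B x y) = B (u x) (u y)) :
    ∃ D : Module.End ℝ E, IsNilpotent D ∧ (∀ x y, D (B x y) = B (D x) y + B x (D y)) ∧
      fexp D = u := by
  obtain ⟨D, hD, hDu⟩ := exists_log u hu
  obtain ⟨k, hk⟩ := id hD
  -- the power `finrank` vanishes
  have hfin : D ^ (Module.finrank ℝ E + 1) = 0 := by
    have h1 : D ^ (k + (Module.finrank ℝ E + 1)) = 0 := by rw [pow_add, hk, zero_mul]
    have h2 := Module.End.ker_pow_eq_ker_pow_finrank_of_le (f := D)
      (show Module.finrank ℝ E ≤ k + (Module.finrank ℝ E + 1) by omega)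
    have h3 := Module.End.ker_pow_eq_ker_pow_finrank_of_le (f := D)
      (show Module.finrank ℝ E ≤ Module.finrank ℝ E + 1 by omega)
    rw [← h2, h1, LinearMap.ker_zero] at h3
    exact LinearMap.ker_eq_top.mp h3
  have hpost : post D ^ k = 0 := by
    ext C x y
    rw [post_pow, hk]
    simp
  have hpre1 : pre1 D ^ k = 0 := by
    ext C x y
    rw [pre1_pow, hk]
    simp
  have hpre2 : pre2 D ^ k = 0 := by
    ext C x y
    rw [pre2_pow, hk]
    simp
  have e0 : ∀ C x y, rexp (post D) C x y = u (C x y) := by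
    intro C x y
    rw [rexp_eq_sum hpost, ← hDu, rexp_eq_sum hk]
    simp only [LinearMap.sum_apply, LinearMap.smul_apply, post_pow]
  have e1 : ∀ C x y, rexp (pre1 D) C x y = C (u x) y := by
    intro C x y
    rw [rexp_eq_sum hpre1, ← hDu, rexp_eq_sum hk]
    simp only [LinearMap.sum_apply, LinearMap.smul_apply, pre1_pow, map_sum, map_smul]
  have e2 : ∀ C x y, rexp (pre2 D) C x y = C x (u y) := by
    intro C x y
    rw [rexp_eq_sum hpre2, ← hDu, rexp_eq_sum hk]
    simp only [LinearMap.sum_apply, LinearMap.smul_apply, pre2_pow, map_sum, map_smul]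
  have c01 : Commute (post D) (pre1 D) := by
    ext C x y
    rfl
  have c02 : Commute (post D) (pre2 D) := by
    ext C x y
    rfl
  have c12 : Commute (pre1 D) (pre2 D) := by
    ext C x y
    rfl
  have n0 : IsNilpotent (post D) := ⟨k, hpost⟩
  have n1 : IsNilpotent (pre1 D) := ⟨k, hpre1⟩
  have n2 : IsNilpotent (pre2 D) := ⟨k, hpre2⟩
  have hz : post D B = pre1 D B + pre2 D B := by
    refine add_of_exp n0 n1 n2 c01 c02 c12 ?_
    ext x y
    rw [e0, e1, e2, haut]
  refine ⟨D, hD, fun x y => ?_, ?_⟩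
  · exact congrArg (fun C : E →ₗ[ℝ] E →ₗ[ℝ] E => C x y) hz
  · rw [fexp, ← rexp_eq_sum hfin, hDu]

end main

end Pool.Agent.TH558.J1262
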