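import Mathlib
import Pool.Agent.TH278.Defs3
import Pool.Agent.TH554.J639
import Pool.Agent.H438R2.RZ.R3
set_option autoImplicit false

/-! # Job 717 (helper278, MP_c7bdf0_an): general lemmas on the operator `TR` and the limit argument -/

namespace Pool.Agent.TH558.J717

open MeasureTheory Set Complex Filter
open scoped ENNReal RealInnerProductSpace Topology
open Pool.Agent.TH278
open Pool.Agent.H438R2.RZ (e Good ft Pl Bump TR)
open Pool.Agent.H789R2.FR (E)
open Pool.Agent.TH554.J639 (e_norm e_cont M_int)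

theorem ML_cont (ψ : ℝ → ℝ) (hψ : Bump ψ) (L : ℝ) : Continuous (ML ψ L) := by
  have h := hψ.1.continuous
  unfold ML
  fun_prop

theorem ML_zero (ψ : ℝ → ℝ) (hψ : Bump ψ) (L : ℝ) (u : ℝ) (hu : 2 < u) : ML ψ L u = 0 := by
  unfold ML
  by_contra h
  have := (hψ.2 _ h).1
  nlinarith [sq_nonneg L]

variable {n : ℕ}

/-- Fourier transform -/
noncomputable def FF (f : E n → ℂ) (ξ : E n) : ℂ := ∫ y : E n, e (-(⟪y, ξ⟫ : ℝ)) * f y

theorem FF_meas {f : E n → ℂ} (hfm : Measurable f) : Measurable (FF f) := by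
  have : StronglyMeasurable (Function.uncurry (fun (ξ y : E n) => e (-(⟪y, ξ⟫ : ℝ)) * f y)) := by
    refine Measurable.stronglyMeasurable ?_
    refine Measurable.mul ?_ (hfm.comp measurable_snd)
    exact (e_cont.comp (by fun_prop)).measurable
  exact this.integral_prod_right.measurable

theorem FF_bd (f : E n → ℂ) (ξ : E n) : ‖FF f ξ‖ ≤ ∫ y, ‖f y‖ := by
  refine (norm_integral_le_integral_norm _).trans (le_of_eq ?_)
  refine integral_congr_ae (ae_of_all _ fun y => ?_)
  simp [e_norm]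

theorem TR_eq (M : ℝ → ℝ) (f : E n → ℂ) (x : E n) :
    TR n M f x = ∫ ξ : E n, ((M (‖ξ‖ ^ 2) : ℝ) : ℂ) * FF f ξ * e (⟪x, ξ⟫ : ℝ) := rfl

theorem TR_meas (M : ℝ → ℝ) (hM : Continuous M) {f : E n → ℂ} (hfm : Measurable f) :
    Measurable (TR n M f) := by
  have h : StronglyMeasurable (Function.uncurry (fun (x ξ : E n) =>
      ((M (‖ξ‖ ^ 2) : ℝ) : ℂ) * FF f ξ * e (⟪x, ξ⟫ : ℝ))) := by
    refine Measurable.stronglyMeasurable ?_
    refine Measurable.mul (Measurable.mul ?_ ((FF_meas hfm).comp measurable_snd)) ?_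
    · have h1 : Continuous (fun p : E n × E n => ((M (‖p.2‖ ^ 2) : ℝ) : ℂ)) := by fun_prop
      exact h1.measurable
    · exact (e_cont.comp (by fun_prop)).measurable
  exact h.integral_prod_right.measurable

theorem TR_const_mul (M : ℝ → ℝ) (c : ℂ) (f : E n → ℂ) (x : E n) :
    TR n M (fun y => c * f y) x = c * TR n M f x := by
  rw [TR_eq, TR_eq, ← integral_const_mul]
  refine integral_congr_ae (ae_of_all _ fun ξ => ?_)
  simp only
  have h : FF (fun y => c * f y) ξ = c * FF f ξ := by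
    unfold FF
    rw [← integral_const_mul]
    refine integral_congr_ae (ae_of_all _ fun y => ?_)
    simp only
    ring
  rw [h]
  ring

theorem TR_zero (M : ℝ → ℝ) (f : E n → ℂ) (hf : f =ᵐ[volume] 0) (x : E n) : TR n M f x = 0 := by
  have h : ∀ ξ, FF f ξ = 0 := by
    intro ξ
    unfold FF
    apply integral_eq_zero_of_ae
    filter_upwards [hf] with y hy
    rw [hy]
    simp
  rw [TR_eq]
  simp [h]

/-- truncations converge -/
theorem TR_tendsto (M : ℝ → ℝ) (hM : Continuous M) (hM2 : ∀ u, 2 < u → M u = 0)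
    {f : E n → ℂ} (hfm : Measurable f) (hf : Integrable f) (S : ℕ → Set (E n))
    (hS : ∀ j, MeasurableSet (S j)) (hSx : ∀ x, ∀ᶠ j in atTop, x ∈ S j) (x : E n) :
    Tendsto (fun j => TR n M ((S j).indicator f) x) atTop (𝓝 (TR n M f x)) := by
  have hMi := M_int n M hM hM2
  have hFF : ∀ ξ, Tendsto (fun j => FF ((S j).indicator f) ξ) atTop (𝓝 (FF f ξ)) := by
    intro ξ
    refine tendsto_integral_of_dominated_convergence (fun y => ‖f y‖) ?_ hf.norm ?_ ?_
    · intro j
      refine AEStronglyMeasurable.mul ?_ ?_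
      · exact (e_cont.comp (by fun_prop)).aestronglyMeasurable
      · exact (hfm.indicator (hS j)).aestronglyMeasurable
    · intro j
      refine ae_of_all _ fun y => ?_
      rw [norm_mul, e_norm, one_mul]
      exact norm_indicator_le_norm_self _ _
    · refine ae_of_all _ fun y => ?_
      refine tendsto_const_nhds.congr' ?_
      filter_upwards [hSx y] with j hj
      rw [indicator_of_mem hj]
  have hb : ∀ j ξ, ‖FF ((S j).indicator f) ξ‖ ≤ ∫ y, ‖f y‖ := by
    intro j ξ
    refine (FF_bd _ ξ).trans ?_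
    refine integral_mono_of_nonneg (ae_of_all _ fun y => norm_nonneg _) hf.norm
      (ae_of_all _ fun y => norm_indicator_le_norm_self _ _)
  refine tendsto_integral_of_dominated_convergence
    (fun ξ => ‖((M (‖ξ‖ ^ 2) : ℝ) : ℂ)‖ * ∫ y, ‖f y‖) ?_ (hMi.norm.mul_const _) ?_ ?_
  · intro j
    refine AEStronglyMeasurable.mul (AEStronglyMeasurable.mul ?_ ?_) ?_
    · exact hMi.aestronglyMeasurable
    · exact (FF_meas (hfm.indicator (hS j))).aestronglyMeasurable
    · exact (e_cont.comp (by fun_prop)).aestronglyMeasurable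
  · intro j
    refine ae_of_all _ fun ξ => ?_
    rw [norm_mul, e_norm, mul_one, norm_mul]
    exact mul_le_mul_of_nonneg_left (hb j ξ) (norm_nonneg _)
  · refine ae_of_all _ fun ξ => ?_
    exact ((hFF ξ).const_mul _).mul_const _

theorem Cube_meas (B : ℝ) : MeasurableSet (Cube n B) := by
  unfold Cube
  have : {x : E n | ∀ i, |x i| ≤ B} = ⋂ i, {x : E n | |x i| ≤ B} := by
    ext x; simp
  rw [this]
  refine MeasurableSet.iInter fun i => ?_
  exact (isClosed_le (by fun_prop) continuous_const).measurableSet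

theorem Cube_eventually (x : E n) : ∀ᶠ j : ℕ in atTop, x ∈ Cube n (j : ℝ) := by
  obtain ⟨N, hN⟩ := exists_nat_ge (∑ i, |x i|)
  filter_upwards [eventually_ge_atTop N] with j hj i
  have h1 : |x i| ≤ ∑ i, |x i| :=
    Finset.single_le_sum (f := fun i => |x i|) (fun i _ => abs_nonneg _) (Finset.mem_univ i)
  have h2 : (N : ℝ) ≤ j := by exact_mod_cast hj
  linarith

/-- Fatou -/
theorem fatou_step (p : ℝ) (hp : 1 ≤ p) (T : E n → ℂ) (Tj : ℕ → E n → ℂ)
    (hTj : ∀ j, Measurable (Tj j)) (hlim : ∀ x, Tendsto (fun j => Tj j x) atTop (𝓝 (T x)))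
    (R : ℝ≥0∞)
    (hb : ∀ j : ℕ, 1 ≤ j → (∫⁻ x in Cube n (j : ℝ), ‖Tj j x‖ₑ ^ p) ^ (1 / p) ≤ R) :
    (∫⁻ x, ‖T x‖ₑ ^ p) ^ (1 / p) ≤ R := by
  have hp0 : 0 < p := by linarith
  have h1 : ∀ x, liminf (fun j : ℕ => (Cube n (j : ℝ)).indicator (fun x => ‖Tj j x‖ₑ ^ p) x) atTop =
      ‖T x‖ₑ ^ p := by
    intro x
    apply Tendsto.liminf_eq
    have h2 : Tendsto (fun j => ‖Tj j x‖ₑ ^ p) atTop (𝓝 (‖T x‖ₑ ^ p)) := by
      exact ((ENNReal.continuous_rpow_const (y := p)).tendsto _).comp (hlim x).enorm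
    refine h2.congr' ?_
    filter_upwards [Cube_eventually x] with j hj
    rw [indicator_of_mem hj]
  have h3 : ∫⁻ x, ‖T x‖ₑ ^ p ≤ R ^ p := by
    calc ∫⁻ x, ‖T x‖ₑ ^ p
        = ∫⁻ x, liminf (fun j : ℕ => (Cube n (j : ℝ)).indicator (fun x => ‖Tj j x‖ₑ ^ p) x) atTop :=
          lintegral_congr fun x => (h1 x).symm
      _ ≤ liminf (fun j : ℕ => ∫⁻ x, (Cube n (j : ℝ)).indicator (fun x => ‖Tj j x‖ₑ ^ p) x) atTop := by
          apply lintegral_liminf_le
          intro j
          exact ((hTj j).enorm.pow_const p).indicator (Cube_meas _)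
      _ ≤ R ^ p := by
          refine liminf_le_of_le (by isBoundedDefault) ?_
          intro b hb'
          obtain ⟨j, hj, hj1⟩ := (hb'.and (eventually_ge_atTop 1)).exists
          refine hj.trans ?_
          rw [lintegral_indicator (Cube_meas _)]
          have := hb j hj1
          rw [one_div, ENNReal.rpow_inv_le_iff hp0] at this
          exact this
  rw [one_div, ENNReal.rpow_inv_le_iff hp0]
  exact h3

/-- one variable estimate for the regularised truncations -/
theorem one_var {X : Type*} [MeasurableSpace X] (μ ν : Measure X) (hμν : μ ≤ ν) (p : ℝ) (hp : 1 ≤ p)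
    {F : Type*} [NormedAddCommGroup F]
    (h : X → F) (hm : AEStronglyMeasurable h ν) (N δ ε : ℝ) (hN0 : 0 ≤ N) (hδ : 0 ≤ δ)
    (hε : 0 < ε)
    (hN : eLpNorm h (ENNReal.ofReal p) ν ≤ ENNReal.ofReal N)
    (hV : ENNReal.ofReal ε * (μ univ) ^ (1 / p) ≤ ENNReal.ofReal δ) (w : X → ℝ)
    (hw0 : ∀ x, 0 ≤ w x) (hwh : ∀ x, w x ≤ ‖h x‖ + ε) :
    ∫⁻ x, ENNReal.ofReal (w x ^ p) ∂μ ≤ ENNReal.ofReal ((N + δ) ^ p) := by
  have hp0 : 0 < p := by linarith
  have hP0 : ENNReal.ofReal p ≠ 0 := by simpa using hp0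
  have hPt : (ENNReal.ofReal p).toReal = p := ENNReal.toReal_ofReal hp0.le
  have hP1 : 1 ≤ ENNReal.ofReal p := by
    rw [← ENNReal.ofReal_one]; exact ENNReal.ofReal_le_ofReal hp
  have hmμ : AEStronglyMeasurable h μ := hm.mono_measure hμν
  have h1 : eLpNorm w (ENNReal.ofReal p) μ ≤ ENNReal.ofReal (N + δ) := by
    calc eLpNorm w (ENNReal.ofReal p) μ
        ≤ eLpNorm ((fun x => ‖h x‖) + fun _ => ε) (ENNReal.ofReal p) μ := by
          apply eLpNorm_mono_real
          intro x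
          rw [Real.norm_of_nonneg (hw0 x)]
          exact hwh x
      _ ≤ eLpNorm (fun x => ‖h x‖) (ENNReal.ofReal p) μ +
          eLpNorm (fun _ => ε) (ENNReal.ofReal p) μ :=
          eLpNorm_add_le hmμ.norm aestronglyMeasurable_const hP1
      _ ≤ ENNReal.ofReal N + ENNReal.ofReal δ := by
          gcongr
          · rw [eLpNorm_norm]
            exact (eLpNorm_mono_measure h hμν).trans hN
          · rw [eLpNorm_const' _ hP0 ENNReal.ofReal_ne_top, hPt]
            rw [← ofReal_norm, Real.norm_of_nonneg hε.le]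
            exact hV
      _ = ENNReal.ofReal (N + δ) := (ENNReal.ofReal_add hN0 hδ).symm
  rw [eLpNorm_eq_lintegral_rpow_enorm_toReal hP0 ENNReal.ofReal_ne_top, hPt, one_div,
    ENNReal.rpow_inv_le_iff hp0, ENNReal.ofReal_rpow_of_nonneg (by positivity) hp0.le] at h1
  refine le_trans (le_of_eq ?_) h1
  refine lintegral_congr fun x => ?_
  rw [← ofReal_norm, Real.norm_of_nonneg (hw0 x), ENNReal.ofReal_rpow_of_nonneg (hw0 x) hp0.le]

end Pool.Agent.TH558.J717
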