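import Mathlib
import Pool.Agent.TH278.Defs3
import Pool.Agent.TH554.J639
import Pool.Agent.H438R2.RZ.R3
import Pool.Agent.TH558.J717a
set_option autoImplicit false

/-! # Job 717 (helper278, MP_c7bdf0_an): from DomCore to all functions dominated by a product -/

namespace Pool.Agent.TH558.J717

open MeasureTheory Set Complex Filter
open scoped ENNReal RealInnerProductSpace Topology
open Pool.Agent.TH278
open Pool.Agent.H438R2.RZ (e Good ft Pl Bump TR)
open Pool.Agent.H789R2.FR (E)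
open Pool.Agent.TH554.J639 (e_norm e_cont M_int ins_equiv inp_equiv)

/-- pull back of null sets along the first two coordinates -/
theorem ae_two {k : ℕ} {P : ℝ × ℝ → Prop} (h : ∀ᵐ z, P z) :
    ∀ᵐ x : E (k + 2), P (x 0, x 1) := by
  obtain ⟨ι, h1, h2, _, _⟩ := inp_equiv k
  have h3 : ∀ᵐ y : (ℝ × ℝ) × E k, P y.1 :=
    (Measure.quasiMeasurePreserving_fst (μ := (volume : Measure (ℝ × ℝ)))
      (ν := (volume : Measure (E k)))).ae h
  have h4 : ∀ᵐ x : E (k + 2), P (ι.symm x).1 :=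
    (MeasurePreserving.symm ι h2).quasiMeasurePreserving.ae h3
  filter_upwards [h4] with x hx
  have h5 : ((x 0, x 1) : ℝ × ℝ) = (ι.symm x).1 := by
    have h6 : x = inp (ι.symm x).1 (ι.symm x).2 := by
      rw [← h1]; simp
    conv_lhs => rw [h6]
    unfold inp
    simp
  rw [h5]
  exact hx

/-- pull back of null sets along one coordinate -/
theorem ae_one {m : ℕ} (i : Fin (m + 1)) {P : ℝ → Prop} (h : ∀ᵐ s, P s) :
    ∀ᵐ x : E (m + 1), P (x i) := by
  obtain ⟨ι, h1, h2, _, _⟩ := ins_equiv m i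
  have h3 : ∀ᵐ y : ℝ × E m, P y.1 :=
    (Measure.quasiMeasurePreserving_fst (μ := (volume : Measure ℝ))
      (ν := (volume : Measure (E m)))).ae h
  have h4 : ∀ᵐ x : E (m + 1), P (ι.symm x).1 :=
    (MeasurePreserving.symm ι h2).quasiMeasurePreserving.ae h3
  filter_upwards [h4] with x hx
  have h5 : x i = (ι.symm x).1 := by
    have h6 : x = ins i (ι.symm x).1 (ι.symm x).2 := by
      rw [← h1]; simp
    conv_lhs => rw [h6]
    unfold ins
    simp
  rw [h5]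
  exact hx

/-- scaling of the inner norm -/
theorem scale_int {X : Type*} [MeasurableSpace X] (μ : Measure X) (p : ℝ) (g : X → ℝ)
    (hg : ∀ x, 0 ≤ g x) (N : ℝ) (hN : 0 < N)
    (h : ∫⁻ x, ENNReal.ofReal (g x ^ p) ∂μ ≤ ENNReal.ofReal (N ^ p)) :
    ∫⁻ x, ENNReal.ofReal ((g x / N) ^ p) ∂μ ≤ 1 := by
  have hNp : 0 < N ^ p := Real.rpow_pos_of_pos hN p
  have h1 : ∀ x, ENNReal.ofReal ((g x / N) ^ p) =
      ENNReal.ofReal ((N ^ p)⁻¹) * ENNReal.ofReal (g x ^ p) := by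
    intro x
    rw [Real.div_rpow (hg x) hN.le, ← ENNReal.ofReal_mul (by positivity), div_eq_mul_inv, mul_comm]
  rw [lintegral_congr h1, lintegral_const_mul' _ _ ENNReal.ofReal_ne_top]
  calc ENNReal.ofReal ((N ^ p)⁻¹) * ∫⁻ x, ENNReal.ofReal (g x ^ p) ∂μ
      ≤ ENNReal.ofReal ((N ^ p)⁻¹) * ENNReal.ofReal (N ^ p) := by gcongr
    _ = 1 := by
      rw [← ENNReal.ofReal_mul (by positivity), inv_mul_cancel₀ hNp.ne', ENNReal.ofReal_one]

/-- scaling of the operator side -/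
theorem scale_TR {n : ℕ} (M : ℝ → ℝ) (p : ℝ) (hp : 0 < p) (S : Set (E n)) (F G : E n → ℂ) (c : ℝ)
    (hc : 0 < c) (hFG : ∀ x, F x = ((c : ℝ) : ℂ) * G x) (A : ℝ)
    (h : (∫⁻ x in S, ‖TR n M G x‖ₑ ^ p) ^ (1 / p) ≤ ENNReal.ofReal A) :
    (∫⁻ x in S, ‖TR n M F x‖ₑ ^ p) ^ (1 / p) ≤ ENNReal.ofReal (A * c) := by
  have h1 : ∀ x, ‖TR n M F x‖ₑ ^ p = ENNReal.ofReal c ^ p * ‖TR n M G x‖ₑ ^ p := by
    intro x
    have h2 : F = fun y => ((c : ℝ) : ℂ) * G y := funext hFG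
    rw [h2, TR_const_mul, enorm_mul, ENNReal.mul_rpow_of_nonneg _ _ hp.le]
    congr 2
    rw [← ofReal_norm, Complex.norm_real, Real.norm_of_nonneg hc.le]
  have h3 : ENNReal.ofReal c ^ p ≠ ⊤ := ENNReal.rpow_ne_top_of_nonneg hp.le ENNReal.ofReal_ne_top
  rw [lintegral_congr h1, lintegral_const_mul' _ _ h3,
    ENNReal.mul_rpow_of_nonneg _ _ (by positivity), ← ENNReal.rpow_mul, mul_one_div_cancel hp.ne',
    ENNReal.rpow_one, mul_comm A, ENNReal.ofReal_mul hc.le]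
  gcongr

/-- the core estimate with general normalisation -/
theorem core_scaled (k : ℕ) (ψ : ℝ → ℝ) (L p A : ℝ) (hp : 1 ≤ p)
    (hcore : DomCore k ψ L p A) (B : ℝ) (hB : 0 < B) (g : ℝ × ℝ → ℝ) (φ : Fin k → ℝ → ℝ)
    (hg : Measurable g) (hφ : ∀ i, Measurable (φ i)) (m M : ℝ) (hm : 0 < m)
    (hgm : ∀ z, m ≤ g z ∧ g z ≤ M) (hφm : ∀ i s, m ≤ φ i s ∧ φ i s ≤ M) (N₀ : ℝ) (hN₀ : 0 < N₀)
    (N : Fin k → ℝ) (hN : ∀ i, 0 < N i)
    (hgN : ∫⁻ z in Icc (-B) B ×ˢ Icc (-B) B, ENNReal.ofReal (g z ^ p) ≤ ENNReal.ofReal (N₀ ^ p))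
    (hφN : ∀ i, ∫⁻ s in Icc (-B) B, ENNReal.ofReal (φ i s ^ p) ≤ ENNReal.ofReal (N i ^ p))
    (u : E (k + 2) → ℂ) (hu : Measurable u) (hu1 : ∀ x, ‖u x‖ ≤ 1)
    (huB : ∀ x, u x ≠ 0 → x ∈ Cube (k + 2) B) :
    (∫⁻ x in Cube (k + 2) B, ‖TR (k + 2) (ML ψ L)
      (fun x => u x * ((g (x 0, x 1) * ∏ i : Fin k, φ i (x i.succ.succ) : ℝ) : ℂ)) x‖ₑ ^ p) ^ (1 / p) ≤
      ENNReal.ofReal (A * (N₀ * ∏ i, N i)) := by
  have hp0 : 0 < p := by linarith
  have hM : m ≤ M := (hgm 0).1.trans (hgm 0).2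
  have hM0 : 0 < M := by linarith
  have hprod : 0 < ∏ i, N i := Finset.prod_pos fun i _ => hN i
  have hsumN : ∀ i, N i ≤ ∑ i, N i := fun i =>
    Finset.single_le_sum (f := N) (fun i _ => (hN i).le) (Finset.mem_univ i)
  have hsumI : ∀ i, (N i)⁻¹ ≤ ∑ i, (N i)⁻¹ := fun i =>
    Finset.single_le_sum (f := fun i => (N i)⁻¹) (fun i _ => (inv_pos.mpr (hN i)).le)
      (Finset.mem_univ i)
  have hS0 : 0 ≤ ∑ i, N i := Finset.sum_nonneg fun i _ => (hN i).le
  have hI0 : 0 ≤ ∑ i, (N i)⁻¹ := Finset.sum_nonneg fun i _ => (inv_pos.mpr (hN i)).le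
  have key : ∀ K t : ℝ, 0 < K → K ≤ N₀ + ∑ i, N i → K⁻¹ ≤ N₀⁻¹ + ∑ i, (N i)⁻¹ → m ≤ t → t ≤ M →
      m / (N₀ + ∑ i, N i) ≤ t / K ∧ t / K ≤ M * (N₀⁻¹ + ∑ i, (N i)⁻¹) := by
    intro K t hK hK1 hK2 ht1 ht2
    constructor
    · exact div_le_div₀ (by linarith) ht1 hK hK1
    · rw [div_eq_mul_inv]
      exact mul_le_mul ht2 hK2 (inv_pos.mpr hK).le hM0.le
  have h := hcore B hB (fun z => g z / N₀) (fun i s => φ i s / N i) (hg.div_const _)
    (fun i => (hφ i).div_const _) (m / (N₀ + ∑ i, N i)) (M * (N₀⁻¹ + ∑ i, (N i)⁻¹))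
    (by positivity)
    (fun z => key N₀ (g z) hN₀ (by linarith) (by linarith) (hgm z).1 (hgm z).2)
    (fun i s => key (N i) (φ i s) (hN i) (by linarith [hsumN i])
      (by linarith [hsumI i, inv_pos.mpr hN₀]) (hφm i s).1 (hφm i s).2)
    (scale_int _ p g (fun z => hm.le.trans (hgm z).1) N₀ hN₀ hgN)
    (fun i => scale_int _ p (φ i) (fun s => hm.le.trans (hφm i s).1) (N i) (hN i) (hφN i))
    u hu hu1 huB
  refine scale_TR (ML ψ L) p hp0 (Cube (k + 2) B) _ _ (N₀ * ∏ i, N i) (by positivity) ?_ A h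
  intro x
  rw [Finset.prod_div_distrib]
  have h1 : ((N₀ : ℝ) : ℂ) ≠ 0 := by exact_mod_cast hN₀.ne'
  have h2 : ((∏ i, N i : ℝ) : ℂ) ≠ 0 := by exact_mod_cast hprod.ne'
  push_cast at h2 ⊢
  field_simp

/-- the main estimate for truncated functions -/
theorem trunc_est (k : ℕ) (ψ : ℝ → ℝ) (L p A : ℝ) (hp : 1 ≤ p)
    (hcore : DomCore k ψ L p A) (f : E (k + 2) → ℂ) (hfm : Measurable f)
    (g : ℝ × ℝ → ℝ) (φ : Fin k → ℝ → ℝ)
    (hg : Measurable g) (hφ : ∀ i, Measurable (φ i))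
    (hdom : ∀ x, ‖f x‖ ≤ |g (x 0, x 1)| * ∏ i : Fin k, |φ i (x i.succ.succ)|)
    (N₀ : ℝ) (hN₀ : 0 ≤ N₀) (N : Fin k → ℝ) (hN : ∀ i, 0 ≤ N i)
    (hgN : eLpNorm g (ENNReal.ofReal p) volume ≤ ENNReal.ofReal N₀)
    (hφN : ∀ i, eLpNorm (φ i) (ENNReal.ofReal p) volume ≤ ENNReal.ofReal (N i))
    (B : ℝ) (hB : 0 < B) (δ : ℝ) (hδ : 0 < δ) :
    (∫⁻ x in Cube (k + 2) B, ‖TR (k + 2) (ML ψ L)
      ((Cube (k + 2) B ∩ {x | |g (x 0, x 1)| ≤ B ∧ ∀ i : Fin k, |φ i (x i.succ.succ)| ≤ B}).indicator f)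
        x‖ₑ ^ p) ^ (1 / p) ≤
      ENNReal.ofReal (A * ((N₀ + δ) * ∏ i, (N i + δ))) := by
  have hp0 : 0 < p := by linarith
  set S : Set (E (k + 2)) :=
    Cube (k + 2) B ∩ {x | |g (x 0, x 1)| ≤ B ∧ ∀ i : Fin k, |φ i (x i.succ.succ)| ≤ B} with hS
  set μ₀ : Measure (ℝ × ℝ) := volume.restrict (Icc (-B) B ×ˢ Icc (-B) B) with hμ₀
  set μ₁ : Measure ℝ := volume.restrict (Icc (-B) B) with hμ₁
  have hfin₀ : μ₀ univ ≠ ⊤ := by
    rw [hμ₀, Measure.restrict_apply_univ]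
    exact ((isCompact_Icc.prod isCompact_Icc).measure_lt_top).ne
  have hfin₁ : μ₁ univ ≠ ⊤ := by
    rw [hμ₁, Measure.restrict_apply_univ]
    exact (isCompact_Icc.measure_lt_top).ne
  have hV₀ : (μ₀ univ) ^ (1 / p) ≠ ⊤ := ENNReal.rpow_ne_top_of_nonneg (by positivity) hfin₀
  have hV₁ : (μ₁ univ) ^ (1 / p) ≠ ⊤ := ENNReal.rpow_ne_top_of_nonneg (by positivity) hfin₁
  set V₀ : ℝ := ((μ₀ univ) ^ (1 / p)).toReal with hV₀d
  set V₁ : ℝ := ((μ₁ univ) ^ (1 / p)).toReal with hV₁d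
  have hV₀0 : 0 ≤ V₀ := ENNReal.toReal_nonneg
  have hV₁0 : 0 ≤ V₁ := ENNReal.toReal_nonneg
  set ε : ℝ := δ / (V₀ + V₁ + 1) with hεd
  have hε : 0 < ε := by positivity
  have hεV : ∀ V : ℝ, 0 ≤ V → V ≤ V₀ + V₁ + 1 → ε * V ≤ δ := by
    intro V _ hV'
    rw [hεd, div_mul_eq_mul_div, div_le_iff₀ (by positivity)]
    exact mul_le_mul_of_nonneg_left hV' hδ.le
  have hc₀ : ENNReal.ofReal ε * (μ₀ univ) ^ (1 / p) ≤ ENNReal.ofReal δ := by
    rw [← ENNReal.ofReal_toReal hV₀, ← ENNReal.ofReal_mul hε.le]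
    exact ENNReal.ofReal_le_ofReal (hεV V₀ hV₀0 (by linarith))
  have hc₁ : ENNReal.ofReal ε * (μ₁ univ) ^ (1 / p) ≤ ENNReal.ofReal δ := by
    rw [← ENNReal.ofReal_toReal hV₁, ← ENNReal.ofReal_mul hε.le]
    exact ENNReal.ofReal_le_ofReal (hεV V₁ hV₁0 (by linarith))
  -- the regularised majorants
  set G : ℝ × ℝ → ℝ := fun z => min |g z| B + ε with hG
  set Φ : Fin k → ℝ → ℝ := fun i s => min |φ i s| B + ε with hΦ
  have hGm : Measurable G := (hg.abs.min measurable_const).add_const _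
  have hΦm : ∀ i, Measurable (Φ i) := fun i => ((hφ i).abs.min measurable_const).add_const _
  have hGb : ∀ z, ε ≤ G z ∧ G z ≤ B + ε := by
    intro z
    refine ⟨?_, ?_⟩
    · simp only [hG]
      have : 0 ≤ min |g z| B := le_min (abs_nonneg _) hB.le
      linarith
    · simp only [hG]
      have : min |g z| B ≤ B := min_le_right _ _
      linarith
  have hΦb : ∀ i s, ε ≤ Φ i s ∧ Φ i s ≤ B + ε := by
    intro i s
    refine ⟨?_, ?_⟩
    · simp only [hΦ]
      have : 0 ≤ min |φ i s| B := le_min (abs_nonneg _) hB.le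
      linarith
    · simp only [hΦ]
      have : min |φ i s| B ≤ B := min_le_right _ _
      linarith
  have hGN : ∫⁻ z in Icc (-B) B ×ˢ Icc (-B) B, ENNReal.ofReal (G z ^ p) ≤
      ENNReal.ofReal ((N₀ + δ) ^ p) := by
    refine one_var μ₀ volume Measure.restrict_le_self p hp g hg.aestronglyMeasurable N₀ δ ε hN₀
      hδ.le hε hgN hc₀ G (fun z => hε.le.trans (hGb z).1) ?_
    intro z
    simp only [hG, Real.norm_eq_abs]
    have : min |g z| B ≤ |g z| := min_le_left _ _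
    linarith
  have hΦN : ∀ i, ∫⁻ s in Icc (-B) B, ENNReal.ofReal (Φ i s ^ p) ≤
      ENNReal.ofReal ((N i + δ) ^ p) := by
    intro i
    refine one_var μ₁ volume Measure.restrict_le_self p hp (φ i) (hφ i).aestronglyMeasurable
      (N i) δ ε (hN i) hδ.le hε (hφN i) hc₁ (Φ i) (fun z => hε.le.trans (hΦb i z).1) ?_
    intro s
    simp only [hΦ, Real.norm_eq_abs]
    have : min |φ i s| B ≤ |φ i s| := min_le_left _ _
    linarith
  -- the quotient
  set D : E (k + 2) → ℝ := fun x => G (x 0, x 1) * ∏ i : Fin k, Φ i (x i.succ.succ) with hD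
  have hDpos : ∀ x, 0 < D x := by
    intro x
    simp only [hD]
    refine mul_pos (hε.trans_le (hGb _).1) (Finset.prod_pos fun i _ => hε.trans_le (hΦb i _).1)
  have hcoord : ∀ i : Fin (k + 2), Measurable (fun x : E (k + 2) => x i) := by
    intro i
    exact (by fun_prop : Continuous (fun x : E (k + 2) => x i)).measurable
  have hDm : Measurable D := by
    simp only [hD]
    refine (hGm.comp ((hcoord 0).prodMk (hcoord 1))).mul ?_
    exact Finset.measurable_prod _ fun i _ => (hΦm i).comp (hcoord _)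
  have hSm : MeasurableSet S := by
    rw [hS]
    refine (Cube_meas B).inter ?_
    have h1 : {x : E (k + 2) | |g (x 0, x 1)| ≤ B ∧ ∀ i : Fin k, |φ i (x i.succ.succ)| ≤ B} =
        {x : E (k + 2) | |g (x 0, x 1)| ≤ B} ∩ ⋂ i : Fin k, {x : E (k + 2) | |φ i (x i.succ.succ)| ≤ B} := by
      ext x
      simp
    rw [h1]
    refine MeasurableSet.inter ?_ (MeasurableSet.iInter fun i => ?_)
    · exact measurableSet_le (hg.comp ((hcoord 0).prodMk (hcoord 1))).abs measurable_const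
    · exact measurableSet_le ((hφ i).comp (hcoord _)).abs measurable_const
  set u : E (k + 2) → ℂ := fun x => S.indicator f x / ((D x : ℝ) : ℂ) with hu
  have hum : Measurable u := (hfm.indicator hSm).div (Complex.measurable_ofReal.comp hDm)
  have hu1 : ∀ x, ‖u x‖ ≤ 1 := by
    intro x
    simp only [hu]
    rw [norm_div, Complex.norm_real, Real.norm_of_nonneg (hDpos x).le, div_le_one (hDpos x)]
    by_cases hx : x ∈ S
    · rw [indicator_of_mem hx]
      refine (hdom x).trans ?_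
      simp only [hD]
      obtain ⟨_, hx1, hx2⟩ := hx
      refine mul_le_mul ?_ ?_ (Finset.prod_nonneg fun i _ => abs_nonneg _)
        (hε.le.trans (hGb _).1)
      · simp only [hG]
        rw [min_eq_left hx1]
        linarith
      · refine Finset.prod_le_prod (fun i _ => abs_nonneg _) fun i _ => ?_
        simp only [hΦ]
        rw [min_eq_left (hx2 i)]
        linarith
    · rw [indicator_of_notMem hx, norm_zero]
      exact (hDpos x).le
  have huB : ∀ x, u x ≠ 0 → x ∈ Cube (k + 2) B := by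
    intro x hx
    by_contra hxB
    apply hx
    simp only [hu]
    rw [indicator_of_notMem (fun hxS => hxB hxS.1), zero_div]
  have main := core_scaled k ψ L p A hp hcore B hB G Φ hGm hΦm ε (B + ε) hε hGb hΦb (N₀ + δ)
    (by linarith) (fun i => N i + δ) (fun i => by linarith [hN i]) hGN hΦN u hum hu1 huB
  have hrep : (fun x : E (k + 2) => u x *
      ((G (x 0, x 1) * ∏ i : Fin k, Φ i (x i.succ.succ) : ℝ) : ℂ)) = S.indicator f := by
    funext x
    have h1 : ((D x : ℝ) : ℂ) ≠ 0 := by exact_mod_cast (hDpos x).ne'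
    change S.indicator f x / ((D x : ℝ) : ℂ) * ((D x : ℝ) : ℂ) = S.indicator f x
    exact div_mul_cancel₀ _ h1
  rw [hrep] at main
  exact main

theorem dom_piece (k : ℕ) (ψ : ℝ → ℝ) (hψ : Bump ψ) (L p A : ℝ) (hL : 20 ≤ L) (hp : 1 ≤ p)
    (hA : 0 < A) (hcore : DomCore k ψ L p A) (f : E (k + 2) → ℂ) (hf : Continuous f)
    (hfi : Integrable f) (hfb : ∃ M : ℝ, ∀ x, ‖f x‖ ≤ M) (g : ℝ × ℝ → ℝ) (φ : Fin k → ℝ → ℝ)
    (hg : Measurable g) (hφ : ∀ i, Measurable (φ i))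
    (hdom : ∀ x, ‖f x‖ ≤ |g (x 0, x 1)| * ∏ i : Fin k, |φ i (x i.succ.succ)|) :
    eLpNorm (TR (k + 2) (ML ψ L) f) (ENNReal.ofReal p) volume ≤
      ENNReal.ofReal A * (eLpNorm g (ENNReal.ofReal p) volume *
        ∏ i : Fin k, eLpNorm (φ i) (ENNReal.ofReal p) volume) := by
  have hp0 : 0 < p := by linarith
  have hP0 : ENNReal.ofReal p ≠ 0 := by simpa using hp0
  have hPt : (ENNReal.ofReal p).toReal = p := ENNReal.toReal_ofReal hp0.le
  -- degenerate case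
  by_cases hz : eLpNorm g (ENNReal.ofReal p) volume = 0 ∨
      ∃ i, eLpNorm (φ i) (ENNReal.ofReal p) volume = 0
  · have hf0 : f =ᵐ[volume] 0 := by
      rcases hz with hz | ⟨i, hz⟩
      · rw [eLpNorm_eq_zero_iff hg.aestronglyMeasurable hP0] at hz
        have h1 := ae_two (k := k) (P := fun z => g z = 0) hz
        filter_upwards [h1] with x hx
        have h2 := hdom x
        rw [hx, abs_zero, zero_mul] at h2
        simpa using h2
      · rw [eLpNorm_eq_zero_iff (hφ i).aestronglyMeasurable hP0] at hz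
        have h1 := ae_one (m := k + 1) i.succ.succ (P := fun z => φ i z = 0) hz
        filter_upwards [h1] with x hx
        have h2 := hdom x
        have h3 : ∏ i : Fin k, |φ i (x i.succ.succ)| = 0 :=
          Finset.prod_eq_zero (Finset.mem_univ i) (by rw [hx, abs_zero])
        rw [h3, mul_zero] at h2
        simpa using h2
    have h0 : TR (k + 2) (ML ψ L) f = 0 := funext fun x => TR_zero (ML ψ L) f hf0 x
    rw [h0, eLpNorm_zero]
    exact zero_le
  push Not at hz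
  obtain ⟨hz0, hz1⟩ := hz
  by_cases ht : eLpNorm g (ENNReal.ofReal p) volume = ⊤ ∨
      ∃ i, eLpNorm (φ i) (ENNReal.ofReal p) volume = ⊤
  · have hA' : ENNReal.ofReal A ≠ 0 := by simpa using hA
    have htop : eLpNorm g (ENNReal.ofReal p) volume *
        ∏ i : Fin k, eLpNorm (φ i) (ENNReal.ofReal p) volume = ⊤ := by
      rcases ht with ht | ⟨i, ht⟩
      · rw [ht, ENNReal.top_mul (Finset.prod_ne_zero_iff.mpr fun i _ => hz1 i)]
      · rw [← Finset.mul_prod_erase _ _ (Finset.mem_univ i), ht,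
          ENNReal.top_mul (Finset.prod_ne_zero_iff.mpr fun i _ => hz1 i), ENNReal.mul_top hz0]
    rw [htop, ENNReal.mul_top hA']
    exact le_top
  push Not at ht
  obtain ⟨ht0, ht1⟩ := ht
  -- main case
  set N₀ : ℝ := (eLpNorm g (ENNReal.ofReal p) volume).toReal with hN₀
  set N : Fin k → ℝ := fun i => (eLpNorm (φ i) (ENNReal.ofReal p) volume).toReal with hN
  have hN₀0 : 0 ≤ N₀ := ENNReal.toReal_nonneg
  have hN0 : ∀ i, 0 ≤ N i := fun i => ENNReal.toReal_nonneg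
  have e₀ : eLpNorm g (ENNReal.ofReal p) volume = ENNReal.ofReal N₀ := (ENNReal.ofReal_toReal ht0).symm
  have e₁ : ∀ i, eLpNorm (φ i) (ENNReal.ofReal p) volume = ENNReal.ofReal (N i) :=
    fun i => (ENNReal.ofReal_toReal (ht1 i)).symm
  have hR : ENNReal.ofReal A * (eLpNorm g (ENNReal.ofReal p) volume *
        ∏ i : Fin k, eLpNorm (φ i) (ENNReal.ofReal p) volume) =
      ENNReal.ofReal (A * (N₀ * ∏ i, N i)) := by
    rw [ENNReal.ofReal_mul hA.le, ENNReal.ofReal_mul hN₀0, e₀,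
      ENNReal.ofReal_prod_of_nonneg fun i _ => hN0 i]
    congr 2
    exact Finset.prod_congr rfl fun i _ => e₁ i
  rw [hR, eLpNorm_eq_lintegral_rpow_enorm_toReal hP0 ENNReal.ofReal_ne_top, hPt]
  set S : ℕ → Set (E (k + 2)) := fun j =>
    Cube (k + 2) (j : ℝ) ∩ {x | |g (x 0, x 1)| ≤ (j : ℝ) ∧ ∀ i : Fin k, |φ i (x i.succ.succ)| ≤ (j : ℝ)}
    with hS
  have hcoord : ∀ i : Fin (k + 2), Measurable (fun x : E (k + 2) => x i) := by
    intro i
    exact (by fun_prop : Continuous (fun x : E (k + 2) => x i)).measurable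
  have hSm : ∀ j, MeasurableSet (S j) := by
    intro j
    refine (Cube_meas (j : ℝ)).inter ?_
    have h1 : {x : E (k + 2) | |g (x 0, x 1)| ≤ (j : ℝ) ∧ ∀ i : Fin k, |φ i (x i.succ.succ)| ≤ (j : ℝ)} =
        {x : E (k + 2) | |g (x 0, x 1)| ≤ (j : ℝ)} ∩
          ⋂ i : Fin k, {x : E (k + 2) | |φ i (x i.succ.succ)| ≤ (j : ℝ)} := by
      ext x
      simp
    rw [h1]
    refine MeasurableSet.inter ?_ (MeasurableSet.iInter fun i => ?_)
    · exact measurableSet_le (hg.comp ((hcoord 0).prodMk (hcoord 1))).abs measurable_const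
    · exact measurableSet_le ((hφ i).comp (hcoord _)).abs measurable_const
  have hSx : ∀ x, ∀ᶠ j in atTop, x ∈ S j := by
    intro x
    obtain ⟨K, hK⟩ := exists_nat_ge (|g (x 0, x 1)| + ∑ i : Fin k, |φ i (x i.succ.succ)|)
    filter_upwards [Cube_eventually x, eventually_ge_atTop K] with j hj1 hj2
    have hj3 : (K : ℝ) ≤ j := by exact_mod_cast hj2
    have hs0 : 0 ≤ ∑ i : Fin k, |φ i (x i.succ.succ)| := Finset.sum_nonneg fun i _ => abs_nonneg _
    refine ⟨hj1, by linarith, fun i => ?_⟩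
    have h1 : |φ i (x i.succ.succ)| ≤ ∑ i : Fin k, |φ i (x i.succ.succ)| :=
      Finset.single_le_sum (f := fun i : Fin k => |φ i (x i.succ.succ)|)
        (fun i _ => abs_nonneg _) (Finset.mem_univ i)
    linarith [abs_nonneg (g (x 0, x 1))]
  refine fatou_step p hp _ (fun j => TR (k + 2) (ML ψ L) ((S j).indicator f))
    (fun j => TR_meas _ (ML_cont ψ hψ L) (hf.measurable.indicator (hSm j)))
    (fun x => TR_tendsto _ (ML_cont ψ hψ L) (ML_zero ψ hψ L) hf.measurable hfi S hSm hSx x)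
    _ ?_
  intro j hj
  have hj0 : (0 : ℝ) < j := by exact_mod_cast hj
  have hlim : Tendsto (fun δ : ℝ => ENNReal.ofReal (A * ((N₀ + δ) * ∏ i, (N i + δ))))
      (𝓝[>] 0) (𝓝 (ENNReal.ofReal (A * (N₀ * ∏ i, N i)))) := by
    have hc : Continuous (fun δ : ℝ => ENNReal.ofReal (A * ((N₀ + δ) * ∏ i, (N i + δ)))) :=
      ENNReal.continuous_ofReal.comp (by fun_prop)
    have := hc.tendsto 0
    simp only [add_zero] at this
    exact this.mono_left nhdsWithin_le_nhds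
  refine ge_of_tendsto hlim ?_
  filter_upwards [self_mem_nhdsWithin] with δ hδ
  exact trunc_est k ψ L p A hp hcore f hf.measurable g φ hg hφ hdom N₀ hN₀0 N hN0 e₀.le
    (fun i => (e₁ i).le) j hj0 δ hδ

end Pool.Agent.TH558.J717
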