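import Pool.Agent.TH161.KS.Defs

set_option autoImplicit false

open Finset Filter Topology
open scoped Classical

namespace Pool.Agent.TH558.KS_HEAVY

open Pool.Agent.TH161.LW (Om)
open Pool.Agent.TH161.KS

theorem pr_mul {α : Type} [Fintype α] [PartialOrder α] {M : ℕ} (hne : (Om α M).Nonempty)
    (p : (α → ℕ) → Prop) [DecidablePred p] :
    pr α M p * ((Om α M).card : ℝ) = (((Om α M).filter p).card : ℝ) := by
  have hNpos : (0 : ℝ) < (Om α M).card := by exact_mod_cast Finset.card_pos.2 hne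
  unfold pr
  rw [div_mul_cancel₀ _ hNpos.ne']
  congr!

/-- The expected number of elements within `R` units above `x` is at least `R / 4`. -/
theorem many_above {α : Type} [Fintype α] [PartialOrder α] {M : ℕ} (h : Std α M) (x : α)
    (R B : ℝ) (hR : 2000 ≤ R) (hB : R ≤ B) (hr : Rng α M x B (1 / 4)) :
    R / 4 * ((Om α M).card : ℝ) ≤ ∑ f ∈ Om α M,
      ((univ.filter fun z : α => f x < f z ∧ |dd M x z f| ≤ R).card : ℝ) := by
  set U : ℝ := unit α M with hUdef
  have hU : 1 ≤ U := h.unit_ge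
  have hU0 : 0 < U := by linarith
  set v : ℤ := ⌊R * U⌋ with hv
  have hv1 : (v : ℝ) ≤ R * U := Int.floor_le _
  have hv2 : R * U < v + 1 := Int.lt_floor_add_one _
  have hv0 : 0 ≤ v := Int.floor_nonneg.2 (by positivity)
  have hv0' : (0 : ℝ) ≤ v := by exact_mod_cast hv0
  set N : ℝ := ((Om α M).card : ℝ) with hN
  have hNpos : 0 < N := by
    rw [hN]; exact_mod_cast Finset.card_pos.2 h.ne
  set b1 := (Om α M).filter fun f => ((f x : ℝ) < B * U ∨ (M : ℝ) ≤ f x + B * U) with hb1
  set b2 := (Om α M).filter fun f => (0 ≤ (f x : ℤ) + v ∧ (f x : ℤ) + v < M ∧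
      R / 4 ≤ |(cnt f x v : ℝ) - v / U|) with hb2
  have hc1 : (b1.card : ℝ) ≤ N / 4 := by
    have h1 : pr α M (fun f => ((f x : ℝ) < B * U ∨ (M : ℝ) ≤ f x + B * U)) ≤ 1 / 4 := hr
    have h2 := pr_mul h.ne (fun f => ((f x : ℝ) < B * U ∨ (M : ℝ) ≤ f x + B * U))
    rw [hb1, ← h2]
    nlinarith
  have hc2 : (b2.card : ℝ) ≤ N / 4 := by
    have h1 : pr α M (fun f => (0 ≤ (f x : ℤ) + v ∧ (f x : ℤ) + v < M ∧
        R / 4 ≤ |(cnt f x v : ℝ) - v / U|)) ≤
        16 * (|(v : ℝ)| / U + R / 4 + 1) / (R / 4) ^ 2 + 1 / ((Fintype.card α : ℝ) + 1) ^ 4 :=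
      h.lln x v (R / 4) (by linarith)
    have h0 := pr_mul h.ne (fun f => (0 ≤ (f x : ℤ) + v ∧ (f x : ℤ) + v < M ∧
        R / 4 ≤ |(cnt f x v : ℝ) - v / U|))
    have h2 : |(v : ℝ)| / U ≤ R := by
      rw [abs_of_nonneg hv0', div_le_iff₀ hU0]
      exact hv1
    have h3 : 16 * (|(v : ℝ)| / U + R / 4 + 1) / (R / 4) ^ 2 ≤ 3 / 16 := by
      rw [div_le_iff₀ (by positivity)]
      nlinarith
    have h4 : 1 / ((Fintype.card α : ℝ) + 1) ^ 4 ≤ 1 / 16 := by
      have h5 : (1 : ℝ) ≤ Fintype.card α := by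
        exact_mod_cast Fintype.card_pos_iff.2 ⟨x⟩
      have h6 : (2 : ℝ) ^ 4 ≤ ((Fintype.card α : ℝ) + 1) ^ 4 :=
        pow_le_pow_left₀ (by norm_num) (by linarith) 4
      apply one_div_le_one_div_of_le (by norm_num)
      norm_num at h6
      exact h6
    rw [hb2, ← h0]
    nlinarith
  set g := (Om α M) \ (b1 ∪ b2) with hg
  have hgc : N / 2 ≤ (g.card : ℝ) := by
    have h1 : (Om α M).card ≤ g.card + (b1 ∪ b2).card := by
      rw [hg]
      exact Finset.card_le_card_sdiff_add_card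
    have h2 : (b1 ∪ b2).card ≤ b1.card + b2.card := Finset.card_union_le _ _
    have h3 : N ≤ g.card + (b1.card + b2.card) := by
      rw [hN]
      exact_mod_cast h1.trans (Nat.add_le_add_left h2 _)
    linarith
  have hgood : ∀ f ∈ g, R / 2 ≤
      ((univ.filter fun z : α => f x < f z ∧ |dd M x z f| ≤ R).card : ℝ) := by
    intro f hf
    simp only [hg, Finset.mem_sdiff, Finset.mem_union, not_or] at hf
    obtain ⟨hfO, hf1, hf2⟩ := hf
    have hn1 : ¬ ((f x : ℝ) < B * U ∨ (M : ℝ) ≤ f x + B * U) := by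
      intro hc
      exact hf1 (mem_filter.2 ⟨hfO, hc⟩)
    have hn2 : ¬ (0 ≤ (f x : ℤ) + v ∧ (f x : ℤ) + v < M ∧
      R / 4 ≤ |(cnt f x v : ℝ) - v / U|) := by
      intro hc
      exact hf2 (mem_filter.2 ⟨hfO, hc⟩)
    push Not at hn1
    have hlt : (f x : ℤ) + v < M := by
      have h1 : (f x : ℝ) + v < M := by
        have : R * U ≤ B * U := mul_le_mul_of_nonneg_right hB hU0.le
        linarith [hn1.2]
      exact_mod_cast h1
    have hge : 0 ≤ (f x : ℤ) + v := by positivity
    have hcnt : |(cnt f x v : ℝ) - v / U| < R / 4 := by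
      by_contra hc
      rw [not_lt] at hc
      exact hn2 ⟨hge, hlt, hc⟩
    have hlow : R - 1 ≤ v / U := by
      rw [le_div_iff₀ hU0]
      nlinarith
    have hcn : R / 2 ≤ (cnt f x v : ℝ) := by
      have := (abs_lt.1 hcnt).1
      linarith
    have hle : cnt f x v ≤
        ((univ.filter fun z : α => f x < f z ∧ |dd M x z f| ≤ R).card : ℤ) := by
      unfold cnt
      have hsub : (univ.filter fun z : α => (f z : ℤ) ≤ f x + v) ⊆
          (univ.filter fun z : α => f z ≤ f x) ∪
            (univ.filter fun z : α => f x < f z ∧ |dd M x z f| ≤ R) := by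
        intro z hz
        rw [mem_filter] at hz
        rw [mem_union, mem_filter, mem_filter]
        by_cases hzx : f z ≤ f x
        · exact Or.inl ⟨mem_univ _, hzx⟩
        · rw [not_le] at hzx
          refine Or.inr ⟨mem_univ _, hzx, ?_⟩
          unfold dd
          have hzx' : (f x : ℝ) < f z := by exact_mod_cast hzx
          have hz2 : (f z : ℝ) ≤ f x + v := by exact_mod_cast hz.2
          rw [abs_of_nonneg (div_nonneg (by linarith) hU0.le), div_le_iff₀ hU0]
          linarith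
      have h1 := (Finset.card_le_card hsub).trans (Finset.card_union_le _ _)
      have h2 : ((univ.filter fun z : α => (f z : ℤ) ≤ f x + v).card : ℤ) ≤
          (univ.filter fun z : α => f z ≤ f x).card +
            (univ.filter fun z : α => f x < f z ∧ |dd M x z f| ≤ R).card := by
        exact_mod_cast h1
      linarith
    have hle' : (cnt f x v : ℝ) ≤
        ((univ.filter fun z : α => f x < f z ∧ |dd M x z f| ≤ R).card : ℝ) := by
      exact_mod_cast hle
    linarith
  calc R / 4 * N ≤ g.card * (R / 2) := by nlinarith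
    _ = ∑ f ∈ g, R / 2 := by rw [Finset.sum_const, nsmul_eq_mul]
    _ ≤ ∑ f ∈ g, ((univ.filter fun z : α => f x < f z ∧ |dd M x z f| ≤ R).card : ℝ) :=
        Finset.sum_le_sum hgood
    _ ≤ _ := Finset.sum_le_sum_of_subset_of_nonneg Finset.sdiff_subset
        (fun _ _ _ => Nat.cast_nonneg _)

/-- For far elements: the expected number of those that come near `x`. -/
theorem far_le {α : Type} [Fintype α] [PartialOrder α] {M : ℕ} (h : Std α M) (x : α)
    (S : Finset α) (R : ℝ) (hS : ∀ z ∈ S, 2 * R ≤ |hh M z - hh M x|) :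
    ∑ f ∈ Om α M, ((S.filter fun z : α => |dd M x z f| ≤ R).card : ℝ) ≤
      (Om α M).card * ∑ z ∈ S, pr α M (fun f => |hh M z - hh M x| / 2 ≤
        |dd M x z f - (hh M z - hh M x)|) := by
  have hNpos : (0 : ℝ) < (Om α M).card := by exact_mod_cast Finset.card_pos.2 h.ne
  have h1 : ∑ f ∈ Om α M, ((S.filter fun z : α => |dd M x z f| ≤ R).card : ℝ) =
      ∑ z ∈ S, (((Om α M).filter fun f => |dd M x z f| ≤ R).card : ℝ) := by
    simp only [Finset.card_filter, Nat.cast_sum]
    rw [Finset.sum_comm]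
  rw [h1, Finset.mul_sum]
  refine Finset.sum_le_sum (fun z hz => ?_)
  rw [mul_comm, pr_mul h.ne]
  have hsub : ((Om α M).filter fun f => |dd M x z f| ≤ R) ⊆
      ((Om α M).filter fun f => |hh M z - hh M x| / 2 ≤ |dd M x z f - (hh M z - hh M x)|) := by
    intro f hf
    rw [mem_filter] at hf ⊢
    refine ⟨hf.1, ?_⟩
    have h2 := hS z hz
    have h3 : |hh M z - hh M x| ≤ |dd M x z f - (hh M z - hh M x)| + |dd M x z f| := by
      have := abs_sub_abs_le_abs_sub (hh M z - hh M x) (dd M x z f)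
      rw [abs_sub_comm (hh M z - hh M x) (dd M x z f)] at this
      linarith
    linarith [hf.2]
  exact_mod_cast Finset.card_le_card hsub

/-- exponential decay beats linear growth -/
theorem exists_decay (C' c' : ℝ) (hc' : 0 < c') (t : ℝ) (ht : 0 < t) (A : ℝ) :
    ∃ L : ℝ, A ≤ L ∧ C' * L * Real.exp (-(c' * L)) ≤ t := by
  have h1 : Tendsto (fun L : ℝ => L ^ 1 * Real.exp (-c' * L)) atTop (𝓝 0) := by
    have := tendsto_rpow_mul_exp_neg_mul_atTop_nhds_zero 1 c' hc'
    simpa using this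
  have h2 : Tendsto (fun L : ℝ => C' * (L ^ 1 * Real.exp (-c' * L))) atTop (𝓝 (C' * 0)) :=
    h1.const_mul C'
  rw [mul_zero] at h2
  have h3 : ∀ᶠ L : ℝ in atTop, C' * (L ^ 1 * Real.exp (-c' * L)) < t := h2.eventually_lt_const ht
  obtain ⟨L, hL1, hL2⟩ := (h3.and (eventually_ge_atTop A)).exists
  refine ⟨L, hL2, ?_⟩
  have : C' * L * Real.exp (-(c' * L)) = C' * (L ^ 1 * Real.exp (-c' * L)) := by
    rw [pow_one, neg_mul]; ring
  rw [this]
  exact hL1.le

theorem t_HEAVY : P_HEAVY := by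
  intro c C C' c' hFl hVi
  obtain ⟨hC', hc', hV⟩ := hVi
  obtain ⟨L₁, hL1, hL2⟩ := exists_decay C' c' hc' (1 / 8) (by norm_num) 2000
  refine ⟨L₁, by linarith, ?_⟩
  intro α _ _ M hStd R hR hLR hH x hRng
  have hNpos : (0 : ℝ) < (Om α M).card := by exact_mod_cast Finset.card_pos.2 hStd.ne
  have hmany := many_above hStd x R R (by linarith) le_rfl hRng
  set S : Finset α := univ.filter (fun y : α => L₁ * R < |hh M y - hh M x|) with hSdef
  have hfar := far_le hStd x S R (fun z hz => by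
    rw [hSdef, mem_filter] at hz
    nlinarith [hz.2])
  have hVx := hV α M hStd R hR hH L₁ (by linarith) hLR x
  have hsplit : ∀ f ∈ Om α M,
      ((univ.filter fun z : α => f x < f z ∧ |dd M x z f| ≤ R).card : ℝ) ≤
        ((univ.filter fun z : α => |hh M z - hh M x| ≤ L₁ * R).card : ℝ) +
          ((S.filter fun z : α => |dd M x z f| ≤ R).card : ℝ) := by
    intro f _
    have hsub : (univ.filter fun z : α => f x < f z ∧ |dd M x z f| ≤ R) ⊆
        (univ.filter fun z : α => |hh M z - hh M x| ≤ L₁ * R) ∪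
          (S.filter fun z : α => |dd M x z f| ≤ R) := by
      intro z hz
      rw [mem_filter] at hz
      rw [mem_union, mem_filter, mem_filter, hSdef, mem_filter]
      by_cases hzx : |hh M z - hh M x| ≤ L₁ * R
      · exact Or.inl ⟨mem_univ _, hzx⟩
      · exact Or.inr ⟨⟨mem_univ _, not_le.1 hzx⟩, hz.2.2⟩
    exact_mod_cast (Finset.card_le_card hsub).trans (Finset.card_union_le _ _)
  have hsum := Finset.sum_le_sum hsplit
  rw [Finset.sum_add_distrib, Finset.sum_const, nsmul_eq_mul] at hsum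
  have h1 : (Om α M).card * ∑ z ∈ S, pr α M (fun f => |hh M z - hh M x| / 2 ≤
      |dd M x z f - (hh M z - hh M x)|) ≤ (Om α M).card * (C' * L₁ * R * Real.exp (-(c' * L₁))) :=
    mul_le_mul_of_nonneg_left hVx hNpos.le
  have h2 : C' * L₁ * R * Real.exp (-(c' * L₁)) ≤ R / 8 := by
    have : C' * L₁ * R * Real.exp (-(c' * L₁)) = (C' * L₁ * Real.exp (-(c' * L₁))) * R := by ring
    rw [this]
    have hR0 : 0 ≤ R := by linarith
    nlinarith [mul_le_mul_of_nonneg_right hL2 hR0]
  have h3 : (Om α M).card * (R / 8) ≤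
      ((Om α M).card : ℝ) * ((univ.filter fun z : α => |hh M z - hh M x| ≤ L₁ * R).card : ℝ) := by
    have h4 := mul_le_mul_of_nonneg_left h2 hNpos.le
    linarith
  exact le_of_mul_le_mul_left h3 hNpos

end Pool.Agent.TH558.KS_HEAVY
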