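import Mathlib
import Pool.Agent.TH97.GB.Defs

set_option autoImplicit false

/-!
# GB CT (job 1431, helper97, MP_e72dc0_lc): the counting lemma
-/

namespace Pool.Agent.TH558.GB_CT

open Pool.Agent.TH97.GB Filter Topology

/-- the one-variable inequality near `1` -/
theorem one_var (p v : ℕ) (hp : 2 ≤ p) (hv : 1 ≤ v) :
    ∀ᶠ z : ℝ in 𝓝[<] 1, ∑ e ∈ Finset.range p, z ^ (3 * v * e) < p * z ^ (v * (p - 1)) := by
  have hd : HasDerivAt (fun z : ℝ => (∑ e ∈ Finset.range p, z ^ (3 * v * e)) - p * z ^ (v * (p - 1)))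
      ((∑ e ∈ Finset.range p, ((3 * v * e : ℕ) : ℝ) * 1 ^ (3 * v * e - 1)) -
        p * (((v * (p - 1) : ℕ) : ℝ) * 1 ^ (v * (p - 1) - 1))) 1 := by
    refine HasDerivAt.sub ?_ ?_
    · exact HasDerivAt.fun_sum fun e _ => hasDerivAt_pow _ _
    · exact (hasDerivAt_pow _ _).const_mul _
  have hpos : 0 < (∑ e ∈ Finset.range p, ((3 * v * e : ℕ) : ℝ) * 1 ^ (3 * v * e - 1)) -
        p * (((v * (p - 1) : ℕ) : ℝ) * 1 ^ (v * (p - 1) - 1)) := by
    simp only [one_pow, mul_one]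
    have h1 : ∑ e ∈ Finset.range p, ((3 * v * e : ℕ) : ℝ) = 3 * v * ((∑ e ∈ Finset.range p, e : ℕ) : ℝ) := by
      push_cast
      rw [Finset.mul_sum]
    have h2 : ((∑ e ∈ Finset.range p, e : ℕ) : ℝ) * 2 = p * ((p : ℝ) - 1) := by
      have h3 := Finset.sum_range_id_mul_two p
      have h4 : (((∑ e ∈ Finset.range p, e) * 2 : ℕ) : ℝ) = ((p * (p - 1) : ℕ) : ℝ) := by
        exact_mod_cast h3
      rw [Nat.cast_mul, Nat.cast_mul, Nat.cast_sub (by omega)] at h4
      exact_mod_cast h4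
    rw [h1]
    push_cast [Nat.cast_sub (show 1 ≤ p by omega)]
    have h5 : (1 : ℝ) ≤ v := by exact_mod_cast hv
    have h6 : (2 : ℝ) ≤ p := by exact_mod_cast hp
    have h7 : (0 : ℝ) < v * (p * ((p : ℝ) - 1)) := by
      have : (0 : ℝ) < (p : ℝ) - 1 := by linarith
      positivity
    push_cast at h2
    nlinarith [h2, h7]
  have hsl := hasDerivAt_iff_tendsto_slope.mp hd
  have hev := (hsl.eventually (lt_mem_nhds hpos)).filter_mono (nhdsWithin_mono 1
    (show Set.Iio (1 : ℝ) ⊆ {1}ᶜ from fun z hz => ne_of_lt hz))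
  filter_upwards [hev, self_mem_nhdsWithin] with z hz hz1
  have hz1' : z < 1 := hz1
  rw [slope_def_field] at hz
  have h0 : (∑ e ∈ Finset.range p, (1 : ℝ) ^ (3 * v * e)) - p * 1 ^ (v * (p - 1)) = 0 := by
    simp
  rw [h0, sub_zero] at hz
  have h8 : z - 1 < 0 := by linarith
  have h9 : (∑ e ∈ Finset.range p, z ^ (3 * v * e)) - p * z ^ (v * (p - 1)) < 0 := by
    by_contra hcon
    push Not at hcon
    have := div_nonpos_of_nonneg_of_nonpos hcon h8.le
    linarith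
  linarith

theorem t_CT : P_CT := by
  intro p M hp
  have hp0 : (0 : ℝ) < p := by
    have : 0 < p := by omega
    exact_mod_cast this
  -- the choice of `z`
  have hz : ∀ᶠ z : ℝ in 𝓝[<] 1, ∀ v ∈ Finset.Icc 1 M,
      ∑ e ∈ Finset.range p, z ^ (3 * v * e) < p * z ^ (v * (p - 1)) := by
    rw [Filter.eventually_all_finset]
    intro v hv
    exact one_var p v hp (Finset.mem_Icc.mp hv).1
  have hz0 : ∀ᶠ z : ℝ in 𝓝[<] 1, 0 < z := nhdsWithin_le_nhds (lt_mem_nhds zero_lt_one)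
  obtain ⟨z, ⟨hz1, hz2⟩, hz3⟩ := ((hz.and hz0).and self_mem_nhdsWithin).exists
  have hz3' : z < 1 := hz3
  -- the choice of `ρ`
  have hρ : ∀ᶠ ρ : ℝ in 𝓝[<] 1, ∀ v ∈ Finset.Icc 1 M,
      ∑ e ∈ Finset.range p, z ^ (3 * v * e) < ρ * (p * z ^ (v * (p - 1))) := by
    rw [Filter.eventually_all_finset]
    intro v hv
    have hc : ContinuousAt (fun ρ : ℝ => ρ * (p * z ^ (v * (p - 1)))) 1 :=
      (continuous_id.mul continuous_const).continuousAt
    have h1 := hz1 v hv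
    refine nhdsWithin_le_nhds (continuousAt_const.eventually_lt hc ?_)
    rw [one_mul]
    exact h1
  obtain ⟨ρ, ⟨hρ1, hρ2⟩, hρ3⟩ := ((hρ.and hz0).and self_mem_nhdsWithin).exists
  refine ⟨ρ, hρ2, hρ3, ?_⟩
  intro r w hw
  classical
  set W : ℕ := ∑ j, w j with hW
  have hzW : 0 < z ^ (W * (p - 1)) := pow_pos hz2 _
  -- the total sum
  have hsum : ∑ e : Fin r → Fin p, z ^ (3 * ∑ j, w j * (e j : ℕ)) =
      ∏ j, ∑ e ∈ Finset.range p, z ^ (3 * w j * e) := by
    have h1 : ∀ j : Fin r, ∑ e ∈ Finset.range p, z ^ (3 * w j * e) =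
        ∑ e : Fin p, z ^ (3 * w j * (e : ℕ)) := fun j =>
      (Fin.sum_univ_eq_sum_range (fun e => z ^ (3 * w j * e)) p).symm
    simp_rw [h1]
    rw [Finset.prod_univ_sum, Fintype.piFinset_univ]
    refine Finset.sum_congr rfl fun e _ => ?_
    rw [Finset.prod_pow_eq_pow_sum, Finset.mul_sum]
    congr 1
    refine Finset.sum_congr rfl fun j _ => ?_
    ring
  have hle : (Nat.card {e : Fin r → Fin p // 3 * ∑ j, w j * (e j : ℕ) ≤ W * (p - 1)} : ℝ) *
      z ^ (W * (p - 1)) ≤ (ρ * p) ^ r * z ^ (W * (p - 1)) := by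
    rw [Nat.card_eq_fintype_card, Fintype.card_subtype]
    calc (((Finset.univ.filter fun e : Fin r → Fin p =>
          3 * ∑ j, w j * (e j : ℕ) ≤ W * (p - 1)).card : ℕ) : ℝ) * z ^ (W * (p - 1))
        = ∑ e ∈ Finset.univ.filter (fun e : Fin r → Fin p =>
          3 * ∑ j, w j * (e j : ℕ) ≤ W * (p - 1)), z ^ (W * (p - 1)) := by
          rw [Finset.sum_const, nsmul_eq_mul]
      _ ≤ ∑ e ∈ Finset.univ.filter (fun e : Fin r → Fin p =>
          3 * ∑ j, w j * (e j : ℕ) ≤ W * (p - 1)), z ^ (3 * ∑ j, w j * (e j : ℕ)) := by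
          refine Finset.sum_le_sum fun e he => ?_
          exact pow_le_pow_of_le_one hz2.le hz3'.le (Finset.mem_filter.mp he).2
      _ ≤ ∑ e : Fin r → Fin p, z ^ (3 * ∑ j, w j * (e j : ℕ)) :=
          Finset.sum_le_sum_of_subset_of_nonneg (Finset.filter_subset _ _)
            fun e _ _ => (pow_pos hz2 _).le
      _ = ∏ j, ∑ e ∈ Finset.range p, z ^ (3 * w j * e) := hsum
      _ ≤ ∏ j, ρ * (p * z ^ (w j * (p - 1))) := by
          refine Finset.prod_le_prod (fun j _ => Finset.sum_nonneg fun e _ => (pow_pos hz2 _).le)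
            fun j _ => ?_
          exact (hρ1 (w j) (Finset.mem_Icc.mpr (hw j))).le
      _ = (ρ * p) ^ r * z ^ (W * (p - 1)) := by
          have h2 : ∀ j : Fin r, ρ * (p * z ^ (w j * (p - 1))) = (ρ * p) * z ^ (w j * (p - 1)) :=
            fun j => by ring
          simp_rw [h2]
          rw [Finset.prod_mul_distrib, Finset.prod_const, Finset.prod_pow_eq_pow_sum,
            ← Finset.sum_mul]
          simp [hW]
  exact le_of_mul_le_mul_right hle hzW

end Pool.Agent.TH558.GB_CT
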