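import Mathlib
import Pool.Agent.TH97.GB.Defs

set_option autoImplicit false

/-!
# GB SR (job 1430, helper97, MP_e72dc0_lc): from a subgroup to the group
-/

namespace Pool.Agent.TH558.GB_SR

open Pool.Agent.TH97.GB

/-- subadditivity of `t ↦ t ^ (2/3)` -/
theorem sub_rpow {α : Type*} (s : Finset α) (f : α → ℕ) :
    ((∑ i ∈ s, f i : ℕ) : ℝ) ^ ((2 : ℝ) / 3) ≤ ∑ i ∈ s, (f i : ℝ) ^ ((2 : ℝ) / 3) := by
  classical
  induction s using Finset.induction_on with
  | empty => simp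
  | insert a s ha ih =>
    rw [Finset.sum_insert ha, Finset.sum_insert ha]
    have h := NNReal.rpow_add_le_add_rpow (f a : NNReal) ((∑ i ∈ s, f i : ℕ) : NNReal)
      (show (0 : ℝ) ≤ 2 / 3 by norm_num) (by norm_num)
    have h2 : ((f a : ℝ) + ((∑ i ∈ s, f i : ℕ) : ℝ)) ^ ((2 : ℝ) / 3) ≤
        (f a : ℝ) ^ ((2 : ℝ) / 3) + ((∑ i ∈ s, f i : ℕ) : ℝ) ^ ((2 : ℝ) / 3) := by
      exact_mod_cast h
    calc ((f a + ∑ i ∈ s, f i : ℕ) : ℝ) ^ ((2 : ℝ) / 3)
        = ((f a : ℝ) + ((∑ i ∈ s, f i : ℕ) : ℝ)) ^ ((2 : ℝ) / 3) := by rw [Nat.cast_add]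
      _ ≤ _ := h2.trans (by linarith)

variable {G : Type} [Group G] (H : Subgroup G)

open Classical in
/-- the slice of `A` in the coset given by `q`, moved to `H` -/
noncomputable def sl [Fintype H] (A : Finset G) (q : G ⧸ H) : Finset H :=
  Finset.univ.filter (fun y : H => (y : G) * (q.out)⁻¹ ∈ A)

theorem mem_sl [Fintype H] (A : Finset G) (q : G ⧸ H) (y : H) :
    y ∈ sl H A q ↔ (y : G) * (q.out)⁻¹ ∈ A := by
  classical
  unfold sl
  rw [Finset.mem_filter]
  simp

theorem sum_sl [Fintype H] [Fintype (G ⧸ H)] (A : Finset G) : ∑ q, (sl H A q).card = A.card := by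
  classical
  have h1 : ∀ q : G ⧸ H, (sl H A q).card =
      (A.filter (fun a => ((a⁻¹ : G) : G ⧸ H) = q)).card := by
    intro q
    refine Finset.card_bij (fun y _ => (y : G) * (q.out)⁻¹) ?_ ?_ ?_
    · intro y hy
      rw [Finset.mem_filter]
      refine ⟨(mem_sl H A q y).mp hy, ?_⟩
      rw [mul_inv_rev, inv_inv]
      have h2 : ((q.out * (y : G)⁻¹ : G) : G ⧸ H) = (q.out : G) := by
        rw [QuotientGroup.eq]
        simp
      rw [h2]
      exact QuotientGroup.out_eq' q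
    · intro y _ y' _ h
      exact Subtype.ext (mul_right_cancel h)
    · intro a ha
      rw [Finset.mem_filter] at ha
      have h2 : ((a⁻¹ : G) : G ⧸ H) = (q.out : G) := by
        rw [ha.2]
        exact (QuotientGroup.out_eq' q).symm
      rw [QuotientGroup.eq, inv_inv] at h2
      refine ⟨⟨a * q.out, h2⟩, ?_, ?_⟩
      · rw [mem_sl]
        simpa using ha.1
      · simp
  rw [Finset.sum_congr rfl fun q _ => h1 q]
  exact (Finset.card_eq_sum_card_fiberwise (fun a _ => Finset.mem_univ _)).symm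

theorem stpp_sl [Fintype H] {ι : Type} {A B C : ι → Finset G} (h : STPP A B C) (q1 q2 q3 : G ⧸ H) :
    STPP (fun i => sl H (A i) q1) (fun i => sl H (B i) q2) (fun i => sl H (C i) q3) := by
  intro i j k a' ha' a ha b' hb' b hb c' hc' c hc he
  rw [mem_sl] at ha' ha hb' hb hc' hc
  have he' : (a' : G) * (a : G)⁻¹ * ((b' : G) * (b : G)⁻¹) * ((c' : G) * (c : G)⁻¹) = 1 := by
    have := congrArg (Subtype.val : H → G) he
    simpa using this
  have key := h i j k _ ha' _ ha _ hb' _ hb _ hc' _ hc (by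
    rw [mul_inv_rev, mul_inv_rev, mul_inv_rev, inv_inv, inv_inv, inv_inv]
    rw [show ∀ x y z : G, x * z⁻¹ * (z * y) = x * y from fun x y z => by group]
    rw [show ∀ x y z : G, x * z⁻¹ * (z * y) = x * y from fun x y z => by group]
    rw [show ∀ x y z : G, x * z⁻¹ * (z * y) = x * y from fun x y z => by group]
    exact he')
  obtain ⟨h1, h2, h3, h4, h5⟩ := key
  exact ⟨h1, h2, Subtype.ext (mul_right_cancel h3), Subtype.ext (mul_right_cancel h4),
    Subtype.ext (mul_right_cancel h5)⟩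

theorem t_SR : P_SR := by
  intro G _ _ H β hH ι _ A B C hS
  classical
  have _ := Fintype.ofFinite G
  have _ := Fintype.ofFinite H
  have _ := Fintype.ofFinite (G ⧸ H)
  have hprod : ∀ i, (A i).card * (B i).card * (C i).card =
      ∑ q : (G ⧸ H) × (G ⧸ H) × (G ⧸ H),
        (sl H (A i) q.1).card * (sl H (B i) q.2.1).card * (sl H (C i) q.2.2).card := by
    intro i
    rw [← sum_sl H (A i), ← sum_sl H (B i), ← sum_sl H (C i), Fintype.sum_prod_type]
    rw [Finset.sum_mul_sum, Finset.sum_mul]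
    refine Finset.sum_congr rfl fun q1 _ => ?_
    rw [Fintype.sum_prod_type, Finset.sum_mul]
    refine Finset.sum_congr rfl fun q2 _ => ?_
    rw [Finset.mul_sum]
  calc ∑ i, (((A i).card * (B i).card * (C i).card : ℕ) : ℝ) ^ ((2 : ℝ) / 3)
      ≤ ∑ i, ∑ q : (G ⧸ H) × (G ⧸ H) × (G ⧸ H),
        (((sl H (A i) q.1).card * (sl H (B i) q.2.1).card * (sl H (C i) q.2.2).card : ℕ) : ℝ) ^
          ((2 : ℝ) / 3) := by
        refine Finset.sum_le_sum fun i _ => ?_
        rw [hprod i]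
        exact sub_rpow _ _
    _ = ∑ q : (G ⧸ H) × (G ⧸ H) × (G ⧸ H), ∑ i,
        (((sl H (A i) q.1).card * (sl H (B i) q.2.1).card * (sl H (C i) q.2.2).card : ℕ) : ℝ) ^
          ((2 : ℝ) / 3) := Finset.sum_comm
    _ ≤ ∑ q : (G ⧸ H) × (G ⧸ H) × (G ⧸ H), β :=
        Finset.sum_le_sum fun q _ => hH ι _ _ _ (stpp_sl H hS q.1 q.2.1 q.2.2)
    _ = (H.index : ℝ) ^ 3 * β := by
        rw [Finset.sum_const, nsmul_eq_mul, Finset.card_univ, Fintype.card_prod, Fintype.card_prod,
          Subgroup.index_eq_card, Nat.card_eq_fintype_card]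
        push_cast
        ring

end Pool.Agent.TH558.GB_SR
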