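import Pool.Agent.TH37.SD.Stmts2

set_option autoImplicit false

namespace Pool.Agent.TH558.SDF

open Pool.Agent.TH37.SD Pool.Agent.TH54.BU

/-- the elements with the twist condition form a subgroup -/
def TwSub {C : Type} [Group C] (z : C) (ζ : ℂ) (hz : ∀ a : C, a * z = z * a) :
    Subgroup (WR C) where
  carrier := {g | Tw z ζ g}
  one_mem' := by
    intro x
    show (0 : ℂ) = ζ * 0
    rw [mul_zero]
  mul_mem' := by
    intro a b ha hb x
    have e : a.right⁻¹ * (z * x) = z * (a.right⁻¹ * x) := by
      rw [← mul_assoc, hz, mul_assoc]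
    have h1 := ha x
    have h2 := hb (a.right⁻¹ * x)
    show Multiplicative.toAdd (a.left (z * x) * b.left (a.right⁻¹ * (z * x))) =
      ζ * Multiplicative.toAdd (a.left x * b.left (a.right⁻¹ * x))
    rw [toAdd_mul, toAdd_mul, e, h1, h2]
    ring
  inv_mem' := by
    intro a ha x
    have e : a.right * (z * x) = z * (a.right * x) := by
      rw [← mul_assoc, hz, mul_assoc]
    have h1 := ha (a.right * x)
    show Multiplicative.toAdd ((a.left (a.right * (z * x)))⁻¹) =
      ζ * Multiplicative.toAdd ((a.left (a.right * x))⁻¹)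
    rw [toAdd_inv, toAdd_inv, e, h1]
    ring

lemma tw_lift {C : Type} [Group C] {z : C} {ζ : ℂ} (hz : ∀ a : C, a * z = z * a) {X : Type}
    {e : X → WR C} (he : ∀ i, Tw z ζ (e i)) (w : FreeGroup X) : Tw z ζ (FreeGroup.lift e w) := by
  have h : FreeGroup.lift e w ∈ TwSub z ζ hz := by
    induction w using FreeGroup.induction_on with
    | C1 => rw [map_one]; exact Subgroup.one_mem _
    | of x => rw [FreeGroup.lift_apply_of]; exact he x
    | inv_of x h => rw [map_inv]; exact Subgroup.inv_mem _ h
    | mul a b ha hb => rw [map_mul]; exact Subgroup.mul_mem _ ha hb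
  exact h

/-- the laws form a subgroup -/
def LawSub (p : ℕ) (ζ : ℂ) (X : Type) : Subgroup (FreeGroup X) where
  carrier := {w | Law p ζ w}
  one_mem' := by
    intro C _ z _ e _
    rw [map_one]
  mul_mem' := by
    intro a b ha hb C _ z hC e he
    rw [map_mul, ha C z hC e he, hb C z hC e he, mul_one]
  inv_mem' := by
    intro a ha C _ z hC e he
    rw [map_inv, ha C z hC e he, inv_one]

lemma lawSub_normal (p : ℕ) (ζ : ℂ) (X : Type) : (LawSub p ζ X).Normal := by
  constructor
  intro n hn g C _ z hC e he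
  rw [map_mul, map_mul, map_inv, hn C z hC e he, mul_one, mul_inv_cancel]

lemma lift_lift {X Y G : Type} [Group G] (φ : FreeGroup X →* FreeGroup Y) (e : Y → G)
    (w : FreeGroup X) :
    FreeGroup.lift e (φ w) = FreeGroup.lift (fun n => FreeGroup.lift e (φ (FreeGroup.of n))) w := by
  have h : (FreeGroup.lift e).comp φ =
      FreeGroup.lift (fun n => FreeGroup.lift e (φ (FreeGroup.of n))) := by
    ext n
    simp
  exact DFunLike.congr_fun h w

/-- the verbal subgroup is the set of laws -/
lemma mem_iff (p : ℕ) (ζ : ℂ) (s : ℕ) (g : FreeGroup (Fin s)) :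
    g ∈ Subgroup.normalClosure
      {g : FreeGroup (Fin s) | ∃ w ∈ {w : FreeGroup ℕ | Law p ζ w},
        ∃ φ : FreeGroup ℕ →* FreeGroup (Fin s), φ w = g} ↔ Law p ζ g := by
  constructor
  · intro hg
    have := lawSub_normal p ζ (Fin s)
    have hle : Subgroup.normalClosure
      {g : FreeGroup (Fin s) | ∃ w ∈ {w : FreeGroup ℕ | Law p ζ w},
        ∃ φ : FreeGroup ℕ →* FreeGroup (Fin s), φ w = g} ≤ LawSub p ζ (Fin s) := by
      apply Subgroup.normalClosure_le_normal
      rintro g ⟨w, hw, φ, rfl⟩ C _ z hC e he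
      rw [lift_lift]
      exact hw C z hC _ fun n => tw_lift hC.cen he _
    exact hle hg
  · intro hg
    apply Subgroup.subset_normalClosure
    refine ⟨FreeGroup.map (Fin.val) g, ?_,
      FreeGroup.lift (fun n => if h : n < s then FreeGroup.of ⟨n, h⟩ else 1), ?_⟩
    · intro C _ z hC e he
      have h := hg C z hC (fun i => e i.val) fun i => he _
      have e1 : FreeGroup.lift e (FreeGroup.map Fin.val g) =
          FreeGroup.lift (fun i : Fin s => e i.val) g := by
        rw [lift_lift]
        simp
      rw [e1]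
      exact h
    · rw [lift_lift]
      simp only [FreeGroup.map.of, FreeGroup.lift_apply_of, Fin.is_lt, dite_true, Fin.eta]
      exact FreeGroup.lift_of_apply g

lemma map_nrm {G H : Type} [Group G] [Group H] (F : G →* H) (p : ℕ) (y m : G) :
    F (nrm p y m) = nrm p (F y) (F m) := by
  unfold nrm
  rw [map_list_prod, List.map_map]
  congr 1
  apply List.map_congr_left
  intro i _
  simp

lemma map_wv {G H : Type} [Group G] [Group H] (F : G →* H) (p : ℕ) (y : Fin 5 → G) (x u : G) :
    F (wv p y x u) = wv p (fun i => F (y i)) (F x) (F u) := by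
  unfold wv
  simp only [map_mul, map_inv, map_pow, map_nrm]

/-- the statement S01311 (copied) -/
theorem fin (hE : ELStmt) (h1 : NoSolStmt) (h2 : SolStmt) (h3 : DiscStmt) :
    ∃ (W : Set (FreeGroup ℕ)) (r : ℕ), 0 < r ∧
      (FreeGroup.of (0 : Fin 1)) ∉
        Subgroup.normalClosure
          {g : FreeGroup (Fin 1) | ∃ w ∈ W, ∃ φ : FreeGroup ℕ →* FreeGroup (Fin 1), φ w = g} ∧
      (∀ (s : ℕ) (ws : Finset (FreeGroup (Fin s))),
        (∀ w ∈ ws, w ∉ Subgroup.normalClosure
          {g : FreeGroup (Fin s) | ∃ u ∈ W, ∃ φ : FreeGroup ℕ →* FreeGroup (Fin s), φ u = g}) →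
        ∃ f : Fin s → (FreeGroup (Fin r) ⧸ Subgroup.normalClosure
          {g : FreeGroup (Fin r) | ∃ u ∈ W, ∃ φ : FreeGroup ℕ →* FreeGroup (Fin r), φ u = g}),
          ∀ w ∈ ws, FreeGroup.lift f w ≠ 1) ∧
      ¬ (∀ (k : ℕ) (ws : Finset (FreeGroup (Fin r ⊕ Fin k))) (s : ℕ) (hs : r ≤ s),
        (∃ x : Fin k → (FreeGroup (Fin s) ⧸ Subgroup.normalClosure
            {g : FreeGroup (Fin s) | ∃ u ∈ W, ∃ φ : FreeGroup ℕ →* FreeGroup (Fin s), φ u = g}),
          ∀ w ∈ ws, FreeGroup.lift
            (Sum.elim
              (fun j : Fin r => (QuotientGroup.mk (FreeGroup.of (Fin.castLE hs j)) :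
                FreeGroup (Fin s) ⧸ Subgroup.normalClosure
                  {g : FreeGroup (Fin s) | ∃ u ∈ W, ∃ φ : FreeGroup ℕ →* FreeGroup (Fin s), φ u = g}))
              x) w ≠ 1) →
        ∃ y : Fin k → (FreeGroup (Fin r) ⧸ Subgroup.normalClosure
            {g : FreeGroup (Fin r) | ∃ u ∈ W, ∃ φ : FreeGroup ℕ →* FreeGroup (Fin r), φ u = g}),
          ∀ w ∈ ws, FreeGroup.lift
            (Sum.elim
              (fun j : Fin r => (QuotientGroup.mk (FreeGroup.of j) :
                FreeGroup (Fin r) ⧸ Subgroup.normalClosure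
                  {g : FreeGroup (Fin r) | ∃ u ∈ W, ∃ φ : FreeGroup ℕ →* FreeGroup (Fin r), φ u = g}))
              y) w ≠ 1) := by
  obtain ⟨p0, hp0⟩ := hE
  obtain ⟨p, hpge, hp⟩ := Nat.exists_infinite_primes (p0 + 3)
  have hEL : EL p := hp0 p hp (by omega)
  have hp3 : 3 ≤ p := by omega
  set ζ : ℂ := Complex.exp (2 * Real.pi * Complex.I / p) with hζdef
  have hζ : IsPrimitiveRoot ζ p := Complex.isPrimitiveRoot_exp p hp.ne_zero
  obtain ⟨C, instC, z, hC, xs, us, hxs, hus, hsol⟩ := h2 p hp hp3 ζ hζ
  refine ⟨{w : FreeGroup ℕ | Law p ζ w}, 5, by norm_num, ?_, ?_, ?_⟩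
  · rw [mem_iff]
    intro hlaw
    have hx : xs = 1 := by
      have h := hlaw C z hC (fun _ => xs) fun _ => hxs
      rwa [FreeGroup.lift_apply_of] at h
    apply hsol
    unfold wv
    rw [hx]
    simp
  · intro s ws hws
    obtain ⟨f, hf⟩ := h3 p hp hp3 ζ hζ hEL s ws (fun w hw hl => hws w hw ((mem_iff p ζ s w).2 hl))
    refine ⟨fun i => QuotientGroup.mk' _ (f i), ?_⟩
    intro w hw hone
    apply hf w hw
    rw [← mem_iff, ← QuotientGroup.eq_one_iff]
    have e : FreeGroup.lift (fun i => QuotientGroup.mk' (Subgroup.normalClosure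
        {g : FreeGroup (Fin 5) | ∃ u ∈ {w : FreeGroup ℕ | Law p ζ w},
          ∃ φ : FreeGroup ℕ →* FreeGroup (Fin 5), φ u = g}) (f i)) w =
        QuotientGroup.mk' _ (FreeGroup.lift f w) := by
      symm
      apply FreeGroup.lift_unique ((QuotientGroup.mk' _).comp (FreeGroup.lift f))
      intro x
      simp
    rw [e] at hone
    exact hone
  · intro hall
    obtain ⟨y, hy⟩ := hall 2 {wv p (fun i : Fin 5 => FreeGroup.of (Sum.inl i))
      (FreeGroup.of (Sum.inr 0)) (FreeGroup.of (Sum.inr 1))} 7 (by norm_num) (by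
        refine ⟨![QuotientGroup.mk (FreeGroup.of 5), QuotientGroup.mk (FreeGroup.of 6)], ?_⟩
        intro w hw
        rw [Finset.mem_singleton] at hw
        subst hw
        rw [map_wv]
        simp only [FreeGroup.lift_apply_of, Sum.elim_inl, Sum.elim_inr, Matrix.cons_val_zero,
          Matrix.cons_val_one]
        intro hone
        have e := map_wv (QuotientGroup.mk' (Subgroup.normalClosure
          {g : FreeGroup (Fin 7) | ∃ u ∈ {w : FreeGroup ℕ | Law p ζ w},
            ∃ φ : FreeGroup ℕ →* FreeGroup (Fin 7), φ u = g})) p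
          (fun i : Fin 5 => FreeGroup.of (Fin.castLE (by norm_num : 5 ≤ 7) i))
          (FreeGroup.of 5) (FreeGroup.of 6)
        have hone' := e.trans hone
        rw [QuotientGroup.mk'_apply, QuotientGroup.eq_one_iff, mem_iff] at hone'
        have hval := hone' C z hC
          (fun i : Fin 7 => if i = 5 then xs else if i = 6 then us else 1) (by
            intro i
            show Tw z ζ (if i = 5 then xs else if i = 6 then us else 1)
            split_ifs
            · exact hxs
            · exact hus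
            · exact (TwSub z ζ hC.cen).one_mem)
        rw [map_wv] at hval
        simp only [FreeGroup.lift_apply_of] at hval
        have ey : (fun i : Fin 5 => if Fin.castLE (by norm_num : 5 ≤ 7) i = 5 then xs
              else if Fin.castLE (by norm_num : 5 ≤ 7) i = 6 then us else 1) =
            (fun _ : Fin 5 => (1 : WR C)) := by
          funext i
          have hi1 : Fin.castLE (by norm_num : 5 ≤ 7) i ≠ 5 := by
            intro h
            have := congrArg Fin.val h
            simp at this
            omega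
          have hi2 : Fin.castLE (by norm_num : 5 ≤ 7) i ≠ 6 := by
            intro h
            have := congrArg Fin.val h
            simp at this
            omega
          rw [if_neg hi1, if_neg hi2]
        rw [ey, if_pos trivial, if_neg (by decide), if_pos trivial] at hval
        exact hsol hval)
    obtain ⟨X, hX⟩ := QuotientGroup.mk_surjective (y 0)
    obtain ⟨U, hU⟩ := QuotientGroup.mk_surjective (y 1)
    apply hy _ (Finset.mem_singleton_self _)
    rw [map_wv]
    simp only [FreeGroup.lift_apply_of, Sum.elim_inl, Sum.elim_inr]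
    rw [← hX, ← hU]
    have e := map_wv (QuotientGroup.mk' (Subgroup.normalClosure
      {g : FreeGroup (Fin 5) | ∃ u ∈ {w : FreeGroup ℕ | Law p ζ w},
        ∃ φ : FreeGroup ℕ →* FreeGroup (Fin 5), φ u = g})) p
      (fun i : Fin 5 => FreeGroup.of i) X U
    refine e.symm.trans ?_
    rw [QuotientGroup.mk'_apply, QuotientGroup.eq_one_iff, mem_iff]
    intro D _ zD hD e' he'
    rw [map_wv]
    simp only [FreeGroup.lift_apply_of]
    apply h1 p hp hp3 ζ hζ D zD hD e' _ _ he' (tw_lift hD.cen he' U)
    rw [← FreeGroup.range_lift_eq_closure]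
    exact ⟨X, rfl⟩

end Pool.Agent.TH558.SDF
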