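import Mathlib

set_option autoImplicit false

/-! # CR-EXT: abstract Knaster-Reichbach extension theorem -/

namespace Pool.Agent.TH558.CR

open Set Filter Topology

section basic

variable {K : Type} [TopologicalSpace K]

theorem cont_sel {ι Y : Type} [TopologicalSpace ι] [DiscreteTopology ι] [TopologicalSpace Y]
    {f : K → ι} (hf : Continuous f) {F : ι → K → Y} (hF : ∀ i, Continuous (F i)) :
    Continuous fun x => F (f x) x := by
  rw [continuous_iff_continuousAt]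
  intro x
  have h1 : ∀ᶠ y in 𝓝 x, F (f x) y = F (f y) y := by
    have h2 : f ⁻¹' {f x} ∈ 𝓝 x := (hf.isOpen_preimage _ (isOpen_discrete _)).mem_nhds rfl
    filter_upwards [h2] with y hy
    have hy' : f y = f x := hy
    rw [hy']
  exact ((hF (f x)).continuousAt).congr h1

/-- gluing homeomorphisms along clopen partitions -/
theorem patch {ι : Type} [TopologicalSpace ι] [DiscreteTopology ι] {f g : K → ι}
    (hf : Continuous f) (hg : Continuous g) (S : ι → K ≃ₜ K) (h : ∀ x, g (S (f x) x) = f x)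
    (h' : ∀ y, f ((S (g y)).symm y) = g y) :
    ∃ T : K ≃ₜ K, (∀ x, T x = S (f x) x) ∧ ∀ y, T.symm y = (S (g y)).symm y := by
  refine ⟨⟨⟨fun x => S (f x) x, fun y => (S (g y)).symm y, ?_, ?_⟩, ?_, ?_⟩, fun _ => rfl,
    fun _ => rfl⟩
  · intro x
    show (S (g (S (f x) x))).symm (S (f x) x) = x
    rw [h, Homeomorph.symm_apply_apply]
  · intro y
    show S (f ((S (g y)).symm y)) ((S (g y)).symm y) = y
    rw [h', Homeomorph.apply_symm_apply]
  · exact cont_sel hf (fun i => (S i).continuous)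
  · exact cont_sel hg (fun i => (S i).symm.continuous)

theorem cont_ite {Y : Type} [TopologicalSpace Y] {P : Set K} (hP : IsClopen P) {a b : K → Y}
    [DecidablePred (· ∈ P)] (ha : Continuous a) (hb : Continuous b) :
    Continuous fun x => if x ∈ P then a x else b x := by
  refine Continuous.if ?_ ha hb
  intro x hx
  have : frontier {x | x ∈ P} = ∅ := hP.frontier_eq
  rw [this] at hx
  exact absurd hx (notMem_empty x)

end basic

section main

variable {K : Type} [MetricSpace K]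

/-- the peeling hypothesis -/
def Peel (H : K → K → Prop) (A B : Set K) (θ : K → K) : Prop :=
  ∀ P Q C U V : Set K, IsClopen P → IsClopen Q → IsClopen C → IsOpen U → IsOpen V →
      C ⊆ P → (∃ T : K ≃ₜ K, (∀ x, H x (T x)) ∧ T '' P = Q) → θ '' (A ∩ P) = B ∩ Q →
      A ∩ C ⊆ U → θ '' (A ∩ C) ⊆ V →
      ∃ P' Q' : Set K, IsClopen P' ∧ IsClopen Q' ∧ P' ⊆ P ∩ U ∧ Q' ⊆ Q ∩ V ∧
        A ∩ P' = A ∩ C ∧ B ∩ Q' = θ '' (A ∩ C) ∧
        (∃ T : K ≃ₜ K, (∀ x, H x (T x)) ∧ T '' P' = Q') ∧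
        (∃ T : K ≃ₜ K, (∀ x, H x (T x)) ∧ T '' (P \ P') = Q \ Q')

theorem mem_of_image {T : K ≃ₜ K} {P Q : Set K} (h : T '' P = Q) (x : K) : x ∈ P ↔ T x ∈ Q := by
  rw [← h, Homeomorph.image_eq_preimage_symm, mem_preimage, Homeomorph.symm_apply_apply]

theorem mem_of_image' {T : K ≃ₜ K} {P Q : Set K} (h : T '' P = Q) (y : K) :
    y ∈ Q ↔ T.symm y ∈ P := by
  rw [← h, Homeomorph.image_eq_preimage_symm, mem_preimage]

open Classical in
theorem local_step (H : K → K → Prop) (A B : Set K) (θ : K → K) (hθi : InjOn θ A)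
    (peel : Peel H A B θ) {ε : ℝ} (C : K → Set K)
    (hC : ∀ c, IsClopen (C c)) (hCs : ∀ c, ∀ a ∈ A ∩ C c, ∀ a' ∈ A ∩ C c,
      dist a a' ≤ ε / 4 ∧ dist (θ a) (θ a') ≤ ε / 4) (hε : 0 < ε) (t : Finset K) :
    ∀ P Q : Set K, IsClopen P → IsClopen Q → (∃ T : K ≃ₜ K, (∀ x, H x (T x)) ∧ T '' P = Q) →
      θ '' (A ∩ P) = B ∩ Q → A ∩ P ⊆ ⋃ c ∈ t, C c →
      ∃ (T' : K ≃ₜ K) (g : K → ℕ), (∀ x, H x (T' x)) ∧ T' '' P = Q ∧ Continuous g ∧
        (∀ a ∈ A ∩ P, g a ≠ 0 ∧ g (T'.symm (θ a)) = g a) ∧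
        (∀ x ∈ P, ∀ y ∈ P, g x = g y → g x ≠ 0 → dist x y ≤ ε ∧ dist (T' x) (T' y) ≤ ε) ∧
        ∀ x ∈ P, g x ≠ 0 → ∃ a ∈ A ∩ P, g a = g x := by
  induction t using Finset.induction_on with
  | empty =>
    intro P Q hP hQ ⟨T, hT, hTP⟩ hθ hcov
    have hAP : A ∩ P = ∅ := by
      rw [← subset_empty_iff]
      intro a ha
      have := hcov ha
      simp at this
    refine ⟨T, fun _ => 0, hT, hTP, continuous_const, ?_, ?_, ?_⟩
    · intro a ha
      rw [hAP] at ha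
      exact absurd ha (notMem_empty a)
    · intro x _ y _ _ h
      exact absurd rfl h
    · intro x _ h
      exact absurd rfl h
  | insert c t hc ih =>
    intro P Q hP hQ hPQ hθ hcov
    have hCP : IsClopen (C c ∩ P) := (hC c).inter hP
    obtain ⟨P', Q', hP', hQ', hP'U, hQ'V, hAP', hBQ', ⟨T1, hT1, hT1P⟩, hT2⟩ :=
      peel P Q (C c ∩ P) (Metric.thickening (ε / 4) (A ∩ (C c ∩ P)))
        (Metric.thickening (ε / 4) (θ '' (A ∩ (C c ∩ P)))) hP hQ hCP
        Metric.isOpen_thickening Metric.isOpen_thickening inter_subset_right hPQ hθ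
        (Metric.self_subset_thickening (by positivity) _)
        (Metric.self_subset_thickening (by positivity) _)
    have hP'P : P' ⊆ P := fun x hx => (hP'U hx).1
    have hQ'Q : Q' ⊆ Q := fun x hx => (hQ'V hx).1
    have hA1 : A ∩ (P \ P') = (A ∩ P) \ (A ∩ P') := by
      ext x
      constructor
      · rintro ⟨h1, h2, h3⟩
        exact ⟨⟨h1, h2⟩, fun h => h3 h.2⟩
      · rintro ⟨⟨h1, h2⟩, h3⟩
        exact ⟨h1, h2, fun h => h3 ⟨h1, h⟩⟩
    have hθ1 : θ '' (A ∩ P') = B ∩ Q' := by rw [hAP', hBQ']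
    have hθ2 : θ '' (A ∩ (P \ P')) = B ∩ (Q \ Q') := by
      ext y
      constructor
      · rintro ⟨a, ⟨ha, haP, haP'⟩, rfl⟩
        have h1 : θ a ∈ B ∩ Q := hθ ▸ mem_image_of_mem θ ⟨ha, haP⟩
        refine ⟨h1.1, h1.2, fun h2 => ?_⟩
        have h3 : θ a ∈ θ '' (A ∩ P') := hθ1 ▸ ⟨h1.1, h2⟩
        obtain ⟨a', ha', he⟩ := h3
        have h4 := hθi ha'.1 ha he
        exact haP' (h4 ▸ ha'.2)
      · rintro ⟨hyB, hyQ, hyQ'⟩
        have h1 : y ∈ θ '' (A ∩ P) := hθ ▸ ⟨hyB, hyQ⟩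
        obtain ⟨a, ⟨ha, haP⟩, rfl⟩ := h1
        refine ⟨a, ⟨ha, haP, fun h2 => ?_⟩, rfl⟩
        have h3 : θ a ∈ B ∩ Q' := hθ1 ▸ mem_image_of_mem θ ⟨ha, h2⟩
        exact hyQ' h3.2
    have hcov' : A ∩ (P \ P') ⊆ ⋃ c ∈ t, C c := by
      rintro x ⟨hxA, hxP, hxP'⟩
      have h1 := hcov ⟨hxA, hxP⟩
      simp only [Finset.mem_insert, mem_iUnion, exists_prop] at h1 ⊢
      obtain ⟨d, rfl | hd, hxd⟩ := h1
      · exfalso
        have h2 : x ∈ A ∩ P' := by
          rw [hAP']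
          exact ⟨hxA, hxd, hxP⟩
        exact hxP' h2.2
      · exact ⟨d, hd, hxd⟩
    obtain ⟨T2, g2, hT2H, hT2P, hg2, hA2, hd2, hn2⟩ := ih (P \ P') (Q \ Q') (hP.diff hP')
      (hQ.diff hQ') hT2 hθ2 hcov'
    obtain ⟨T3, hT3, hT3P⟩ := hPQ
    -- the patch
    obtain ⟨T, hTx, hTy⟩ := patch (f := fun x => if x ∈ P' then (0 : ℕ) else if x ∈ P then 1 else 2)
      (g := fun y => if y ∈ Q' then (0 : ℕ) else if y ∈ Q then 1 else 2)
      (cont_ite hP' continuous_const (cont_ite hP continuous_const continuous_const))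
      (cont_ite hQ' continuous_const (cont_ite hQ continuous_const continuous_const))
      (fun i => if i = 0 then T1 else if i = 1 then T2 else T3) (by
        intro x
        by_cases h1 : x ∈ P'
        · have h2 := (mem_of_image hT1P x).1 h1
          simp [h1, h2]
        · by_cases h2 : x ∈ P
          · have h3 := (mem_of_image hT2P x).1 ⟨h2, h1⟩
            simp [h1, h2, h3.1, h3.2]
          · have h3 : T3 x ∉ Q := fun h => h2 ((mem_of_image hT3P x).2 h)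
            have h4 : T3 x ∉ Q' := fun h => h3 (hQ'Q h)
            simp [h1, h2, h3, h4]) (by
        intro y
        by_cases h1 : y ∈ Q'
        · have h2 := (mem_of_image' hT1P y).1 h1
          simp [h1, h2]
        · by_cases h2 : y ∈ Q
          · have h3 := (mem_of_image' hT2P y).1 ⟨h2, h1⟩
            simp [h1, h2, h3.1, h3.2]
          · have h3 : T3.symm y ∉ P := fun h => h2 ((mem_of_image' hT3P y).2 h)
            have h4 : T3.symm y ∉ P' := fun h => h3 (hP'P h)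
            simp [h1, h2, h3, h4])
    have e1 : ∀ x ∈ P', T x = T1 x := fun x hx => by rw [hTx]; simp [hx]
    have e2 : ∀ x ∈ P \ P', T x = T2 x := fun x hx => by rw [hTx]; simp [hx.1, hx.2]
    have e3 : ∀ x, x ∉ P → T x = T3 x := fun x hx => by
      have hx' : x ∉ P' := fun h => hx (hP'P h)
      rw [hTx]
      simp [hx, hx']
    have e1' : ∀ y ∈ Q', T.symm y = T1.symm y := fun x hx => by rw [hTy]; simp [hx]
    have e2' : ∀ y ∈ Q \ Q', T.symm y = T2.symm y := fun x hx => by rw [hTy]; simp [hx.1, hx.2]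
    refine ⟨T, fun x => if x ∈ P' then 1 else if g2 x = 0 then 0 else g2 x + 1, ?_, ?_, ?_, ?_, ?_,
      ?_⟩
    · intro x
      by_cases h1 : x ∈ P'
      · rw [e1 x h1]; exact hT1 x
      · by_cases h2 : x ∈ P
        · rw [e2 x ⟨h2, h1⟩]; exact hT2H x
        · rw [e3 x h2]; exact hT3 x
    · rw [Homeomorph.image_eq_preimage_symm]
      ext y
      rw [mem_preimage]
      by_cases h1 : y ∈ Q'
      · rw [e1' y h1]
        exact ⟨fun _ => hQ'Q h1, fun _ => hP'P ((mem_of_image' hT1P y).1 h1)⟩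
      · by_cases h2 : y ∈ Q
        · rw [e2' y ⟨h2, h1⟩]
          exact ⟨fun _ => h2, fun _ => ((mem_of_image' hT2P y).1 ⟨h2, h1⟩).1⟩
        · have h3 : T.symm y = T3.symm y := by
            rw [hTy]; simp [h1, h2]
          rw [h3]
          exact ((mem_of_image' hT3P y)).symm
    · refine cont_ite hP' continuous_const ?_
      have : Continuous fun n : ℕ => if n = 0 then 0 else n + 1 := continuous_of_discreteTopology
      exact this.comp hg2
    · rintro a ⟨haA, haP⟩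
      by_cases h1 : a ∈ P'
      · have h2 : θ a ∈ B ∩ Q' := hθ1 ▸ mem_image_of_mem θ ⟨haA, h1⟩
        have h3 := (mem_of_image' hT1P _).1 h2.2
        rw [e1' _ h2.2]
        simp [h1, h3]
      · have h2 : θ a ∈ B ∩ (Q \ Q') := hθ2 ▸ mem_image_of_mem θ ⟨haA, haP, h1⟩
        have h3 := (mem_of_image' hT2P _).1 h2.2
        rw [e2' _ h2.2]
        obtain ⟨h4, h5⟩ := hA2 a ⟨haA, haP, h1⟩
        simp [h1, h3.2, h4, h5]
    · intro x hx y hy hxy hne
      simp only at hxy hne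
      by_cases h1 : x ∈ P'
      · have h2 : y ∈ P' := by
          by_contra h2
          rw [if_pos h1, if_neg h2] at hxy
          split_ifs at hxy
          all_goals omega
        rw [e1 x h1, e1 y h2]
        obtain ⟨a, ha, hxa⟩ := Metric.mem_thickening_iff.1 (hP'U h1).2
        obtain ⟨b, hb, hyb⟩ := Metric.mem_thickening_iff.1 (hP'U h2).2
        obtain ⟨_, ⟨a', ha', rfl⟩, hxa'⟩ :=
          Metric.mem_thickening_iff.1 (hQ'V ((mem_of_image hT1P x).1 h1)).2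
        obtain ⟨_, ⟨b', hb', rfl⟩, hyb'⟩ :=
          Metric.mem_thickening_iff.1 (hQ'V ((mem_of_image hT1P y).1 h2)).2
        have h3 := (hCs c a ⟨ha.1, ha.2.1⟩ b ⟨hb.1, hb.2.1⟩).1
        have h4 := (hCs c a' ⟨ha'.1, ha'.2.1⟩ b' ⟨hb'.1, hb'.2.1⟩).2
        constructor
        · have := dist_triangle4 x a b y
          rw [dist_comm b y] at this
          linarith
        · have := dist_triangle4 (T1 x) (θ a') (θ b') (T1 y)
          rw [dist_comm (θ b') (T1 y)] at this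
          linarith
      · have h2 : y ∉ P' := by
          intro h2
          rw [if_pos h2, if_neg h1] at hxy
          split_ifs at hxy
          all_goals omega
        rw [if_neg h1, if_neg h2] at hxy
        rw [if_neg h1] at hne
        have h3 : g2 x ≠ 0 := fun h => hne (by rw [if_pos h])
        have h4 : g2 x = g2 y := by
          rw [if_neg h3] at hxy
          split_ifs at hxy
          all_goals omega
        rw [e2 x ⟨hx, h1⟩, e2 y ⟨hy, h2⟩]
        exact hd2 x ⟨hx, h1⟩ y ⟨hy, h2⟩ h4 h3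
    · intro x hx hne
      simp only at hne
      by_cases h1 : x ∈ P'
      · obtain ⟨a, ha, -⟩ := Metric.mem_thickening_iff.1 (hP'U h1).2
        have h2 : a ∈ A ∩ P' := by rw [hAP']; exact ha
        exact ⟨a, ⟨ha.1, hP'P h2.2⟩, by simp [h1, h2.2]⟩
      · rw [if_neg h1] at hne
        have h3 : g2 x ≠ 0 := fun h => hne (by rw [if_pos h])
        obtain ⟨a, ha, hag⟩ := hn2 x ⟨hx, h1⟩ h3
        exact ⟨a, ⟨ha.1, ha.2.1⟩, by simp [h1, ha.2.2, hag]⟩

variable [CompactSpace K] [TotallyDisconnectedSpace K]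

theorem local_step' (H : K → K → Prop) (A B : Set K) (hA : IsClosed A) (θ : K → K)
    (hθc : ContinuousOn θ A) (hθi : InjOn θ A) (peel : Peel H A B θ) {ε : ℝ} (hε : 0 < ε)
    (P Q : Set K) (hP : IsClopen P) (hQ : IsClopen Q)
    (hPQ : ∃ T : K ≃ₜ K, (∀ x, H x (T x)) ∧ T '' P = Q) (hθ : θ '' (A ∩ P) = B ∩ Q) :
      ∃ (T' : K ≃ₜ K) (g : K → ℕ), (∀ x, H x (T' x)) ∧ T' '' P = Q ∧ Continuous g ∧
        (∀ a ∈ A ∩ P, g a ≠ 0 ∧ g (T'.symm (θ a)) = g a) ∧
        (∀ x ∈ P, ∀ y ∈ P, g x = g y → g x ≠ 0 → dist x y ≤ ε ∧ dist (T' x) (T' y) ≤ ε) ∧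
        ∀ x ∈ P, g x ≠ 0 → ∃ a ∈ A ∩ P, g a = g x := by
  have h1 : ∀ x : K, ∃ C : Set K, IsClopen C ∧ (x ∈ A → x ∈ C) ∧ ∀ a ∈ A ∩ C, ∀ a' ∈ A ∩ C,
      dist a a' ≤ ε / 4 ∧ dist (θ a) (θ a') ≤ ε / 4 := by
    intro x
    by_cases hx : x ∈ A
    · have h2 : ∀ᶠ y in 𝓝[A] x, dist (θ y) (θ x) < ε / 8 :=
        (hθc x hx) (Metric.ball_mem_nhds (θ x) (by positivity))
      rw [eventually_nhdsWithin_iff] at h2
      have h3 : ∀ᶠ y in 𝓝 x, dist y x < ε / 8 := Metric.ball_mem_nhds x (by positivity)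
      obtain ⟨O, hO, hOo, hxO⟩ := eventually_nhds_iff.1 (h2.and h3)
      obtain ⟨C, hC, hxC, hCO⟩ := compact_exists_isClopen_in_isOpen hOo hxO
      refine ⟨C, hC, fun _ => hxC, ?_⟩
      intro a ha a' ha'
      obtain ⟨h4, h5⟩ := hO a (hCO ha.2)
      obtain ⟨h6, h7⟩ := hO a' (hCO ha'.2)
      have h8 := dist_triangle_right a a' x
      have h9 := dist_triangle_right (θ a) (θ a') (θ x)
      have h10 := h4 ha.1
      have h11 := h6 ha'.1
      constructor <;> linarith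
    · exact ⟨∅, isClopen_empty, fun h => absurd h hx, fun a ha => absurd ha.2 (notMem_empty a)⟩
  choose C hC hxC hCs using h1
  obtain ⟨t, -, ht⟩ := hA.isCompact.elim_nhds_subcover C
    (fun x hx => (hC x).isOpen.mem_nhds (hxC x hx))
  exact local_step H A B θ hθi peel C hC hCs hε t P Q hP hQ hPQ hθ
    (fun x hx => ht hx.1)

/-- a state of the construction -/
def St (H : K → K → Prop) (A : Set K) (θ : K → K) (f : K → ℕ) (T : K ≃ₜ K) : Prop :=
  Continuous f ∧ (∀ x, H x (T x)) ∧ ∀ a ∈ A, f a ≠ 0 ∧ f (T.symm (θ a)) = f a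

open Classical in
theorem step (H : K → K → Prop) (A B : Set K) (hA : IsClosed A) (θ : K → K)
    (hθc : ContinuousOn θ A) (hθi : InjOn θ A) (hθB : θ '' A = B) (peel : Peel H A B θ) {ε : ℝ}
    (hε : 0 < ε) (f : K → ℕ) (T : K ≃ₜ K) (hS : St H A θ f T) :
    ∃ (f' : K → ℕ) (T' : K ≃ₜ K), St H A θ f' T' ∧
      (∀ x, f x = 0 → T' x = T x ∧ f' x = 0) ∧
      (∀ x, f (T.symm (T' x)) = f x) ∧
      (∀ x y, f' x = f' y → f' x ≠ 0 → f x = f y ∧ dist x y ≤ ε ∧ dist (T' x) (T' y) ≤ ε) ∧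
      ∀ x, f' x ≠ 0 → ∃ a ∈ A, f' a = f' x := by
  obtain ⟨hf, hTH, hfA⟩ := hS
  have hloc : ∀ l : ℕ, ∃ (T' : K ≃ₜ K) (g : K → ℕ), (∀ x, H x (T' x)) ∧
        T' '' (f ⁻¹' {l}) = T '' (f ⁻¹' {l}) ∧ Continuous g ∧
        (∀ a ∈ A ∩ f ⁻¹' {l}, g a ≠ 0 ∧ g (T'.symm (θ a)) = g a) ∧
        (∀ x ∈ f ⁻¹' {l}, ∀ y ∈ f ⁻¹' {l}, g x = g y → g x ≠ 0 →
          dist x y ≤ ε ∧ dist (T' x) (T' y) ≤ ε) ∧
        ∀ x ∈ f ⁻¹' {l}, g x ≠ 0 → ∃ a ∈ A ∩ f ⁻¹' {l}, g a = g x := by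
    intro l
    have hcl : IsClopen (f ⁻¹' {l}) := (isClopen_discrete {l}).preimage hf
    refine local_step' H A B hA θ hθc hθi peel hε (f ⁻¹' {l}) (T '' (f ⁻¹' {l})) hcl
      ⟨T.isClosed_image.2 hcl.1, T.isOpen_image.2 hcl.2⟩ ⟨T, hTH, rfl⟩ ?_
    ext y
    constructor
    · rintro ⟨a, ⟨ha, hal⟩, rfl⟩
      refine ⟨hθB ▸ mem_image_of_mem θ ha, T.symm (θ a), ?_, T.apply_symm_apply _⟩
      show f (T.symm (θ a)) = l
      rw [(hfA a ha).2]
      exact hal
    · rintro ⟨hyB, x, hx, rfl⟩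
      rw [← hθB] at hyB
      obtain ⟨a, ha, hay⟩ := hyB
      refine ⟨a, ⟨ha, ?_⟩, hay⟩
      show f a = l
      rw [← (hfA a ha).2, hay, T.symm_apply_apply]
      exact hx
  choose T1 g h1 h2 h3 h4 h5 h6 using hloc
  obtain ⟨S, hS0, hSn⟩ : ∃ S : ℕ → K ≃ₜ K, S 0 = T ∧ ∀ l, l ≠ 0 → S l = T1 l :=
    ⟨fun l => if l = 0 then T else T1 l, if_pos rfl, fun l hl => if_neg hl⟩
  have hS1 : ∀ l : ℕ, S l '' (f ⁻¹' {l}) = T '' (f ⁻¹' {l}) := by
    intro l
    by_cases h : l = 0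
    · rw [h, hS0]
    · rw [hSn l h]; exact h2 l
  have hmem : ∀ (l : ℕ) (x : K), f x = l → f (T.symm (S l x)) = l := by
    intro l x hx
    have h7 : S l x ∈ T '' (f ⁻¹' {l}) := hS1 l ▸ mem_image_of_mem (S l) hx
    obtain ⟨z, hz, hzx⟩ := h7
    rw [← hzx, T.symm_apply_apply]
    exact hz
  have hmem' : ∀ (l : ℕ) (y : K), f (T.symm y) = l → f ((S l).symm y) = l := by
    intro l y hy
    have h7 : y ∈ S l '' (f ⁻¹' {l}) := by
      rw [hS1 l]
      exact ⟨T.symm y, hy, T.apply_symm_apply y⟩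
    obtain ⟨z, hz, hzx⟩ := h7
    rw [← hzx, Homeomorph.symm_apply_apply]
    exact hz
  obtain ⟨T', hTx, hTy⟩ := patch (f := f) (g := fun y => f (T.symm y)) hf
    (hf.comp T.symm.continuous) S
    (fun x => hmem (f x) x rfl) (fun y => hmem' _ y rfl)
  set F : ℕ × ℕ → ℕ := fun p => if p.1 = 0 ∨ p.2 = 0 then 0 else Nat.pair p.1 p.2 + 1 with hF
  have hFne : ∀ p, F p ≠ 0 → p.1 ≠ 0 ∧ p.2 ≠ 0 := by
    intro p hp
    rw [hF] at hp
    simp only at hp
    by_contra hcon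
    apply hp
    rw [if_pos]
    tauto
  have hFinj : ∀ p q, F p = F q → F p ≠ 0 → p = q := by
    intro p q hpq hp
    have hq : F q ≠ 0 := hpq ▸ hp
    have hp' := hFne p hp
    have hq' := hFne q hq
    have e1 : F p = Nat.pair p.1 p.2 + 1 := by
      rw [hF]; simp only; rw [if_neg]; tauto
    have e2 : F q = Nat.pair q.1 q.2 + 1 := by
      rw [hF]; simp only; rw [if_neg]; tauto
    rw [e1, e2] at hpq
    have := Nat.pair_eq_pair.1 (Nat.succ_injective hpq)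
    exact Prod.ext this.1 this.2
  have hgc : Continuous fun x => g (f x) x := cont_sel hf h3
  refine ⟨fun x => F (f x, g (f x) x), T', ⟨?_, ?_, ?_⟩, ?_, ?_, ?_, ?_⟩
  · exact (continuous_of_discreteTopology (f := F)).comp (hf.prodMk hgc)
  · intro x
    rw [hTx]
    by_cases h : f x = 0
    · rw [h, hS0]; exact hTH x
    · rw [hSn _ h]; exact h1 _ x
  · intro a ha
    obtain ⟨h7, h8⟩ := hfA a ha
    obtain ⟨h9, h10⟩ := h4 (f a) a ⟨ha, rfl⟩
    have e1 : T'.symm (θ a) = (T1 (f a)).symm (θ a) := by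
      rw [hTy, h8, hSn _ h7]
    have e2 : f (T'.symm (θ a)) = f a := by
      have := hmem' (f a) (θ a) h8
      rw [hSn _ h7] at this
      rw [e1]; exact this
    constructor
    · show F (f a, g (f a) a) ≠ 0
      rw [hF]
      simp only
      rw [if_neg (by tauto)]
      omega
    · show F (f (T'.symm (θ a)), g (f (T'.symm (θ a))) (T'.symm (θ a))) = F (f a, g (f a) a)
      rw [e2, e1, h10]
  · intro x hx
    refine ⟨?_, ?_⟩
    · rw [hTx, hx, hS0]
    · show F (f x, g (f x) x) = 0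
      rw [hF, hx]
      simp
  · intro x
    rw [hTx]
    exact hmem (f x) x rfl
  · intro x y hxy hne
    have h7 := hFinj _ _ hxy hne
    have h8 := hFne _ hne
    simp only at h8
    rw [Prod.mk.injEq] at h7
    obtain ⟨h9, h10⟩ := h7
    rw [← h9] at h10
    have h11 := h5 (f x) x rfl y h9.symm h10 h8.2
    refine ⟨h9, h11.1, ?_⟩
    rw [hTx, hTx, ← h9, hSn _ h8.1]
    exact h11.2
  · intro x hne
    have h8 := hFne _ hne
    simp only at h8
    obtain ⟨a, ⟨ha, hal⟩, hag⟩ := h6 (f x) x rfl h8.2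
    have hal' : f a = f x := hal
    refine ⟨a, ha, ?_⟩
    show F (f a, g (f a) a) = F (f x, g (f x) x)
    rw [hal', hag]

/-- JOB EXT (abstract Knaster-Reichbach extension theorem) -/
theorem extension
    (H : K → K → Prop) (hH : Equivalence H) (A B : Set K) (hA : IsClosed A) (_hB : IsClosed B)
    (θ : K → K) (hθc : ContinuousOn θ A) (hθi : InjOn θ A) (hθB : θ '' A = B)
    (peel : ∀ P Q C U V : Set K, IsClopen P → IsClopen Q → IsClopen C → IsOpen U → IsOpen V →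
      C ⊆ P → (∃ T : K ≃ₜ K, (∀ x, H x (T x)) ∧ T '' P = Q) → θ '' (A ∩ P) = B ∩ Q →
      A ∩ C ⊆ U → θ '' (A ∩ C) ⊆ V →
      ∃ P' Q' : Set K, IsClopen P' ∧ IsClopen Q' ∧ P' ⊆ P ∩ U ∧ Q' ⊆ Q ∩ V ∧
        A ∩ P' = A ∩ C ∧ B ∩ Q' = θ '' (A ∩ C) ∧
        (∃ T : K ≃ₜ K, (∀ x, H x (T x)) ∧ T '' P' = Q') ∧
        (∃ T : K ≃ₜ K, (∀ x, H x (T x)) ∧ T '' (P \ P') = Q \ Q')) :
    ∃ T : K ≃ₜ K, (∀ a ∈ A, T a = θ a) ∧ ∀ x, x ∉ A → H x (T x) := by
  have hst : ∀ (n : ℕ) (p : {p : (K → ℕ) × (K ≃ₜ K) // St H A θ p.1 p.2}),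
      ∃ q : {p : (K → ℕ) × (K ≃ₜ K) // St H A θ p.1 p.2},
      (∀ x, p.1.1 x = 0 → q.1.2 x = p.1.2 x ∧ q.1.1 x = 0) ∧
      (∀ x, p.1.1 (p.1.2.symm (q.1.2 x)) = p.1.1 x) ∧
      (∀ x y, q.1.1 x = q.1.1 y → q.1.1 x ≠ 0 → p.1.1 x = p.1.1 y ∧ dist x y ≤ (1 / 2) ^ n ∧
        dist (q.1.2 x) (q.1.2 y) ≤ (1 / 2) ^ n) ∧
      ∀ x, q.1.1 x ≠ 0 → ∃ a ∈ A, q.1.1 a = q.1.1 x := by
    intro n p
    obtain ⟨f', T', h1, h2⟩ := step H A B hA θ hθc hθi hθB peel
      (show (0 : ℝ) < (1 / 2) ^ n by positivity) p.1.1 p.1.2 p.2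
    exact ⟨⟨(f', T'), h1⟩, h2⟩
  choose nx hnx using hst
  let p0 : {p : (K → ℕ) × (K ≃ₜ K) // St H A θ p.1 p.2} :=
    ⟨(fun _ => 1, Homeomorph.refl K), continuous_const, fun x => hH.refl x,
      fun a _ => ⟨one_ne_zero, rfl⟩⟩
  let p : ℕ → {p : (K → ℕ) × (K ≃ₜ K) // St H A θ p.1 p.2} := fun n => Nat.rec p0 nx n
  have hp : ∀ n, p (n + 1) = nx n (p n) := fun n => rfl
  obtain ⟨f, hf⟩ : ∃ f : ℕ → K → ℕ, ∀ n, f n = (p n).1.1 := ⟨_, fun _ => rfl⟩
  obtain ⟨T, hT⟩ : ∃ T : ℕ → K ≃ₜ K, ∀ n, T n = (p n).1.2 := ⟨_, fun _ => rfl⟩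
  have hS : ∀ n, St H A θ (f n) (T n) := fun n => by rw [hf, hT]; exact (p n).2
  have hr : ∀ n, (∀ x, f n x = 0 → T (n + 1) x = T n x ∧ f (n + 1) x = 0) ∧
      (∀ x, f n ((T n).symm (T (n + 1) x)) = f n x) ∧
      (∀ x y, f (n + 1) x = f (n + 1) y → f (n + 1) x ≠ 0 → f n x = f n y ∧
        dist x y ≤ (1 / 2) ^ n ∧ dist (T (n + 1) x) (T (n + 1) y) ≤ (1 / 2) ^ n) ∧
      ∀ x, f (n + 1) x ≠ 0 → ∃ a ∈ A, f (n + 1) a = f (n + 1) x := by
    intro n
    rw [hf, hT, hf, hT, hp]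
    exact hnx n (p n)
  clear_value p
  -- refinement
  have href : ∀ n m, n ≤ m → ∀ x y, f m x = f m y → f m x ≠ 0 → f n x = f n y ∧ f n x ≠ 0 := by
    intro n m hnm
    induction m, hnm using Nat.le_induction with
    | base => exact fun x y h1 h2 => ⟨h1, h2⟩
    | succ m hnm ih =>
      intro x y h1 h2
      have h3 : f m x ≠ 0 := fun h => h2 ((hr m).1 x h).2
      exact ih x y ((hr m).2.2.1 x y h1 h2).1 h3
  have hR : ∀ n m, n ≤ m → ∀ x, f n ((T n).symm (T m x)) = f n x ∧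
      (f n x = 0 → T m x = T n x ∧ f m x = 0) := by
    intro n m hnm
    induction m, hnm using Nat.le_induction with
    | base => exact fun x => ⟨by rw [Homeomorph.symm_apply_apply], fun h => ⟨rfl, h⟩⟩
    | succ m hnm ih =>
      intro x
      refine ⟨?_, ?_⟩
      · have h1 := (ih ((T m).symm (T (m + 1) x))).1
        rw [Homeomorph.apply_symm_apply] at h1
        rw [h1]
        by_cases h2 : f m x = 0
        · rw [((hr m).1 x h2).1, Homeomorph.symm_apply_apply]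
        · exact ((href n m hnm x _ ((hr m).2.1 x).symm h2).1).symm
      · intro h
        obtain ⟨h1, h2⟩ := (ih x).2 h
        obtain ⟨h3, h4⟩ := (hr m).1 x h2
        exact ⟨h3.trans h1, h4⟩
  have hd1 : ∀ n m, n + 1 ≤ m → ∀ x, dist (T m x) (T (n + 1) x) ≤ (1 / 2) ^ n := by
    intro n m hnm x
    obtain ⟨h1, h2⟩ := hR (n + 1) m hnm x
    by_cases h3 : f (n + 1) x = 0
    · rw [(h2 h3).1, dist_self]; positivity
    · have h4 := ((hr n).2.2.1 ((T (n + 1)).symm (T m x)) x h1 (h1 ▸ h3)).2.2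
      rwa [Homeomorph.apply_symm_apply] at h4
  have hd2 : ∀ n m, n + 1 ≤ m → ∀ y, dist ((T m).symm y) ((T (n + 1)).symm y) ≤ (1 / 2) ^ n := by
    intro n m hnm y
    obtain ⟨h1, h2⟩ := hR (n + 1) m hnm ((T m).symm y)
    rw [Homeomorph.apply_symm_apply] at h1 h2
    by_cases h3 : f (n + 1) ((T m).symm y) = 0
    · have h4 : (T (n + 1)).symm y = (T m).symm y := by
        rw [Homeomorph.symm_apply_eq]; exact (h2 h3).1
      rw [h4, dist_self]; positivity
    · have h4 := ((hr n).2.2.1 ((T (n + 1)).symm y) ((T m).symm y) h1 (h1 ▸ h3)).2.1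
      rwa [dist_comm]
  have hhalf : Tendsto (fun n : ℕ => ((1 : ℝ) / 2) ^ n) atTop (𝓝 0) :=
    tendsto_pow_atTop_nhds_zero_of_lt_one (by norm_num) (by norm_num)
  -- uniform limits
  have hlim : ∀ F : ℕ → K → K, (∀ n m, n + 1 ≤ m → ∀ x, dist (F m x) (F (n + 1) x) ≤ (1 / 2) ^ n) →
      ∃ G : K → K, TendstoUniformly F G atTop := by
    intro F hF
    have hc : ∀ x, ∃ y, Tendsto (fun n => F n x) atTop (𝓝 y) := by
      intro x
      refine cauchySeq_tendsto_of_complete ?_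
      rw [Metric.cauchySeq_iff']
      intro ε hε
      obtain ⟨n, hn⟩ := (hhalf.eventually_lt_const hε).exists
      exact ⟨n + 1, fun m hm => (hF n m hm x).trans_lt hn⟩
    choose G hG using hc
    refine ⟨G, ?_⟩
    rw [Metric.tendstoUniformly_iff]
    intro ε hε
    have h1 : ∀ᶠ n : ℕ in atTop, (1 / 2 : ℝ) ^ n < ε := hhalf.eventually_lt_const hε
    have h2 : ∀ᶠ n : ℕ in atTop, ∀ x, dist (G x) (F (n + 1) x) < ε := by
      filter_upwards [h1] with n hn x
      refine lt_of_le_of_lt ?_ hn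
      refine le_of_tendsto ((hG x).dist tendsto_const_nhds) ?_
      filter_upwards [eventually_ge_atTop (n + 1)] with m hm
      exact hF n m hm x
    obtain ⟨N, hN⟩ := eventually_atTop.1 h2
    filter_upwards [eventually_ge_atTop (N + 1)] with n hn
    obtain ⟨k, rfl⟩ : ∃ k, n = k + 1 := ⟨n - 1, by omega⟩
    exact hN k (by omega)
  obtain ⟨G, hG⟩ := hlim (fun n => T n) hd1
  obtain ⟨G', hG'⟩ := hlim (fun n => (T n).symm) hd2
  have hGc : Continuous G := hG.continuous (Frequently.of_forall fun n => (T n).continuous)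
  have hG'c : Continuous G' := hG'.continuous (Frequently.of_forall fun n => (T n).symm.continuous)
  have hGG' : ∀ y, G (G' y) = y := by
    intro y
    have h1 := hG.tendsto_comp (hGc.continuousAt (x := G' y)) (hG'.tendsto_at y)
    have h2 : (fun n => T n ((T n).symm y)) = fun _ : ℕ => y := by
      funext n
      rw [Homeomorph.apply_symm_apply]
    rw [h2] at h1
    exact tendsto_nhds_unique h1 tendsto_const_nhds
  have hG'G : ∀ x, G' (G x) = x := by
    intro x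
    have h1 := hG'.tendsto_comp (hG'c.continuousAt (x := G x)) (hG.tendsto_at x)
    have h2 : (fun n => (T n).symm (T n x)) = fun _ : ℕ => x := by
      funext n
      rw [Homeomorph.symm_apply_apply]
    rw [h2] at h1
    exact tendsto_nhds_unique h1 tendsto_const_nhds
  refine ⟨⟨⟨G, G', hG'G, hGG'⟩, hGc, hG'c⟩, ?_, ?_⟩
  · intro a ha
    show G a = θ a
    have h1 := (hG.tendsto_at a).comp (tendsto_add_atTop_nat 1)
    refine tendsto_nhds_unique h1 ?_
    rw [tendsto_iff_dist_tendsto_zero]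
    refine squeeze_zero (fun _ => dist_nonneg) (fun n => ?_) hhalf
    obtain ⟨-, -, h2⟩ := hS (n + 1)
    obtain ⟨h3, h4⟩ := h2 a ha
    have h5 := ((hr n).2.2.1 _ _ h4 (h4 ▸ h3)).2.2
    rw [Homeomorph.apply_symm_apply] at h5
    show dist (T (n + 1) a) (θ a) ≤ (1 / 2) ^ n
    rwa [dist_comm]
  · intro x hx
    show H x (G x)
    have h1 : ∃ n, f (n + 1) x = 0 := by
      by_contra hcon
      push Not at hcon
      apply hx
      rw [← hA.closure_eq, Metric.mem_closure_iff]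
      intro ε hε
      obtain ⟨n, hn⟩ := (hhalf.eventually_lt_const hε).exists
      obtain ⟨a, ha, hax⟩ := (hr n).2.2.2 x (hcon n)
      exact ⟨a, ha, lt_of_le_of_lt ((hr n).2.2.1 x a hax.symm (hcon n)).2.1 hn⟩
    obtain ⟨n, hn⟩ := h1
    have h2 : G x = T (n + 1) x := by
      refine tendsto_nhds_unique (hG.tendsto_at x) ?_
      refine tendsto_const_nhds.congr' ?_
      filter_upwards [eventually_ge_atTop (n + 1)] with m hm
      exact (((hR (n + 1) m hm x).2 hn).1).symm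
    rw [h2]
    exact (hS (n + 1)).2.1 x

end main

end Pool.Agent.TH558.CR
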