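import Pool.Agent.TH547.Arc.Mark
import Pool.Agent.TH304.J770
set_option autoImplicit false

/-!
Job 890 (helper547, MP_e5080e_gt): maps of chain complexes induced by natural maps of cells.
-/

open Finset Equiv
open Pool.Agent.TH547.Arc Pool.Agent.TH547.Arc.Sys

namespace Pool.Agent.TH558.J890

variable {S : Sys} {F : Finset ℕ}

theorem fil_congr {s : Finset ℕ} {p q : ℕ → Prop} (ip : DecidablePred p) (iq : DecidablePred q)
    (h : ∀ a ∈ s, (p a ↔ q a)) : @Finset.filter ℕ p ip s = @Finset.filter ℕ q iq s := by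
  ext a
  rw [@Finset.mem_filter ℕ p ip, @Finset.mem_filter ℕ q iq]
  exact ⟨fun h' => ⟨h'.1, (h a h'.1).1 h'.2⟩, fun h' => ⟨h'.1, (h a h'.1).2 h'.2⟩⟩

theorem push_single {P : S.C → Prop} {f : S.C → S.C} (hP : Inv F P) (hf : Nat F P f) {X : S.C}
    (hX : P X) (n : ℤ) :
    push F P f (Finsupp.single (S.cl F X) n) = Finsupp.single (S.cl F (f X)) n := by
  have hq : pq F P (S.cl F X) := ⟨X, rfl, hX⟩
  unfold push
  rw [Finsupp.lsum_single, dif_pos hq]
  change Finsupp.single (S.cl F (f hq.choose)) n = _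
  obtain ⟨h1, h2⟩ := hq.choose_spec
  obtain ⟨π, hπ, h3⟩ := cl_eq.1 h1.symm
  rw [h3, hf.rn X hX π hπ, cl_rn hπ]

theorem nm_nat {P : S.C → Prop} {f : S.C → S.C} (hf : Nat F P f) {X : S.C} (hX : P X) :
    S.nm (f X) = S.nm X := by
  unfold Sys.nm
  rw [hf.ord X hX]

theorem sg_nat {P : S.C → Prop} {f : S.C → S.C} (hf : Nat F P f) {X : S.C} (hX : P X) (a : ℕ) :
    S.sg (f X) a = S.sg X a := by
  unfold Sys.sg
  rw [hf.ord X hX]

theorem deg_nat {P : S.C → Prop} {f : S.C → S.C} (hf : Nat F P f) {X : S.C} (hX : P X) :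
    deg F (f X) = deg F X := by
  unfold Sys.deg
  rw [nm_nat hf hX]

theorem nat_mono {P T : S.C → Prop} {f : S.C → S.C} (hf : Nat F P f) (h : ∀ X, T X → P X) :
    Nat F T f :=
  ⟨fun X hX => hf.ord X (h X hX), fun X hX => hf.dl X (h X hX), fun X hX => hf.rn X (h X hX)⟩

theorem push_mem {P R : S.C → Prop} {f : S.C → S.C} (hP : Inv F P) (hf : Nat F P f)
    (h : ∀ X, P X → R (f X)) {i : ℕ} {z : S.Q F →₀ ℤ} (hz : z ∈ Ch F P i) :
    push F P f z ∈ Ch F R i := by
  refine Ch_induction (p := fun z => push F P f z ∈ Ch F R i) ?_ ?_ ?_ z hz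
  · rw [map_zero]; exact Submodule.zero_mem _
  · intro x y hx hy; rw [map_add]; exact Submodule.add_mem _ hx hy
  · intro X n hX hd
    rw [push_single hP hf hX]
    exact single_mem_Ch (h X hX) (by rw [deg_nat hf hX, hd]) n

theorem push_D {P R : S.C → Prop} {f : S.C → S.C} (hP : Inv F P) (hR : Inv F R) (hf : Nat F P f)
    (h : ∀ X, P X → ∀ a ∈ S.nm X \ F, (R (f (S.dl X a)) ↔ P (S.dl X a))) {i : ℕ}
    {z : S.Q F →₀ ℤ} (hz : z ∈ Ch F P i) : D F R (push F P f z) = push F P f (D F P z) := by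
  classical
  refine Ch_induction (p := fun z => D F R (push F P f z) = push F P f (D F P z)) ?_ ?_ ?_ z hz
  · simp
  · intro x y hx hy
    rw [map_add, map_add, map_add, map_add, hx, hy]
  · intro X n hX hd
    rw [push_single hP hf hX, D_single hR, D_single hP, map_smul]
    congr 1
    unfold D0
    rw [map_sum, nm_nat hf hX]
    refine Finset.sum_congr (fil_congr _ _ fun a ha => ?_) fun a ha => ?_
    · rw [hf.dl X hX a ha]
      exact h X hX a ha
    · rw [Finset.mem_filter] at ha
      rw [push_single hP hf ha.2, hf.dl X hX a ha.1, sg_nat hf hX]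

theorem push_push {P R T : S.C → Prop} {f g k : S.C → S.C} (hP : Inv F P) (hR : Inv F R)
    (hf : Nat F P f) (hg : Nat F R g) (hk : Nat F P k) (h : ∀ X, P X → R (f X))
    (hgf : ∀ X, P X → g (f X) = k X) {i : ℕ} {z : S.Q F →₀ ℤ} (hz : z ∈ Ch F P i) :
    push F R g (push F P f z) = push F P k z := by
  refine Ch_induction (p := fun z => push F R g (push F P f z) = push F P k z) ?_ ?_ ?_ z hz
  · simp
  · intro x y hx hy
    rw [map_add, map_add, map_add, hx, hy]
  · intro X n hX hd
    rw [push_single hP hf hX, push_single hR hg (h X hX), push_single hP hk hX, hgf X hX]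

theorem push_id {P : S.C → Prop} {f : S.C → S.C} (hP : Inv F P) (hf : Nat F P f)
    (h : ∀ X, P X → f X = X) {i : ℕ} {z : S.Q F →₀ ℤ} (hz : z ∈ Ch F P i) :
    push F P f z = z := by
  refine Ch_induction (p := fun z => push F P f z = z) ?_ ?_ ?_ z hz
  · simp
  · intro x y hx hy
    rw [map_add, hx, hy]
  · intro X n hX hd
    rw [push_single hP hf hX, h X hX]

/-- projection of a pushed chain, if `f` maps the cells of `P` with property `T` to `R`-cells and
the others outside of `R` -/
theorem pr_push {P T R : S.C → Prop} {f : S.C → S.C} (hP : Inv F P) (hT : Inv F T) (hR : Inv F R)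
    (hf : Nat F P f) (hTP : ∀ X, T X → P X) (h : ∀ X, P X → (R (f X) ↔ T X)) {i : ℕ}
    {z : S.Q F →₀ ℤ} (hz : z ∈ Ch F P i) : pr F R (push F P f z) = push F T f (pr F T z) := by
  refine Ch_induction (p := fun z => pr F R (push F P f z) = push F T f (pr F T z)) ?_ ?_ ?_ z hz
  · simp
  · intro x y hx hy
    rw [map_add, map_add, map_add, map_add, hx, hy]
  · intro X n hX hd
    rw [push_single hP hf hX, pr_single, pr_single]
    by_cases hTX : T X
    · rw [if_pos ((pq_cl hR _).2 ((h X hX).2 hTX)), if_pos ((pq_cl hT _).2 hTX),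
        push_single hT (nat_mono hf hTP) hTX]
    · rw [if_neg (fun h' => hTX ((h X hX).1 ((pq_cl hR _).1 h'))),
        if_neg (fun h' => hTX ((pq_cl hT _).1 h')), map_zero]

open Pool.Agent.TH304.J770 in
/-- the operator of a natural insertion -/
theorem exists_insOp {P1 P : S.C → Prop} {ins : ℕ → S.C → S.C} {g : S.C → S.C} (hP1 : Inv F P1)
    (hP : Inv F P) (hg : Nat F P1 g) (hi : NatIns F P1 P ins g) :
    ∃ H : (S.Q F →₀ ℤ) →ₗ[ℤ] (S.Q F →₀ ℤ),
      (∀ i, ∀ z ∈ Ch F P1 i, H z ∈ Ch F P (i + 1)) ∧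
      (∀ i, ∀ z ∈ Ch F P1 i, D F P (H z) + H (D F P1 z) = push F P1 g z) := by
  classical
  have hrn := hi.rn
  set h : (S.Q F →₀ ℤ) →ₗ[ℤ] (S.Q F →₀ ℤ) :=
    Finsupp.lsum ℤ fun q => (LinearMap.toSpanSingleton ℤ _
      (Quotient.lift (s := S.st F) (hc F P1 ins) (by
        rintro X Y ⟨π, hπ, rfl⟩
        exact (hc_rn hP1 hrn hπ X).symm) q)) with hh
  have h_single : ∀ X n, h (Finsupp.single (S.cl F X) n) = n • hc F P1 ins X := by
    intro X n
    rw [hh, Finsupp.lsum_single]
    rfl
  have hcP : ∀ X, P1 X → ∀ b, b ∉ S.nm X → b ∉ F → hc F P1 ins X = gc F ins b X := by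
    intro X hX b hb hbF
    unfold hc
    rw [if_pos hX]
    obtain ⟨f1, f2⟩ := fb_not_mem F X
    exact gc_indep hrn hX hb hbF f1 f2
  have key : ∀ X, P1 X → D F P (hc F P1 ins X) + h (D0 F P1 X) =
      Finsupp.single (S.cl F (g X)) 1 := by
    intro X hX
    obtain ⟨f1, f2⟩ := fb_not_mem F X
    set b := fb F X with hb
    set Y := ins b X with hY
    have hYb : S.dl Y b = g X := hi.dlb X b hX f1 f2
    have hnY : S.nm Y \ F = insert b (S.nm X \ F) := by
      rw [hY, hi.nm X b hX f1 f2, Finset.insert_sdiff_of_notMem _ f2]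
    have hbX : b ∉ (S.nm X \ F).filter (fun a => P1 (S.dl X a)) := fun hm =>
      f1 (Finset.mem_sdiff.1 (Finset.mem_filter.1 hm).1).1
    have hfilt : (S.nm Y \ F).filter (fun a => P (S.dl Y a)) =
        insert b ((S.nm X \ F).filter (fun a => P1 (S.dl X a))) := by
      rw [hnY, Finset.filter_insert, if_pos (by rw [hYb]; exact hi.memg X hX)]
      congr 1
      refine Finset.filter_congr fun a ha => ?_
      rw [hY, hi.dl X b hX f1 f2 a ha]
      exact hi.iff X b hX f1 f2 a ha
    have hD0 : D0 F P Y = Finsupp.single (S.cl F (g X)) (S.sg Y b) +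
        ∑ a ∈ (S.nm X \ F).filter (fun a => P1 (S.dl X a)),
          Finsupp.single (S.cl F (S.dl Y a)) (S.sg Y a) := by
      unfold D0
      rw [hfilt, Finset.sum_insert hbX, hYb]
    have hL : D F P (hc F P1 ins X) = Finsupp.single (S.cl F (g X)) 1 +
        ∑ a ∈ (S.nm X \ F).filter (fun a => P1 (S.dl X a)),
          Finsupp.single (S.cl F (S.dl Y a)) (S.sg Y b * S.sg Y a) := by
      rw [hcP X hX b f1 f2]
      unfold gc
      rw [← hY, D_single hP, hD0, smul_add, Finset.smul_sum, Finsupp.smul_single, smul_eq_mul,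
        sg_sq]
      congr 1
      refine Finset.sum_congr rfl fun a _ => ?_
      rw [Finsupp.smul_single, smul_eq_mul]
    have hR : h (D0 F P1 X) = ∑ a ∈ (S.nm X \ F).filter (fun a => P1 (S.dl X a)),
          Finsupp.single (S.cl F (S.dl Y a)) (S.sg X a * S.sg (S.dl Y a) b) := by
      unfold D0
      rw [map_sum]
      refine Finset.sum_congr rfl fun a ha => ?_
      rw [Finset.mem_filter] at ha
      have hba : b ∉ S.nm (S.dl X a) := by
        rw [nm_dl]
        exact fun hm => f1 (Finset.mem_of_mem_erase hm)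
      rw [h_single, hcP _ ha.2 b hba f2]
      unfold gc
      rw [← hi.dl X b hX f1 f2 a ha.1, ← hY, Finsupp.smul_single, smul_eq_mul]
    rw [hL, hR, add_assoc, ← Finset.sum_add_distrib]
    conv_rhs => rw [← add_zero (Finsupp.single (S.cl F (g X)) (1:ℤ))]
    congr 1
    refine Finset.sum_eq_zero fun a ha => ?_
    rw [Finset.mem_filter, Finset.mem_sdiff] at ha
    rw [← Finsupp.single_add]
    have hab : b ≠ a := fun e => f1 (e ▸ ha.1.1)
    have haY : a ∈ S.nm Y := by
      rw [hY, hi.nm X b hX f1 f2]; exact Finset.mem_insert_of_mem ha.1.1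
    have hbY : b ∈ S.nm Y := by
      rw [hY, hi.nm X b hX f1 f2]; exact Finset.mem_insert_self _ _
    have e := sg_anti Y hbY haY hab
    rw [hYb, sg_nat hg hX] at e
    have s1 := sg_sq X a
    have s2 := sg_sq Y a
    have : S.sg Y b * S.sg Y a + S.sg X a * S.sg (S.dl Y a) b = 0 := by
      linear_combination (S.sg Y a * S.sg X a) * e - (S.sg Y b * S.sg Y a) * s1 -
        (S.sg X a * S.sg (S.dl Y a) b) * s2
    rw [this, Finsupp.single_zero]
  refine ⟨h, ?_, ?_⟩
  · intro i
    refine Ch_induction ?_ ?_ ?_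
    · rw [map_zero]; exact Submodule.zero_mem _
    · intro x y hx hy; rw [map_add]; exact Submodule.add_mem _ hx hy
    · intro X n hX hdX
      obtain ⟨f1, f2⟩ := fb_not_mem F X
      rw [h_single, hcP X hX _ f1 f2]
      refine Submodule.smul_mem _ _ ?_
      unfold gc
      refine single_mem_Ch (hi.mem X _ hX f1 f2) ?_ _
      unfold deg at hdX ⊢
      rw [hi.nm X _ hX f1 f2, Finset.insert_sdiff_of_notMem _ f2, Finset.card_insert_of_notMem, hdX]
      exact fun hm => f1 (Finset.mem_sdiff.1 hm).1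
  · intro i
    refine Ch_induction ?_ ?_ ?_
    · simp
    · intro x y hx hy
      rw [map_add, map_add, map_add, map_add, map_add, ← hx, ← hy]
      abel
    · intro X n hX _
      rw [h_single, D_single hP1, map_smul, map_smul, ← smul_add, key X hX, Finsupp.smul_single,
        smul_eq_mul, mul_one, push_single hP1 hg hX]

/-- direct sum decomposition by an invariant which does not change under deletions -/
theorem Ex_of_decomp {α : Type} {P : S.C → Prop} (hP : Inv F P) (v : S.C → α)
    (hv : ∀ X, P X → ∀ π : Perm ℕ, (∀ a ∈ F, π a = a) → v (S.rn π X) = v X)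
    (hvd : ∀ X, P X → ∀ a ∈ S.nm X \ F, P (S.dl X a) → v (S.dl X a) = v X) {i : ℕ}
    (hex : ∀ y : α, Ex F (fun X => P X ∧ v X = y) i) : Ex F P i := by
  classical
  set Py : α → S.C → Prop := fun y X => P X ∧ v X = y with hPy
  have hInv : ∀ y, Inv F (Py y) := by
    intro y π hπ X hX
    exact ⟨hP π hπ X hX.1, by rw [hv X hX.1 π hπ]; exact hX.2⟩
  -- the two differentials agree on the part
  have hD0 : ∀ X, P X → D0 F (Py (v X)) X = D0 F P X := by
    intro X hX
    unfold D0
    refine Finset.sum_congr (fil_congr _ _ fun a ha => ?_) fun a _ => rfl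
    exact ⟨fun h => h.1, fun h => ⟨h, hvd X hX a ha h⟩⟩
  have hDy : ∀ y (j : ℕ), ∀ w ∈ Ch F (Py y) j, D F P w = D F (Py y) w := by
    intro y j
    refine Ch_induction ?_ ?_ ?_
    · simp
    · intro a b ha hb; rw [map_add, map_add, ha, hb]
    · intro X n hX _
      obtain ⟨h1, h2⟩ := hX
      subst h2
      rw [D_single hP, D_single (hInv _), hD0 X h1]
  have hprD : ∀ y (j : ℕ), ∀ w ∈ Ch F P j, D F (Py y) (pr F (Py y) w) = pr F (Py y) (D F P w) := by
    intro y j
    refine Ch_induction ?_ ?_ ?_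
    · simp
    · intro a b ha hb; rw [map_add, map_add, map_add, map_add, ha, hb]
    · intro X n hX _
      rw [pr_single, D_single hP, map_smul]
      have hpr : pr F (Py y) (D0 F P X) = if v X = y then D0 F P X else 0 := by
        unfold D0
        rw [map_sum]
        split_ifs with hy
        · refine Finset.sum_congr rfl fun a ha => ?_
          rw [Finset.mem_filter] at ha
          rw [pr_single, if_pos]
          exact (pq_cl (hInv y) _).2 ⟨ha.2, by rw [hvd X hX a ha.1 ha.2, hy]⟩
        · refine Finset.sum_eq_zero fun a ha => ?_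
          rw [Finset.mem_filter] at ha
          rw [pr_single, if_neg]
          intro h
          have h2 := ((pq_cl (hInv y) _).1 h).2
          rw [hvd X hX a ha.1 ha.2] at h2
          exact hy h2
      rw [hpr]
      by_cases hy : v X = y
      · rw [if_pos ((pq_cl (hInv y) _).2 ⟨hX, hy⟩), if_pos hy, D_single (hInv y)]
        subst hy
        rw [hD0 X hX]
      · rw [if_neg (fun h => hy ((pq_cl (hInv y) _).1 h).2), if_neg hy, map_zero, smul_zero]
  -- finite decomposition
  have hdec : ∀ j, ∀ w ∈ Ch F P j, ∃ Y0 : Finset α, ∀ Y1, Y0 ⊆ Y1 → w = ∑ y ∈ Y1, pr F (Py y) w := by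
    intro j
    refine Ch_induction ?_ ?_ ?_
    · exact ⟨∅, fun Y1 _ => by simp⟩
    · rintro a b ⟨Ya, ha⟩ ⟨Yb, hb⟩
      refine ⟨Ya ∪ Yb, fun Y1 h => ?_⟩
      simp only [map_add]
      rw [Finset.sum_add_distrib, ← ha Y1 (Finset.union_subset_left h),
        ← hb Y1 (Finset.union_subset_right h)]
    · intro X n hX _
      refine ⟨{v X}, fun Y1 h => ?_⟩
      have h1 : ∀ y, pr F (Py y) (Finsupp.single (S.cl F X) n) =
          if v X = y then Finsupp.single (S.cl F X) n else 0 := by
        intro y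
        rw [pr_single]
        by_cases hy : v X = y
        · rw [if_pos ((pq_cl (hInv y) _).2 ⟨hX, hy⟩), if_pos hy]
        · rw [if_neg (fun h => hy ((pq_cl (hInv y) _).1 h).2), if_neg hy]
      simp only [h1]
      rw [Finset.sum_ite_eq, if_pos (h (Finset.mem_singleton_self _))]
  have hprmem : ∀ y (j : ℕ), ∀ w ∈ Ch F P j, pr F (Py y) w ∈ Ch F (Py y) j := by
    intro y j
    refine Ch_induction ?_ ?_ ?_
    · rw [map_zero]; exact Submodule.zero_mem _
    · intro a b ha hb; rw [map_add]; exact Submodule.add_mem _ ha hb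
    · intro X n hX hd
      rw [pr_single]
      split_ifs with h
      · exact single_mem_Ch ((pq_cl (hInv y) _).1 h) hd n
      · exact Submodule.zero_mem _
  have hmono : ∀ y (j : ℕ), ∀ w ∈ Ch F (Py y) j, w ∈ Ch F P j := by
    intro y j
    refine Ch_induction ?_ ?_ ?_
    · exact Submodule.zero_mem _
    · intro a b ha hb; exact Submodule.add_mem _ ha hb
    · intro X n hX hd
      exact single_mem_Ch hX.1 hd n
  intro z hz hDz
  obtain ⟨Y0, hY0⟩ := hdec i z hz
  have hw : ∀ y, ∃ w ∈ Ch F (Py y) (i + 1), D F (Py y) w = pr F (Py y) z := by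
    intro y
    refine hex y (pr F (Py y) z) (hprmem y i z hz) ?_
    rw [hprD y i z hz, hDz, map_zero]
  choose w hw1 hw2 using hw
  refine ⟨∑ y ∈ Y0, w y, Submodule.sum_mem _ fun y _ => hmono y _ _ (hw1 y), ?_⟩
  rw [map_sum, Finset.sum_congr rfl fun y _ => (hDy y _ _ (hw1 y)).trans (hw2 y)]
  exact (hY0 Y0 subset_rfl).symm

end Pool.Agent.TH558.J890
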