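import Pool.Agent.TH32.H.Stmts

set_option autoImplicit false

namespace Pool.Agent.TH558.TZH

open Pool.Agent.H260TZ Pool.Agent.TH32 Submodule

theorem idx_equiv {R M M' : Type} [CommRing R] [AddCommGroup M] [Module R M] [AddCommGroup M']
    [Module R M'] (e : M ≃ₗ[R] M') (N : Submodule R M) : idx (N.map e.toLinearMap) = idx N := by
  rw [idx_map_inj e.toLinearMap e.injective N, LinearEquiv.range, idx_top, mul_one]

theorem idx_ideal {R : Type} [CommRing R] [IsDomain R] (D : DV R) (I : Submodule R R)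
    (h : idx I ≠ 0) : ∃ w : ℕ, idx I = D.q ^ w := by
  obtain ⟨n, hn⟩ := D.idl_of_idx (I := I) h
  exact ⟨n, by rw [hn]; exact D.idx_span n⟩

theorem idx_pi {R : Type} [CommRing R] [IsDomain R] (D : DV R) (n : ℕ)
    (N : Submodule R (Fin n → R)) (h : idx N ≠ 0) : ∃ w : ℕ, idx N = D.q ^ w := by
  induction n with
  | zero =>
    refine ⟨0, ?_⟩
    have : N = ⊤ := Subsingleton.elim _ _
    rw [this, idx_top, pow_zero]
  | succ n ih =>
    let e : (Fin (n + 1) → R) ≃ₗ[R] (R × (Fin n → R)) :=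
      (Fin.consLinearEquiv R (fun _ => R)).symm
    have h1 := idx_equiv e N
    rw [← h1, idx_fst] at h
    obtain ⟨w1, hw1⟩ := idx_ideal D _ (left_ne_zero_of_mul h)
    obtain ⟨w2, hw2⟩ := ih _ (right_ne_zero_of_mul h)
    refine ⟨w1 + w2, ?_⟩
    rw [← h1, idx_fst, hw1, hw2, pow_add]

/-- TZH-IP -/
theorem idxPow : IdxPowStmt := by
  intro R _ _ D N hN
  have h : idx N ≠ 0 := by
    rw [idx_eq_card]
    exact Nat.card_pos.ne'
  exact idx_pi D 4 N h

end Pool.Agent.TH558.TZH
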