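import Pool.Agent.TH32.H.Stmts

set_option autoImplicit false

namespace Pool.Agent.TH558.TZH

open Pool.Agent.H260TZ Pool.Agent.TH32 Submodule

theorem idx_equiv2 {R M M' : Type} [CommRing R] [AddCommGroup M] [Module R M] [AddCommGroup M']
    [Module R M'] (e : M ≃ₗ[R] M') (N : Submodule R M) : idx (N.map e.toLinearMap) = idx N := by
  rw [idx_map_inj e.toLinearMap e.injective N, LinearEquiv.range, idx_top, mul_one]

section

variable {R : Type} [CommRing R]

theorem mem_sw (N : Submodule R (MR R)) (x : MR R) :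
    x ∈ N.map (swM R).toLinearMap ↔ (((x.1.2, x.1.1), x.2) : MR R) ∈ N := by
  constructor
  · rintro ⟨y, hy, rfl⟩
    exact hy
  · intro h
    exact ⟨_, h, rfl⟩

variable [IsDomain R] (D : DV R)

theorem sw_C1 (N : Submodule R (MR R)) (h : C1 N) : C1 (N.map (swM R).toLinearMap) := by
  intro u hu v hv
  rw [mem_sw] at hu hv ⊢
  have := h _ hv _ hu
  simp only at this ⊢
  rw [mul_comm]
  exact this

theorem sw_C2 (b : ℕ) (N : Submodule R (MR R)) (w : R) (h : C2 D b N w) :
    C3 D b (N.map (swM R).toLinearMap) w := by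
  intro u hu
  rw [mem_sw] at hu ⊢
  have := h _ hu
  simp only at this ⊢
  rw [mul_comm w]
  exact this

theorem sw_C3 (b : ℕ) (N : Submodule R (MR R)) (w : R) (h : C3 D b N w) :
    C2 D b (N.map (swM R).toLinearMap) w := by
  intro u hu
  rw [mem_sw] at hu ⊢
  have := h _ hu
  simp only at this ⊢
  rw [mul_comm _ w]
  exact this

theorem sw_C4 (b : ℕ) (N : Submodule R (MR R)) (wc wd wa : R) (h : C4 D b N wc wd wa) :
    C4 D b (N.map (swM R).toLinearMap) wd wc wa := by
  unfold C4 at h ⊢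
  rw [mem_sw]
  simp only
  rw [mul_comm wd]
  exact h

theorem sw_Clos (b : ℕ) (N : Submodule R (MR R)) (w : MR R) (h : Clos D b N w) :
    Clos D b (N.map (swM R).toLinearMap) (swM R w) :=
  ⟨sw_C1 N h.1, sw_C3 D b N _ h.2.2.1, sw_C2 D b N _ h.2.1, sw_C4 D b N _ _ _ h.2.2.2⟩

theorem sw_sw (N : Submodule R (MR R)) :
    (N.map (swM R).toLinearMap).map (swM R).toLinearMap = N := by
  ext x
  rw [mem_sw, mem_sw]

theorem sw_Clos' (b : ℕ) (N : Submodule R (MR R)) (w : MR R) :
    Clos D b (N.map (swM R).toLinearMap) (swM R w) ↔ Clos D b N w := by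
  constructor
  · intro h
    have := sw_Clos D b _ _ h
    rw [sw_sw] at this
    exact this
  · exact sw_Clos D b N w

theorem cntC_sw (b : ℕ) (N : Submodule R (MR R)) :
    cntC D b (N.map (swM R).toLinearMap) = cntC D b N := by
  unfold cntC
  symm
  apply Nat.card_congr
  refine Equiv.subtypeEquiv (Submodule.Quotient.equiv N (N.map (swM R).toLinearMap) (swM R) rfl).toEquiv
    (fun w => ?_)
  constructor
  · rintro ⟨v, rfl, hv⟩
    exact ⟨swM R v, rfl, (sw_Clos' D b N v).2 hv⟩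
  · rintro ⟨v, hv1, hv2⟩
    refine ⟨swM R v, ?_, ?_⟩
    · apply (Submodule.Quotient.equiv N (N.map (swM R).toLinearMap) (swM R) rfl).injective
      have : (Submodule.Quotient.equiv N (N.map (swM R).toLinearMap) (swM R) rfl)
          (Submodule.Quotient.mk (swM R v)) = Submodule.Quotient.mk v := rfl
      rw [this]
      exact hv1
    · rw [← sw_Clos' D b N]
      exact hv2

theorem map_fst_NN (m k : ℕ) (z : R) (n : ℕ) (τ₁ τ₂ : R) :
    (NN D m k z n τ₁ τ₂).map (LinearMap.fst R (R × R) R) = (D.K k 1 z).map (D.sc m) := by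
  unfold NN
  rw [Submodule.map_span]
  apply le_antisymm
  · rw [Submodule.span_le]
    rintro _ ⟨x, hx, rfl⟩
    rcases hx with rfl | rfl | rfl
    · refine ⟨(-z, 1), ?_, ?_⟩
      · change _ ∈ D.K k 1 z
        rw [D.mem_K]
        simp
      · rw [D.sc_apply]
        simp
    · refine ⟨(D.t ^ k, 0), ?_, ?_⟩
      · change _ ∈ D.K k 1 z
        rw [D.mem_K]
        simp
      · rw [D.sc_apply]
        simp [pow_add]
    · exact Submodule.zero_mem _
  · rintro _ ⟨v, hv, rfl⟩
    have hv' : v ∈ D.K k 1 z := hv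
    rw [D.mem_K] at hv'
    obtain ⟨y, hy⟩ := hv'
    have e : D.sc m v = v.2 • (-(D.t ^ m * z), D.t ^ m) + y • (D.t ^ (m + k), (0 : R)) := by
      rw [D.sc_apply]
      apply Prod.ext
      · change D.t ^ m * v.1 = v.2 * (-(D.t ^ m * z)) + y * D.t ^ (m + k)
        have : v.1 = D.t ^ k * y - z * v.2 := by rw [← hy]; ring
        rw [this]
        ring
      · change D.t ^ m * v.2 = v.2 * D.t ^ m + y * 0
        ring
    rw [e]
    refine Submodule.add_mem _ (Submodule.smul_mem _ _ (Submodule.subset_span ?_))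
      (Submodule.smul_mem _ _ (Submodule.subset_span ?_))
    · exact ⟨((-(D.t ^ m * z), D.t ^ m), τ₁), by simp, rfl⟩
    · exact ⟨((D.t ^ (m + k), 0), τ₂), by simp, rfl⟩

theorem mem_NN (m k : ℕ) (z : R) (n : ℕ) (τ₁ τ₂ : R) (x : MR R) :
    x ∈ NN D m k z n τ₁ τ₂ ↔ ∃ a b c : R, x = ((a * -(D.t ^ m * z) + b * D.t ^ (m + k), a * D.t ^ m),
      a * τ₁ + b * τ₂ + c * D.t ^ n) := by
  unfold NN
  rw [Submodule.mem_span_triple]
  constructor
  · rintro ⟨a, b, c, rfl⟩
    refine ⟨a, b, c, ?_⟩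
    apply Prod.ext
    · apply Prod.ext
      · simp
      · simp
    · simp
  · rintro ⟨a, b, c, rfl⟩
    refine ⟨a, b, c, ?_⟩
    apply Prod.ext
    · apply Prod.ext
      · simp
      · simp
    · simp

theorem comap_NN (m k : ℕ) (z : R) (n : ℕ) (τ₁ τ₂ : R) :
    (NN D m k z n τ₁ τ₂).comap (LinearMap.inr R (R × R) R) = Ideal.span {D.t ^ n} := by
  ext a
  rw [Submodule.mem_comap, mem_NN, Ideal.mem_span_singleton]
  constructor
  · rintro ⟨x, y, w, h⟩
    have h1 : (0 : R) = x * D.t ^ m := congrArg (fun p : MR R => p.1.2) h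
    have h2 : (0 : R) = x * -(D.t ^ m * z) + y * D.t ^ (m + k) := congrArg (fun p : MR R => p.1.1) h
    have h3 : a = x * τ₁ + y * τ₂ + w * D.t ^ n := congrArg (fun p : MR R => p.2) h
    have hx : x = 0 := (mul_eq_zero.1 h1.symm).resolve_right (D.tpow_ne m)
    rw [hx, zero_mul, zero_add] at h2
    have hy : y = 0 := (mul_eq_zero.1 h2.symm).resolve_right (D.tpow_ne _)
    rw [h3, hx, hy]
    exact ⟨w, by ring⟩
  · rintro ⟨w, rfl⟩
    exact ⟨0, 0, w, by
      apply Prod.ext
      · apply Prod.ext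
        · simp
        · simp
      · change D.t ^ n * w = 0 * τ₁ + 0 * τ₂ + w * D.t ^ n
        ring⟩

theorem idx_NN (m k : ℕ) (z : R) (n : ℕ) (τ₁ τ₂ : R) :
    idx (NN D m k z n τ₁ τ₂) = D.q ^ (2 * m + k + n) := by
  rw [idx_fst, map_fst_NN, comap_NN, D.idx_map_sc, D.idx_K_left, D.idx_span, ← pow_add, ← pow_add]
  congr 1
  ring

end

/-- TZH-S1C -/
theorem s1c : S1CStmt := by
  refine ⟨?_, ?_, ?_⟩
  · intro R _ _ D b N
    exact cntC_sw D b N
  · intro R _ _ D N
    exact idx_equiv2 _ _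
  · intro R _ _ D m k z n τ₁ τ₂
    exact idx_NN D m k z n τ₁ τ₂

end Pool.Agent.TH558.TZH
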