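import Pool.Agent.TH387.EI.Defs
set_option autoImplicit false
open scoped ComplexOrder InnerProductSpace
noncomputable section
namespace Pool.Agent.TH387.EI
universe u

open Filter Topology

variable {A : Type u} [NonUnitalCStarAlgebra A]
  {H : Type u} [NormedAddCommGroup H] [InnerProductSpace ℂ H] [CompleteSpace H]

theorem compact_pf (t : A → ℂ) (c : ℝ)
    (h : ∀ F : Finset A, (∀ x ∈ F, ‖x‖ ≤ 1) → ∃ g : A → ℂ, PF g ∧ ∀ x ∈ F, ‖g x - t x‖ ≤ c) :
    ∃ g : A → ℂ, PF g ∧ ∀ x, ‖x‖ ≤ 1 → ‖g x - t x‖ ≤ c := by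
  classical
  have h' : ∀ F : Finset A, ∃ g : A → ℂ, PF g ∧ ∀ x ∈ F, ‖x‖ ≤ 1 → ‖g x - t x‖ ≤ c := by
    intro F
    obtain ⟨g, hg, hx⟩ := h (F.filter (fun x => ‖x‖ ≤ 1))
      (by intro x hx; exact (Finset.mem_filter.1 hx).2)
    exact ⟨g, hg, fun x hxF hx1 => hx x (Finset.mem_filter.2 ⟨hxF, hx1⟩)⟩
  choose G hG hGt using h'
  let U : Ultrafilter (Finset A) := Ultrafilter.of Filter.atTop
  have hU : (U : Filter (Finset A)) ≤ Filter.atTop := Ultrafilter.of_le _
  have hK : IsCompact (Set.pi Set.univ (fun x : A => Metric.closedBall (0:ℂ) ‖x‖)) :=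
    isCompact_univ_pi (fun x => isCompact_closedBall _ _)
  obtain ⟨g, -, hg⟩ := hK.ultrafilter_le_nhds' (U.map G) (by
    refine Filter.mem_map.2 (Filter.univ_mem' ?_)
    intro F x _
    simpa using (hG F).bound x)
  have hlim : ∀ x, Tendsto (fun F => G F x) (U : Filter (Finset A)) (𝓝 (g x)) := by
    intro x
    have h1 : Tendsto G (U : Filter (Finset A)) (𝓝 g) := hg
    exact ((continuous_apply x).tendsto g).comp h1
  refine ⟨g, ⟨?_, ?_, ?_, ?_, ?_⟩, ?_⟩
  · intro x y
    refine tendsto_nhds_unique (hlim (x + y)) ?_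
    have := (hlim x).add (hlim y)
    refine this.congr (fun F => ?_)
    exact ((hG F).add x y).symm
  · intro a x
    refine tendsto_nhds_unique (hlim (a • x)) ?_
    have := (hlim x).const_mul a
    refine this.congr (fun F => ?_)
    exact ((hG F).smul a x).symm
  · intro x
    exact ge_of_tendsto' (hlim (star x * x)) (fun F => (hG F).pos x)
  · intro x
    have h1 := (hlim x).norm.pow 2
    have h2 : Tendsto (fun F => (G F (star x * x)).re) (U : Filter (Finset A))
        (𝓝 (g (star x * x)).re) := (Complex.continuous_re.tendsto _).comp (hlim (star x * x))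
    exact le_of_tendsto_of_tendsto' h1 h2 (fun F => (hG F).cs x)
  · intro x
    exact le_of_tendsto' (hlim x).norm (fun F => (hG F).bound x)
  · intro x hx
    have h1 := ((hlim x).sub_const (t x)).norm
    refine le_of_tendsto h1 ?_
    have h2 : ∀ᶠ F in (Filter.atTop : Filter (Finset A)), ‖G F x - t x‖ ≤ c := by
      filter_upwards [Filter.eventually_ge_atTop ({x} : Finset A)] with F hF
      exact hGt F x (hF (Finset.mem_singleton_self x)) hx
    exact hU h2

end Pool.Agent.TH387.EI
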