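import Pool.Agent.TH387.EI.Defs
set_option autoImplicit false
open scoped ComplexOrder InnerProductSpace
noncomputable section

namespace Pool.Agent.TH558.EI
universe u

/-- A self-adjoint contraction fixing `κ` and almost killing finitely many elements that kill
`κ`. -/
theorem key {C : Type*} [CStarAlgebra C] [PartialOrder C] [StarOrderedRing C]
    {H : Type*} [NormedAddCommGroup H] [InnerProductSpace ℂ H] [CompleteSpace H]
    (p : C →⋆ₐ[ℂ] (H →L[ℂ] H)) (κ : H) (S : Finset C) (hS : ∀ y ∈ S, p y κ = 0)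
    (τ : ℝ) (hτ : 0 < τ) :
    ∃ f : C, IsSelfAdjoint f ∧ ‖f‖ ≤ 1 ∧ p f κ = κ ∧ ∀ y ∈ S, ‖y * f‖ ≤ τ := by
  classical
  set h : C := ∑ y ∈ S, star y * y with hdef
  have hh : 0 ≤ h := Finset.sum_nonneg (fun y _ => star_mul_self_nonneg y)
  have hsa : IsSelfAdjoint h := IsSelfAdjoint.of_nonneg hh
  set δ : ℝ := τ ^ 2 with hδdef
  have hδ : 0 < δ := by positivity
  have hspec : ∀ t ∈ spectrum ℝ h, 0 ≤ t := fun t ht => spectrum_nonneg_of_nonneg hh ht
  have hne : ∀ t ∈ spectrum ℝ h, t + δ ≠ 0 := fun t ht => by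
    have := hspec t ht
    positivity
  have hc1 : ContinuousOn (fun t : ℝ => δ / (t + δ)) (spectrum ℝ h) :=
    continuousOn_const.div (continuousOn_id.add continuousOn_const) hne
  have hc2 : ContinuousOn (fun t : ℝ => t + δ) (spectrum ℝ h) :=
    continuousOn_id.add continuousOn_const
  set f : C := cfc (fun t : ℝ => δ / (t + δ)) h with hfdef
  have hf1 : IsSelfAdjoint f := cfc_predicate _ _
  have hf2 : ‖f‖ ≤ 1 := by
    refine norm_cfc_le zero_le_one ?_
    intro t ht
    have h0 := hspec t ht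
    rw [Real.norm_of_nonneg (by positivity), div_le_one (by positivity)]
    linarith
  have hg : cfc (fun t : ℝ => t + δ) h = h + algebraMap ℝ C δ := by
    rw [cfc_add_const δ (fun t : ℝ => t) h, cfc_id' ℝ h]
  have hfg : f * (h + algebraMap ℝ C δ) = algebraMap ℝ C δ := by
    rw [← hg, hfdef, ← cfc_mul _ _ h hc1 hc2]
    rw [← cfc_const δ h]
    refine cfc_congr ?_
    intro t ht
    have := hne t ht
    simp only
    field_simp
  have hph : p h κ = 0 := by
    rw [hdef, map_sum]
    rw [sum_apply]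
    refine Finset.sum_eq_zero (fun y hy => ?_)
    rw [map_mul]
    change (p (star y)) ((p y) κ) = 0
    rw [hS y hy, map_zero]
  have halg : p (algebraMap ℝ C δ) κ = (δ : ℂ) • κ := by
    have : algebraMap ℝ C δ = (δ : ℂ) • (1 : C) := by
      rw [Algebra.algebraMap_eq_smul_one]
      simp
    rw [this, map_smul, map_one]
    simp
  have hpf : p f κ = κ := by
    have h1 : p (f * (h + algebraMap ℝ C δ)) κ = (δ : ℂ) • κ := by rw [hfg, halg]
    rw [map_mul, map_add] at h1
    change (p f) ((p h) κ + (p (algebraMap ℝ C δ)) κ) = _ at h1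
    rw [hph, halg, zero_add, map_smul] at h1
    have hδc : (δ : ℂ) ≠ 0 := by exact_mod_cast hδ.ne'
    exact smul_right_injective H hδc h1
  refine ⟨f, hf1, hf2, hpf, ?_⟩
  intro y hy
  have h1 : ‖y * f‖ ^ 2 = ‖f * (star y * y) * f‖ := by
    have : f * (star y * y) * f = star (y * f) * (y * f) := by
      rw [star_mul, hf1.star_eq]
      simp only [mul_assoc]
    rw [this, CStarRing.norm_star_mul_self, sq]
  have h2 : star y * y ≤ h :=
    Finset.single_le_sum (f := fun y => star y * y) (fun z _ => star_mul_self_nonneg z) hy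
  have h3 : f * (star y * y) * f ≤ f * h * f := hf1.conjugate_le_conjugate h2
  have h4 : 0 ≤ f * (star y * y) * f := by
    have : f * (star y * y) * f = star (y * f) * (y * f) := by
      rw [star_mul, hf1.star_eq]
      simp only [mul_assoc]
    rw [this]
    exact star_mul_self_nonneg _
  have h5 : ‖f * h * f‖ ≤ δ := by
    have : f * h * f = cfc (fun t : ℝ => δ / (t + δ) * t * (δ / (t + δ))) h := by
      rw [cfc_mul (fun t : ℝ => δ / (t + δ) * t) (fun t : ℝ => δ / (t + δ)) h
        (hc1.mul continuousOn_id) hc1, cfc_mul (fun t : ℝ => δ / (t + δ)) (fun t : ℝ => t) h hc1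
        continuousOn_id, cfc_id' ℝ h]
    rw [this]
    refine norm_cfc_le hδ.le ?_
    intro t ht
    have h0 := hspec t ht
    rw [Real.norm_of_nonneg (by positivity)]
    have hpos : 0 < t + δ := by positivity
    rw [div_mul_eq_mul_div, div_mul_div_comm, div_le_iff₀ (by positivity)]
    nlinarith [mul_nonneg h0 h0, mul_pos hδ hδ, mul_nonneg h0 hδ.le,
      mul_nonneg (mul_nonneg h0 hδ.le) hδ.le, mul_nonneg (mul_nonneg h0 h0) hδ.le,
      mul_pos (mul_pos hδ hδ) hδ]
  have h6 : ‖y * f‖ ^ 2 ≤ τ ^ 2 := by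
    rw [h1]
    exact (CStarAlgebra.norm_le_norm_of_nonneg_of_le h4 h3).trans h5
  exact le_of_sq_le_sq h6 hτ.le

/-- Successive approximation. -/
theorem exact_of_approx {A H : Type*} [NormedAddCommGroup A] [NormedSpace ℂ A] [CompleteSpace A]
    [NormedAddCommGroup H] [NormedSpace ℂ H] (S : A →L[ℂ] H)
    (hS : ∀ v : H, ∃ a : A, ‖a‖ ≤ 2 * ‖v‖ ∧ ‖v - S a‖ ≤ ‖v‖ / 2) (v : H) :
    ∃ a : A, ‖a‖ ≤ 4 * ‖v‖ ∧ S a = v := by
  choose g hg1 hg2 using hS
  let w : ℕ → H := fun n => Nat.rec v (fun _ u => u - S (g u)) n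
  have hw0 : w 0 = v := rfl
  have hws : ∀ n, w (n + 1) = w n - S (g (w n)) := fun n => rfl
  have hwn : ∀ n, ‖w n‖ ≤ ‖v‖ * (1 / 2) ^ n := by
    intro n
    induction n with
    | zero => simp [hw0]
    | succ n ih =>
      rw [hws]
      refine (hg2 (w n)).trans ?_
      rw [pow_succ]
      linarith
  have hgn : ∀ n, ‖g (w n)‖ ≤ (2 * ‖v‖) * (1 / 2) ^ n := by
    intro n
    refine (hg1 (w n)).trans ?_
    have := hwn n
    nlinarith
  have hgs : HasSum (fun n : ℕ => (2 * ‖v‖) * (1 / 2 : ℝ) ^ n) ((2 * ‖v‖) * 2) :=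
    hasSum_geometric_two.mul_left _
  have hsum : Summable (fun n => g (w n)) :=
    Summable.of_norm_bounded hgs.summable hgn
  refine ⟨∑' n, g (w n), ?_, ?_⟩
  · have := tsum_of_norm_bounded hgs hgn
    linarith
  · have h1 : HasSum (fun n => S (g (w n))) (S (∑' n, g (w n))) := S.hasSum hsum.hasSum
    have h2 : Filter.Tendsto (fun n => ∑ i ∈ Finset.range n, S (g (w i))) Filter.atTop
        (nhds (S (∑' n, g (w n)))) := h1.tendsto_sum_nat
    have h3 : ∀ n, ∑ i ∈ Finset.range n, S (g (w i)) = v - w n := by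
      intro n
      induction n with
      | zero => simp [hw0]
      | succ n ih => rw [Finset.sum_range_succ, ih, hws]; abel
    have h4 : Filter.Tendsto w Filter.atTop (nhds 0) := by
      rw [tendsto_zero_iff_norm_tendsto_zero]
      refine squeeze_zero (fun n => norm_nonneg _) hwn ?_
      have := (tendsto_pow_atTop_nhds_zero_of_lt_one (r := (1 / 2 : ℝ)) (by norm_num)
        (by norm_num)).const_mul ‖v‖
      simpa using this
    have h5 : Filter.Tendsto (fun n => v - w n) Filter.atTop (nhds (v - 0)) :=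
      tendsto_const_nhds.sub h4
    rw [sub_zero] at h5
    refine tendsto_nhds_unique ?_ h5
    refine h2.congr h3

/-- Approximate one-vector transitivity from Kaplansky density. -/
theorem approx_trans {A : Type u} [NonUnitalCStarAlgebra A]
    {H : Type u} [NormedAddCommGroup H] [InnerProductSpace ℂ H] [CompleteSpace H]
    (p : A →⋆ₙₐ[ℂ] (H →L[ℂ] H)) (hp : Pool.Agent.TH387.EI.Kap p) (κ : H) (hκ : ‖κ‖ = 1)
    (v : H) (hv : ‖v‖ = 1) : ∃ a : A, ‖a‖ ≤ 2 ∧ ‖v - p a κ‖ ≤ 1 / 2 := by
  classical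
  have hrk : ∀ (x y : H), InnerProductSpace.rankOne ℂ x y κ = ⟪y, κ⟫_ℂ • x := by
    intro x y
    simp [InnerProductSpace.rankOne_apply]
  set T0 : H →L[ℂ] H := InnerProductSpace.rankOne ℂ v κ with hT0
  have hT0n : ‖T0‖ ≤ 1 := by
    rw [hT0, InnerProductSpace.norm_rankOne, hv, hκ]; norm_num
  have hT0s : ‖star T0‖ ≤ 1 := by rw [norm_star]; exact hT0n
  have hT0κ : T0 κ = v := by
    rw [hT0, hrk, inner_self_eq_norm_sq_to_K, hκ]; simp
  set T1 : H →L[ℂ] H := (1 / 2 : ℂ) • (T0 + star T0) with hT1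
  set T2 : H →L[ℂ] H := (-Complex.I / 2 : ℂ) • (T0 - star T0) with hT2
  have s1 : IsSelfAdjoint T1 := by
    rw [IsSelfAdjoint, hT1, star_smul, star_add, star_star, add_comm (star T0)]
    congr 1
    simp
  have s2 : IsSelfAdjoint T2 := by
    rw [IsSelfAdjoint, hT2, star_smul, star_sub, star_star, ← neg_sub T0 (star T0), smul_neg,
      ← neg_smul]
    congr 1
    simp
    ring
  have n1 : ‖T1‖ ≤ 1 := by
    rw [hT1, norm_smul]
    have := norm_add_le T0 (star T0)
    have h2 : ‖(1 / 2 : ℂ)‖ = 1 / 2 := by norm_num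
    rw [h2]
    linarith
  have n2 : ‖T2‖ ≤ 1 := by
    rw [hT2, norm_smul]
    have := norm_sub_le T0 (star T0)
    have h2 : ‖(-Complex.I / 2 : ℂ)‖ = 1 / 2 := by
      rw [norm_div, norm_neg, Complex.norm_I]; norm_num
    rw [h2]
    linarith
  obtain ⟨a1, -, ha1, hb1⟩ := hp T1 s1 n1 {κ} (1 / 4) (by norm_num)
  obtain ⟨a2, -, ha2, hb2⟩ := hp T2 s2 n2 {κ} (1 / 4) (by norm_num)
  have hb1' := hb1 κ (Finset.mem_singleton_self _)
  have hb2' := hb2 κ (Finset.mem_singleton_self _)
  refine ⟨a1 + Complex.I • a2, ?_, ?_⟩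
  · refine (norm_add_le _ _).trans ?_
    rw [norm_smul, Complex.norm_I, one_mul]
    linarith
  · have h3 : T1 κ + Complex.I • T2 κ = v := by
      have : T1 + Complex.I • T2 = T0 := by
        rw [hT1, hT2, smul_smul]
        have : Complex.I * (-Complex.I / 2) = 1 / 2 := by
          rw [mul_div_assoc', mul_neg, Complex.I_mul_I]; norm_num
        rw [this, ← smul_add, add_add_sub_cancel, ← two_smul ℂ T0, smul_smul]
        norm_num
      calc T1 κ + Complex.I • T2 κ = (T1 + Complex.I • T2) κ := rfl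
        _ = v := by rw [this, hT0κ]
    have h4 : v - p (a1 + Complex.I • a2) κ =
        -((p a1 κ - T1 κ) + Complex.I • (p a2 κ - T2 κ)) := by
      rw [map_add, map_smul]
      change v - (p a1 κ + Complex.I • p a2 κ) = _
      rw [← h3, smul_sub]
      abel
    rw [h4, norm_neg]
    refine (norm_add_le _ _).trans ?_
    rw [norm_smul, Complex.norm_I, one_mul]
    linarith

/-- Exact one-vector transitivity. -/
theorem exact_trans {A : Type u} [NonUnitalCStarAlgebra A]
    {H : Type u} [NormedAddCommGroup H] [InnerProductSpace ℂ H] [CompleteSpace H]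
    (p : A →⋆ₙₐ[ℂ] (H →L[ℂ] H)) (hp : Pool.Agent.TH387.EI.Kap p) (κ : H) (hκ : ‖κ‖ = 1)
    (v : H) : ∃ a : A, ‖a‖ ≤ 4 * ‖v‖ ∧ p a κ = v := by
  have hcont : ∀ a : A, ‖p a‖ ≤ ‖a‖ := fun a => NonUnitalStarAlgHom.norm_apply_le p a
  let L : A →ₗ[ℂ] H :=
    { toFun := fun a => p a κ
      map_add' := fun a b => by rw [map_add]; rfl
      map_smul' := fun c a => by rw [map_smul]; rfl }
  let S : A →L[ℂ] H := L.mkContinuous 1 (fun a => by
    change ‖p a κ‖ ≤ 1 * ‖a‖
    refine ((p a).le_opNorm κ).trans ?_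
    rw [hκ, mul_one, one_mul]
    exact hcont a)
  have hS : ∀ a, S a = p a κ := fun a => rfl
  refine exact_of_approx S (fun v => ?_) v
  by_cases h0 : v = 0
  · refine ⟨0, by simp, ?_⟩
    rw [h0, map_zero]
    simp
  · have hn : ‖v‖ ≠ 0 := by simpa using h0
    have hn' : (‖v‖ : ℂ) ≠ 0 := by exact_mod_cast hn
    obtain ⟨a, ha1, ha2⟩ := approx_trans p hp κ hκ (((‖v‖ : ℂ)⁻¹) • v) (by
      rw [norm_smul, norm_inv, Complex.norm_real, norm_norm, inv_mul_cancel₀ hn])
    refine ⟨(‖v‖ : ℂ) • a, ?_, ?_⟩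
    · rw [norm_smul, Complex.norm_real, norm_norm]
      nlinarith [norm_nonneg v]
    · have h1 : v - S ((‖v‖ : ℂ) • a) = (‖v‖ : ℂ) • (((‖v‖ : ℂ)⁻¹) • v - p a κ) := by
        rw [map_smul, hS, smul_sub, smul_smul, mul_inv_cancel₀ hn', one_smul]
      rw [h1, norm_smul, Complex.norm_real, norm_norm]
      have := norm_nonneg v
      nlinarith

end Pool.Agent.TH558.EI

namespace Pool.Agent.TH387.EI
universe u

theorem excision : ExcisionP.{u} := by
  intro A _ H _ _ _ π hπ κ hκ F τ hτ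
  classical
  let _ : PartialOrder (Unitization ℂ A) := CStarAlgebra.spectralOrder _
  have _ : StarOrderedRing (Unitization ℂ A) := CStarAlgebra.spectralOrderedRing _
  let p : Unitization ℂ A →⋆ₐ[ℂ] (H →L[ℂ] H) := Unitization.starLift π
  have hpin : ∀ a : A, p (a : Unitization ℂ A) = π a := by
    intro a
    have := Unitization.starLift_symm_apply_apply p a
    rw [← this, Equiv.symm_apply_apply]
  have hpalg : ∀ c : ℂ, p (algebraMap ℂ _ c) = c • (1 : H →L[ℂ] H) := by
    intro c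
    rw [AlgHomClass.commutes, Algebra.algebraMap_eq_smul_one]
  have hpn : ∀ z : Unitization ℂ A, ‖p z‖ ≤ ‖z‖ := fun z => NonUnitalStarAlgHom.norm_apply_le p z
  let g : A → ℂ := fun x => ⟪κ, π x κ⟫_ℂ
  let X : A → Unitization ℂ A := fun x => (x : Unitization ℂ A) - algebraMap ℂ _ (g x)
  have hκκ : ⟪κ, κ⟫_ℂ = 1 := by
    rw [inner_self_eq_norm_sq_to_K, hκ]; simp
  have hXκ : ∀ x, p (X x) κ = π x κ - g x • κ := by
    intro x
    change p ((x : Unitization ℂ A) - algebraMap ℂ _ (g x)) κ = _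
    rw [map_sub, hpin, hpalg]
    rfl
  have horth : ∀ x, ⟪κ, p (X x) κ⟫_ℂ = 0 := by
    intro x
    rw [hXκ, inner_sub_right, inner_smul_right, hκκ]
    simp [g]
  obtain ⟨M, hM0, hM⟩ : ∃ M : ℝ, 0 ≤ M ∧ ∀ x ∈ F, ‖X x‖ ≤ M :=
    ⟨∑ x ∈ F, ‖X x‖, Finset.sum_nonneg (fun _ _ => norm_nonneg _), fun x hx =>
      Finset.single_le_sum (f := fun x => ‖X x‖) (fun _ _ => norm_nonneg _) hx⟩
  set t : ℝ := τ / (8 * (1 + M)) with ht
  have ht0 : 0 < t := by positivity
  have htM : 4 * t + 4 * (M * t) = τ / 2 := by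
    rw [ht]; field_simp; ring
  have hh : ∀ x, ∃ h : A, IsSelfAdjoint h ∧ ‖h‖ ≤ 1 ∧ ‖π h κ‖ ≤ t ∧
      ‖π h (p (X x) κ) - p (X x) κ‖ ≤ t := by
    intro x
    set ζ : H := p (X x) κ with hζ
    set T : H →L[ℂ] H := (ℂ ∙ ζ).starProjection with hT
    have hTκ : T κ = 0 := by
      rw [hT, Submodule.starProjection_apply_eq_zero_iff, Submodule.mem_orthogonal_singleton_iff_inner_left]
      exact horth x
    have hTζ : T ζ = ζ := by
      rw [hT, Submodule.starProjection_eq_self_iff]
      exact Submodule.mem_span_singleton_self ζ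
    obtain ⟨h, h1, h2, h3⟩ := hπ T (isSelfAdjoint_starProjection _)
      (Submodule.starProjection_norm_le _) {κ, ζ} t ht0
    have h4 := h3 κ (by simp)
    have h5 := h3 ζ (by simp)
    rw [hTκ, sub_zero] at h4
    rw [hTζ] at h5
    exact ⟨h, h1, h2, h4, h5⟩
  choose h hsa hn hk hz using hh
  have htr := Pool.Agent.TH558.EI.exact_trans π hπ κ hκ
  choose r hr1 hr2 using htr
  let Y1 : A → Unitization ℂ A := fun x => (1 - (h x : Unitization ℂ A)) * X x
  let Y2 : A → Unitization ℂ A := fun x => star ((h x : Unitization ℂ A) * X x)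
  have hY1 : ∀ x, ‖p (Y1 x) κ‖ ≤ t := by
    intro x
    have : p (Y1 x) κ = -(π (h x) (p (X x) κ) - p (X x) κ) := by
      change p ((1 - (h x : Unitization ℂ A)) * X x) κ = _
      rw [map_mul, map_sub, map_one, hpin]
      change p (X x) κ - π (h x) (p (X x) κ) = _
      abel
    rw [this, norm_neg]
    exact hz x
  have hY2 : ∀ x ∈ F, ‖p (Y2 x) κ‖ ≤ M * t := by
    intro x hx
    have : p (Y2 x) κ = p (star (X x)) (π (h x) κ) := by
      change p (star ((h x : Unitization ℂ A) * X x)) κ = _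
      rw [star_mul, map_mul, ← Unitization.inr_star, (hsa x).star_eq, hpin]
      rfl
    rw [this]
    refine (ContinuousLinearMap.le_opNorm _ _).trans ?_
    refine mul_le_mul ?_ (hk x) (norm_nonneg _) hM0
    exact (hpn _).trans (by rw [norm_star]; exact hM x hx)
  let Z : Unitization ℂ A → Unitization ℂ A := fun y => y - ((r (p y κ) : A) : Unitization ℂ A)
  have hZ : ∀ y, p (Z y) κ = 0 := by
    intro y
    change p (y - ((r (p y κ) : A) : Unitization ℂ A)) κ = 0
    rw [map_sub, hpin]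
    change p y κ - π (r (p y κ)) κ = 0
    rw [hr2, sub_self]
  obtain ⟨f, hf1, hf2, hf3, hf4⟩ := Pool.Agent.TH558.EI.key p κ
    (F.image (fun x => Z (Y1 x)) ∪ F.image (fun x => Z (Y2 x))) (by
      intro y hy
      rw [Finset.mem_union, Finset.mem_image, Finset.mem_image] at hy
      rcases hy with ⟨x, -, rfl⟩ | ⟨x, -, rfl⟩ <;> exact hZ _) (τ / 4) (by positivity)
  have hyf : ∀ y : Unitization ℂ A, ‖Z y * f‖ ≤ τ / 4 → ‖y * f‖ ≤ τ / 4 + 4 * ‖p y κ‖ := by
    intro y hy
    have h1 : y * f = Z y * f + ((r (p y κ) : A) : Unitization ℂ A) * f := by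
      rw [← add_mul]
      congr 1
      change y = y - _ + _
      abel
    rw [h1]
    refine (norm_add_le _ _).trans (add_le_add hy ?_)
    refine (norm_mul_le _ _).trans ?_
    rw [Unitization.norm_inr]
    have h2 := hr1 (p y κ)
    have h3 := norm_nonneg (r (p y κ))
    nlinarith
  have hmain : ∀ x ∈ F, ‖f * X x * f‖ ≤ τ := by
    intro x hx
    have e1 : ‖Y1 x * f‖ ≤ τ / 4 + 4 * t := by
      refine (hyf _ (hf4 _ ?_)).trans ?_
      · exact Finset.mem_union_left _ (Finset.mem_image_of_mem _ hx)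
      · have := hY1 x
        linarith
    have e2 : ‖Y2 x * f‖ ≤ τ / 4 + 4 * (M * t) := by
      refine (hyf _ (hf4 _ ?_)).trans ?_
      · exact Finset.mem_union_right _ (Finset.mem_image_of_mem _ hx)
      · have := hY2 x hx
        linarith
    have e3 : f * X x * f = f * (Y1 x * f) + star (Y2 x * f) * f := by
      rw [star_mul, hf1.star_eq]
      change _ = f * ((1 - (h x : Unitization ℂ A)) * X x * f) +
        f * star (star ((h x : Unitization ℂ A) * X x)) * f
      rw [star_star]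
      simp only [mul_assoc, sub_mul, mul_sub, one_mul]
      abel
    rw [e3]
    refine (norm_add_le _ _).trans ?_
    have e4 : ‖f * (Y1 x * f)‖ ≤ τ / 4 + 4 * t := by
      refine (norm_mul_le _ _).trans ?_
      have := norm_nonneg (Y1 x * f)
      nlinarith [norm_nonneg f]
    have e5 : ‖star (Y2 x * f) * f‖ ≤ τ / 4 + 4 * (M * t) := by
      refine (norm_mul_le _ _).trans ?_
      rw [norm_star]
      have := norm_nonneg (Y2 x * f)
      nlinarith [norm_nonneg f]
    linarith
  obtain ⟨c, hc1, hc2, hc3⟩ := hπ 1 (IsSelfAdjoint.one _) (ContinuousLinearMap.norm_id_le) {κ} τ hτ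
  have hc4 := hc3 κ (Finset.mem_singleton_self _)
  set w : Unitization ℂ A := f * (c : Unitization ℂ A) * f with hw
  have hwfst : w.fst = 0 := by
    rw [hw, Unitization.fst_mul, Unitization.fst_mul, Unitization.fst_inr, mul_zero, zero_mul]
  have hwb : ((w.snd : A) : Unitization ℂ A) = w := by
    apply Unitization.ext
    · rw [Unitization.fst_inr, hwfst]
    · rw [Unitization.snd_inr]
  have hcsa : star (c : Unitization ℂ A) = c := by
    rw [← Unitization.inr_star, hc1.star_eq]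
  have hwsa : star w = w := by
    rw [hw, star_mul, star_mul, hf1.star_eq, hcsa, mul_assoc]
  have hcn : ‖(c : Unitization ℂ A)‖ ≤ 1 := by rw [Unitization.norm_inr]; exact hc2
  refine ⟨w.snd, ?_, ?_, ?_, ?_⟩
  · apply Unitization.inr_injective (R := ℂ)
    rw [Unitization.inr_star, hwb, hwsa]
  · rw [← Unitization.norm_inr (𝕜 := ℂ) (w.snd), hwb, hw]
    refine (norm_mul_le _ _).trans ?_
    have h1 : ‖f * (c : Unitization ℂ A)‖ ≤ 1 := by
      refine (norm_mul_le _ _).trans ?_
      exact mul_le_one₀ hf2 (norm_nonneg _) hcn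
    exact mul_le_one₀ h1 (norm_nonneg _) hf2
  · have h1 : π w.snd κ = p f (π c κ) := by
      rw [← hpin, hwb, hw, map_mul, map_mul, hpin]
      change p f (π c (p f κ)) = _
      rw [hf3]
    have h2 : ‖π w.snd κ - κ‖ ≤ τ := by
      have : π w.snd κ - κ = p f (π c κ - (1 : H →L[ℂ] H) κ) := by
        rw [h1, map_sub]
        change _ = _ - p f κ
        rw [hf3]
      rw [this]
      refine (ContinuousLinearMap.le_opNorm _ _).trans ?_
      have h3 := (hpn f).trans hf2
      have := norm_nonneg (π c κ - (1 : H →L[ℂ] H) κ)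
      nlinarith
    have h3 : ‖π w.snd κ‖ ≤ ‖w.snd‖ := by
      refine (ContinuousLinearMap.le_opNorm _ _).trans ?_
      rw [hκ, mul_one]
      exact NonUnitalStarAlgHom.norm_apply_le π _
    have h4 : ‖κ‖ ≤ ‖π w.snd κ‖ + ‖π w.snd κ - κ‖ := by
      have := norm_sub_norm_le κ (π w.snd κ)
      rw [norm_sub_rev] at this
      linarith
    rw [hκ] at h4
    linarith
  · intro x hx
    rw [← Unitization.norm_inr (𝕜 := ℂ)]
    have e1 : ((w.snd * x * w.snd - ⟪κ, π x κ⟫_ℂ • (w.snd * w.snd) : A) : Unitization ℂ A) =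
        (f * (c : Unitization ℂ A)) * (f * X x * f) * ((c : Unitization ℂ A) * f) := by
      rw [Unitization.inr_sub, Unitization.inr_smul, Unitization.inr_mul, Unitization.inr_mul,
        Unitization.inr_mul, hwb]
      change w * x * w - g x • (w * w) = _ * (f * ((x : Unitization ℂ A) -
        algebraMap ℂ _ (g x)) * f) * _
      rw [Algebra.algebraMap_eq_smul_one, hw]
      simp only [mul_assoc, mul_sub, sub_mul, smul_mul_assoc, mul_smul_comm, one_mul]
    rw [e1]
    have h1 : ‖f * (c : Unitization ℂ A)‖ ≤ 1 := by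
      refine (norm_mul_le _ _).trans ?_
      exact mul_le_one₀ hf2 (norm_nonneg _) hcn
    have h2 : ‖(c : Unitization ℂ A) * f‖ ≤ 1 := by
      refine (norm_mul_le _ _).trans ?_
      exact mul_le_one₀ hcn (norm_nonneg _) hf2
    have h3 := hmain x hx
    refine (norm_mul_le _ _).trans ?_
    have h4 : ‖(f * (c : Unitization ℂ A)) * (f * X x * f)‖ ≤ τ := by
      refine (norm_mul_le _ _).trans ?_
      have := norm_nonneg (f * X x * f)
      nlinarith [norm_nonneg (f * (c : Unitization ℂ A))]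
    nlinarith [norm_nonneg ((c : Unitization ℂ A) * f),
      norm_nonneg ((f * (c : Unitization ℂ A)) * (f * X x * f))]

end Pool.Agent.TH387.EI
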