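import Pool.Agent.TH492.Defs

set_option autoImplicit false
set_option linter.unusedSectionVars false

/-! # SCOL-L2: bound on visible blobs via density -/

namespace Pool.Agent.TH558.J344

open Finset
open Pool.Agent.TH492

universe u
variable {V : Type u} [Fintype V] [DecidableEq V]

theorem walk_sees {G : SimpleGraph V} {L : Finset V} {a b : V} (p : G.Walk a b) :
    a ∉ L → b ∈ L → ∃ u ∈ p.support, Sees G L p.length a u := by
  induction p with
  | nil => intro h1 h2; exact absurd h2 h1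
  | @cons a a' b h q ih =>
    intro h1 h2
    by_cases h3 : a' ∈ L
    · refine ⟨a', by simp, h3, 0, by simp, a, Rch.refl h1, h⟩
    · obtain ⟨u, hu, hs⟩ := ih h3 h2
      refine ⟨u, ?_, ?_⟩
      · rw [SimpleGraph.Walk.support_cons]
        exact List.mem_cons_of_mem _ hu
      · have := (Rch.adj h h1 h3).sees hs
        rw [SimpleGraph.Walk.length_cons, add_comm]
        exact this

theorem card_le_of_meet {U : Finset V} {S : Finset (Finset V)}
    (hd : ∀ T ∈ S, ∀ T' ∈ S, T ≠ T' → Disjoint T T') (hm : ∀ T ∈ S, ∃ x ∈ T, x ∈ U) :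
    S.card ≤ U.card := by
  classical
  rcases S.eq_empty_or_nonempty with rfl | ⟨T0, hT0⟩
  · simp
  haveI : Nonempty V := ⟨(hm T0 hT0).choose⟩
  choose! f hf1 hf2 using hm
  refine Finset.card_le_card_of_injOn f (fun T hT => hf2 T hT) ?_
  intro T hT T' hT' h
  by_contra hne
  have := hd T hT T' hT' hne
  rw [Finset.disjoint_left] at this
  exact this (hf1 T hT) (h ▸ hf1 T' hT')

theorem blob_walk {G : SimpleGraph V} {r : ℕ} {T : Finset V} (hT : Blob G r T) {x y : V}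
    (hx : x ∈ T) (hy : y ∈ T) : ∃ p : G.Walk x y, p.length ≤ 2 * r ∧ ∀ w ∈ p.support, w ∈ T := by
  obtain ⟨x0, -, h⟩ := hT
  obtain ⟨p, hp, hp'⟩ := h x hx
  obtain ⟨q, hq, hq'⟩ := h y hy
  refine ⟨p.reverse.append q, ?_, ?_⟩
  · rw [SimpleGraph.Walk.length_append, SimpleGraph.Walk.length_reverse]; omega
  · intro w hw
    rw [SimpleGraph.Walk.mem_support_append_iff] at hw
    rcases hw with hw | hw
    · apply hp'
      simpa using hw
    · exact hq' w hw

theorem pcs_disj {G : SimpleGraph V} {r B m : ℕ} {Y : Finset V} {F : Finset (Finset V)}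
    (hI : Inv G r B m Y F) : ∀ T ∈ Pcs Y F, ∀ T' ∈ Pcs Y F, T ≠ T' → Disjoint T T' := by
  classical
  intro T hT T' hT' hne
  unfold Pcs at hT hT'
  rw [mem_union, mem_image] at hT hT'
  rcases hT with hT | ⟨y, hy, rfl⟩ <;> rcases hT' with hT' | ⟨y', hy', rfl⟩
  · exact hI.disj T hT T' hT' hne
  · rw [disjoint_singleton_right]
    intro h
    rw [mem_sdiff] at hy'
    exact hy'.2 (mem_biUnion.2 ⟨T, hT, h⟩)
  · rw [disjoint_singleton_left]
    intro h
    rw [mem_sdiff] at hy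
    exact hy.2 (mem_biUnion.2 ⟨T', hT', h⟩)
  · rw [disjoint_singleton]
    rintro rfl
    exact hne rfl

theorem pcs_blob {G : SimpleGraph V} {r B m : ℕ} {Y : Finset V} {F : Finset (Finset V)}
    (hI : Inv G r B m Y F) : ∀ T ∈ Pcs Y F, Blob G r T := by
  classical
  intro T hT
  unfold Pcs at hT
  rw [mem_union, mem_image] at hT
  rcases hT with hT | ⟨y, hy, rfl⟩
  · exact hI.blob T hT
  · refine ⟨y, by simp, ?_⟩
    intro z hz
    rw [mem_singleton] at hz
    subst hz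
    exact ⟨SimpleGraph.Walk.nil, by simp, by simp⟩

theorem touches_symm {G : SimpleGraph V} {T Z : Finset V} (h : Touches G T Z) : Touches G Z T := by
  obtain ⟨a, ha, z, hz, h⟩ := h
  exact ⟨z, hz, a, ha, h.symm⟩

open Classical in
/-- the density applied to a family of disjoint blobs -/
theorem dens_family {G : SimpleGraph V} {r p : ℕ} (hd : Dens G r p) (𝒱 : Finset (Finset V))
    (h1 : ∀ T ∈ 𝒱, ∀ T' ∈ 𝒱, T ≠ T' → Disjoint T T') (h2 : ∀ T ∈ 𝒱, Blob G r T) :
    ∑ T ∈ 𝒱, (𝒱.filter (fun Z => Z ≠ T ∧ Touches G T Z)).card ≤ 2 * (p * 𝒱.card) := by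
  set e := 𝒱.equivFin with he
  let H : SimpleGraph (Fin 𝒱.card) :=
    { Adj := fun i j => i ≠ j ∧ Touches G (e.symm i).1 (e.symm j).1
      symm := ⟨fun i j h => ⟨h.1.symm, touches_symm h.2⟩⟩
      loopless := ⟨fun i h => h.1 rfl⟩ }
  have hH := hd 𝒱.card H (fun i => ((e.symm i).1 : Set V)) ?_ ?_ ?_
  · have hs := H.sum_degrees_eq_twice_card_edges
    have hcard : H.edgeFinset.card = H.edgeSet.ncard := by
      rw [← SimpleGraph.coe_edgeFinset, Set.ncard_coe_finset]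
    have hdeg : ∀ T : {x // x ∈ 𝒱}, (𝒱.filter (fun Z => Z ≠ T.1 ∧ Touches G T.1 Z)).card =
        H.degree (e T) := by
      intro T
      rw [← SimpleGraph.card_neighborFinset_eq_degree]
      refine Finset.card_bij' (fun Z hZ => e ⟨Z, (mem_filter.1 hZ).1⟩)
        (fun j _ => (e.symm j).1) ?_ ?_ ?_ ?_
      · intro Z hZ
        rw [mem_filter] at hZ
        rw [SimpleGraph.mem_neighborFinset]
        refine ⟨?_, ?_⟩
        · intro h
          have h3 := e.injective h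
          exact hZ.2.1 (by rw [h3])
        · rw [Equiv.symm_apply_apply, Equiv.symm_apply_apply]
          exact hZ.2.2
      · intro j hj
        rw [SimpleGraph.mem_neighborFinset] at hj
        obtain ⟨h3, h4⟩ := hj
        rw [Equiv.symm_apply_apply] at h4
        rw [mem_filter]
        refine ⟨(e.symm j).2, ?_, h4⟩
        intro h5
        apply h3
        have h6 : e.symm j = T := Subtype.ext h5
        rw [← h6, Equiv.apply_symm_apply]
      · intro Z hZ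
        simp
      · intro j hj
        simp
    calc ∑ T ∈ 𝒱, (𝒱.filter (fun Z => Z ≠ T ∧ Touches G T Z)).card
        = ∑ T : {x // x ∈ 𝒱}, (𝒱.filter (fun Z => Z ≠ T.1 ∧ Touches G T.1 Z)).card := by
          rw [← Finset.sum_coe_sort]
      _ = ∑ T : {x // x ∈ 𝒱}, H.degree (e T) := Finset.sum_congr rfl fun T _ => hdeg T
      _ = ∑ i, H.degree i := e.sum_comp (fun i => H.degree i)
      _ = 2 * H.edgeFinset.card := hs
      _ ≤ 2 * (p * 𝒱.card) := by rw [hcard]; omega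
  · intro i j hij
    rw [Set.disjoint_iff_inter_eq_empty, ← Finset.coe_inter, Finset.coe_eq_empty,
      ← Finset.disjoint_iff_inter_eq_empty]
    refine h1 _ (e.symm i).2 _ (e.symm j).2 ?_
    intro h
    exact hij (e.symm.injective (Subtype.ext h))
  · intro i
    obtain ⟨x, hx, h⟩ := h2 _ (e.symm i).2
    exact ⟨x, hx, h⟩
  · intro i j hij
    obtain ⟨a, ha, z, hz, h⟩ := hij.2
    exact ⟨a, ha, z, hz, h⟩

open Classical in
theorem claim {G : SimpleGraph V} {r p B m c κ : ℕ} (hd : Dens G r p) (hp : 1 ≤ p)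
    (hm : 4 * p * κ ^ c ≤ m) {Y : Finset V} {F : Finset (Finset V)} (hI : Inv G r B m Y F) {v : V}
    (ρ : ℕ) :
    2 * κ ^ c * (F.filter (fun T => ∃ x ∈ T, Rch G Y ρ v x)).card ≤
      (2 * κ ^ c + 1) * (Sight G Y (ρ + (2 * r + 1)) v).card +
      (F.filter (fun T => ∃ x ∈ T, Rch G Y (ρ + (2 * r + 1)) v x)).card := by
  set A := Sight G Y (ρ + (2 * r + 1)) v with hA
  set F1 := F.filter (fun T => ∃ x ∈ T, Rch G Y ρ v x) with hF1
  set F2 := F.filter (fun T => ∃ x ∈ T, Rch G Y (ρ + (2 * r + 1)) v x) with hF2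
  have hsplit : F1.card = (F1.filter (fun T => ∃ u ∈ T, u ∈ Y)).card +
      (F1.filter (fun T => ¬ ∃ u ∈ T, u ∈ Y)).card :=
    (Finset.card_filter_add_card_filter_not _).symm
  have hdam : (F1.filter (fun T => ∃ u ∈ T, u ∈ Y)).card ≤ A.card := by
    refine card_le_of_meet ?_ ?_
    · intro T hT T' hT' hne
      exact hI.disj T (mem_filter.1 (mem_filter.1 hT).1).1 T' (mem_filter.1 (mem_filter.1 hT').1).1 hne
    · intro T hT
      rw [mem_filter, hF1, mem_filter] at hT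
      obtain ⟨⟨hTF, x, hxT, hx⟩, u, huT, huY⟩ := hT
      obtain ⟨q, hq, hq'⟩ := blob_walk (hI.blob T hTF) hxT huT
      obtain ⟨w, hw, hs⟩ := walk_sees q hx.right huY
      refine ⟨w, hq' w hw, ?_⟩
      rw [hA, mem_sight]
      exact (hx.sees hs).mono (Finset.Subset.refl _) hs.1 (by omega)
  set U := F1.filter (fun T => ¬ ∃ u ∈ T, u ∈ Y) with hU
  set 𝒱 := (Pcs Y F).filter (fun Z => (∃ z ∈ Z, z ∈ A) ∨ Z ∈ F2) with h𝒱
  have hVcard : 𝒱.card ≤ A.card + F2.card := by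
    rw [h𝒱, Finset.filter_or]
    refine (Finset.card_union_le _ _).trans (Nat.add_le_add ?_ ?_)
    · refine card_le_of_meet ?_ ?_
      · intro T hT T' hT' hne
        exact pcs_disj hI T (mem_filter.1 hT).1 T' (mem_filter.1 hT').1 hne
      · intro T hT
        exact (mem_filter.1 hT).2
    · exact Finset.card_le_card fun T hT => (mem_filter.1 hT).2
  have hsum := dens_family hd 𝒱
    (fun T hT T' hT' hne => pcs_disj hI T (mem_filter.1 hT).1 T' (mem_filter.1 hT').1 hne)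
    (fun T hT => pcs_blob hI T (mem_filter.1 hT).1)
  have hUV : U ⊆ 𝒱 := by
    intro T hT
    rw [hU, mem_filter, hF1, mem_filter] at hT
    obtain ⟨⟨hTF, x, hxT, hx⟩, -⟩ := hT
    rw [h𝒱, mem_filter]
    refine ⟨mem_union_left _ hTF, Or.inr ?_⟩
    rw [hF2, mem_filter]
    exact ⟨hTF, x, hxT, hx.mono (Finset.Subset.refl _) (by omega)⟩
  have hdeg : ∀ T ∈ U, m ≤ (𝒱.filter (fun Z => Z ≠ T ∧ Touches G T Z)).card := by
    intro T hT
    rw [hU, mem_filter, hF1, mem_filter] at hT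
    obtain ⟨⟨hTF, x, hxT, hx⟩, hTY⟩ := hT
    refine (hI.touch T hTF).trans (Finset.card_le_card ?_)
    intro Z hZ
    rw [mem_filter] at hZ ⊢
    refine ⟨?_, hZ.2⟩
    obtain ⟨hZP, hne, a, haT, z, hzZ, haz⟩ := hZ
    obtain ⟨q, hq, hq'⟩ := blob_walk (hI.blob T hTF) hxT haT
    have hxa : Rch G Y (ρ + 2 * r) v a := by
      refine hx.trans ⟨q, hq, ?_⟩
      intro w hw hwY
      exact hTY ⟨w, hq' w hw, hwY⟩
    rw [h𝒱, mem_filter]
    refine ⟨hZP, ?_⟩
    by_cases hzY : z ∈ Y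
    · left
      refine ⟨z, hzZ, ?_⟩
      rw [hA, mem_sight]
      exact ⟨hzY, ρ + 2 * r, by omega, a, hxa, haz⟩
    · right
      rw [hF2, mem_filter]
      refine ⟨?_, z, hzZ, (hxa.step haz hzY).mono (Finset.Subset.refl _) (by omega)⟩
      unfold Pcs at hZP
      rw [mem_union, mem_image] at hZP
      rcases hZP with h | ⟨y, hy, rfl⟩
      · exact h
      · rw [mem_singleton] at hzZ
        subst hzZ
        exact absurd (mem_sdiff.1 hy).1 hzY
  have h1 : m * U.card ≤ 2 * (p * 𝒱.card) := by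
    refine le_trans ?_ hsum
    refine le_trans ?_ (Finset.sum_le_sum_of_subset hUV)
    have := Finset.card_nsmul_le_sum U _ m hdeg
    rw [smul_eq_mul, mul_comm] at this
    exact this
  have h2 : 2 * κ ^ c * U.card ≤ 𝒱.card := by
    have h3 : 4 * p * κ ^ c * U.card ≤ m * U.card := Nat.mul_le_mul_right _ hm
    have h4 : 2 * p * (2 * κ ^ c * U.card) ≤ 2 * p * 𝒱.card := by
      calc 2 * p * (2 * κ ^ c * U.card) = 4 * p * κ ^ c * U.card := by ring
        _ ≤ m * U.card := h3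
        _ ≤ 2 * (p * 𝒱.card) := h1
        _ = 2 * p * 𝒱.card := by ring
    exact Nat.le_of_mul_le_mul_left h4 (by omega)
  calc 2 * κ ^ c * F1.card = 2 * κ ^ c * (F1.filter (fun T => ∃ u ∈ T, u ∈ Y)).card +
        2 * κ ^ c * U.card := by rw [hsplit]; ring
    _ ≤ 2 * κ ^ c * A.card + (A.card + F2.card) :=
        Nat.add_le_add (Nat.mul_le_mul_left _ hdam) (h2.trans hVcard)
    _ = (2 * κ ^ c + 1) * A.card + F2.card := by ring

open Classical in
/-- L2 -/
theorem state_bound {G : SimpleGraph V} {r p B m c κ Q Z : ℕ} (hd : Dens G r p) (hp : 1 ≤ p)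
    (hm : 4 * p * κ ^ c ≤ m) (hκ : ∀ ρ, Q ≤ ρ → ρ + (2 * r + 1) ≤ κ * ρ)
    {Y : Finset V} {F : Finset (Finset V)} (hI : Inv G r B m Y F) {v : V} (hv : v ∉ Y)
    (hY : ∀ ρ, Q ≤ ρ → (Sight G Y ρ v).card * Z ≤ ρ ^ c) :
    ∀ ρ, Q ≤ ρ → (F.filter (fun T => ∃ x ∈ T, Rch G Y ρ v x)).card * Z ≤ 4 * κ ^ c * ρ ^ c := by
  set N : ℕ → ℕ := fun ρ => (F.filter (fun T => ∃ x ∈ T, Rch G Y ρ v x)).card with hN
  have hκ1 : 1 ≤ κ := by
    have h1 := hκ Q le_rfl
    by_contra h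
    have h2 : κ = 0 := by omega
    rw [h2, zero_mul] at h1
    omega
  have hk1 : 1 ≤ κ ^ c := Nat.one_le_pow _ _ hκ1
  have hstep : ∀ ρ, Q ≤ ρ → ∀ g : ℕ, 4 * κ ^ c * ρ ^ c + g ≤ N ρ * Z →
      4 * κ ^ c * (ρ + (2 * r + 1)) ^ c + 2 * g ≤ N (ρ + (2 * r + 1)) * Z := by
    intro ρ hρ g hg
    have h1 := claim hd hp hm hI (v := v) ρ
    have h2 := hY (ρ + (2 * r + 1)) (by omega)
    have h3 : (ρ + (2 * r + 1)) ^ c ≤ κ ^ c * ρ ^ c := by
      rw [← mul_pow]
      exact Nat.pow_le_pow_left (hκ ρ hρ) c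
    have h4 := Nat.mul_le_mul_right Z h1
    have h5 : 2 * κ ^ c * (N ρ * Z) ≤ (2 * κ ^ c + 1) * (ρ + (2 * r + 1)) ^ c +
        N (ρ + (2 * r + 1)) * Z := by
      calc 2 * κ ^ c * (N ρ * Z) = 2 * κ ^ c * N ρ * Z := by ring
        _ ≤ _ := h4
        _ = (2 * κ ^ c + 1) * ((Sight G Y (ρ + (2 * r + 1)) v).card * Z) +
            N (ρ + (2 * r + 1)) * Z := by ring
        _ ≤ _ := Nat.add_le_add_right (Nat.mul_le_mul_left _ h2) _
    have h6 : 2 * κ ^ c * (4 * κ ^ c * ρ ^ c + g) ≤ 2 * κ ^ c * (N ρ * Z) :=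
      Nat.mul_le_mul_left _ hg
    have h7 : 2 * g ≤ 2 * κ ^ c * g := by
      calc 2 * g = 2 * 1 * g := by ring
        _ ≤ 2 * κ ^ c * g := Nat.mul_le_mul_right _ (Nat.mul_le_mul_left _ hk1)
    have h8 : (2 * κ ^ c + 1) * (ρ + (2 * r + 1)) ^ c ≤ (2 * κ ^ c + 1) * (κ ^ c * ρ ^ c) :=
      Nat.mul_le_mul_left _ h3
    have h9 : 4 * κ ^ c * (ρ + (2 * r + 1)) ^ c ≤ 4 * κ ^ c * (κ ^ c * ρ ^ c) :=
      Nat.mul_le_mul_left _ h3
    have h10 : κ ^ c * ρ ^ c ≤ κ ^ c * (κ ^ c * ρ ^ c) := Nat.le_mul_of_pos_left _ (by omega)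
    have h11 : 2 * κ ^ c * (4 * κ ^ c * ρ ^ c + g) = 8 * (κ ^ c * (κ ^ c * ρ ^ c)) +
        2 * κ ^ c * g := by ring
    have h12 : (2 * κ ^ c + 1) * (κ ^ c * ρ ^ c) = 2 * (κ ^ c * (κ ^ c * ρ ^ c)) +
        κ ^ c * ρ ^ c := by ring
    have h13 : 4 * κ ^ c * (κ ^ c * ρ ^ c) = 4 * (κ ^ c * (κ ^ c * ρ ^ c)) := by ring
    omega
  intro ρ hρ
  by_contra hcon
  push Not at hcon
  have hiter : ∀ J : ℕ, 4 * κ ^ c * (ρ + J * (2 * r + 1)) ^ c + 2 ^ J ≤
      N (ρ + J * (2 * r + 1)) * Z := by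
    intro J
    induction J with
    | zero =>
      simp only [zero_mul, add_zero, pow_zero]
      exact hcon
    | succ J ih =>
      have := hstep (ρ + J * (2 * r + 1)) (by omega) (2 ^ J) ih
      have e : ρ + (J + 1) * (2 * r + 1) = ρ + J * (2 * r + 1) + (2 * r + 1) := by ring
      rw [e, pow_succ]
      omega
  have h1 := hiter (F.card * Z)
  have h2 : N (ρ + F.card * Z * (2 * r + 1)) * Z ≤ F.card * Z :=
    Nat.mul_le_mul_right _ (Finset.card_le_card (Finset.filter_subset _ _))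
  have h3 : F.card * Z < 2 ^ (F.card * Z) := Nat.lt_two_pow_self
  omega

open Classical in
theorem sight_occ_bound {G : SimpleGraph V} {r p B m c κ Q Z : ℕ} (hd : Dens G r p) (hp : 1 ≤ p)
    (hm : 4 * p * κ ^ c ≤ m) (hκ : ∀ ρ, Q ≤ ρ → ρ + (2 * r + 1) ≤ κ * ρ)
    {Y : Finset V} {F : Finset (Finset V)} (hI : Inv G r B m Y F) {v : V} (hv : v ∉ Occ Y F)
    (hY : ∀ ρ, Q ≤ ρ → (Sight G Y ρ v).card * Z ≤ ρ ^ c) :
    ∀ ρ, Q ≤ ρ → (Sight G (Occ Y F) ρ v).card * Z ≤ (1 + B * (4 * κ ^ c)) * ρ ^ c := by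
  intro ρ hρ
  have hYO : Y ⊆ Occ Y F := Finset.subset_union_left
  have hvY : v ∉ Y := fun h => hv (hYO h)
  have h1 := state_bound hd hp hm hκ hI hvY hY ρ hρ
  set F1 := F.filter (fun T => ∃ x ∈ T, Rch G Y ρ v x) with hF1
  have hsub : Sight G (Occ Y F) ρ v ⊆ Sight G Y ρ v ∪ F1.biUnion id := by
    intro u hu
    rw [mem_sight] at hu
    rw [mem_union]
    by_cases huY : u ∈ Y
    · left
      rw [mem_sight]
      exact hu.mono hYO huY le_rfl
    · right
      obtain ⟨huO, j, hj, z, hz, ha⟩ := hu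
      unfold Occ at huO
      rw [mem_union, mem_biUnion] at huO
      rcases huO with h | ⟨T, hT, huT⟩
      · exact absurd h huY
      · rw [mem_biUnion]
        refine ⟨T, ?_, huT⟩
        rw [hF1, mem_filter]
        exact ⟨hT, u, huT, ((hz.mono hYO le_rfl).step ha huY).mono (Finset.Subset.refl _) (by omega)⟩
  have h2 : (Sight G (Occ Y F) ρ v).card ≤ (Sight G Y ρ v).card + F1.card * B := by
    refine (Finset.card_le_card hsub).trans ((Finset.card_union_le _ _).trans ?_)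
    refine Nat.add_le_add_left ?_ _
    exact Finset.card_biUnion_le_card_mul _ _ _ fun T hT => hI.card T (mem_filter.1 hT).1
  calc (Sight G (Occ Y F) ρ v).card * Z ≤ ((Sight G Y ρ v).card + F1.card * B) * Z :=
        Nat.mul_le_mul_right _ h2
    _ = (Sight G Y ρ v).card * Z + B * (F1.card * Z) := by ring
    _ ≤ ρ ^ c + B * (4 * κ ^ c * ρ ^ c) :=
        Nat.add_le_add (hY ρ hρ) (Nat.mul_le_mul_left _ h1)
    _ = (1 + B * (4 * κ ^ c)) * ρ ^ c := by ring

end Pool.Agent.TH558.J344
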