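import Mathlib
set_option autoImplicit false

/-!
# BL-I (job 1244, helper65, MP_42532b_al): primes in a residue class avoiding divisibility
-/

namespace Pool.Agent.TH558.BL

theorem exists_prime (Ps : Finset ℕ) (h : ∀ p ∈ Ps, p.Prime ∧ Odd p) (B : ℕ) :
    ∃ N, N.Prime ∧ B ≤ N ∧ Odd N ∧ ∀ p ∈ Ps, p < N ∧ ¬ p ∣ N - 1 := by
  set q : ℕ := ∏ p ∈ Ps, p with hq
  have hq0 : q ≠ 0 := Finset.prod_ne_zero_iff.mpr fun p hp => (h p hp).1.ne_zero
  have : NeZero q := ⟨hq0⟩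
  have hodd : Odd q := Finset.prod_induction (fun p : ℕ => p) Odd (fun a b ha hb => ha.mul hb) odd_one
    fun p hp => (h p hp).2
  have hu : IsUnit ((2 : ℕ) : ZMod q) := by
    rw [ZMod.isUnit_iff_coprime, Nat.coprime_two_left]
    exact hodd
  obtain ⟨N, hN, hNp, hNr⟩ := Nat.forall_exists_prime_gt_and_eq_mod hu (B + q + 2)
  refine ⟨N, hNp, by omega, hNp.odd_of_ne_two (by omega), fun p hp => ⟨?_, ?_⟩⟩
  · have hpq : p ∣ q := Finset.dvd_prod_of_mem _ hp
    have := Nat.le_of_dvd (Nat.pos_of_ne_zero hq0) hpq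
    omega
  · intro hdvd
    have hpq : p ∣ q := Finset.dvd_prod_of_mem _ hp
    have h1 : N ≡ 2 [MOD q] := (ZMod.natCast_eq_natCast_iff _ _ _).mp hNr
    have h2 : N ≡ 2 [MOD p] := h1.of_dvd hpq
    have h3 : N ≡ 1 [MOD p] := by
      have := (Nat.modEq_iff_dvd' (n := p) (a := 1) (b := N) (by omega)).mpr hdvd
      exact this.symm
    have h4 : 2 ≡ 1 [MOD p] := h2.symm.trans h3
    have h5 := (Nat.modEq_iff_dvd' (n := p) (by omega : 1 ≤ 2)).mp h4.symm
    norm_num at h5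
    exact (h p hp).1.one_lt.ne' h5

end Pool.Agent.TH558.BL
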