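import Pool.Agent.TH83.DC.GDefs

set_option autoImplicit false

namespace Pool.Agent.TH558.DC2345

open Pool.Agent.TH83.DC
open Finset
open scoped Classical

theorem wt_nonneg (a : ℕ) : 0 ≤ wt a := Real.log_natCast_nonneg _

/-- the arithmetic function `n ↦ τ(n)^(-s)` -/
noncomputable def g (s : ℕ) : ArithmeticFunction ℝ :=
  ⟨fun n => if n = 0 then 0 else ((n.divisors.card : ℝ) ^ s)⁻¹, by simp⟩

theorem g_apply (s : ℕ) {n : ℕ} (hn : n ≠ 0) : g s n = ((n.divisors.card : ℝ) ^ s)⁻¹ := by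
  show (if n = 0 then (0 : ℝ) else ((n.divisors.card : ℝ) ^ s)⁻¹) = _
  rw [if_neg hn]

theorem g_mult (s : ℕ) : (g s).IsMultiplicative := by
  constructor
  · rw [g_apply s one_ne_zero]; simp
  · intro m n hmn
    rcases eq_or_ne m 0 with hm | hm
    · subst hm
      rw [zero_mul, ArithmeticFunction.map_zero, zero_mul]
    rcases eq_or_ne n 0 with hn | hn
    · subst hn
      rw [mul_zero, ArithmeticFunction.map_zero, mul_zero]
    rw [g_apply s (mul_ne_zero hm hn), g_apply s hm, g_apply s hn, hmn.card_divisors_mul]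
    push_cast
    rw [mul_pow, mul_inv]

/-- the sum over the divisors -/
noncomputable def F (s : ℕ) : ArithmeticFunction ℝ :=
  g s * ((ArithmeticFunction.zeta : ArithmeticFunction ℕ) : ArithmeticFunction ℝ)

theorem F_mult (s : ℕ) : (F s).IsMultiplicative :=
  (g_mult s).mul (ArithmeticFunction.isMultiplicative_zeta.natCast)

theorem F_apply (s : ℕ) (n : ℕ) : F s n = ∑ d ∈ n.divisors, g s d := by
  unfold F
  rw [ArithmeticFunction.coe_mul_zeta_apply]

theorem sum_inv_le (s : ℕ) (hs : 2 ≤ s) (k : ℕ) :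
    ∑ i ∈ Finset.range (k + 1), (((i : ℝ) + 1) ^ s)⁻¹ ≤
      1 + 4 * ((2 : ℝ) ^ s)⁻¹ * (1 - 1 / ((k : ℝ) + 1)) := by
  induction k with
  | zero => simp
  | succ k ih =>
    rw [Finset.sum_range_succ]
    have hk : (0 : ℝ) ≤ k := Nat.cast_nonneg _
    have h1 : ((((k + 1 : ℕ) : ℝ) + 1) ^ s)⁻¹ ≤ 4 * ((2 : ℝ) ^ s)⁻¹ *
        (1 / ((k : ℝ) + 1) - 1 / (((k + 1 : ℕ) : ℝ) + 1)) := by
      push_cast
      obtain ⟨t, rfl⟩ : ∃ t, s = t + 2 := ⟨s - 2, by omega⟩
      have e1 : (1 : ℝ) / (k + 1) - 1 / (k + 1 + 1) = 1 / ((k + 1) * (k + 1 + 1)) := by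
        field_simp; ring
      rw [e1]
      have e2 : 4 * ((2 : ℝ) ^ (t + 2))⁻¹ = ((2 : ℝ) ^ t)⁻¹ := by
        rw [pow_add]
        field_simp
        norm_num
      rw [e2, pow_add, mul_inv]
      refine mul_le_mul ?_ ?_ (by positivity) (by positivity)
      · refine inv_anti₀ (by positivity) ?_
        exact pow_le_pow_left₀ (by norm_num) (by linarith) _
      · rw [one_div]
        refine inv_anti₀ (by positivity) ?_
        nlinarith
    have h2 := add_le_add ih h1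
    refine h2.trans (le_of_eq ?_)
    ring

theorem F_prime_pow (s : ℕ) (hs : 2 ≤ s) (p : ℕ) (hp : p.Prime) (k : ℕ) :
    F s (p ^ k) ≤ Real.exp (4 * ((2 : ℝ) ^ s)⁻¹) := by
  rw [F_apply, Nat.sum_divisors_prime_pow hp]
  have h1 : ∀ i ∈ Finset.range (k + 1), g s (p ^ i) = (((i : ℝ) + 1) ^ s)⁻¹ := by
    intro i _
    rw [g_apply s (pow_ne_zero _ hp.ne_zero), Nat.divisors_prime_pow hp, Finset.card_map,
      Finset.card_range]
    push_cast
    rfl
  rw [Finset.sum_congr rfl h1]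
  refine (sum_inv_le s hs k).trans ?_
  have h2 : 4 * ((2 : ℝ) ^ s)⁻¹ * (1 - 1 / ((k : ℝ) + 1)) ≤ 4 * ((2 : ℝ) ^ s)⁻¹ := by
    have h3 : 0 ≤ 4 * ((2 : ℝ) ^ s)⁻¹ := by positivity
    have h4 : 0 ≤ 1 / ((k : ℝ) + 1) := by positivity
    nlinarith
  have h5 := Real.add_one_le_exp (4 * ((2 : ℝ) ^ s)⁻¹)
  linarith

theorem F_nonneg (s n : ℕ) : 0 ≤ F s n := by
  rw [F_apply]
  refine Finset.sum_nonneg fun d hd => ?_
  rw [g_apply s (Nat.pos_of_mem_divisors hd).ne']
  positivity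

theorem F_le (s : ℕ) (hs : 2 ≤ s) (a : ℕ) (ha : a ≠ 0) :
    F s a ≤ Real.exp (4 * ((2 : ℝ) ^ s)⁻¹ * a.primeFactors.card) := by
  rw [(F_mult s).multiplicative_factorization (F s) ha]
  unfold Finsupp.prod
  rw [Nat.support_factorization]
  have h1 : ∏ p ∈ a.primeFactors, F s (p ^ a.factorization p) ≤
      ∏ _p ∈ a.primeFactors, Real.exp (4 * ((2 : ℝ) ^ s)⁻¹) := by
    refine Finset.prod_le_prod (fun p _ => F_nonneg _ _) fun p hp => ?_
    exact F_prime_pow s hs p (Nat.prime_of_mem_primeFactors hp) _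
  refine h1.trans (le_of_eq ?_)
  rw [Finset.prod_const, ← Real.exp_nat_mul, mul_comm]

theorem card_primeFactors_le (a : ℕ) (ha : a ≠ 0) :
    (a.primeFactors.card : ℝ) * Real.log 2 ≤ wt a := by
  have h1 : 2 ^ a.primeFactors.card ≤ a.divisors.card := by
    rw [Nat.card_divisors ha, ← Finset.prod_const]
    refine Finset.prod_le_prod' fun p hp => ?_
    have : a.factorization p ≠ 0 := by
      rw [← Finsupp.mem_support_iff, Nat.support_factorization]
      exact hp
    omega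
  unfold wt
  rw [← Real.log_pow]
  refine Real.log_le_log (by positivity) ?_
  exact_mod_cast h1

theorem few_small (ω : ℝ) (hω : 0 < ω) : ∃ u₀ : ℝ, 0 < u₀ ∧ ∀ a : ℕ, a ≠ 0 →
    ∀ K : ℝ, wt a ≤ K →
      ((a.divisors.filter fun d => wt d ≤ u₀ * K).card : ℝ) ≤ Real.exp (ω * K) := by
  have hlog2 : 0 < Real.log 2 := Real.log_pos (by norm_num)
  obtain ⟨n, hn⟩ := exists_pow_lt_of_lt_one (show (0 : ℝ) < ω * Real.log 2 / 8 by positivity)
    (show (1 / 2 : ℝ) < 1 by norm_num)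
  set s : ℕ := n + 2 with hs
  have hs2 : 2 ≤ s := by omega
  have hspos : (0 : ℝ) < s := by positivity
  have hpow : 4 * ((2 : ℝ) ^ s)⁻¹ ≤ ω / 2 * Real.log 2 := by
    have h1 : ((2 : ℝ) ^ s)⁻¹ ≤ (1 / 2 : ℝ) ^ n := by
      rw [one_div, inv_pow]
      refine inv_anti₀ (by positivity) ?_
      exact pow_le_pow_right₀ (by norm_num) (by omega)
    nlinarith
  refine ⟨ω / (2 * s), by positivity, fun a ha K hK => ?_⟩
  have hK0 : 0 ≤ K := (wt_nonneg a).trans hK
  set u₀ : ℝ := ω / (2 * s) with hu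
  have hsu : s * (u₀ * K) = ω / 2 * K := by
    rw [hu]; field_simp
  have hterm : ∀ d ∈ a.divisors, (if wt d ≤ u₀ * K then (1 : ℝ) else 0) ≤
      Real.exp (ω / 2 * K) * g s d := by
    intro d hd
    have hd0 : d ≠ 0 := (Nat.pos_of_mem_divisors hd).ne'
    have hc : 0 < d.divisors.card := Finset.card_pos.2 (Nat.nonempty_divisors.2 hd0)
    have hc' : (0 : ℝ) < (d.divisors.card : ℝ) := by exact_mod_cast hc
    rw [g_apply s hd0]
    split_ifs with h
    · have h1 : ((d.divisors.card : ℝ) ^ s)⁻¹ = Real.exp (-(s * wt d)) := by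
        rw [Real.exp_neg, Real.exp_nat_mul]
        unfold wt
        rw [Real.exp_log hc']
      rw [h1, ← Real.exp_add]
      refine Real.one_le_exp ?_
      have h2 : s * wt d ≤ s * (u₀ * K) := mul_le_mul_of_nonneg_left h hspos.le
      linarith
    · positivity
  have hcard : ((a.divisors.filter fun d => wt d ≤ u₀ * K).card : ℝ) =
      ∑ d ∈ a.divisors, (if wt d ≤ u₀ * K then (1 : ℝ) else 0) := by
    rw [Finset.card_filter]
    push_cast
    rfl
  rw [hcard]
  calc ∑ d ∈ a.divisors, (if wt d ≤ u₀ * K then (1 : ℝ) else 0)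
      ≤ ∑ d ∈ a.divisors, Real.exp (ω / 2 * K) * g s d := Finset.sum_le_sum hterm
    _ = Real.exp (ω / 2 * K) * F s a := by rw [← Finset.mul_sum, F_apply]
    _ ≤ Real.exp (ω / 2 * K) * Real.exp (4 * ((2 : ℝ) ^ s)⁻¹ * a.primeFactors.card) :=
        mul_le_mul_of_nonneg_left (F_le s hs2 a ha) (Real.exp_pos _).le
    _ ≤ Real.exp (ω / 2 * K) * Real.exp (ω / 2 * K) := by
        refine mul_le_mul_of_nonneg_left (Real.exp_le_exp.2 ?_) (Real.exp_pos _).le
        calc 4 * ((2 : ℝ) ^ s)⁻¹ * a.primeFactors.card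
            ≤ ω / 2 * Real.log 2 * a.primeFactors.card :=
              mul_le_mul_of_nonneg_right hpow (Nat.cast_nonneg _)
          _ = ω / 2 * (a.primeFactors.card * Real.log 2) := by ring
          _ ≤ ω / 2 * K := by
              refine mul_le_mul_of_nonneg_left ?_ (by positivity)
              exact (card_primeFactors_le a ha).trans hK
    _ = Real.exp (ω * K) := by
        rw [← Real.exp_add]; congr 1; ring

end Pool.Agent.TH558.DC2345
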