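import Pool.Agent.TH83.DC.GDefs

set_option autoImplicit false

namespace Pool.Agent.TH558.DC2349

open Pool.Agent.TH83.DC
open Finset
open scoped Classical

theorem wt_nonneg (a : ℕ) : 0 ≤ wt a := Real.log_natCast_nonneg _

theorem wt_zero : wt 0 = 0 := by simp [wt]

theorem wt_one : wt 1 = 0 := by simp [wt]

theorem wt_mul_le (a b : ℕ) : wt (a * b) ≤ wt a + wt b := by
  rcases eq_or_ne a 0 with ha | ha
  · subst ha
    rw [zero_mul, wt_zero]
    simpa using wt_nonneg b
  rcases eq_or_ne b 0 with hb | hb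
  · subst hb
    rw [mul_zero, wt_zero]
    simpa using wt_nonneg a
  unfold wt
  have h1 : 0 < a.divisors.card := Finset.card_pos.2 (Nat.nonempty_divisors.2 ha)
  have h2 : 0 < b.divisors.card := Finset.card_pos.2 (Nat.nonempty_divisors.2 hb)
  have h3 : 0 < (a * b).divisors.card :=
    Finset.card_pos.2 (Nat.nonempty_divisors.2 (mul_ne_zero ha hb))
  rw [← Real.log_mul (by exact_mod_cast h1.ne') (by exact_mod_cast h2.ne')]
  refine Real.log_le_log (by exact_mod_cast h3) ?_
  rw [Nat.divisors_mul]
  exact_mod_cast Finset.card_mul_le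

theorem wt_le_of_dvd {a b : ℕ} (hb : b ≠ 0) (h : a ∣ b) : wt a ≤ wt b := by
  have ha : a ≠ 0 := fun h0 => hb (by rw [h0] at h; exact Nat.eq_zero_of_zero_dvd h)
  unfold wt
  have h1 : 0 < a.divisors.card := Finset.card_pos.2 (Nat.nonempty_divisors.2 ha)
  refine Real.log_le_log (by exact_mod_cast h1) ?_
  exact_mod_cast Finset.card_le_card (Nat.divisors_subset_of_dvd hb h)

theorem wt_prod_le {ι : Type} (s : Finset ι) (f : ι → ℕ) :
    wt (∏ i ∈ s, f i) ≤ ∑ i ∈ s, wt (f i) := by
  induction s using Finset.induction_on with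
  | empty => simp [wt_one]
  | insert a s ha ih =>
    rw [Finset.prod_insert ha, Finset.sum_insert ha]
    exact (wt_mul_le _ _).trans (by linarith)

/-- the decoding map -/
noncomputable def dec {k : ℕ} {Λ : Type} [Fintype Λ] (π : Fin k → Λ → ℕ)
    (L : Fin k → Finset Λ)
    (fE : (Fin k → Λ → Fin k) × ((Fin k → Fin k → ℕ) × (Fin k → Fin k → ℕ))) :
    Fin k → ℕ := fun j =>
  ∏ i, ((∏ l ∈ (L i).filter (fun l => fE.1 i l = j), π i l) / fE.2.1 i j) * fE.2.2 i j

theorem count_trivial {k : ℕ} {Λ : Type} [Fintype Λ] (x : Fin k → ℕ) (hx0 : ∀ i, x i ≠ 0)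
    (π : Fin k → Λ → ℕ) (hπ : ∀ i, ∏ l, π i l = x i) (Y : Finset (Fin k → ℕ))
    (R : (Fin k → ℕ) → Fin k → Λ → Fin k → ℕ)
    (hR1 : ∀ y ∈ Y, ∀ i l, ∏ j, R y i l j = π i l)
    (hR2 : ∀ y ∈ Y, ∀ j, ∏ i, ∏ l, R y i l j = y j)
    (u v η : ℝ) (hu : 0 < u) (hv : 0 < v) (m : ℕ)
    (hm : ∀ i, (Finset.univ.filter fun l => v ≤ wt (π i l)).card ≤ m)
    (hη : m * (k * u) + Fintype.card Λ * v ≤ η) (W : ℝ)
    (hW : ∀ i, (((x i).divisors.filter fun d => wt d ≤ η).card : ℝ) ≤ W)
    (htriv : ∀ y ∈ Y, ∀ i l, Triv u (R y i l)) :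
    (Y.card : ℝ) ≤ ((k : ℝ) ^ m * W ^ (2 * k)) ^ k := by
  rcases Nat.eq_zero_or_pos k with hk | hk
  · subst hk
    rw [pow_zero]
    have : Y.card ≤ 1 := by
      refine Finset.card_le_one.2 fun a _ b _ => Subsingleton.elim _ _
    exact_mod_cast this
  set L : Fin k → Finset Λ := fun i => Finset.univ.filter fun l => v ≤ wt (π i l) with hL
  set j0 : Fin k := ⟨0, hk⟩ with hj0
  have hk1 : (1 : ℝ) ≤ k := by exact_mod_cast hk
  have hW0 : 0 ≤ W := le_trans (Nat.cast_nonneg _) (hW j0)
  set Fs : Fin k → Finset (Λ → Fin k) := fun i =>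
    Fintype.piFinset fun l => if l ∈ L i then Finset.univ else {j0} with hFs
  set Es : Fin k → Finset (Fin k → ℕ) := fun i =>
    Fintype.piFinset fun _ => (x i).divisors.filter fun d => wt d ≤ η with hEs
  have hΛv : 0 ≤ (Fintype.card Λ : ℝ) * v := mul_nonneg (Nat.cast_nonneg _) hv.le
  have hsub : Y ⊆
      ((Fintype.piFinset Fs) ×ˢ ((Fintype.piFinset Es) ×ˢ (Fintype.piFinset Es))).image
        (dec π L) := by
    intro y hy
    have hyT := htriv y hy
    have hp := hR1 y hy
    have hyj := hR2 y hy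
    choose g hg using hyT
    have hπ0 : ∀ i l, π i l ≠ 0 := by
      intro i l h0
      apply hx0 i
      rw [← hπ i]
      exact Finset.prod_eq_zero (Finset.mem_univ l) h0
    have hRdvd : ∀ i l j, R y i l j ∣ π i l := by
      intro i l j
      rw [← hp i l]
      exact Finset.dvd_prod_of_mem _ (Finset.mem_univ j)
    have hR0 : ∀ i l j, R y i l j ≠ 0 := by
      intro i l j h0
      have := hRdvd i l j
      rw [h0] at this
      exact hπ0 i l (Nat.eq_zero_of_zero_dvd this)
    set f : Fin k → Λ → Fin k := fun i l => if l ∈ L i then g i l else j0 with hf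
    have hfg : ∀ i l, l ∈ L i → f i l = g i l := by
      intro i l hl
      rw [hf]; simp only; rw [if_pos hl]
    set Dd : Fin k → Fin k → ℕ := fun i j =>
      ∏ l ∈ (L i).filter (fun l => f i l = j), ∏ j' ∈ Finset.univ.erase j, R y i l j' with hDd
    set Of : Fin k → Fin k → ℕ := fun i j =>
      ∏ l ∈ Finset.univ.filter (fun l => ¬ (l ∈ L i ∧ f i l = j)), R y i l j with hOf
    have hOfdvd : ∀ i j, Of i j ∣ x i := by
      intro i j
      rw [← hπ i]
      refine dvd_trans ?_ (Finset.prod_dvd_prod_of_dvd _ _ fun l _ => hRdvd i l j)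
      exact Finset.prod_dvd_prod_of_subset _ _ _ (Finset.filter_subset _ _)
    have hUD : ∀ i j, (∏ l ∈ (L i).filter (fun l => f i l = j), π i l)
        = (∏ l ∈ (L i).filter (fun l => f i l = j), R y i l j) * Dd i j := by
      intro i j
      rw [hDd]
      simp only
      rw [← Finset.prod_mul_distrib]
      refine Finset.prod_congr rfl fun l _ => ?_
      rw [Finset.mul_prod_erase Finset.univ (fun j' => R y i l j') (Finset.mem_univ j), hp i l]
    have hDddvd : ∀ i j, Dd i j ∣ x i := by
      intro i j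
      refine dvd_trans (Dvd.intro_left _ (hUD i j).symm) ?_
      rw [← hπ i]
      exact Finset.prod_dvd_prod_of_subset _ _ _ (Finset.subset_univ _)
    have hDd0 : ∀ i j, 0 < Dd i j := fun i j =>
      Nat.pos_of_dvd_of_pos (hDddvd i j) (Nat.pos_of_ne_zero (hx0 i))
    have hSO : ∀ i j, (∏ l, R y i l j)
        = (∏ l ∈ (L i).filter (fun l => f i l = j), R y i l j) * Of i j := by
      intro i j
      rw [hOf]
      simp only
      rw [← Finset.prod_filter_mul_prod_filter_not Finset.univ (fun l => l ∈ L i ∧ f i l = j)]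
      congr 1
      refine Finset.prod_congr ?_ fun _ _ => rfl
      ext l
      simp [Finset.mem_filter]
    have hmL : ∀ i, ((L i).card : ℝ) ≤ m := fun i => by exact_mod_cast hm i
    have hwDd : ∀ i j, wt (Dd i j) ≤ η := by
      intro i j
      have h1 : wt (Dd i j) ≤ ∑ l ∈ (L i).filter (fun l => f i l = j), (k : ℝ) * u := by
        refine (wt_prod_le _ _).trans (Finset.sum_le_sum fun l hl => ?_)
        refine (wt_prod_le _ _).trans ?_
        rw [Finset.mem_filter] at hl
        have h2 : ∑ j' ∈ Finset.univ.erase j, wt (R y i l j')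
            ≤ ∑ _j' ∈ (Finset.univ : Finset (Fin k)).erase j, u := by
          refine Finset.sum_le_sum fun j' hj' => ?_
          refine (hg i l j' ?_).le
          rw [← hfg i l hl.1, hl.2]
          exact Finset.ne_of_mem_erase hj'
        refine h2.trans ?_
        rw [Finset.sum_const, nsmul_eq_mul]
        refine mul_le_mul_of_nonneg_right ?_ hu.le
        have : ((Finset.univ : Finset (Fin k)).erase j).card ≤ k := by
          refine (Finset.card_le_card (Finset.erase_subset _ _)).trans ?_
          simp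
        exact_mod_cast this
      refine h1.trans ?_
      rw [Finset.sum_const, nsmul_eq_mul]
      have h3 : (((L i).filter (fun l => f i l = j)).card : ℝ) ≤ m := by
        refine le_trans ?_ (hmL i)
        exact_mod_cast Finset.card_le_card (Finset.filter_subset _ _)
      have h4 : (((L i).filter (fun l => f i l = j)).card : ℝ) * (k * u) ≤ m * (k * u) :=
        mul_le_mul_of_nonneg_right h3 (by positivity)
      linarith
    have hwOf : ∀ i j, wt (Of i j) ≤ η := by
      intro i j
      have h1 : wt (Of i j) ≤ ∑ l ∈ Finset.univ.filter (fun l => ¬ (l ∈ L i ∧ f i l = j)),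
          ((if l ∈ L i then u else 0) + v) := by
        refine (wt_prod_le _ _).trans (Finset.sum_le_sum fun l hl => ?_)
        rw [Finset.mem_filter] at hl
        by_cases hlL : l ∈ L i
        · rw [if_pos hlL]
          have h2 : wt (R y i l j) < u := by
            refine hg i l j ?_
            rw [← hfg i l hlL]
            intro h
            exact hl.2 ⟨hlL, h.symm⟩
          linarith
        · rw [if_neg hlL]
          have h2 : ¬ v ≤ wt (π i l) := fun h =>
            hlL (by rw [hL]; exact Finset.mem_filter.2 ⟨Finset.mem_univ _, h⟩)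
          have h3 := wt_le_of_dvd (hπ0 i l) (hRdvd i l j)
          push Not at h2
          linarith
      have h2 : ∑ l ∈ Finset.univ.filter (fun l => ¬ (l ∈ L i ∧ f i l = j)),
          ((if l ∈ L i then u else 0) + v) ≤ ∑ l, ((if l ∈ L i then u else 0) + v) := by
        refine Finset.sum_le_sum_of_subset_of_nonneg (Finset.filter_subset _ _) fun l _ _ => ?_
        split_ifs <;> linarith
      have h5 : ∑ l, ((if l ∈ L i then u else 0) + v)
          = (L i).card * u + Fintype.card Λ * v := by
        rw [Finset.sum_add_distrib, Finset.sum_const, nsmul_eq_mul, Finset.card_univ]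
        congr 1
        rw [Finset.sum_ite_mem, Finset.univ_inter, Finset.sum_const, nsmul_eq_mul]
      have h6 : ((L i).card : ℝ) * u ≤ m * u := mul_le_mul_of_nonneg_right (hmL i) hu.le
      have h7 : (m : ℝ) * u ≤ m * (k * u) := by
        refine mul_le_mul_of_nonneg_left ?_ (Nat.cast_nonneg _)
        nlinarith
      linarith
    have hmemE : ∀ (E : Fin k → Fin k → ℕ), (∀ i j, E i j ∣ x i) → (∀ i j, wt (E i j) ≤ η) →
        E ∈ Fintype.piFinset Es := by
      intro E h1 h2
      rw [Fintype.mem_piFinset]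
      intro i
      rw [hEs]
      simp only
      rw [Fintype.mem_piFinset]
      intro j
      rw [Finset.mem_filter, Nat.mem_divisors]
      exact ⟨⟨h1 i j, hx0 i⟩, h2 i j⟩
    refine Finset.mem_image.2 ⟨(f, (Dd, Of)), Finset.mem_product.2 ⟨?_, Finset.mem_product.2
      ⟨hmemE Dd hDddvd hwDd, hmemE Of hOfdvd hwOf⟩⟩, ?_⟩
    · rw [Fintype.mem_piFinset]
      intro i
      rw [hFs]
      simp only
      rw [Fintype.mem_piFinset]
      intro l
      by_cases hl : l ∈ L i
      · rw [if_pos hl]; exact Finset.mem_univ _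
      · rw [if_neg hl, hf]
        simp only
        rw [if_neg hl]; exact Finset.mem_singleton_self _
    · funext j
      unfold dec
      simp only
      rw [← hyj j]
      refine Finset.prod_congr rfl fun i _ => ?_
      rw [hUD i j, hSO i j, Nat.mul_div_cancel _ (hDd0 i j)]
  have hc1 : ∀ i, ((Fs i).card : ℝ) ≤ (k : ℝ) ^ m := by
    intro i
    rw [hFs]
    simp only
    rw [Fintype.card_piFinset]
    have h7 : ∏ l, (if l ∈ L i then (Finset.univ : Finset (Fin k)) else {j0}).card
        = k ^ (L i).card := by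
      have : ∀ l, (if l ∈ L i then (Finset.univ : Finset (Fin k)) else {j0}).card
          = if l ∈ L i then k else 1 := by
        intro l
        by_cases hl : l ∈ L i
        · rw [if_pos hl, if_pos hl]; simp
        · rw [if_neg hl, if_neg hl]; simp
      rw [Finset.prod_congr rfl fun l _ => this l]
      rw [Finset.prod_ite_mem, Finset.univ_inter, Finset.prod_const]
    rw [h7]
    have : k ^ (L i).card ≤ k ^ m := Nat.pow_le_pow_right hk (hm i)
    exact_mod_cast this
  have hc2 : ∀ i, ((Es i).card : ℝ) ≤ W ^ k := by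
    intro i
    rw [hEs]
    simp only
    rw [Fintype.card_piFinset]
    rw [Finset.prod_const, Finset.card_univ, Fintype.card_fin]
    push_cast
    exact pow_le_pow_left₀ (Nat.cast_nonneg _) (hW i) _
  have hcF : ∏ i, ((Fs i).card : ℝ) ≤ ((k : ℝ) ^ m) ^ k := by
    refine (Finset.prod_le_prod (fun i _ => Nat.cast_nonneg _) fun i _ => hc1 i).trans ?_
    rw [Finset.prod_const, Finset.card_univ, Fintype.card_fin]
  have hcE : ∏ i, ((Es i).card : ℝ) ≤ (W ^ k) ^ k := by
    refine (Finset.prod_le_prod (fun i _ => Nat.cast_nonneg _) fun i _ => hc2 i).trans ?_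
    rw [Finset.prod_const, Finset.card_univ, Fintype.card_fin]
  have hE0 : 0 ≤ ∏ i, ((Es i).card : ℝ) := Finset.prod_nonneg fun i _ => Nat.cast_nonneg _
  calc (Y.card : ℝ)
      ≤ (((((Fintype.piFinset Fs) ×ˢ ((Fintype.piFinset Es) ×ˢ (Fintype.piFinset Es))).image
        (dec π L)).card : ℕ) : ℝ) := by
        exact_mod_cast Finset.card_le_card hsub
    _ ≤ ((((Fintype.piFinset Fs) ×ˢ ((Fintype.piFinset Es) ×ˢ (Fintype.piFinset Es))).card : ℕ)
          : ℝ) := by
        exact_mod_cast Finset.card_image_le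
    _ = (∏ i, ((Fs i).card : ℝ)) * ((∏ i, ((Es i).card : ℝ)) * ∏ i, ((Es i).card : ℝ)) := by
        rw [Finset.card_product, Finset.card_product, Fintype.card_piFinset,
          Fintype.card_piFinset]
        push_cast; rfl
    _ ≤ ((k : ℝ) ^ m) ^ k * ((W ^ k) ^ k * (W ^ k) ^ k) := by
        refine mul_le_mul hcF (mul_le_mul hcE hcE hE0 (by positivity)) (mul_nonneg hE0 hE0)
          (by positivity)
    _ = ((k : ℝ) ^ m * W ^ (2 * k)) ^ k := by
        rw [mul_pow, ← mul_pow (W ^ k), ← pow_add, two_mul]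

end Pool.Agent.TH558.DC2349
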