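import Pool.Agent.TH558.HG.X2

set_option autoImplicit false

namespace Pool.Agent.TH558.HG

open Pool.Agent.TH37.HG

/-- HG-X2 -/
theorem hg_x2 : X2Stmt := x2

end Pool.Agent.TH558.HG
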