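import Pool.Agent.TH567.TEDefs

/-!
# Job 193: the square of a space with the axioms `Ax` is t-extendial

The three auxiliary facts (gluing, retractions onto countable closed sets, extenders for countable
closed sets) are hypotheses here; `Pool/Agent/TH558/J193b.lean` removes them.
-/

set_option autoImplicit false

open Set Topology Filter

namespace Pool.Agent.TH558.J193

open Pool.Agent.TH567.TE

/-- the statement of job 191 -/
def GlueS : Prop := ∀ {Z : Type} [TopologicalSpace Z] [CompactSpace Z] {ι : Type} (T : Set Z)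
    (D : ι → Set Z)
    (_hT : IsClosed T) (_hD : ∀ i, IsClopen (D i)) (_hdisj : Pairwise (Function.onFun Disjoint D))
    (_hTD : ∀ i, Disjoint T (D i)) (_hcov : T ∪ ⋃ i, D i = univ) (F : Set Z) (_hF : IsClosed F)
    (C0 C : ℝ) (_hC0 : 0 ≤ C0) (_hC : 0 ≤ C)
    (_h0 : TEmbB (F ∩ T) C0) (_h1 : ∀ i, TEmbB (F ∩ D i) C),
    TEmbB F (C0 + C * (1 + C0))

/-- the retraction part of job 192 -/
def RetrS : Prop := ∀ {Z : Type} [TopologicalSpace Z] [CompactSpace Z] [T2Space Z]
    [TotallyDisconnectedSpace Z] (Y : Set Z) (_hY : IsClosed Y) (_hc : Y.Countable)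
    (_hne : Y.Nonempty), ∃ ρ : Z → Z, Continuous ρ ∧ (∀ z, ρ z ∈ Y) ∧ ∀ y ∈ Y, ρ y = y

/-- the extender part of job 192 -/
def CountS : Prop := ∀ {Z : Type} [TopologicalSpace Z] [CompactSpace Z] [T2Space Z]
    [TotallyDisconnectedSpace Z] (Y : Set Z) (_hY : IsClosed Y) (_hc : Y.Countable), TEmbB Y 1

theorem tmono {Z : Type} [TopologicalSpace Z] {Y : Set Z} {C C' : ℝ} (h : TEmbB Y C)
    (hC : C ≤ C') : TEmbB Y C' := by
  obtain ⟨φ, h1, h2, h3⟩ := h
  refine ⟨φ, h1, h2, fun f M hM hf z => (h3 f M hM hf z).trans ?_⟩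
  exact mul_le_mul_of_nonneg_right hC hM

theorem temb {Z : Type} [TopologicalSpace Z] {Y : Set Z} {C : ℝ} (h : TEmbB Y C) : TEmb Y := by
  obtain ⟨φ, h1, h2, h3⟩ := h
  exact ⟨φ, h1, h2⟩

theorem tcongr {Z : Type} [TopologicalSpace Z] {Y Y' : Set Z} {C : ℝ} (h : TEmbB Y C)
    (e : Y = Y') : TEmbB Y' C := e ▸ h

theorem ev_cont {Y : Type} [TopologicalSpace Y] (y : Y) : Continuous (fun f : Cp Y => f.1 y) :=
  (continuous_apply y).comp continuous_subtype_val

/-- transport along a homeomorphism -/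
theorem tpreimage {Z Z' : Type} [TopologicalSpace Z] [TopologicalSpace Z'] (e : Z ≃ₜ Z')
    {Y : Set Z'} {C : ℝ} (h : TEmbB (e ⁻¹' Y) C) : TEmbB Y C := by
  obtain ⟨φ, h1, h2, h3⟩ := h
  have hc : Continuous (fun z : e ⁻¹' Y => (⟨e z.1, z.2⟩ : Y)) :=
    (e.continuous.comp continuous_subtype_val).subtype_mk _
  let r : Cp Y → Cp (e ⁻¹' Y) := fun f => ⟨fun z => f.1 ⟨e z.1, z.2⟩, f.2.comp hc⟩
  have hr : Continuous r := Continuous.subtype_mk (continuous_pi fun z => ev_cont _) _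
  refine ⟨fun f => ⟨fun z => (φ (r f)).1 (e.symm z), (φ (r f)).2.comp e.symm.continuous⟩, ?_, ?_, ?_⟩
  · exact Continuous.subtype_mk (continuous_pi fun z => (ev_cont _).comp (h1.comp hr)) _
  · intro f y
    have hy : e (e.symm y.1) ∈ Y := by rw [e.apply_symm_apply]; exact y.2
    have := h2 (r f) ⟨e.symm y.1, hy⟩
    simp only [r] at this
    simp only
    rw [this]
    have e1 : (⟨e (e.symm y.1), hy⟩ : Y) = y := Subtype.ext (e.apply_symm_apply _)
    rw [e1]
  · intro f M hM hf z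
    exact h3 (r f) M hM (fun y => hf _) _

set_option linter.unusedSectionVars false

section

variable {X O : Type} [TopologicalSpace X] [CompactSpace X] [T2Space X]
    [TotallyDisconnectedSpace X] [LinearOrder O] {inf : X} {T : O → Set X} {R : O → X → X}

/-- countable partition of a countable open set into clopen sets -/
theorem partition (U : Set X) (hU : IsOpen U) (hc : U.Countable) :
    ∃ L : ℕ → Set X, (∀ n, IsClopen (L n)) ∧ Pairwise (Function.onFun Disjoint L) ∧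
      ⋃ n, L n = U := by
  rcases U.eq_empty_or_nonempty with rfl | hne
  · exact ⟨fun _ => ∅, fun _ => isClopen_empty, fun i j _ => by simp [Function.onFun], by simp⟩
  obtain ⟨u, hu⟩ := hc.exists_eq_range hne
  have hmem : ∀ n, u n ∈ U := fun n => hu ▸ mem_range_self n
  choose C hC1 hC2 hC3 using fun n => compact_exists_isClopen_in_isOpen hU (hmem n)
  refine ⟨disjointed C, ?_, disjoint_disjointed C, ?_⟩
  · intro n
    have : disjointed C n = C n \ ⋃ i ∈ Finset.range n, C i := by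
      rw [disjointed_eq_inter_compl]
      ext x
      simp
    rw [this]
    exact (hC1 n).diff (isClopen_biUnion_finset fun i _ => hC1 i)
  · rw [iUnion_disjointed]
    apply Subset.antisymm
    · exact iUnion_subset hC3
    · intro x hx
      rw [hu] at hx
      obtain ⟨n, rfl⟩ := hx
      exact mem_iUnion.2 ⟨n, hC2 n⟩

/-- upper bound of countably many tails -/
theorem Ax.bound (h : Ax X O inf T R) {S : Set X} (hS : S.Countable) (s : X → O) :
    ∃ l, ∀ t ∈ S, T l ⊆ T (s t) := by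
  obtain ⟨l0, -⟩ := h.nhdsT univ univ_mem
  rcases S.eq_empty_or_nonempty with rfl | hne
  · exact ⟨l0, fun t ht => ht.elim⟩
  obtain ⟨u, hu⟩ := hS.exists_eq_range hne
  obtain ⟨l, hl⟩ := h.cofT (fun n => s (u n))
  refine ⟨l, fun t ht => ?_⟩
  rw [hu] at ht
  obtain ⟨n, rfl⟩ := ht
  exact h.antiT _ _ (hl n)

theorem lemmaB (hg : GlueS) (hr : RetrS) (hcn : CountS) (h : Ax X O inf T R) (L : Set X)
    (hL : IsClopen L) (hLc : L.Countable) (F : Set (X × X)) (hF : IsClosed F)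
    (hFL : ∀ p ∈ F, p.1 ∈ L) : TEmbB F 7 := by
  have hclB : ∀ t : X, IsClosed {w | (t, w) ∈ F} := fun t =>
    hF.preimage (Continuous.prodMk continuous_const continuous_id)
  have hclA : ∀ w : X, IsClosed {t | (t, w) ∈ F} := fun w =>
    hF.preimage (Continuous.prodMk continuous_id continuous_const)
  choose s hs using fun t : X => h.closed1 _ (hclB t)
  obtain ⟨l, hl⟩ := Ax.bound h hLc s
  have hdich : ∀ t ∈ L, (∀ w ∈ T l, (t, w) ∈ F) ∨ (∀ w ∈ T l, (t, w) ∈ F → w = inf) := by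
    intro t ht
    rcases hs t with h1 | h1
    · exact Or.inl fun w hw => h1 (hl t ht hw)
    · exact Or.inr fun w hw hw' => h1 ⟨hw', hl t ht hw⟩
  obtain ⟨P, hP1, hP2, hP3⟩ := partition (T l)ᶜ (h.closedT l).isOpen_compl (h.countT l)
  set K1 : Set X := {t | t ∈ L ∧ ∀ w ∈ T l, (t, w) ∈ F} with hK1
  set K2 : Set X := {t | (t, inf) ∈ F} with hK2
  have hK1c : IsClosed K1 := by
    have : K1 = L ∩ ⋂ w ∈ T l, {t | (t, w) ∈ F} := by
      ext t; simp [hK1]
    rw [this]
    exact hL.1.inter (isClosed_biInter fun w _ => hclA w)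
  have hK2c : IsClosed K2 := hclA inf
  have hK12 : K1 ⊆ K2 := fun t ht => ht.2 inf (h.memT l)
  have hK2L : K2 ⊆ L := fun t ht => hFL _ ht
  have hK2n : K2.Countable := hLc.mono hK2L
  have hK1n : K1.Countable := hK2n.mono hK12
  set T' : Set (X × X) := (Lᶜ ×ˢ univ) ∪ (univ ×ˢ T l) with hT'
  have hT'c : IsClosed T' :=
    (hL.compl.1.prod isClosed_univ).union (isClosed_univ.prod (h.closedT l))
  have hFT : ∀ p : X × X, p ∈ F ∩ T' ↔ ((p.1 ∈ K1 ∧ p.2 ∈ T l) ∨ (p.1 ∈ K2 ∧ p.2 = inf)) := by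
    rintro ⟨t, w⟩
    simp only [hT', mem_inter_iff, mem_union, mem_prod, mem_compl_iff, mem_univ, and_true,
      true_and]
    constructor
    · rintro ⟨hF1, hF2⟩
      have htL : t ∈ L := hFL _ hF1
      have hw : w ∈ T l := hF2.resolve_left (fun h => h htL)
      rcases hdich t htL with h1 | h1
      · exact Or.inl ⟨⟨htL, h1⟩, hw⟩
      · have := h1 w hw hF1
        subst this
        exact Or.inr ⟨hF1, rfl⟩
    · rintro (⟨h1, h2⟩ | ⟨h1, h2⟩)
      · exact ⟨h1.2 w h2, Or.inr h2⟩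
      · subst h2
        exact ⟨h1, Or.inr (h.memT l)⟩
  have hcount1 : (K1 = ∅) → (F ∩ T').Countable := by
    intro hK
    have : F ∩ T' ⊆ K2 ×ˢ {inf} := by
      intro p hp
      rcases (hFT p).1 hp with h1 | h1
      · rw [hK] at h1; exact h1.1.elim
      · exact ⟨h1.1, h1.2⟩
    exact (hK2n.prod (countable_singleton inf)).mono this
  have h3 : TEmbB (F ∩ T') 3 := by
    rcases K1.eq_empty_or_nonempty with hK | hK
    · exact tmono (hcn (F ∩ T') (hF.inter hT'c) (hcount1 hK)) (by norm_num)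
    have hK' : K2.Nonempty := hK.mono hK12
    obtain ⟨ρ1, hρ1, hρ1m, hρ1f⟩ := hr K1 hK1c hK1n hK
    obtain ⟨ρ2, hρ2, hρ2m, hρ2f⟩ := hr K2 hK2c hK2n hK'
    have m1 : ∀ p : X × X, (ρ2 p.1, inf) ∈ F ∩ T' := fun p => (hFT _).2 (Or.inr ⟨hρ2m _, rfl⟩)
    have m2 : ∀ p : X × X, (ρ1 p.1, R l p.2) ∈ F ∩ T' := fun p =>
      (hFT _).2 (Or.inl ⟨hρ1m _, h.R_mem l _⟩)
    have m3 : ∀ p : X × X, (ρ1 p.1, inf) ∈ F ∩ T' := fun p =>
      (hFT _).2 (Or.inl ⟨hρ1m _, h.memT l⟩)
    have c1 : Continuous fun p : X × X => (⟨(ρ2 p.1, inf), m1 p⟩ : ↥(F ∩ T')) :=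
      ((hρ2.comp continuous_fst).prodMk continuous_const).subtype_mk _
    have c2 : Continuous fun p : X × X => (⟨(ρ1 p.1, R l p.2), m2 p⟩ : ↥(F ∩ T')) :=
      ((hρ1.comp continuous_fst).prodMk ((h.contR l).comp continuous_snd)).subtype_mk _
    have c3 : Continuous fun p : X × X => (⟨(ρ1 p.1, inf), m3 p⟩ : ↥(F ∩ T')) :=
      ((hρ1.comp continuous_fst).prodMk continuous_const).subtype_mk _
    refine ⟨fun f => ⟨fun p => f.1 ⟨(ρ2 p.1, inf), m1 p⟩ + f.1 ⟨(ρ1 p.1, R l p.2), m2 p⟩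
      - f.1 ⟨(ρ1 p.1, inf), m3 p⟩, ((f.2.comp c1).add (f.2.comp c2)).sub (f.2.comp c3)⟩,
      ?_, ?_, ?_⟩
    · exact Continuous.subtype_mk (continuous_pi fun z =>
        ((ev_cont _).add (ev_cont _)).sub (ev_cont _)) _
    · rintro f ⟨⟨x, y⟩, hp⟩
      rcases (hFT _).1 hp with ⟨hx, hy⟩ | ⟨hx, hy⟩
      · have e1 : ρ1 x = x := hρ1f x hx
        have e2 : ρ2 x = x := hρ2f x (hK12 hx)
        have e3 : R l y = y := h.R_fix l y hy
        simp only [e1, e2, e3]
        ring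
      · simp only at hy
        subst hy
        have e2 : ρ2 x = x := hρ2f x hx
        have e3 : R l y = y := h.R_fix l y (h.memT l)
        simp only [e2, e3]
        ring
    · intro f M hM hf z
      have b1 := hf ⟨(ρ2 z.1, inf), m1 z⟩
      have b2 := hf ⟨(ρ1 z.1, R l z.2), m2 z⟩
      have b3 := hf ⟨(ρ1 z.1, inf), m3 z⟩
      simp only
      rw [abs_le] at *
      constructor <;> linarith [b1.1, b1.2, b2.1, b2.2, b3.1, b3.2]
  have key := hg T' (fun j => L ×ˢ P j) hT'c (fun j => hL.prod (hP1 j)) ?_ ?_ ?_ F hF 3 1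
    (by norm_num) (by norm_num) h3 ?_
  · exact tmono key (by norm_num)
  · intro i j hij
    exact Set.disjoint_prod.2 (Or.inr (hP2 hij))
  · intro j
    rw [Set.disjoint_left]
    rintro ⟨t, w⟩ h1 h2
    simp only [hT', mem_union, mem_prod, mem_compl_iff, mem_univ, and_true, true_and] at h1
    rcases h1 with h1 | h1
    · exact h1 h2.1
    · have : w ∈ (T l)ᶜ := hP3 ▸ mem_iUnion.2 ⟨j, h2.2⟩
      exact this h1
  · ext ⟨t, w⟩
    simp only [hT', mem_union, mem_prod, mem_compl_iff, mem_univ, and_true, true_and, iff_true]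
    by_cases ht : t ∈ L
    · by_cases hw : w ∈ T l
      · exact Or.inl (Or.inr hw)
      · have : w ∈ ⋃ n, P n := hP3 ▸ hw
        obtain ⟨n, hn⟩ := mem_iUnion.1 this
        exact Or.inr (mem_iUnion.2 ⟨n, ht, hn⟩)
    · exact Or.inl (Or.inl ht)
  · intro j
    refine hcn _ (hF.inter (hL.prod (hP1 j)).1) ?_
    refine (hLc.prod ((h.countT l).mono ?_)).mono (inter_subset_right (s := F))
    rw [← hP3]
    exact subset_iUnion P j

theorem lemmaB' (hg : GlueS) (hr : RetrS) (hcn : CountS) (h : Ax X O inf T R) (L : Set X)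
    (hL : IsClopen L) (hLc : L.Countable) (F : Set (X × X)) (hF : IsClosed F)
    (hFL : ∀ p ∈ F, p.2 ∈ L) : TEmbB F 7 := by
  apply tpreimage (Homeomorph.prodComm X X)
  apply lemmaB hg hr hcn h L hL hLc
  · exact hF.preimage (Homeomorph.prodComm X X).continuous
  · rintro ⟨a, b⟩ hp
    exact hFL _ hp

/-- the contribution of one line -/
theorem line_part (h : Ax X O inf T R) (l : O) (F : Set (X × X)) (γ : X → X × X)
    (hγ : Continuous γ) (hγi : γ inf = (inf, inf)) (hγT : ∀ x ∈ T l, γ x ∈ T l ×ˢ T l)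
    (hdich : (∀ w ∈ T l, γ w ∈ F) ∨ (∀ w ∈ T l, γ w ∈ F → w = inf))
    (h0 : (inf, inf) ∈ F ∩ (T l ×ˢ T l)) :
    ∃ hh : Cp ↥(F ∩ (T l ×ˢ T l)) → X → ℝ, (∀ f, Continuous (hh f)) ∧
      (∀ x, Continuous (fun f => hh f x)) ∧
      (∀ (f : Cp ↥(F ∩ (T l ×ˢ T l))) (M : ℝ), 0 ≤ M → (∀ y, |f.1 y| ≤ M) → ∀ x, |hh f x| ≤ 2 * M) ∧
      (∀ f, hh f inf = 0) ∧
      (∀ (f : Cp ↥(F ∩ (T l ×ˢ T l))) (x : X) (_ : x ∈ T l) (hx : γ x ∈ F ∩ (T l ×ˢ T l)),
        hh f x = f.1 ⟨γ x, hx⟩ - f.1 ⟨(inf, inf), h0⟩) := by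
  rcases hdich with hd | hd
  · have m : ∀ x, γ (R l x) ∈ F ∩ (T l ×ˢ T l) := fun x =>
      ⟨hd _ (h.R_mem l x), hγT _ (h.R_mem l x)⟩
    have c : Continuous fun x => (⟨γ (R l x), m x⟩ : ↥(F ∩ (T l ×ˢ T l))) :=
      (hγ.comp (h.contR l)).subtype_mk _
    refine ⟨fun f x => f.1 ⟨γ (R l x), m x⟩ - f.1 ⟨(inf, inf), h0⟩, ?_, ?_, ?_, ?_, ?_⟩
    · exact fun f => (f.2.comp c).sub continuous_const
    · exact fun x => (ev_cont _).sub (ev_cont _)
    · intro f M hM hf x
      have b1 := hf ⟨γ (R l x), m x⟩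
      have b2 := hf ⟨(inf, inf), h0⟩
      simp only
      rw [abs_le] at *
      constructor <;> linarith [b1.1, b1.2, b2.1, b2.2]
    · intro f
      have e : R l inf = inf := h.R_fix l inf (h.memT l)
      simp only [e, hγi, sub_self]
    · intro f x hxT hx
      have e : R l x = x := h.R_fix l x hxT
      simp only [e]
  · refine ⟨fun f x => 0, fun f => continuous_const, fun x => continuous_const, ?_,
      fun f => rfl, ?_⟩
    · intro f M hM hf x
      simp; linarith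
    · intro f x hxT hx
      have := hd x hxT hx.1
      subst this
      simp only [hγi, sub_self]

/-- a continuous function with `mm s s = s`, `mm s 0 = mm 0 t = 0` -/
noncomputable def mm (s t : ℝ) : ℝ := min (max s 0) (max t 0) - min (max (-s) 0) (max (-t) 0)

theorem mm_self (s : ℝ) : mm s s = s := by
  unfold mm
  rcases le_total 0 s with h | h
  · rw [min_self, min_self, max_eq_left h, max_eq_right (by linarith)]; ring
  · rw [min_self, min_self, max_eq_right h, max_eq_left (by linarith)]; ring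

theorem mm_zero_right (s : ℝ) : mm s 0 = 0 := by
  unfold mm
  have h1 : (0:ℝ) ≤ max s 0 := le_max_right _ _
  have h2 : (0:ℝ) ≤ max (-s) 0 := le_max_right _ _
  rw [neg_zero, max_self, min_eq_right h1, min_eq_right h2, sub_self]

theorem mm_zero_left (s : ℝ) : mm 0 s = 0 := by
  unfold mm
  have h1 : (0:ℝ) ≤ max s 0 := le_max_right _ _
  have h2 : (0:ℝ) ≤ max (-s) 0 := le_max_right _ _
  rw [neg_zero, max_self, min_eq_left h1, min_eq_left h2, sub_self]

theorem mm_cont {A : Type} [TopologicalSpace A] {u v : A → ℝ} (hu : Continuous u)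
    (hv : Continuous v) : Continuous fun a => mm (u a) (v a) := by
  unfold mm
  exact ((hu.max continuous_const).min (hv.max continuous_const)).sub
    ((hu.neg.max continuous_const).min (hv.neg.max continuous_const))

theorem mm_bound (s t c : ℝ) (hs : |s| ≤ c) : |mm s t| ≤ c := by
  have hc : 0 ≤ c := (abs_nonneg s).trans hs
  rw [abs_le] at hs
  have a1 : min (max s 0) (max t 0) ≤ c := (min_le_left _ _).trans (max_le hs.2 hc)
  have a2 : min (max (-s) 0) (max (-t) 0) ≤ c :=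
    (min_le_left _ _).trans (max_le (by linarith [hs.1]) hc)
  have a3 : 0 ≤ min (max s 0) (max t 0) := le_min (le_max_right _ _) (le_max_right _ _)
  have a4 : 0 ≤ min (max (-s) 0) (max (-t) 0) := le_min (le_max_right _ _) (le_max_right _ _)
  unfold mm
  rw [abs_le]
  constructor <;> linarith

theorem corner (h : Ax X O inf T R) (F : Set (X × X)) (hF : IsClosed F) :
    ∃ l, TEmbB (F ∩ (T l ×ˢ T l)) 11 ∨ F ∩ (T l ×ˢ T l) = ∅ := by
  obtain ⟨l1, hl1⟩ := h.closed2 F hF
  rcases hl1 with hl1 | hl1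
  · refine ⟨l1, Or.inl ?_⟩
    have m : ∀ p : X × X, (R l1 p.1, R l1 p.2) ∈ F ∩ (T l1 ×ˢ T l1) := fun p =>
      ⟨hl1 ⟨h.R_mem _ _, h.R_mem _ _⟩, ⟨h.R_mem _ _, h.R_mem _ _⟩⟩
    have c : Continuous fun p : X × X =>
        (⟨(R l1 p.1, R l1 p.2), m p⟩ : ↥(F ∩ (T l1 ×ˢ T l1))) :=
      (((h.contR l1).comp continuous_fst).prodMk ((h.contR l1).comp continuous_snd)).subtype_mk _
    refine ⟨fun f => ⟨fun p => f.1 ⟨(R l1 p.1, R l1 p.2), m p⟩, f.2.comp c⟩, ?_, ?_, ?_⟩
    · exact Continuous.subtype_mk (continuous_pi fun z => ev_cont _) _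
    · rintro f ⟨⟨x, y⟩, hp⟩
      have e1 : R l1 x = x := h.R_fix _ _ hp.2.1
      have e2 : R l1 y = y := h.R_fix _ _ hp.2.2
      simp only [e1, e2]
    · intro f M hM hf z
      have := hf ⟨(R l1 z.1, R l1 z.2), m z⟩
      simp only
      linarith
  obtain ⟨l2, hl2⟩ := h.closed1 {w | (w, w) ∈ F}
    (hF.preimage (Continuous.prodMk continuous_id continuous_id))
  obtain ⟨l3, hl3⟩ := h.closed1 {w | (w, inf) ∈ F}
    (hF.preimage (Continuous.prodMk continuous_id continuous_const))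
  obtain ⟨l4, hl4⟩ := h.closed1 {w | (inf, w) ∈ F}
    (hF.preimage (Continuous.prodMk continuous_const continuous_id))
  set l := max (max l1 l2) (max l3 l4) with hl
  have t1 : T l ⊆ T l1 := h.antiT _ _ ((le_max_left _ _).trans (le_max_left _ _))
  have t2 : T l ⊆ T l2 := h.antiT _ _ ((le_max_right _ _).trans (le_max_left _ _))
  have t3 : T l ⊆ T l3 := h.antiT _ _ ((le_max_left _ _).trans (le_max_right _ _))
  have t4 : T l ⊆ T l4 := h.antiT _ _ ((le_max_right _ _).trans (le_max_right _ _))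
  have d2 : (∀ w ∈ T l, (w, w) ∈ F) ∨ (∀ w ∈ T l, (w, w) ∈ F → w = inf) := by
    rcases hl2 with h1 | h1
    · exact Or.inl fun w hw => h1 (t2 hw)
    · exact Or.inr fun w hw hw' => h1 ⟨hw', t2 hw⟩
  have d3 : (∀ w ∈ T l, (w, inf) ∈ F) ∨ (∀ w ∈ T l, (w, inf) ∈ F → w = inf) := by
    rcases hl3 with h1 | h1
    · exact Or.inl fun w hw => h1 (t3 hw)
    · exact Or.inr fun w hw hw' => h1 ⟨hw', t3 hw⟩
  have d4 : (∀ w ∈ T l, (inf, w) ∈ F) ∨ (∀ w ∈ T l, (inf, w) ∈ F → w = inf) := by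
    rcases hl4 with h1 | h1
    · exact Or.inl fun w hw => h1 (t4 hw)
    · exact Or.inr fun w hw hw' => h1 ⟨hw', t4 hw⟩
  refine ⟨l, ?_⟩
  by_cases h0 : (inf, inf) ∈ F
  swap
  · right
    ext ⟨x, y⟩
    simp only [mem_inter_iff, mem_prod, mem_empty_iff_false, iff_false]
    rintro ⟨hp, hx, hy⟩
    rcases hl1 _ hp (t1 hx) (t1 hy) with e | e | e
    · simp only at e
      subst e
      rcases d2 with d | d
      · exact h0 (d inf (h.memT l))
      · have := d x hx hp
        subst this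
        exact h0 hp
    · simp only at e
      subst e
      rcases d4 with d | d
      · exact h0 (d x (h.memT l))
      · have := d y hy hp
        subst this
        exact h0 hp
    · simp only at e
      subst e
      rcases d3 with d | d
      · exact h0 (d y (h.memT l))
      · have := d x hx hp
        subst this
        exact h0 hp
  left
  have h0' : (inf, inf) ∈ F ∩ (T l ×ˢ T l) := ⟨h0, h.memT l, h.memT l⟩
  obtain ⟨dd, dd1, dd2, dd3, dd4, dd5⟩ := line_part h l F (fun x => (x, x))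
    (Continuous.prodMk continuous_id continuous_id) rfl (fun x hx => ⟨hx, hx⟩) d2 h0'
  obtain ⟨hh, hh1, hh2, hh3, hh4, hh5⟩ := line_part h l F (fun x => (x, inf))
    (Continuous.prodMk continuous_id continuous_const) rfl (fun x hx => ⟨hx, h.memT l⟩) d3 h0'
  obtain ⟨vv, vv1, vv2, vv3, vv4, vv5⟩ := line_part h l F (fun x => (inf, x))
    (Continuous.prodMk continuous_const continuous_id) rfl (fun x hx => ⟨h.memT l, hx⟩) d4 h0'
  have ce : ∀ f, Continuous fun x => dd f x - hh f x - vv f x := fun f =>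
    ((dd1 f).sub (hh1 f)).sub (vv1 f)
  have ce' : ∀ x, Continuous fun f => dd f x - hh f x - vv f x := fun x =>
    ((dd2 x).sub (hh2 x)).sub (vv2 x)
  refine ⟨fun f => ⟨fun p => f.1 ⟨(inf, inf), h0'⟩ + hh f p.1 + vv f p.2 +
    mm (dd f p.1 - hh f p.1 - vv f p.1) (dd f p.2 - hh f p.2 - vv f p.2), ?_⟩, ?_, ?_, ?_⟩
  · exact ((continuous_const.add ((hh1 f).comp continuous_fst)).add
      ((vv1 f).comp continuous_snd)).add
      (mm_cont ((ce f).comp continuous_fst) ((ce f).comp continuous_snd))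
  · exact Continuous.subtype_mk (continuous_pi fun z =>
      (((ev_cont _).add (hh2 _)).add (vv2 _)).add (mm_cont (ce' _) (ce' _))) _
  · rintro f ⟨⟨x, y⟩, hp⟩
    rcases hl1 _ hp.1 (t1 hp.2.1) (t1 hp.2.2) with e | e | e
    · simp only at e
      subst e
      simp only [mm_self]
      have := dd5 f x hp.2.1 hp
      rw [this]
      ring
    · simp only at e
      subst e
      have := vv5 f y hp.2.2 hp
      simp only [dd4, hh4, vv4, sub_zero, mm_zero_left, this]
      ring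
    · simp only at e
      subst e
      have := hh5 f x hp.2.1 hp
      simp only [dd4, hh4, vv4, sub_zero, mm_zero_right, this]
      ring
  · intro f M hM hf z
    have b0 := hf ⟨(inf, inf), h0'⟩
    have b1 := hh3 f M hM hf z.1
    have b2 := vv3 f M hM hf z.2
    have b3 := dd3 f M hM hf z.1
    have b4 := vv3 f M hM hf z.1
    have b5 : |dd f z.1 - hh f z.1 - vv f z.1| ≤ 6 * M := by
      rw [abs_le] at *
      constructor <;> linarith [b1.1, b1.2, b3.1, b3.2, b4.1, b4.2]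
    have b6 := mm_bound _ (dd f z.2 - hh f z.2 - vv f z.2) _ b5
    simp only
    rw [abs_le] at *
    constructor <;> linarith [b0.1, b0.2, b1.1, b1.2, b2.1, b2.2, b6.1, b6.2]

theorem square_of (hg : GlueS) (hr : RetrS) (hcn : CountS)
    (h : Ax X O inf T R) (F : Set (X × X)) (hF : IsClosed F) : TEmb F := by
  obtain ⟨l, hl⟩ := corner h F hF
  have hcor : TEmbB (F ∩ (T l ×ˢ T l)) 11 := by
    rcases hl with hl | hl
    · exact hl
    · rw [hl]
      exact tmono (hcn ∅ isClosed_empty countable_empty) (by norm_num)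
  obtain ⟨P, hP1, hP2, hP3⟩ := partition (T l)ᶜ (h.closedT l).isOpen_compl (h.countT l)
  have hPc : ∀ n, (P n).Countable := fun n => (h.countT l).mono (hP3 ▸ subset_iUnion P n)
  set W : ℕ → Set X := fun n => ⋃ i ∈ Finset.range n, P i with hW
  have hWc : ∀ n, IsClopen (W n) := fun n => isClopen_biUnion_finset fun i _ => hP1 i
  have hWm : ∀ n x, x ∈ W n ↔ ∃ i < n, x ∈ P i := by
    intro n x; simp [hW]
  have hWT : ∀ n x, x ∈ T l → x ∉ W n := by
    intro n x hx hx'
    obtain ⟨i, -, hi⟩ := (hWm n x).1 hx'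
    have : x ∈ (T l)ᶜ := hP3 ▸ mem_iUnion.2 ⟨i, hi⟩
    exact this hx
  have huniq : ∀ i j x, x ∈ P i → x ∈ P j → i = j := by
    intro i j x hi hj
    by_contra hij
    exact Set.disjoint_left.1 (hP2 hij) hi hj
  set D : ℕ × Bool → Set (X × X) := fun q =>
    if q.2 then (W (q.1 + 1))ᶜ ×ˢ P q.1 else P q.1 ×ˢ (W q.1)ᶜ with hD
  have hDt : ∀ n, D (n, true) = (W (n + 1))ᶜ ×ˢ P n := fun n => by simp [hD]
  have hDf : ∀ n, D (n, false) = P n ×ˢ (W n)ᶜ := fun n => by simp [hD]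
  have hDc : ∀ q, IsClopen (D q) := by
    rintro ⟨n, b⟩
    cases b
    · rw [hDf]; exact (hP1 n).prod (hWc n).compl
    · rw [hDt]; exact (hWc _).compl.prod (hP1 n)
  have key := hg (T l ×ˢ T l) D ((h.closedT l).prod (h.closedT l)) hDc ?_ ?_ ?_ F hF 11 7
    (by norm_num) (by norm_num) hcor ?_
  · exact temb key
  · -- disjointness
    rintro ⟨n, b⟩ ⟨m, b'⟩ hne
    rw [Function.onFun, Set.disjoint_left]
    rintro ⟨x, y⟩ h1 h2
    cases b <;> cases b'
    · rw [hDf] at h1 h2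
      exact hne (by rw [huniq n m x h1.1 h2.1])
    · rw [hDf] at h1
      rw [hDt] at h2
      -- x in P n, y notin W n, x notin W (m+1), y in P m
      have a1 : ¬ (n < m + 1) := fun hlt => h2.1 ((hWm _ _).2 ⟨n, hlt, h1.1⟩)
      have a2 : ¬ (m < n) := fun hlt => h1.2 ((hWm _ _).2 ⟨m, hlt, h2.2⟩)
      omega
    · rw [hDt] at h1
      rw [hDf] at h2
      have a1 : ¬ (m < n + 1) := fun hlt => h1.1 ((hWm _ _).2 ⟨m, hlt, h2.1⟩)
      have a2 : ¬ (n < m) := fun hlt => h2.2 ((hWm _ _).2 ⟨n, hlt, h1.2⟩)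
      omega
    · rw [hDt] at h1 h2
      exact hne (by rw [huniq n m y h1.2 h2.2])
  · rintro ⟨n, b⟩
    rw [Set.disjoint_left]
    rintro ⟨x, y⟩ h1 h2
    cases b
    · rw [hDf] at h2
      have : x ∈ (T l)ᶜ := hP3 ▸ mem_iUnion.2 ⟨n, h2.1⟩
      exact this h1.1
    · rw [hDt] at h2
      have : y ∈ (T l)ᶜ := hP3 ▸ mem_iUnion.2 ⟨n, h2.2⟩
      exact this h1.2
  · ext ⟨x, y⟩
    simp only [mem_univ, iff_true]
    by_cases hx : x ∈ T l
    · by_cases hy : y ∈ T l
      · exact Or.inl ⟨hx, hy⟩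
      · right
        have : y ∈ ⋃ n, P n := hP3 ▸ hy
        obtain ⟨m, hm⟩ := mem_iUnion.1 this
        refine mem_iUnion.2 ⟨(m, true), ?_⟩
        rw [hDt]
        exact ⟨hWT _ _ hx, hm⟩
    · right
      have : x ∈ ⋃ n, P n := hP3 ▸ hx
      obtain ⟨n, hn⟩ := mem_iUnion.1 this
      by_cases hy : y ∈ W n
      · obtain ⟨m, hmn, hm⟩ := (hWm _ _).1 hy
        refine mem_iUnion.2 ⟨(m, true), ?_⟩
        rw [hDt]
        refine ⟨fun hxW => ?_, hm⟩
        obtain ⟨i, hi, hi'⟩ := (hWm _ _).1 hxW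
        have := huniq i n x hi' hn
        omega
      · refine mem_iUnion.2 ⟨(n, false), ?_⟩
        rw [hDf]
        exact ⟨hn, hy⟩
  · rintro ⟨n, b⟩
    cases b
    · rw [hDf]
      apply lemmaB hg hr hcn h (P n) (hP1 n) (hPc n)
      · exact hF.inter ((hP1 n).prod (hWc n).compl).1
      · exact fun p hp => hp.2.1
    · rw [hDt]
      apply lemmaB' hg hr hcn h (P n) (hP1 n) (hPc n)
      · exact hF.inter ((hWc _).compl.prod (hP1 n)).1
      · exact fun p hp => hp.2.2

end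

end Pool.Agent.TH558.J193
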