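import Pool.Agent.TH279.UP.Defs

/-!
# The dual of the Fermat hypersurface has degree at least `d (d-1)^n` (job 3367)
-/

set_option autoImplicit false

open MvPolynomial Pool.Agent.TH279.UP

namespace Pool.Agent.TH558.J3367

noncomputable section

/-- the multipliers -/
def Z (n : ℕ) (w : ℂ) (m : ℕ) (f : Fin n → Fin m) : Fin (n + 1) → ℂ :=
  Fin.cons (α := fun _ => ℂ) 1 (fun i => w ^ (f i : ℕ))

/-- the sums -/
def TP (n d : ℕ) (w : ℂ) (f : Fin n → Fin (d - 1)) : MvPolynomial (Fin (n + 1)) ℂ :=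
  ∑ i, C (Z n w (d - 1) f i) * X i ^ d

lemma eval_TP (n d : ℕ) (w : ℂ) (f : Fin n → Fin (d - 1)) (a : Fin (n + 1) → ℂ) :
    eval a (TP n d w f) = ∑ i, Z n w (d - 1) f i * a i ^ d := by
  simp [TP]

lemma exists_root (d : ℕ) (hd : 0 < d) (z : ℂ) : ∃ x : ℂ, x ^ d = z :=
  IsAlgClosed.exists_pow_nat_eq z hd

lemma TP_ne (n d : ℕ) (hd : 2 ≤ d) (w : ℂ) (f : Fin n → Fin (d - 1)) : TP n d w f ≠ 0 := by
  intro h
  have h1 := eval_TP n d w f (Fin.cons (α := fun _ => ℂ) 1 (fun _ => 0))
  rw [h, map_zero, Fin.sum_univ_succ] at h1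
  have h0 : (0 : ℂ) ^ d = 0 := zero_pow (by omega)
  simp [Z, h0] at h1

lemma TP_sub_ne (n d : ℕ) (hd : 2 ≤ d) (w : ℂ) (hw : IsPrimitiveRoot w (d - 1))
    (f g : Fin n → Fin (d - 1)) (hfg : f ≠ g) :
    TP n d w f ^ (d - 1) - TP n d w g ^ (d - 1) ≠ 0 := by
  intro h
  obtain ⟨i, hi⟩ : ∃ i, f i ≠ g i := Function.ne_iff.1 hfg
  have hw0 : w ≠ 0 := hw.ne_zero (by omega)
  obtain ⟨b, hb⟩ := exists_root d (by omega) (-(w ^ (f i : ℕ))⁻¹)
  have h0 : (0 : ℂ) ^ d = 0 := zero_pow (by omega)
  have key : ∀ k : Fin n → Fin (d - 1),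
      eval (Fin.cons (α := fun _ => ℂ) 1 (fun j => if j = i then b else 0)) (TP n d w k)
        = 1 - w ^ (k i : ℕ) * (w ^ (f i : ℕ))⁻¹ := by
    intro k
    rw [eval_TP, Fin.sum_univ_succ]
    simp only [Z, Fin.cons_zero, Fin.cons_succ, one_pow, mul_one]
    rw [Finset.sum_eq_single i]
    · rw [if_pos rfl, hb]
      ring
    · intro j _ hj
      rw [if_neg hj, h0, mul_zero]
    · intro hi'
      exact absurd (Finset.mem_univ i) hi'
  have h1 := congrArg (eval (Fin.cons (α := fun _ => ℂ) 1 (fun j => if j = i then b else 0))) h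
  rw [map_sub, map_pow, map_pow, key, key, map_zero, mul_inv_cancel₀ (pow_ne_zero _ hw0), sub_self,
    zero_pow (by omega), zero_sub, neg_eq_zero] at h1
  have h2 := (pow_eq_zero_iff (by omega)).1 h1
  have h3 : w ^ (g i : ℕ) = w ^ (f i : ℕ) := by
    have h4 : w ^ (g i : ℕ) * (w ^ (f i : ℕ))⁻¹ = 1 := (sub_eq_zero.1 h2).symm
    rw [← div_eq_mul_inv, div_eq_one_iff_eq (pow_ne_zero _ hw0)] at h4
    exact h4
  exact hi (Fin.ext (hw.pow_inj (g i).2 (f i).2 h3)).symm

theorem FERMAT : S_FERMAT := by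
  intro n d r R hn hd hR hr hv
  by_contra hR0
  -- a point where `R` does not vanish
  obtain ⟨y, hy⟩ : ∃ y, eval y R ≠ 0 := by
    by_contra hcon
    push Not at hcon
    exact hR0 (MvPolynomial.funext (fun x => by rw [hcon x, map_zero]))
  have hd0 : (d : ℂ) ≠ 0 := by
    exact_mod_cast (show d ≠ 0 by omega)
  set w : ℂ := Complex.exp (2 * Real.pi * Complex.I / ((d - 1 : ℕ) : ℂ)) with hwdef
  have hw : IsPrimitiveRoot w (d - 1) := Complex.isPrimitiveRoot_exp (d - 1) (by omega)
  set v : ℂ := Complex.exp (2 * Real.pi * Complex.I / (d : ℂ)) with hvdef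
  have hvp : IsPrimitiveRoot v d := Complex.isPrimitiveRoot_exp d (by omega)
  have hvp' : IsPrimitiveRoot (v ^ (d - 1)) d := by
    apply hvp.pow_of_coprime
    rw [Nat.coprime_comm]
    have : Nat.Coprime (d - 1 + 1) (d - 1) := by simp
    rwa [Nat.sub_add_cancel (by omega)] at this
  have hv0 : v ≠ 0 := hvp.ne_zero (by omega)
  -- the polynomial of `R` at `y 0`
  set c : MvPolynomial (Fin (n + 1)) ℂ :=
    aeval (Fin.cons (α := fun _ => MvPolynomial (Fin (n + 1)) ℂ) (C (y 0))
      (fun i => C (d : ℂ) * X i ^ (d - 1))) R with hc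
  have evc : ∀ a : Fin (n + 1) → ℂ, eval a c =
      eval (Fin.cons (α := fun _ => ℂ) (y 0) (fun i => (d : ℂ) * a i ^ (d - 1))) R := by
    intro a
    rw [hc]
    have h1 : (eval a).comp (aeval (Fin.cons (α := fun _ => MvPolynomial (Fin (n + 1)) ℂ) (C (y 0))
      (fun i => C (d : ℂ) * X i ^ (d - 1))) : MvPolynomial (Fin (n + 1 + 1)) ℂ →ₐ[ℂ] _).toRingHom
        = eval (Fin.cons (α := fun _ => ℂ) (y 0) (fun i => (d : ℂ) * a i ^ (d - 1))) := by
      apply MvPolynomial.ringHom_ext
      · intro r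
        simp
      · intro i
        refine Fin.cases ?_ (fun i => ?_) i
        · simp
        · simp
    exact congrArg (fun f => f R) h1
  have hc0 : c ≠ 0 := by
    intro h
    have h1 : ∀ i : Fin (n + 1), ∃ b : ℂ, b ^ (d - 1) = y i.succ / d :=
      fun i => exists_root (d - 1) (by omega) _
    choose b hb using h1
    have h2 := evc b
    rw [h, map_zero] at h2
    have h3 : (Fin.cons (α := fun _ => ℂ) (y 0) (fun i => (d : ℂ) * b i ^ (d - 1)) :
        Fin (n + 1 + 1) → ℂ) = y := by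
      funext i
      refine Fin.cases ?_ (fun i => ?_) i
      · simp
      · simp only [Fin.cons_succ]
        rw [hb]
        field_simp
    rw [h3] at h2
    exact hy h2.symm
  -- the generic point
  obtain ⟨a, ha⟩ : ∃ a, eval a (c * ((∏ f, TP n d w f) *
      ∏ p : (Fin n → Fin (d - 1)) × (Fin n → Fin (d - 1)),
        if p.1 = p.2 then 1 else TP n d w p.1 ^ (d - 1) - TP n d w p.2 ^ (d - 1))) ≠ 0 := by
    by_contra hcon
    push Not at hcon
    have h1 : (c * ((∏ f, TP n d w f) *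
      ∏ p : (Fin n → Fin (d - 1)) × (Fin n → Fin (d - 1)),
        if p.1 = p.2 then 1 else TP n d w p.1 ^ (d - 1) - TP n d w p.2 ^ (d - 1))) = 0 :=
      MvPolynomial.funext (fun x => by rw [hcon x, map_zero])
    have h2 : (∏ f, TP n d w f) ≠ 0 := Finset.prod_ne_zero_iff.2 (fun f _ => TP_ne n d hd w f)
    have h3 : (∏ p : (Fin n → Fin (d - 1)) × (Fin n → Fin (d - 1)),
        if p.1 = p.2 then 1 else TP n d w p.1 ^ (d - 1) - TP n d w p.2 ^ (d - 1)) ≠ 0 := by
      apply Finset.prod_ne_zero_iff.2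
      intro p _
      split_ifs with hp
      · exact one_ne_zero
      · exact TP_sub_ne n d hd w hw p.1 p.2 hp
    exact (mul_ne_zero hc0 (mul_ne_zero h2 h3)) h1
  rw [map_mul, map_mul, map_prod, map_prod] at ha
  have ha1 := left_ne_zero_of_mul ha
  have ha2 := Finset.prod_ne_zero_iff.1 (left_ne_zero_of_mul (right_ne_zero_of_mul ha))
  have ha3 := Finset.prod_ne_zero_iff.1 (right_ne_zero_of_mul (right_ne_zero_of_mul ha))
  have hT : ∀ f, eval a (TP n d w f) ≠ 0 := fun f => ha2 f (Finset.mem_univ f)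
  have hTT : ∀ f g, eval a (TP n d w f) ^ (d - 1) = eval a (TP n d w g) ^ (d - 1) → f = g := by
    intro f g hfg
    by_contra hne
    have h1 := ha3 (f, g) (Finset.mem_univ _)
    simp only [if_neg hne] at h1
    apply h1
    rw [map_sub, map_pow, map_pow, hfg, sub_self]
  -- the roots
  have hx : ∀ f, ∃ x : ℂ, x ^ d = -eval a (TP n d w f) := fun f => exists_root d (by omega) _
  choose x0 hx0 using hx
  have hx0' : ∀ f, x0 f ≠ 0 := by
    intro f h
    have h1 := hx0 f
    rw [h, zero_pow (by omega)] at h1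
    exact hT f (neg_eq_zero.1 h1.symm)
  set rt : Fin d × (Fin n → Fin (d - 1)) → ℂ :=
    fun p => (d : ℂ) * (v ^ (p.1 : ℕ) * x0 p.2) ^ (d - 1) with hrt
  have hinj : Function.Injective rt := by
    rintro ⟨j, f⟩ ⟨j', g⟩ h
    simp only [hrt] at h
    have h1 : (v ^ (j : ℕ) * x0 f) ^ (d - 1) = (v ^ (j' : ℕ) * x0 g) ^ (d - 1) :=
      mul_left_cancel₀ hd0 h
    have h2 : ∀ (j : ℕ) (f : Fin n → Fin (d - 1)), ((v ^ j * x0 f) ^ (d - 1)) ^ d
        = (-1) ^ (d - 1) * eval a (TP n d w f) ^ (d - 1) := by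
      intro j f
      rw [← pow_mul, mul_comm (d - 1) d, pow_mul, mul_pow, ← pow_mul, mul_comm j d, pow_mul,
        hvp.pow_eq_one, one_pow, one_mul, hx0, neg_pow]
    have h3 : f = g := by
      apply hTT
      have h4 := congrArg (fun z => z ^ d) h1
      simp only [h2] at h4
      exact mul_left_cancel₀ (pow_ne_zero _ (neg_ne_zero.2 one_ne_zero)) h4
    subst h3
    rw [mul_pow, mul_pow] at h1
    have h5 := mul_right_cancel₀ (pow_ne_zero _ (hx0' f)) h1
    rw [← pow_mul, ← pow_mul, mul_comm (j : ℕ), mul_comm (j' : ℕ), pow_mul, pow_mul] at h5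
    have h6 := hvp'.pow_inj j.2 j'.2 h5
    simp only [Prod.mk.injEq, and_true]
    exact Fin.ext h6
  -- the one variable polynomial
  set q : Polynomial ℂ := aeval (Fin.cons (α := fun _ => Polynomial ℂ) Polynomial.X
      (fun i => Polynomial.C ((d : ℂ) * a i ^ (d - 1)))) R with hq
  have evq : ∀ s : ℂ, Polynomial.eval s q =
      eval (Fin.cons (α := fun _ => ℂ) s (fun i => (d : ℂ) * a i ^ (d - 1))) R := by
    intro s
    rw [hq]
    have h1 : (Polynomial.evalRingHom s).comp (aeval (Fin.cons (α := fun _ => Polynomial ℂ) Polynomial.X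
      (fun i => Polynomial.C ((d : ℂ) * a i ^ (d - 1)))) :
        MvPolynomial (Fin (n + 1 + 1)) ℂ →ₐ[ℂ] _).toRingHom
        = eval (Fin.cons (α := fun _ => ℂ) s (fun i => (d : ℂ) * a i ^ (d - 1))) := by
      apply MvPolynomial.ringHom_ext
      · intro r
        simp
      · intro i
        refine Fin.cases ?_ (fun i => ?_) i
        · simp
        · simp
    exact congrArg (fun f => f R) h1
  have hdeg : q.natDegree ≤ r := by
    have h1 := MvPolynomial.aeval_natDegree_le (n := 1) R hR (Fin.cons (α := fun _ => Polynomial ℂ) Polynomial.X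
      (fun i => Polynomial.C ((d : ℂ) * a i ^ (d - 1)))) (by
        intro i
        refine Fin.cases ?_ (fun i => ?_) i
        · simp
        · rw [Fin.cons_succ, Polynomial.natDegree_C]
          exact Nat.zero_le 1)
    rw [mul_one] at h1
    exact h1
  have hq0 : q = 0 := by
    apply Polynomial.eq_zero_of_natDegree_lt_card_of_eval_eq_zero _ hinj
    · rintro ⟨j, f⟩
      rw [evq]
      set x : Fin (n + 1 + 1) → ℂ := Fin.cons (α := fun _ => ℂ) (v ^ (j : ℕ) * x0 f)
        (fun i => Z n w (d - 1) f i * a i) with hx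
      have hZ1 : ∀ i, Z n w (d - 1) f i ^ (d - 1) = 1 := by
        intro i
        refine Fin.cases ?_ (fun i => ?_) i
        · simp [Z]
        · simp only [Z, Fin.cons_succ]
          rw [← pow_mul, mul_comm, pow_mul, hw.pow_eq_one, one_pow]
      have hZd : ∀ i, Z n w (d - 1) f i ^ d = Z n w (d - 1) f i := by
        intro i
        obtain ⟨e, he⟩ : ∃ e, d = e + 1 := ⟨d - 1, by omega⟩
        have h1 := hZ1 i
        have h2 : d - 1 = e := by omega
        calc Z n w (d - 1) f i ^ d = Z n w (d - 1) f i ^ (d - 1) * Z n w (d - 1) f i := by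
              rw [← pow_succ]
              congr 1
              omega
          _ = _ := by rw [h1, one_mul]
      have hxx := hv x (by
        simp only [hx, Fin.cons_zero]
        exact mul_ne_zero (pow_ne_zero _ hv0) (hx0' f)) (by
        rw [Fin.sum_univ_succ]
        simp only [hx, Fin.cons_zero, Fin.cons_succ]
        rw [mul_pow, ← pow_mul, mul_comm (j : ℕ) d, pow_mul, hvp.pow_eq_one, one_pow, one_mul, hx0,
          eval_TP]
        simp only [mul_pow, hZd]
        ring)
      have hfun : (fun i => (d : ℂ) * x i ^ (d - 1)) =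
          Fin.cons (α := fun _ => ℂ) (rt (j, f)) (fun i => (d : ℂ) * a i ^ (d - 1)) := by
        funext i
        refine Fin.cases ?_ (fun i => ?_) i
        · simp [hx, hrt]
        · simp only [hx, Fin.cons_succ]
          rw [mul_pow, hZ1, one_mul]
      rw [hfun] at hxx
      exact hxx
    · rw [Fintype.card_prod, Fintype.card_fin, Fintype.card_fun, Fintype.card_fin, Fintype.card_fin]
      exact lt_of_le_of_lt hdeg hr
  apply ha1
  rw [evc, ← evq, hq0, Polynomial.eval_zero]

end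

end Pool.Agent.TH558.J3367
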