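import Pool.Agent.TH563.Z.Defs
import Pool.Agent.W469.HT.Ker

set_option autoImplicit false

/-! # Z-KER: all properties of the lower part of the kernel -/

namespace Pool.Agent.TH563.Z

open Finset Filter Topology Metric MeasureTheory
open Pool.Agent.W711.HT hiding XX
open Pool.Agent.TH563.UV
open scoped Real

namespace J365

theorem bet_ge : Real.log 2 / 2 ≤ bet := by
  have hπ := Real.pi_pos
  have hI : ∀ a b : ℝ, IntervalIntegrable (fun x => Real.log (Real.sin x)) volume a b :=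
    fun a b => intervalIntegrable_log_sin
  have h1 : ∫ x in (0:ℝ)..(π / 2), Real.log (Real.sin x) = -Real.log 2 * π / 2 :=
    integral_log_sin_zero_pi_div_two
  have h2 : (∫ x in (0:ℝ)..(π / 4), Real.log (Real.sin x)) +
      (∫ x in (π / 4)..(π / 2), Real.log (Real.sin x)) =
      ∫ x in (0:ℝ)..(π / 2), Real.log (Real.sin x) :=
    intervalIntegral.integral_add_adjacent_intervals (hI _ _) (hI _ _)
  have h3 : -(Real.log 2 / 2) * (π / 4) ≤ ∫ x in (π / 4)..(π / 2), Real.log (Real.sin x) := by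
    have h4 : ∫ x in (π / 4)..(π / 2), (-(Real.log 2 / 2)) ≤
        ∫ x in (π / 4)..(π / 2), Real.log (Real.sin x) := by
      refine intervalIntegral.integral_mono_on (by linarith) (by simp) (hI _ _) ?_
      intro x hx
      have h5 : Real.sin (π / 4) ≤ Real.sin x :=
        Real.sin_le_sin_of_le_of_le_pi_div_two (by linarith) hx.2 hx.1
      have h6 : 0 < Real.sin (π / 4) := Real.sin_pos_of_pos_of_lt_pi (by linarith) (by linarith)
      have h7 := Real.log_le_log h6 h5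
      have h8 : Real.log (Real.sin (π / 4)) = -(Real.log 2 / 2) := by
        rw [Real.sin_pi_div_four, Real.log_div (by positivity) (by norm_num),
          Real.log_sqrt (by norm_num)]
        ring
      linarith
    rw [intervalIntegral.integral_const, smul_eq_mul] at h4
    refine le_trans (le_of_eq ?_) h4
    ring
  have h9 : ∫ t in (0:ℝ)..(π / 4), Real.log (2 * Real.sin t) =
      ∫ t in (0:ℝ)..(π / 4), (Real.log 2 + Real.log (Real.sin t)) := by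
    refine intervalIntegral.integral_congr_ae (Filter.Eventually.of_forall ?_)
    intro t ht
    rw [Set.uIoc_of_le (by linarith)] at ht
    have h10 : 0 < Real.sin t := Real.sin_pos_of_pos_of_lt_pi ht.1 (by linarith [ht.2])
    rw [Real.log_mul (by norm_num) h10.ne']
  have h11 : ∫ t in (0:ℝ)..(π / 4), (Real.log 2 + Real.log (Real.sin t)) =
      π / 4 * Real.log 2 + ∫ t in (0:ℝ)..(π / 4), Real.log (Real.sin t) := by
    rw [intervalIntegral.integral_add (by simp) (hI _ _), intervalIntegral.integral_const,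
      smul_eq_mul]
    ring
  have h12 : ∫ t in (0:ℝ)..(π / 4), Real.log (2 * Real.sin t) ≤ -(π / 8 * Real.log 2) := by
    rw [h9, h11]
    linarith
  unfold bet
  have h13 : Real.log 2 / 2 = -(4 / π) * -(π / 8 * Real.log 2) := by
    field_simp; norm_num
  rw [h13]
  have h14 : 0 ≤ 4 / π := by positivity
  have h15 := mul_le_mul_of_nonneg_left h12 h14
  linarith

theorem bet_pos : 0 < bet := by
  have := bet_ge
  have := Real.log_pos (by norm_num : (1 : ℝ) < 2)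
  linarith

theorem gd_nonneg {t : ℝ} (ht : 0 ≤ t) : 0 ≤ gd t := by
  unfold gd
  rw [Real.arctan_nonneg]
  exact Real.sinh_nonneg_iff.2 ht

theorem AA_ge {η : ℝ} (hη : 0 ≤ η) : 2 * bet ≤ AA η := by
  unfold AA
  have : 0 ≤ ∫ t in (0:ℝ)..(η / 2), gd t :=
    intervalIntegral.integral_nonneg (by linarith) fun t ht => gd_nonneg ht.1
  have h2 : 0 ≤ 2 / π * ∫ t in (0:ℝ)..(η / 2), gd t := by positivity
  linarith

theorem cut_le {ε : ℝ} (hε1 : ε < 1 / 4) (N : ℕ) : cut ε N ≤ N := by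
  unfold cut
  rw [Nat.ceil_le]
  have : (0 : ℝ) ≤ N := Nat.cast_nonneg N
  nlinarith

theorem kbz {η ε ρs c₂ : ℝ} (hε1 : ε < 1 / 4) (H : ∀ ε' : ℝ, 0 < ε' →
    ∃ τ : ℝ, 0 < τ ∧ ∀ᶠ N : ℕ in atTop, ∀ d < cut ε N, ∀ x y x' y' : ℝ, |x| ≤ π →
    |y| ≤ τ → |x'| ≤ π → |y' - η| ≤ τ →
    ‖Rp N d (x + y * Complex.I)‖ * ‖Rp N d (x' + y' * Complex.I)‖ ≤
      Sd N d ^ 4 * Real.exp (N * (AA η - c₂ * min |x| ρs ^ 2 - c₂ * min |x'| ρs ^ 2 + ε')))
    {ε' : ℝ} (hε' : 0 < ε') :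
    ∃ τ : ℝ, 0 < τ ∧ ∀ᶠ N : ℕ in atTop, ∀ x y x' y' : ℝ, |x| ≤ π → |y| ≤ τ → |x'| ≤ π →
      |y' - η| ≤ τ → ‖kerL ε N (x + y * Complex.I) (x' + y' * Complex.I)‖ ≤
        Real.exp (N * (AA η - c₂ * min |x| ρs ^ 2 - c₂ * min |x'| ρs ^ 2 + 2 * ε')) := by
  obtain ⟨τ, hτ, hN⟩ := H ε' hε'
  refine ⟨τ, hτ, ?_⟩
  filter_upwards [hN, Pool.Agent.W469.HT.nat_le_exp hε'] with N h1 h2 x y x' y' hx hy hx' hy'
  unfold kerL
  set E : ℝ := Real.exp (N * (AA η - c₂ * min |x| ρs ^ 2 - c₂ * min |x'| ρs ^ 2 + ε')) with hE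
  have hEp : 0 < E := Real.exp_pos _
  have h3 : ∀ d ∈ range (cut ε N), ‖Rp N d (x + y * Complex.I) * Rp N d (x' + y' * Complex.I) /
      (Sd N d : ℂ) ^ 4‖ ≤ E := by
    intro d hd
    have a1 := h1 d (mem_range.1 hd) x y x' y' hx hy hx' hy'
    rw [norm_div, norm_mul, norm_pow, Complex.norm_real, Real.norm_eq_abs]
    refine div_le_of_le_mul₀ (by positivity) (by positivity) ?_
    have a3 : |Sd N d| ^ 4 = Sd N d ^ 4 := by
      have : |Sd N d| ^ 4 = (|Sd N d| ^ 2) ^ 2 := by ring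
      rw [this, sq_abs]; ring
    rw [a3, mul_comm E]
    exact a1
  calc ‖∑ d ∈ range (cut ε N), Rp N d (x + y * Complex.I) * Rp N d (x' + y' * Complex.I) /
        (Sd N d : ℂ) ^ 4‖ ≤ ∑ d ∈ range (cut ε N), E := norm_sum_le_of_le _ h3
    _ = cut ε N * E := by rw [sum_const, card_range, nsmul_eq_mul]
    _ ≤ N * E := by
        refine mul_le_mul_of_nonneg_right ?_ hEp.le
        exact_mod_cast cut_le hε1 N
    _ ≤ Real.exp (ε' * N) * E := by gcongr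
    _ = Real.exp (N * (AA η - c₂ * min |x| ρs ^ 2 - c₂ * min |x'| ρs ^ 2 + 2 * ε')) := by
        rw [hE, ← Real.exp_add]
        congr 1
        ring

end J365

open J365

/-- **Job Z-KER.** -/
theorem kerz : S_MWKZ → S_BNDZ → S_KERZ := by
  intro hM hB η hη r c C s dl S
  obtain ⟨ε, hε0, hε1, hF, ρs, c₂, hρs, hρs1, hc₂, HB⟩ := hB η hη
  refine ⟨ε, fun g hg => ?_⟩
  obtain ⟨r₁, hr₁, hr₁r, hmw⟩ := hM η ε hη hε0 hε1 hF r c C s dl S
  have hπ3 := Real.pi_gt_three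
  have hbet := bet_pos
  have hη0 := hη.1
  have hAA := AA_ge hη0.le
  have hC := S.hC
  -- the sizes
  obtain ⟨ρ, hρ, hρ14, hρr₁, hρρs, hρg⟩ : ∃ ρ : ℝ, 0 < ρ ∧ ρ ≤ 1 / 4 ∧ 3 * ρ ≤ r₁ ∧ ρ ≤ ρs ∧
      3 * ρ ≤ g := by
    refine ⟨min (min (1 / 4) (r₁ / 3)) (min ρs (g / 3)), by positivity, ?_, ?_, ?_, ?_⟩
    · exact (min_le_left _ _).trans (min_le_left _ _)
    · have := (min_le_left (min (1 / 4) (r₁ / 3)) (min ρs (g / 3))).trans (min_le_right _ _)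
      linarith
    · exact (min_le_right _ _).trans (min_le_left _ _)
    · have := (min_le_right (min (1 / 4) (r₁ / 3)) (min ρs (g / 3))).trans (min_le_right _ _)
      linarith
  obtain ⟨ρ', hρ', hρ'14, hρ'r₁, hρ'ρs, hρ'g, hρ'C, hρ'b⟩ : ∃ ρ' : ℝ, 0 < ρ' ∧ ρ' ≤ 1 / 4 ∧
      3 * ρ' ≤ r₁ ∧ ρ' ≤ ρs ∧ 3 * ρ' ≤ g ∧ C * (6 * ρ') ≤ c₂ * ρ ^ 2 / 4 ∧ C * (6 * ρ') ≤ bet := by
    refine ⟨min (min (min (1 / 4) (r₁ / 3)) (min ρs (g / 3)))
      (min (c₂ * ρ ^ 2 / 4 / (6 * C)) (bet / (6 * C))), by positivity, ?_, ?_, ?_, ?_, ?_, ?_⟩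
    · exact ((min_le_left _ _).trans (min_le_left _ _)).trans (min_le_left _ _)
    · have := ((min_le_left (min (min (1 / 4) (r₁ / 3)) (min ρs (g / 3)))
        (min (c₂ * ρ ^ 2 / 4 / (6 * C)) (bet / (6 * C)))).trans (min_le_left _ _)).trans
        (min_le_right _ _)
      linarith
    · exact ((min_le_left _ _).trans (min_le_right _ _)).trans (min_le_left _ _)
    · have := ((min_le_left (min (min (1 / 4) (r₁ / 3)) (min ρs (g / 3)))
        (min (c₂ * ρ ^ 2 / 4 / (6 * C)) (bet / (6 * C)))).trans (min_le_right _ _)).trans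
        (min_le_right _ _)
      linarith
    · have h1 := (min_le_right (min (min (1 / 4) (r₁ / 3)) (min ρs (g / 3)))
        (min (c₂ * ρ ^ 2 / 4 / (6 * C)) (bet / (6 * C)))).trans (min_le_left _ _)
      rw [le_div_iff₀ (by positivity)] at h1
      linarith
    · have h1 := (min_le_right (min (min (1 / 4) (r₁ / 3)) (min ρs (g / 3)))
        (min (c₂ * ρ ^ 2 / 4 / (6 * C)) (bet / (6 * C)))).trans (min_le_right _ _)
      rw [le_div_iff₀ (by positivity)] at h1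
      linarith
  obtain ⟨ε', hε', hε'1, hε'2⟩ : ∃ ε' : ℝ, 0 < ε' ∧ ε' ≤ c₂ * ρ ^ 2 / 8 ∧ ε' ≤ c₂ * ρ' ^ 2 / 8 :=
    ⟨min (c₂ * ρ ^ 2 / 8) (c₂ * ρ' ^ 2 / 8), by positivity, min_le_left _ _, min_le_right _ _⟩
  obtain ⟨κ, hκ, hκ1, hκ2, hκb⟩ : ∃ κ : ℝ, 0 < κ ∧ κ ≤ c₂ * ρ ^ 2 / 4 ∧ κ ≤ c₂ * ρ' ^ 2 / 4 ∧
      κ ≤ bet :=
    ⟨min (c₂ * ρ ^ 2 / 4) (min (c₂ * ρ' ^ 2 / 4) bet), by positivity, min_le_left _ _,
      (min_le_right _ _).trans (min_le_left _ _), (min_le_right _ _).trans (min_le_right _ _)⟩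
  obtain ⟨τε, hτε, hkb⟩ := kbz hε1 HB hε'
  obtain ⟨τ', hτ', hτ'ρ, hτ'η, hτ'ε⟩ : ∃ τ' : ℝ, 0 < τ' ∧ τ' ≤ ρ' ∧ 3 * τ' < η ∧ 3 * τ' ≤ τε := by
    refine ⟨min ρ' (min (η / 4) (τε / 3)), by positivity, min_le_left _ _, ?_, ?_⟩
    · have := (min_le_right ρ' (min (η / 4) (τε / 3))).trans (min_le_left _ _)
      linarith
    · have := (min_le_right ρ' (min (η / 4) (τε / 3))).trans (min_le_right _ _)
      linarith
  have hsub1 : Rc (3 * ρ) (3 * ρ) ⊆ Rc r₁ r₁ := fun z hz =>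
    ⟨hz.1.trans_le hρr₁, hz.2.trans_le hρr₁⟩
  have hsub2 : Rz η (3 * ρ') (3 * τ') ⊆ Rz η r₁ r₁ := fun z hz =>
    ⟨hz.1.trans_le hρ'r₁, hz.2.trans_le (by linarith)⟩
  have hsub3 : Rz η (3 * ρ') (3 * τ') ⊆ Rz η r r := fun z hz =>
    ⟨hz.1.trans_le (by linarith), hz.2.trans_le (by linarith)⟩
  have h0mem : (0 : ℂ) ∈ Rc r r := by
    have := S.hr.1
    refine ⟨?_, ?_⟩ <;> simp <;> positivity
  have hinv : ∀ t : ℝ, 0 < t → ∀ᶠ N : ℕ in atTop, 1 / (N : ℝ) ≤ t := by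
    intro t ht
    exact (tendsto_one_div_atTop_nhds_zero_nat.eventually_le_const ht)
  -- lower bound for `Re s(0,φ)`
  have hlow : ∀ φ ∈ Rz η (3 * ρ') (3 * τ'), AA η - C * (6 * ρ') ≤ (s 0 φ).re := by
    intro φ hφ
    have h1 := S.lip 0 h0mem φ (hsub3 hφ)
    have h2 : ‖φ - η * Complex.I‖ ≤ 6 * ρ' := by
      refine (Complex.norm_le_abs_re_add_abs_im _).trans ?_
      have e1 : (φ - η * Complex.I).re = φ.re := by simp
      have e2 : (φ - η * Complex.I).im = φ.im - η := by simp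
      rw [e1, e2]
      have := hφ.1
      have := hφ.2
      linarith
    rw [norm_zero, zero_add] at h1
    have h3 := (Complex.abs_re_le_norm _).trans (h1.trans (mul_le_mul_of_nonneg_left h2 hC.le))
    rw [Complex.sub_re, Complex.ofReal_re] at h3
    have := (abs_le.1 h3).1
    linarith
  have hmin : ∀ x t : ℝ, 0 < t → t ≤ ρs → t ≤ |x| → c₂ * t ^ 2 ≤ c₂ * min |x| ρs ^ 2 := by
    intro x t ht hts hx
    have h1 : t ≤ min |x| ρs := le_min hx hts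
    gcongr
  have hmin0 : ∀ x : ℝ, 0 ≤ c₂ * min |x| ρs ^ 2 := fun x => by positivity
  refine ⟨ρ, ρ, ρ', τ', κ, ?_, hρg, hρ'g⟩
  refine
    { hε := ⟨hε0, hε1⟩
      hρ := ⟨hρ, hρ14⟩
      hτ := ⟨hρ, le_rfl⟩
      hρ' := ⟨hρ', hρ'14⟩
      hτ' := ⟨hτ', hτ'ρ, hτ'η⟩
      hκ := ⟨hκ, hκb⟩
      hc := S.hc
      sdz := ⟨r, C, S, hρr₁.trans hr₁r, hρ'r₁.trans hr₁r⟩
      slow := ?_
      mw := ?_
      far1 := ?_
      farg := ?_ }
  · intro φ hφ
    have h1 := hlow φ hφ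
    linarith
  · intro ε' hε'
    filter_upwards [hmw ε' hε'] with N hN ψ hψ φ hφ
    exact hN ψ (hsub1 hψ) φ (hsub2 hφ)
  · filter_upwards [hkb, hinv τε hτε] with N hN hN1 x y hx hxπ hy φ hφ
    have hre : |φ.re| ≤ π := by
      have := hφ.1
      linarith
    have him : |φ.im - η| ≤ τε := by
      have := hφ.2
      linarith
    have h1 := hN x y φ.re φ.im hxπ (hy.trans hN1) hre him
    rw [Complex.re_add_im] at h1
    refine h1.trans (Real.exp_le_exp.2 ?_)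
    refine mul_le_mul_of_nonneg_left ?_ (Nat.cast_nonneg N)
    have h2 := hmin x ρ hρ hρρs hx
    have h3 := hmin0 φ.re
    have h4 := hlow φ hφ
    linarith
  · filter_upwards [hkb, hinv τε hτε] with N hN hN1 x y x' y' hx hy hρx' hx' hy'
    refine (hN x y x' y' hx (hy.trans hN1) hx' (hy'.trans hτ'ε)).trans (Real.exp_le_exp.2 ?_)
    refine mul_le_mul_of_nonneg_left ?_ (Nat.cast_nonneg N)
    have h1 := hmin0 x
    have h2 := hmin x' ρ' hρ' hρ'ρs hρx'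
    linarith

end Pool.Agent.TH563.Z
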