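import Pool.Agent.TH694.M3.Basic

/-!
Job 609 (M3-A): in an optimal partition into triples only boundedly many long triples touch a disc.
-/

set_option autoImplicit false

namespace Pool.Agent.TH558.J609

open Pool.Agent.TH694.M3

open Classical in
/-- the octant of a complex number -/
noncomputable def oct (u : ℂ) : Bool × Bool × Bool :=
  (decide (0 ≤ u.re), decide (0 ≤ u.im), decide (|u.im| ≤ |u.re|))

theorem core {a b c d : ℝ} (hac : 0 ≤ a * c) (hbd : 0 ≤ b * d) (h1 : |b| ≤ |a|) (h2 : |d| ≤ |c|)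
    {x y : ℝ} (hx2 : x ^ 2 = a ^ 2 + b ^ 2) (hy2 : y ^ 2 = c ^ 2 + d ^ 2) :
    x * y ≤ 2 * (a * c + b * d) := by
  have h3 : b ^ 2 ≤ a ^ 2 := sq_le_sq.mpr h1
  have h4 : d ^ 2 ≤ c ^ 2 := sq_le_sq.mpr h2
  have h5 : (x * y) ^ 2 ≤ (2 * (a * c)) ^ 2 := by
    have : (x * y) ^ 2 = (a ^ 2 + b ^ 2) * (c ^ 2 + d ^ 2) := by rw [mul_pow, hx2, hy2]
    rw [this]
    calc (a ^ 2 + b ^ 2) * (c ^ 2 + d ^ 2) ≤ (2 * a ^ 2) * (2 * c ^ 2) := by
          apply mul_le_mul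
          · linarith
          · linarith
          · positivity
          · positivity
      _ = (2 * (a * c)) ^ 2 := by ring
  have h6 : x * y ≤ 2 * (a * c) := abs_le_of_sq_le_sq' h5 (by positivity) |>.2
  linarith

theorem norm_sq_eq (u : ℂ) : ‖u‖ ^ 2 = u.re ^ 2 + u.im ^ 2 := by
  rw [← Complex.normSq_eq_norm_sq, Complex.normSq_apply]; ring

theorem oct_inner {u v : ℂ} (h : oct u = oct v) :
    ‖u‖ * ‖v‖ ≤ 2 * (u.re * v.re + u.im * v.im) := by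
  unfold oct at h
  simp only [Prod.mk.injEq, decide_eq_decide] at h
  obtain ⟨h1, h2, h3⟩ := h
  have hre : 0 ≤ u.re * v.re := by
    by_cases h0 : 0 ≤ u.re
    · exact mul_nonneg h0 (h1.mp h0)
    · by_cases hv : 0 ≤ v.re
      · exact absurd (h1.mpr hv) h0
      · push Not at hv h0
        exact (mul_pos_of_neg_of_neg h0 hv).le
  have him : 0 ≤ u.im * v.im := by
    by_cases h0 : 0 ≤ u.im
    · exact mul_nonneg h0 (h2.mp h0)
    · by_cases hv : 0 ≤ v.im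
      · exact absurd (h2.mpr hv) h0
      · push Not at hv h0
        exact (mul_pos_of_neg_of_neg h0 hv).le
  by_cases h4 : |u.im| ≤ |u.re|
  · exact core hre him h4 (h3.mp h4) (norm_sq_eq u) (norm_sq_eq v)
  · have h5 : ¬ |v.im| ≤ |v.re| := fun h6 => h4 (h3.mpr h6)
    push Not at h4 h5
    have := core (x := ‖u‖) (y := ‖v‖) him hre h4.le h5.le
      (by rw [norm_sq_eq u]; ring) (by rw [norm_sq_eq v]; ring)
    linarith

theorem oct_dist {u v : ℂ} (h : oct u = oct v) : ‖u - v‖ ≤ max ‖u‖ ‖v‖ := by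
  have h1 := oct_inner h
  have h2 : ‖u - v‖ ^ 2 = ‖u‖ ^ 2 + ‖v‖ ^ 2 - 2 * (u.re * v.re + u.im * v.im) := by
    rw [norm_sq_eq, norm_sq_eq, norm_sq_eq, Complex.sub_re, Complex.sub_im]; ring
  have h3 : ‖u - v‖ ^ 2 ≤ (max ‖u‖ ‖v‖) ^ 2 := by
    rw [h2]
    have hu := norm_nonneg u
    have hv := norm_nonneg v
    rcases le_total ‖u‖ ‖v‖ with hl | hl
    · rw [max_eq_right hl]
      nlinarith [mul_le_mul_of_nonneg_left hl hu]
    · rw [max_eq_left hl]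
      nlinarith [mul_le_mul_of_nonneg_left hl hv]
  exact abs_le_of_sq_le_sq' h3 (le_max_of_le_left (norm_nonneg u)) |>.2

/-- The far case, with the numbering such that the second triple has the nearest third point. -/
theorem far_step {V : Type} [Fintype V] {z : V → ℂ} {π π₀ : Multiset (V × V × V)} (h : IsOpt z π)
    {t₁ t₂ t₃ s₁ s₂ s₃ : V × V × V} (hπ : π = t₁ ::ₘ t₂ ::ₘ t₃ ::ₘ π₀)
    (hp₁ : pts s₁ = pts t₁) (hp₂ : pts s₂ = pts t₂) (hp₃ : pts s₃ = pts t₃)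
    (hr₁ : per z s₁ = per z t₁) (hr₂ : per z s₂ = per z t₂) (hr₃ : per z s₃ = per z t₃)
    {c : ℂ} {L : ℝ}
    (hx₁ : ‖z s₁.1 - c‖ ≤ L) (hx₂ : ‖z s₂.1 - c‖ ≤ L) (hx₃ : ‖z s₃.1 - c‖ ≤ L)
    (hy₁ : 12 * L < ‖z s₁.2.1 - c‖) (hy₂ : 12 * L < ‖z s₂.2.1 - c‖)
    (hoy : oct (z s₁.2.1 - c) = oct (z s₂.2.1 - c))
    (ho12 : oct (z s₁.2.2 - c) = oct (z s₂.2.2 - c))
    (ho23 : oct (z s₂.2.2 - c) = oct (z s₃.2.2 - c))
    (hm1 : ‖z s₂.2.2 - c‖ ≤ ‖z s₁.2.2 - c‖) (hm3 : ‖z s₂.2.2 - c‖ ≤ ‖z s₃.2.2 - c‖) : False := by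
  obtain ⟨x1, y1, w1⟩ := s₁
  obtain ⟨x2, y2, w2⟩ := s₂
  obtain ⟨x3, y3, w3⟩ := s₃
  simp only at *
  have hex := h.exchange hπ (s₁ := (x1, x2, x3)) (s₂ := (y1, w1, y2)) (s₃ := (w2, y3, w3)) (by
    rw [← hp₁, ← hp₂, ← hp₃]
    unfold pts
    simp only
    abel)
  rw [← hr₁, ← hr₂, ← hr₃] at hex
  unfold per at hex
  simp only at hex
  have tri : ∀ a b : V, ‖z a - z b‖ ≤ ‖z a - c‖ + ‖z b - c‖ := by
    intro a b
    have := norm_sub_le (z a - c) (z b - c)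
    simpa using this
  have lo : ∀ a b : V, ‖z b - c‖ - ‖z a - c‖ ≤ ‖z a - z b‖ := by
    intro a b
    have h1 : z b - c = (z a - c) - (z a - z b) := by ring
    have h2 := norm_sub_le (z a - c) (z a - z b)
    rw [← h1] at h2
    linarith
  have hyy : ‖z y1 - z y2‖ ≤ max ‖z y1 - c‖ ‖z y2 - c‖ := by
    have := oct_dist hoy
    rwa [sub_sub_sub_cancel_right] at this
  have hww1 : ‖z w1 - z w2‖ ≤ ‖z w1 - c‖ := by
    have := oct_dist ho12
    rwa [sub_sub_sub_cancel_right, max_eq_left hm1] at this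
  have hww2 : ‖z w2 - z w3‖ ≤ ‖z w3 - c‖ := by
    have := oct_dist ho23
    rwa [sub_sub_sub_cancel_right, max_eq_right hm3] at this
  have hmax : max ‖z y1 - c‖ ‖z y2 - c‖ < ‖z y1 - c‖ + ‖z y2 - c‖ - 12 * L := by
    rcases le_total ‖z y1 - c‖ ‖z y2 - c‖ with hl | hl
    · rw [max_eq_right hl]; linarith
    · rw [max_eq_left hl]; linarith
  have e1 := tri x1 x2
  have e2 := tri x2 x3
  have e3 := tri x3 x1
  have e4 := tri w2 y3
  have e5 : ‖z w1 - z y2‖ ≤ ‖z w1 - z w2‖ + ‖z y2 - z w2‖ := by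
    have h1 : z w1 - z y2 = (z w1 - z w2) - (z y2 - z w2) := by ring
    rw [h1]; exact norm_sub_le _ _
  have f1 := lo x1 y1
  have f2 := lo x2 y2
  have f3 := lo x3 y3
  have g1 := lo x1 w1
  have g2 := lo x2 w2
  have g3 := lo x3 w3
  rw [norm_sub_rev (z x1) (z w1)] at g1
  rw [norm_sub_rev (z x2) (z w2)] at g2
  rw [norm_sub_rev (z x3) (z w3)] at g3
  rw [norm_sub_rev (z y2) (z y1)] at hex
  rw [norm_sub_rev (z w3) (z w2)] at hex
  linarith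

/-- The far case. -/
theorem far_step' {V : Type} [Fintype V] {z : V → ℂ} {π π₀ : Multiset (V × V × V)} (h : IsOpt z π)
    {t₁ t₂ t₃ s₁ s₂ s₃ : V × V × V} (hπ : π = t₁ ::ₘ t₂ ::ₘ t₃ ::ₘ π₀)
    (hp₁ : pts s₁ = pts t₁) (hp₂ : pts s₂ = pts t₂) (hp₃ : pts s₃ = pts t₃)
    (hr₁ : per z s₁ = per z t₁) (hr₂ : per z s₂ = per z t₂) (hr₃ : per z s₃ = per z t₃)
    {c : ℂ} {L : ℝ} {o o' : Bool × Bool × Bool}
    (hx₁ : ‖z s₁.1 - c‖ ≤ L) (hx₂ : ‖z s₂.1 - c‖ ≤ L) (hx₃ : ‖z s₃.1 - c‖ ≤ L)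
    (hy₁ : 12 * L < ‖z s₁.2.1 - c‖) (hy₂ : 12 * L < ‖z s₂.2.1 - c‖)
    (hy₃ : 12 * L < ‖z s₃.2.1 - c‖)
    (ho₁ : oct (z s₁.2.1 - c) = o) (ho₂ : oct (z s₂.2.1 - c) = o) (ho₃ : oct (z s₃.2.1 - c) = o)
    (hw₁ : oct (z s₁.2.2 - c) = o') (hw₂ : oct (z s₂.2.2 - c) = o')
    (hw₃ : oct (z s₃.2.2 - c) = o') : False := by
  rcases le_total ‖z s₁.2.2 - c‖ ‖z s₂.2.2 - c‖ with h12 | h12
  · rcases le_total ‖z s₁.2.2 - c‖ ‖z s₃.2.2 - c‖ with h13 | h13
    · -- s₁ minimal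
      refine far_step h (t₁ := t₂) (t₂ := t₁) (t₃ := t₃) (π₀ := π₀) ?_ hp₂ hp₁ hp₃ hr₂ hr₁ hr₃
        hx₂ hx₁ hx₃ hy₂ hy₁ (ho₂.trans ho₁.symm) (hw₂.trans hw₁.symm) (hw₁.trans hw₃.symm) h12 h13
      rw [hπ, Multiset.cons_swap]
    · -- s₃ minimal
      refine far_step h (t₁ := t₁) (t₂ := t₃) (t₃ := t₂) (π₀ := π₀) ?_ hp₁ hp₃ hp₂ hr₁ hr₃ hr₂
        hx₁ hx₃ hx₂ hy₁ hy₃ (ho₁.trans ho₃.symm) (hw₁.trans hw₃.symm) (hw₃.trans hw₂.symm) h13
        (h13.trans h12)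
      rw [hπ, Multiset.cons_swap t₂]
  · rcases le_total ‖z s₂.2.2 - c‖ ‖z s₃.2.2 - c‖ with h23 | h23
    · exact far_step h hπ hp₁ hp₂ hp₃ hr₁ hr₂ hr₃ hx₁ hx₂ hx₃ hy₁ hy₂ (ho₁.trans ho₂.symm)
        (hw₁.trans hw₂.symm) (hw₂.trans hw₃.symm) h12 h23
    · refine far_step h (t₁ := t₁) (t₂ := t₃) (t₃ := t₂) (π₀ := π₀) ?_ hp₁ hp₃ hp₂ hr₁ hr₃ hr₂
        hx₁ hx₃ hx₂ hy₁ hy₃ (ho₁.trans ho₃.symm) (hw₁.trans hw₃.symm) (hw₃.trans hw₂.symm)
        (h23.trans h12) h23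
      rw [hπ, Multiset.cons_swap t₂]

/-- the cell of a point in the square grid of side `1/m` -/
noncomputable def cel (m : ℝ) (u : ℂ) : ℤ × ℤ := (⌊u.re * m⌋, ⌊u.im * m⌋)

theorem cel_dist {m : ℝ} (hm : 0 < m) {u v : ℂ} (h : cel m u = cel m v) : ‖u - v‖ * m < 2 := by
  unfold cel at h
  simp only [Prod.mk.injEq] at h
  have h1 : |u.re * m - v.re * m| < 1 := Int.abs_sub_lt_one_of_floor_eq_floor h.1
  have h2 : |u.im * m - v.im * m| < 1 := Int.abs_sub_lt_one_of_floor_eq_floor h.2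
  have h3 := Complex.norm_le_abs_re_add_abs_im (u - v)
  rw [Complex.sub_re, Complex.sub_im] at h3
  have h4 : |u.re - v.re| * m = |u.re * m - v.re * m| := by
    rw [← sub_mul, abs_mul, abs_of_pos hm]
  have h5 : |u.im - v.im| * m = |u.im * m - v.im * m| := by
    rw [← sub_mul, abs_mul, abs_of_pos hm]
  have h6 : ‖u - v‖ * m ≤ (|u.re - v.re| + |u.im - v.im|) * m :=
    mul_le_mul_of_nonneg_right h3 hm.le
  rw [add_mul, h4, h5] at h6
  linarith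

/-- The near case. -/
theorem near_step {V : Type} [Fintype V] {z : V → ℂ} {π π₀ : Multiset (V × V × V)} (h : IsOpt z π)
    {t₁ t₂ t₃ s₁ s₂ s₃ : V × V × V} (hπ : π = t₁ ::ₘ t₂ ::ₘ t₃ ::ₘ π₀)
    (hp₁ : pts s₁ = pts t₁) (hp₂ : pts s₂ = pts t₂) (hp₃ : pts s₃ = pts t₃)
    {c : ℂ} {L : ℝ} (hL : 0 < L) {e : ℕ} (he : 1 ≤ e)
    (hl₁ : L ≤ e * per z t₁) (hl₂ : L ≤ e * per z t₂) (hl₃ : L ≤ e * per z t₃)
    {o₁ o₂ o₃ : ℤ × ℤ}
    (ha₁ : cel (7 * e / L) (z s₁.1 - c) = o₁) (ha₂ : cel (7 * e / L) (z s₂.1 - c) = o₁)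
    (ha₃ : cel (7 * e / L) (z s₃.1 - c) = o₁)
    (hb₁ : cel (7 * e / L) (z s₁.2.1 - c) = o₂) (hb₂ : cel (7 * e / L) (z s₂.2.1 - c) = o₂)
    (hb₃ : cel (7 * e / L) (z s₃.2.1 - c) = o₂)
    (hc₁ : cel (7 * e / L) (z s₁.2.2 - c) = o₃) (hc₂ : cel (7 * e / L) (z s₂.2.2 - c) = o₃)
    (hc₃ : cel (7 * e / L) (z s₃.2.2 - c) = o₃) : False := by
  have he' : (1 : ℝ) ≤ e := by exact_mod_cast he
  have hm : (0 : ℝ) < 7 * e / L := by positivity
  have hd : ∀ a b : V, cel (7 * e / L) (z a - c) = cel (7 * e / L) (z b - c) →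
      7 * (e * ‖z a - z b‖) < 2 * L := by
    intro a b hab
    have h1 := cel_dist hm hab
    rw [sub_sub_sub_cancel_right] at h1
    have h2 : ‖z a - z b‖ * (7 * e / L) = 7 * (e * ‖z a - z b‖) / L := by ring
    rw [h2, div_lt_iff₀ hL] at h1
    exact h1
  obtain ⟨x1, y1, w1⟩ := s₁
  obtain ⟨x2, y2, w2⟩ := s₂
  obtain ⟨x3, y3, w3⟩ := s₃
  simp only at *
  have hex := h.exchange hπ (s₁ := (x1, x2, x3)) (s₂ := (y1, y2, y3)) (s₃ := (w1, w2, w3)) (by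
    rw [← hp₁, ← hp₂, ← hp₃]
    unfold pts
    simp only
    abel)
  have hE : (e : ℝ) * (per z t₁ + per z t₂ + per z t₃) ≤
      e * (per z (x1, x2, x3) + per z (y1, y2, y3) + per z (w1, w2, w3)) :=
    mul_le_mul_of_nonneg_left hex (by positivity)
  unfold per at hE hl₁ hl₂ hl₃
  simp only at hE
  have a12 := hd x1 x2 (ha₁.trans ha₂.symm)
  have a23 := hd x2 x3 (ha₂.trans ha₃.symm)
  have a31 := hd x3 x1 (ha₃.trans ha₁.symm)
  have b12 := hd y1 y2 (hb₁.trans hb₂.symm)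
  have b23 := hd y2 y3 (hb₂.trans hb₃.symm)
  have b31 := hd y3 y1 (hb₃.trans hb₁.symm)
  have c12 := hd w1 w2 (hc₁.trans hc₂.symm)
  have c23 := hd w2 w3 (hc₂.trans hc₃.symm)
  have c31 := hd w3 w1 (hc₃.trans hc₁.symm)
  nlinarith

/-- bounded cells -/
theorem cel_bound {e : ℕ} {L : ℝ} (hL : 0 < L) {u : ℂ} (hu : ‖u‖ ≤ 12 * L) :
    cel (7 * e / L) u ∈ (Finset.Icc (-(84 * e) : ℤ) (84 * e)) ×ˢ
      (Finset.Icc (-(84 * e) : ℤ) (84 * e)) := by
  have key : ∀ r : ℝ, |r| ≤ ‖u‖ → ⌊r * (7 * e / L)⌋ ∈ Finset.Icc (-(84 * e) : ℤ) (84 * e) := by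
    intro r hr
    have h1 : |r| ≤ 12 * L := hr.trans hu
    have h2 : |r * (7 * e / L)| ≤ 84 * e := by
      rw [abs_mul, abs_of_nonneg (by positivity : (0 : ℝ) ≤ 7 * e / L)]
      calc |r| * (7 * e / L) ≤ 12 * L * (7 * e / L) :=
            mul_le_mul_of_nonneg_right h1 (by positivity)
        _ = 84 * e := by field_simp; ring
    rw [abs_le] at h2
    rw [Finset.mem_Icc]
    constructor
    · rw [Int.le_floor]
      push_cast
      exact h2.1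
    · have h3 : (⌊r * (7 * e / L)⌋ : ℝ) ≤ ((84 * e : ℤ) : ℝ) := by
        push_cast
        exact (Int.floor_le _).trans h2.2
      exact_mod_cast h3
  unfold cel
  rw [Finset.mem_product]
  exact ⟨key _ (Complex.abs_re_le_norm u), key _ (Complex.abs_im_le_norm u)⟩

/-- counting: if no three members have the same kind, there are at most `2 * #kinds` members -/
theorem card_le_of_kinds {α C : Type} [DecidableEq C] (m : Multiset α) (S : Finset C)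
    (kind : α → C) (hS : ∀ a ∈ m, kind a ∈ S)
    (h3 : ∀ a b d : α, ∀ u : Multiset α, m = a ::ₘ b ::ₘ d ::ₘ u →
      kind a = kind b → kind b = kind d → False) :
    m.card ≤ 2 * S.card := by
  classical
  have h1 : (m.map kind).card = ∑ κ ∈ S, (m.map kind).count κ := by
    rw [Multiset.sum_count_eq_card]
    intro κ hκ
    obtain ⟨a, ha, rfl⟩ := Multiset.mem_map.mp hκ
    exact hS a ha
  rw [← Multiset.card_map kind m, h1]
  have h2 : ∀ κ ∈ S, (m.map kind).count κ ≤ 2 := by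
    intro κ _
    by_contra hlt
    push Not at hlt
    rw [Multiset.count_map] at hlt
    obtain ⟨a, ha⟩ := Multiset.card_pos_iff_exists_mem.mp
      (show 0 < (m.filter (fun a => κ = kind a)).card by omega)
    obtain ⟨u₁, hu₁⟩ := Multiset.exists_cons_of_mem ha
    rw [hu₁, Multiset.card_cons] at hlt
    obtain ⟨b, hb⟩ := Multiset.card_pos_iff_exists_mem.mp (show 0 < u₁.card by omega)
    obtain ⟨u₂, hu₂⟩ := Multiset.exists_cons_of_mem hb
    rw [hu₂, Multiset.card_cons] at hlt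
    obtain ⟨d, hd⟩ := Multiset.card_pos_iff_exists_mem.mp (show 0 < u₂.card by omega)
    obtain ⟨u₃, hu₃⟩ := Multiset.exists_cons_of_mem hd
    have hle : (m.filter (fun a => κ = kind a)) ≤ m := Multiset.filter_le _ _
    obtain ⟨u, hu⟩ := Multiset.le_iff_exists_add.mp hle
    have hb' : b ∈ m.filter (fun a => κ = kind a) := by
      rw [hu₁]; exact Multiset.mem_cons_of_mem hb
    have hd' : d ∈ m.filter (fun a => κ = kind a) := by
      rw [hu₁, hu₂]; exact Multiset.mem_cons_of_mem (Multiset.mem_cons_of_mem hd)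
    have ka := (Multiset.mem_filter.mp ha).2
    have kb := (Multiset.mem_filter.mp hb').2
    have kd := (Multiset.mem_filter.mp hd').2
    refine h3 a b d (u₃ + u) ?_ (ka.symm.trans kb) (kb.symm.trans kd)
    calc m = m.filter (fun a => κ = kind a) + u := hu
      _ = a ::ₘ b ::ₘ d ::ₘ (u₃ + u) := by
        rw [hu₁, hu₂, hu₃]
        simp only [Multiset.cons_add]
  calc ∑ κ ∈ S, (m.map kind).count κ ≤ ∑ _κ ∈ S, 2 := Finset.sum_le_sum h2
    _ = 2 * S.card := by rw [Finset.sum_const, smul_eq_mul, mul_comm]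

/-- the kinds of normal forms -/
abbrev Kd : Type := ((Bool × Bool × Bool) × (Bool × Bool × Bool)) ⊕
  ((ℤ × ℤ) × (ℤ × ℤ) × (ℤ × ℤ))

/-- `s` has the kind `κ` -/
def Q {V : Type} (z : V → ℂ) (c : ℂ) (L : ℝ) (e : ℕ) (s : V × V × V) : Kd → Prop
  | Sum.inl (o, o') => ‖z s.1 - c‖ ≤ L ∧ 12 * L < ‖z s.2.1 - c‖ ∧
      oct (z s.2.1 - c) = o ∧ oct (z s.2.2 - c) = o'
  | Sum.inr (a, b, d) => cel (7 * e / L) (z s.1 - c) = a ∧ cel (7 * e / L) (z s.2.1 - c) = b ∧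
      cel (7 * e / L) (z s.2.2 - c) = d

/-- the finite set of kinds -/
noncomputable def Ks (e : ℕ) : Finset Kd :=
  (Finset.univ : Finset ((Bool × Bool × Bool) × (Bool × Bool × Bool))).map ⟨Sum.inl, Sum.inl_injective⟩ ∪
  (((Finset.Icc (-(84 * e) : ℤ) (84 * e)) ×ˢ (Finset.Icc (-(84 * e) : ℤ) (84 * e))) ×ˢ
    ((Finset.Icc (-(84 * e) : ℤ) (84 * e)) ×ˢ (Finset.Icc (-(84 * e) : ℤ) (84 * e))) ×ˢ
    ((Finset.Icc (-(84 * e) : ℤ) (84 * e)) ×ˢ (Finset.Icc (-(84 * e) : ℤ) (84 * e)))).map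
    ⟨Sum.inr, Sum.inr_injective⟩

/-- a triple whose first point is near has a kind after swapping the last two points -/
theorem exists_kind_aux {V : Type} (z : V → ℂ) (c : ℂ) (L : ℝ) (hL : 0 < L) (e : ℕ)
    (x y w : V) (hx : ‖z x - c‖ ≤ L) :
    ∃ κ ∈ Ks e, ∃ s : V × V × V, pts s = pts (x, y, w) ∧ per z s = per z (x, y, w) ∧
      Q z c L e s κ := by
  by_cases hy : 12 * L < ‖z y - c‖
  · refine ⟨Sum.inl (oct (z y - c), oct (z w - c)), ?_, (x, y, w), rfl, rfl, hx, hy, rfl, rfl⟩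
    unfold Ks
    rw [Finset.mem_union]
    left
    rw [Finset.mem_map]
    exact ⟨_, Finset.mem_univ _, rfl⟩
  · by_cases hw : 12 * L < ‖z w - c‖
    · refine ⟨Sum.inl (oct (z w - c), oct (z y - c)), ?_, (x, w, y), ?_, ?_, hx, hw, rfl, rfl⟩
      · unfold Ks
        rw [Finset.mem_union]
        left
        rw [Finset.mem_map]
        exact ⟨_, Finset.mem_univ _, rfl⟩
      · unfold pts; simp only; abel
      · unfold per
        simp only
        rw [norm_sub_rev (z x) (z w), norm_sub_rev (z w) (z y), norm_sub_rev (z y) (z x)]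
        ring
    · push Not at hy hw
      refine ⟨Sum.inr (cel (7 * e / L) (z x - c), cel (7 * e / L) (z y - c),
        cel (7 * e / L) (z w - c)), ?_, (x, y, w), rfl, rfl, rfl, rfl, rfl⟩
      unfold Ks
      rw [Finset.mem_union]
      right
      rw [Finset.mem_map]
      refine ⟨_, ?_, rfl⟩
      exact Finset.mem_product.mpr ⟨cel_bound hL (by linarith),
        Finset.mem_product.mpr ⟨cel_bound hL hy, cel_bound hL hw⟩⟩

theorem exists_kind {V : Type} (z : V → ℂ) (c : ℂ) (L : ℝ) (hL : 0 < L) (e : ℕ)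
    (t : V × V × V) (ht : ∃ v ∈ pts t, ‖z v - c‖ ≤ L) :
    ∃ κ ∈ Ks e, ∃ s : V × V × V, pts s = pts t ∧ per z s = per z t ∧ Q z c L e s κ := by
  obtain ⟨v, hv, hvL⟩ := ht
  obtain ⟨x, y, w⟩ := t
  rw [mem_pts] at hv
  simp only at hv
  rcases hv with rfl | rfl | rfl
  · exact exists_kind_aux z c L hL e v y w hvL
  · obtain ⟨κ, hκ, s, h1, h2, h3⟩ := exists_kind_aux z c L hL e v x w hvL
    refine ⟨κ, hκ, s, ?_, ?_, h3⟩
    · rw [h1]; unfold pts; simp only; abel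
    · rw [h2]; unfold per; simp only
      rw [norm_sub_rev (z v) (z x), norm_sub_rev (z x) (z w), norm_sub_rev (z w) (z v)]
      ring
  · obtain ⟨κ, hκ, s, h1, h2, h3⟩ := exists_kind_aux z c L hL e v x y hvL
    refine ⟨κ, hκ, s, ?_, ?_, h3⟩
    · rw [h1]; unfold pts; simp only; abel
    · rw [h2]; unfold per; simp only
      ring

open Classical in
/-- In an optimal partition only boundedly many triples touch a disc of radius `L` and have
perimeter at least `L / e`. -/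
theorem exchange_count (e : ℕ) : ∃ K : ℕ, ∀ (V : Type) [Fintype V] (z : V → ℂ)
    (π : Multiset (V × V × V)), IsOpt z π → ∀ (c : ℂ) (L : ℝ), 0 < L →
    (π.filter (fun t => (∃ v ∈ pts t, ‖z v - c‖ ≤ L) ∧ L ≤ e * per z t)).card ≤ K := by
  refine ⟨2 * (Ks e).card, ?_⟩
  intro V _ z π hopt c L hL
  rcases Nat.eq_zero_or_pos e with he | he
  · have hz : π.filter (fun t => (∃ v ∈ pts t, ‖z v - c‖ ≤ L) ∧ L ≤ e * per z t) = 0 := by
      rw [Multiset.filter_eq_nil]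
      rintro t _ ⟨_, h2⟩
      rw [he] at h2
      simp only [Nat.cast_zero, zero_mul] at h2
      linarith
    rw [hz]
    simp
  set F := π.filter (fun t => (∃ v ∈ pts t, ‖z v - c‖ ≤ L) ∧ L ≤ e * per z t) with hF
  have hk : ∀ t : V × V × V, ∃ κ : Kd, t ∈ F → κ ∈ Ks e ∧ ∃ s : V × V × V, pts s = pts t ∧
      per z s = per z t ∧ Q z c L e s κ := by
    intro t
    by_cases ht : t ∈ F
    · obtain ⟨κ, hκ, hs⟩ := exists_kind z c L hL e t (Multiset.mem_filter.mp ht).2.1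
      exact ⟨κ, fun _ => ⟨hκ, hs⟩⟩
    · exact ⟨Sum.inl ((true, true, true), (true, true, true)), fun h => absurd h ht⟩
  choose kind hkind using hk
  apply card_le_of_kinds F (Ks e) kind (fun a ha => (hkind a ha).1)
  intro a b d u hu hab hbd
  obtain ⟨u', hu'⟩ := Multiset.le_iff_exists_add.mp
    (show F ≤ π from Multiset.filter_le _ _)
  have hπ : π = a ::ₘ b ::ₘ d ::ₘ (u + u') := by
    rw [hu', hu]
    simp only [Multiset.cons_add]
  have ha : a ∈ F := by rw [hu]; simp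
  have hb : b ∈ F := by rw [hu]; simp
  have hd : d ∈ F := by rw [hu]; simp
  obtain ⟨_, sa, pa, ra, qa⟩ := hkind a ha
  obtain ⟨_, sb, pb, rb, qb⟩ := hkind b hb
  obtain ⟨_, sd, pd, rd, qd⟩ := hkind d hd
  rw [hab, hbd] at qa
  rw [hbd] at qb
  generalize kind d = κ at qa qb qd
  rcases κ with ⟨o, o'⟩ | ⟨o₁, o₂, o₃⟩
  · obtain ⟨a1, a2, a3, a4⟩ := qa
    obtain ⟨b1, b2, b3, b4⟩ := qb
    obtain ⟨d1, d2, d3, d4⟩ := qd
    exact far_step' hopt hπ pa pb pd ra rb rd a1 b1 d1 a2 b2 d2 a3 b3 d3 a4 b4 d4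
  · obtain ⟨a1, a2, a3⟩ := qa
    obtain ⟨b1, b2, b3⟩ := qb
    obtain ⟨d1, d2, d3⟩ := qd
    exact near_step hopt hπ pa pb pd hL he (Multiset.mem_filter.mp ha).2.2
      (Multiset.mem_filter.mp hb).2.2 (Multiset.mem_filter.mp hd).2.2 a1 b1 d1 a2 b2 d2 a3 b3 d3

end Pool.Agent.TH558.J609
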