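import Mathlib
import Pool.Agent.TH600.YT.Defs
import Pool.Agent.TH600.YT.Basic

/-!
Job 738 (helper600, MP_e875d0_gt): divergence theorem on the unit disc.
-/

set_option autoImplicit false

open MeasureTheory Real Set
open scoped ContDiff

namespace Pool.Agent.TH558.YT738

open Pool.Agent.TH600.YT

/-- polar coordinates -/
noncomputable def P (q : ℝ × ℝ) : ℝ × ℝ := (q.1 * cos q.2, q.1 * sin q.2)

theorem P_cont : Continuous P := by unfold P; fun_prop

theorem P_sq (q : ℝ × ℝ) : (P q).1 ^ 2 + (P q).2 ^ 2 = q.1 ^ 2 := by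
  unfold P
  simp only
  nlinarith [sin_sq_add_cos_sq q.2]

theorem P_hasFDerivAt (q : ℝ × ℝ) : ∃ P' : ℝ × ℝ →L[ℝ] ℝ × ℝ, HasFDerivAt P P' q ∧
    P' (1, 0) = (cos q.2, sin q.2) ∧ P' (0, 1) = (-(q.1 * sin q.2), q.1 * cos q.2) := by
  have h1 : HasFDerivAt (fun q : ℝ × ℝ => q.1) (ContinuousLinearMap.fst ℝ ℝ ℝ) q := hasFDerivAt_fst
  have h2 : HasFDerivAt (fun q : ℝ × ℝ => q.2) (ContinuousLinearMap.snd ℝ ℝ ℝ) q := hasFDerivAt_snd
  have h3 := h1.mul h2.cos
  have h4 := h1.mul h2.sin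
  refine ⟨_, h3.prodMk h4, ?_, ?_⟩
  · simp
  · simp

theorem lin (T : ℝ × ℝ →L[ℝ] ℝ) (a b : ℝ) : T (a, b) = a * T (1, 0) + b * T (0, 1) := by
  have h : ((a, b) : ℝ × ℝ) = a • ((1, 0) : ℝ × ℝ) + b • ((0, 1) : ℝ × ℝ) := by
    ext <;> simp
  rw [h, map_add, map_smul, map_smul]
  simp

theorem div_disc (X Y : ℝ × ℝ → ℝ)
    (hX : ∀ p : ℝ × ℝ, p.1 ^ 2 + p.2 ^ 2 ≤ 1 → ContDiffAt ℝ 1 X p)
    (hY : ∀ p : ℝ × ℝ, p.1 ^ 2 + p.2 ^ 2 ≤ 1 → ContDiffAt ℝ 1 Y p) :
    ∫ p in {p : ℝ × ℝ | p.1 ^ 2 + p.2 ^ 2 < 1}, (fderiv ℝ X p (1, 0) + fderiv ℝ Y p (0, 1)) =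
      ∫ φ in (0 : ℝ)..(2 * π), (X (cos φ, sin φ) * cos φ + Y (cos φ, sin φ) * sin φ) := by
  set F : ℝ × ℝ → ℝ := fun p => fderiv ℝ X p (1, 0) + fderiv ℝ Y p (0, 1) with hF
  have hFc : ContinuousOn F cDsc := by
    intro p hp
    have h1 := (hX p hp).fderiv_right (m := 0) (by norm_num)
    have h2 := (hY p hp).fderiv_right (m := 0) (by norm_num)
    exact ((h1.continuousAt.clm_apply continuousAt_const).add
      (h2.continuousAt.clm_apply continuousAt_const)).continuousWithinAt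
  -- closed box
  set K : Set (ℝ × ℝ) := uIcc (0 : ℝ) 1 ×ˢ uIcc (-π) π with hK
  have hKc : IsCompact K := isCompact_uIcc.prod isCompact_uIcc
  have hKP : ∀ q ∈ K, (P q).1 ^ 2 + (P q).2 ^ 2 ≤ 1 := by
    intro q hq
    rw [P_sq]
    have h1 := hq.1
    rw [uIcc_of_le zero_le_one] at h1
    nlinarith [h1.1, h1.2]
  have hKm : MapsTo P K cDsc := fun q hq => hKP q hq
  -- the two fields in polar coordinates
  set f : ℝ × ℝ → ℝ := fun q => q.1 * (X (P q) * cos q.2 + Y (P q) * sin q.2) with hf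
  set g : ℝ × ℝ → ℝ := fun q => -(X (P q) * sin q.2) + Y (P q) * cos q.2 with hg
  have hXP : ∀ q ∈ K, HasFDerivAt (fun q => X (P q)) ((fderiv ℝ X (P q)).comp (fderiv ℝ P q)) q := by
    intro q hq
    obtain ⟨P', hP', _, _⟩ := P_hasFDerivAt q
    have h1 : HasFDerivAt X (fderiv ℝ X (P q)) (P q) :=
      ((hX (P q) (hKP q hq)).differentiableAt (by norm_num)).hasFDerivAt
    rw [hP'.fderiv]
    exact h1.comp q hP'
  have hYP : ∀ q ∈ K, HasFDerivAt (fun q => Y (P q)) ((fderiv ℝ Y (P q)).comp (fderiv ℝ P q)) q := by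
    intro q hq
    obtain ⟨P', hP', _, _⟩ := P_hasFDerivAt q
    have h1 : HasFDerivAt Y (fderiv ℝ Y (P q)) (P q) :=
      ((hY (P q) (hKP q hq)).differentiableAt (by norm_num)).hasFDerivAt
    rw [hP'.fderiv]
    exact h1.comp q hP'
  have key : ∀ q ∈ K, ∃ f' g' : ℝ × ℝ →L[ℝ] ℝ, HasFDerivAt f f' q ∧ HasFDerivAt g g' q ∧
      f' (1, 0) + g' (0, 1) = q.1 * F (P q) := by
    intro q hq
    obtain ⟨P', hP', hP1, hP2⟩ := P_hasFDerivAt q
    have h1 : HasFDerivAt (fun q : ℝ × ℝ => q.1) (ContinuousLinearMap.fst ℝ ℝ ℝ) q := hasFDerivAt_fst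
    have h2 : HasFDerivAt (fun q : ℝ × ℝ => q.2) (ContinuousLinearMap.snd ℝ ℝ ℝ) q := hasFDerivAt_snd
    have hx := hXP q hq
    have hy := hYP q hq
    rw [hP'.fderiv] at hx hy
    have hff := h1.mul ((hx.mul h2.cos).add (hy.mul h2.sin))
    have hgg := ((hx.mul h2.sin).neg).add (hy.mul h2.cos)
    refine ⟨_, _, hff, hgg, ?_⟩
    have e1 : P' (1, 0) = (cos q.2, sin q.2) := hP1
    have e2 : P' (0, 1) = (-(q.1 * sin q.2), q.1 * cos q.2) := hP2
    simp only [add_apply, smul_apply,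
      ContinuousLinearMap.comp_apply, neg_apply, ContinuousLinearMap.coe_fst',
      ContinuousLinearMap.coe_snd', smul_eq_mul, e1, e2, Pi.add_apply, Pi.mul_apply]
    rw [lin (fderiv ℝ X (P q)) (cos q.2) (sin q.2), lin (fderiv ℝ Y (P q)) (cos q.2) (sin q.2),
      lin (fderiv ℝ X (P q)) (-(q.1 * sin q.2)) (q.1 * cos q.2),
      lin (fderiv ℝ Y (P q)) (-(q.1 * sin q.2)) (q.1 * cos q.2)]
    have hF' : F (P q) = fderiv ℝ X (P q) (1, 0) + fderiv ℝ Y (P q) (0, 1) := rfl
    rw [hF']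
    have hcs := sin_sq_add_cos_sq q.2
    generalize fderiv ℝ X (P q) (1, 0) = X1
    generalize fderiv ℝ X (P q) (0, 1) = X2
    generalize fderiv ℝ Y (P q) (1, 0) = Y1
    generalize fderiv ℝ Y (P q) (0, 1) = Y2
    generalize X (P q) = X0
    generalize Y (P q) = Y0
    linear_combination (q.1 * X1 + q.1 * Y2) * hcs
  have hGc : ContinuousOn (fun q : ℝ × ℝ => q.1 * F (P q)) K :=
    continuous_fst.continuousOn.mul (hFc.comp P_cont.continuousOn hKm)
  have hGi : IntegrableOn (fun q : ℝ × ℝ => q.1 * F (P q)) K := hGc.integrableOn_compact hKc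
  -- left side in polar coordinates
  have hleft : ∫ p in {p : ℝ × ℝ | p.1 ^ 2 + p.2 ^ 2 < 1}, F p =
      ∫ s in (0 : ℝ)..1, ∫ φ in (-π)..π, s * F (P (s, φ)) := by
    have hD : MeasurableSet {p : ℝ × ℝ | p.1 ^ 2 + p.2 ^ 2 < 1} := measurableSet_Dsc
    rw [← integral_indicator hD, ← integral_comp_polarCoord_symm]
    have h1 : ∀ q ∈ polarCoord.target, q.1 • indicator {p : ℝ × ℝ | p.1 ^ 2 + p.2 ^ 2 < 1} F
        (polarCoord.symm q) = indicator (Ioo (0 : ℝ) 1 ×ˢ Ioo (-π) π) (fun q => q.1 * F (P q)) q := by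
      intro q hq
      rw [polarCoord_target] at hq
      have hPq : polarCoord.symm q = P q := rfl
      rw [hPq]
      by_cases h : q.1 < 1
      · rw [indicator_of_mem, indicator_of_mem, smul_eq_mul]
        · exact ⟨⟨hq.1, h⟩, hq.2⟩
        · change (P q).1 ^ 2 + (P q).2 ^ 2 < 1
          rw [P_sq]
          have := hq.1
          simp only [mem_Ioi] at this
          nlinarith
      · rw [indicator_of_notMem, indicator_of_notMem, smul_zero]
        · exact fun h' => h h'.1.2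
        · change ¬ ((P q).1 ^ 2 + (P q).2 ^ 2 < 1)
          rw [P_sq]
          push Not at h ⊢
          nlinarith
    have hTm : MeasurableSet polarCoord.target := by
      rw [polarCoord_target]; exact measurableSet_Ioi.prod measurableSet_Ioo
    rw [setIntegral_congr_fun hTm h1, setIntegral_indicator (measurableSet_Ioo.prod measurableSet_Ioo)]
    have h2 : polarCoord.target ∩ (Ioo (0 : ℝ) 1 ×ˢ Ioo (-π) π) = Ioo (0 : ℝ) 1 ×ˢ Ioo (-π) π := by
      rw [polarCoord_target]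
      apply inter_eq_right.mpr
      rintro q ⟨ha, hb⟩
      exact ⟨ha.1, hb⟩
    rw [h2, Measure.volume_eq_prod, setIntegral_prod]
    · rw [intervalIntegral.integral_of_le zero_le_one, integral_Ioc_eq_integral_Ioo]
      refine setIntegral_congr_fun measurableSet_Ioo fun s _ => ?_
      simp only
      rw [intervalIntegral.integral_of_le (by linarith [pi_pos]), integral_Ioc_eq_integral_Ioo]
    · have h3 : Ioo (0 : ℝ) 1 ×ˢ Ioo (-π) π ⊆ K := by
        rw [hK, uIcc_of_le zero_le_one, uIcc_of_le (by linarith [pi_pos])]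
        exact prod_mono Ioo_subset_Icc_self Ioo_subset_Icc_self
      exact hGi.mono_set h3
  rw [hleft]
  -- choose derivatives
  choose! f' g' hf' hg' hfg using key
  have hint : IntegrableOn (fun x => f' x (1, 0) + g' x (0, 1)) K := by
    refine hGi.congr_fun (fun q hq => ?_) hKc.measurableSet
    exact (hfg q hq).symm
  have hsub : Ioo (min (0 : ℝ) 1) (max 0 1) ×ˢ Ioo (min (-π) π) (max (-π) π) ⊆ K := by
    rw [hK]
    unfold uIcc
    exact prod_mono Ioo_subset_Icc_self Ioo_subset_Icc_self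
  have hdiv := integral2_divergence_prod_of_hasFDerivAt_off_countable f g f' g' 0 (-π) 1 π ∅
    countable_empty (fun q hq => (hf' q hq).continuousAt.continuousWithinAt)
    (fun q hq => (hg' q hq).continuousAt.continuousWithinAt)
    (fun q hq => hf' q (hsub hq.1)) (fun q hq => hg' q (hsub hq.1)) hint
  have hl : ∫ s in (0 : ℝ)..1, ∫ φ in (-π)..π, s * F (P (s, φ)) =
      ∫ x in (0 : ℝ)..1, ∫ y in (-π)..π, f' (x, y) (1, 0) + g' (x, y) (0, 1) := by
    refine intervalIntegral.integral_congr fun s hs => ?_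
    refine intervalIntegral.integral_congr fun φ hφ => ?_
    exact (hfg (s, φ) ⟨hs, hφ⟩).symm
  rw [hl, hdiv]
  have e1 : ∀ x : ℝ, g (x, π) = g (x, -π) := by
    intro x
    simp only [hg, P, cos_neg, sin_neg, sin_pi, cos_pi]
    simp
  have e2 : ∀ y : ℝ, f (0, y) = 0 := by
    intro y; simp [hf]
  have e3 : ∀ y : ℝ, f (1, y) = X (cos y, sin y) * cos y + Y (cos y, sin y) * sin y := by
    intro y; simp [hf, P]
  simp only [e1, e2, e3, sub_self, zero_add, intervalIntegral.integral_zero, sub_zero]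
  have hper : Function.Periodic
      (fun y : ℝ => X (cos y, sin y) * cos y + Y (cos y, sin y) * sin y) (2 * π) := by
    intro y
    simp only [cos_add_two_pi, sin_add_two_pi]
  have := hper.intervalIntegral_add_eq (-π) 0
  rw [zero_add, show -π + 2 * π = π by ring] at this
  exact this

end Pool.Agent.TH558.YT738
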