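import Mathlib
import Pool.Agent.TH600.YT.Defs
import Pool.Agent.TH600.YT.Basic

/-!
Job 743 (helper600, MP_e875d0_gt): periodic version of the half space inequality; general lemmas.
-/

set_option autoImplicit false

open MeasureTheory Real Set Filter
open scoped ContDiff Topology

namespace Pool.Agent.TH558.YT743

open Pool.Agent.TH600.YT

/-- the scaling `(x, y, z) ↦ (x, y, s z)` -/
noncomputable def T (s : ℝ) : ℝ × ℝ × ℝ →L[ℝ] ℝ × ℝ × ℝ :=
  (ContinuousLinearMap.fst ℝ ℝ (ℝ × ℝ)).prod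
    (((ContinuousLinearMap.fst ℝ ℝ ℝ).comp (ContinuousLinearMap.snd ℝ ℝ (ℝ × ℝ))).prod
      (s • ((ContinuousLinearMap.snd ℝ ℝ ℝ).comp (ContinuousLinearMap.snd ℝ ℝ (ℝ × ℝ)))))

theorem T_apply (s : ℝ) (p : ℝ × ℝ × ℝ) : T s p = (p.1, p.2.1, s * p.2.2) := by
  simp [T]

theorem int_T (s : ℝ) (hs : 0 < s) (F : ℝ × ℝ × ℝ → ℝ) :
    ∫ p, F (T s p) = s⁻¹ * ∫ p, F p := by
  let e : ℝ × ℝ × ℝ ≃ᵐ ℝ × ℝ × ℝ :=
    MeasurableEquiv.prodCongr (MeasurableEquiv.refl ℝ)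
      (MeasurableEquiv.prodCongr (MeasurableEquiv.refl ℝ) (Homeomorph.mulLeft₀ s hs.ne').toMeasurableEquiv)
  have he : ∀ p, e p = T s p := by
    intro p
    rw [T_apply]
    rfl
  have hmap : Measure.map e (volume : Measure (ℝ × ℝ × ℝ)) =
      ENNReal.ofReal s⁻¹ • (volume : Measure (ℝ × ℝ × ℝ)) := by
    have h1 : (e : ℝ × ℝ × ℝ → ℝ × ℝ × ℝ) = Prod.map id (Prod.map id (fun z => s * z)) := by
      funext p
      rfl
    have h2 : Measure.map (fun z : ℝ => s * z) volume = ENNReal.ofReal s⁻¹ • volume := by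
      rw [Real.map_volume_mul_left hs.ne', abs_of_pos (inv_pos.mpr hs)]
    rw [h1, Measure.volume_eq_prod ℝ (ℝ × ℝ), Measure.volume_eq_prod ℝ ℝ,
      ← Measure.map_prod_map _ _ measurable_id
        (measurable_id.prodMap (measurable_const_mul s)),
      ← Measure.map_prod_map _ _ measurable_id (measurable_const_mul s), h2, Measure.map_id,
      Measure.prod_smul_right, Measure.prod_smul_right]
  have h3 : ∫ p, F (T s p) = ∫ p, F p ∂(Measure.map e volume) := by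
    rw [integral_map_equiv]
    simp only [he]
  rw [h3, hmap, integral_smul_measure, ENNReal.toReal_ofReal (inv_pos.mpr hs).le, smul_eq_mul]

/-- the energy density -/
noncomputable def dens (c : ℝ) (w : ℝ × ℝ × ℝ → ℝ) (p : ℝ × ℝ × ℝ) : ℝ :=
  8 * ((D1 w p) ^ 2 + (D2 w p) ^ 2) + Ah p * (8 * c * (D3 w p) ^ 2 + 2 * (w p) ^ 2)

theorem Eh_eq (c L : ℝ) (w : ℝ × ℝ × ℝ → ℝ) : Eh c L w = ∫ p in Cyl L, dens c w p := rfl

theorem dens_nonneg {c : ℝ} (hc : 0 ≤ c) (w : ℝ × ℝ × ℝ → ℝ) (p : ℝ × ℝ × ℝ) :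
    0 ≤ dens c w p := by
  unfold dens
  have := Ah_pos p
  positivity

/-- `C^1` on the closed solid cylinder -/
def C1 (w : ℝ × ℝ × ℝ → ℝ) : Prop := ∀ x y z : ℝ, x ^ 2 + y ^ 2 ≤ 1 → ContDiffAt ℝ 1 w (x, y, z)

theorem C1.at {w : ℝ × ℝ × ℝ → ℝ} (hw : C1 w) {p : ℝ × ℝ × ℝ} (hp : p.1 ^ 2 + p.2.1 ^ 2 ≤ 1) :
    ContDiffAt ℝ 1 w p := hw p.1 p.2.1 p.2.2 hp

theorem C1.cont {w : ℝ × ℝ × ℝ → ℝ} (hw : C1 w) (L : ℝ) : ContinuousOn w (cCyl L) :=
  fun _ hp => (hw.at hp.1).continuousAt.continuousWithinAt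

theorem C1.cont_fderiv {w : ℝ × ℝ × ℝ → ℝ} (hw : C1 w) (L : ℝ) (v : ℝ × ℝ × ℝ) :
    ContinuousOn (fun p => fderiv ℝ w p v) (cCyl L) := by
  intro p hp
  have h := (hw.at hp.1).fderiv_right (m := 0) (by norm_num)
  exact (h.continuousAt.clm_apply continuousAt_const).continuousWithinAt

theorem C1.cont_dens {w : ℝ × ℝ × ℝ → ℝ} (hw : C1 w) (c L : ℝ) :
    ContinuousOn (dens c w) (cCyl L) := by
  have h1 : ContinuousOn (D1 w) (cCyl L) := hw.cont_fderiv L _
  have h2 : ContinuousOn (D2 w) (cCyl L) := hw.cont_fderiv L _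
  have h3 : ContinuousOn (D3 w) (cCyl L) := hw.cont_fderiv L _
  have h4 := hw.cont L
  have h5 : ContinuousOn Ah (cCyl L) := continuous_Ah.continuousOn
  unfold dens
  fun_prop

/-- functions vanishing at the two ends of the cylinder -/
theorem ends_zero
    (hemi_line : ∀ (w : ℝ × ℝ × ℝ → ℝ),
      (∀ x y z : ℝ, x ^ 2 + y ^ 2 ≤ 1 → ContDiffAt ℝ 1 w (x, y, z)) →
      (∀ x y z : ℝ, x ^ 2 + y ^ 2 ≤ 1 → 0 ≤ w (x, y, z)) → ∀ M : ℝ,
      (∀ x y z : ℝ, x ^ 2 + y ^ 2 ≤ 1 → M ≤ |z| → w (x, y, z) = 0) →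
      216 * π ^ 4 * (∫ p in {p : ℝ × ℝ × ℝ | p.1 ^ 2 + p.2.1 ^ 2 < 1}, Ah p * w p ^ 6) ≤
        (∫ p in {p : ℝ × ℝ × ℝ | p.1 ^ 2 + p.2.1 ^ 2 < 1},
          (8 * ((D1 w p) ^ 2 + (D2 w p) ^ 2) + Ah p * (8 * (D3 w p) ^ 2 + 2 * (w p) ^ 2))) ^ 3)
    (c : ℝ) (hc : 0 < c) (L : ℝ) (hL : 0 < L) (w : ℝ × ℝ × ℝ → ℝ) (hw : C1 w)
    (hw0 : ∀ x y z : ℝ, x ^ 2 + y ^ 2 ≤ 1 → 0 ≤ w (x, y, z))
    (h0 : ∀ᶠ z in 𝓝 (0 : ℝ), ∀ x y : ℝ, w (x, y, z) = 0)
    (h1 : ∀ᶠ z in 𝓝 L, ∀ x y : ℝ, w (x, y, z) = 0) :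
    6 * π ^ (4 / 3 : ℝ) * (∫ p in Cyl L, c * Ah p * w p ^ 6) ^ (1 / 3 : ℝ) ≤ Eh c L w := by
  set s : ℝ := √c with hs
  have hs0 : 0 < s := Real.sqrt_pos.mpr hc
  have hs2 : s ^ 2 = c := Real.sq_sqrt hc.le
  set v : ℝ × ℝ × ℝ → ℝ := fun p => if 0 < s * p.2.2 ∧ s * p.2.2 < L then w (T s p) else 0 with hv
  have hcz : Continuous (fun p : ℝ × ℝ × ℝ => s * p.2.2) := by fun_prop
  -- inside
  have hin : ∀ p : ℝ × ℝ × ℝ, (0 < s * p.2.2 ∧ s * p.2.2 < L) → v =ᶠ[𝓝 p] fun q => w (T s q) := by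
    rintro p ⟨ha, hb⟩
    have e1 : ∀ᶠ q in 𝓝 p, 0 < s * q.2.2 := hcz.continuousAt.eventually_const_lt ha
    have e2 : ∀ᶠ q in 𝓝 p, s * q.2.2 < L := hcz.continuousAt.eventually_lt_const hb
    filter_upwards [e1, e2] with q hq1 hq2
    simp only [hv]
    rw [if_pos ⟨hq1, hq2⟩]
  -- outside
  have hout : ∀ p : ℝ × ℝ × ℝ, ¬ (0 < s * p.2.2 ∧ s * p.2.2 < L) → v =ᶠ[𝓝 p] fun _ => 0 := by
    intro p hp
    rw [not_and_or, not_lt, not_lt] at hp
    rcases hp with hp | hp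
    · rcases hp.lt_or_eq with hp | hp
      · have e1 : ∀ᶠ q in 𝓝 p, s * q.2.2 < 0 := hcz.continuousAt.eventually_lt_const hp
        filter_upwards [e1] with q hq
        simp only [hv]
        rw [if_neg]
        rintro ⟨h, _⟩
        linarith
      · have e1 : ∀ᶠ q in 𝓝 p, ∀ x y : ℝ, w (x, y, s * q.2.2) = 0 := by
          have h2 : Tendsto (fun p : ℝ × ℝ × ℝ => s * p.2.2) (𝓝 p) (𝓝 0) := by
            rw [← hp]; exact hcz.tendsto p
          exact h2.eventually h0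
        filter_upwards [e1] with q hq
        simp only [hv]
        split_ifs
        · rw [T_apply]; exact hq _ _
        · rfl
    · rcases hp.lt_or_eq with hp | hp
      · have e1 : ∀ᶠ q in 𝓝 p, L < s * q.2.2 := hcz.continuousAt.eventually_const_lt hp
        filter_upwards [e1] with q hq
        simp only [hv]
        rw [if_neg]
        rintro ⟨_, h⟩
        linarith
      · have e1 : ∀ᶠ q in 𝓝 p, ∀ x y : ℝ, w (x, y, s * q.2.2) = 0 := by
          have h2 : Tendsto (fun p : ℝ × ℝ × ℝ => s * p.2.2) (𝓝 p) (𝓝 L) := by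
            rw [hp]; exact hcz.tendsto p
          exact h2.eventually h1
        filter_upwards [e1] with q hq
        simp only [hv]
        split_ifs
        · rw [T_apply]; exact hq _ _
        · rfl
  -- `v` is `C^1`
  have hvC : ∀ x y z : ℝ, x ^ 2 + y ^ 2 ≤ 1 → ContDiffAt ℝ 1 v (x, y, z) := by
    intro x y z hxy
    by_cases hz : 0 < s * z ∧ s * z < L
    · refine ContDiffAt.congr_of_eventuallyEq ?_ (hin (x, y, z) hz)
      have h2 : ContDiffAt ℝ 1 w (T s (x, y, z)) := by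
        apply hw.at
        rw [T_apply]
        exact hxy
      exact h2.comp (x, y, z) (T s).contDiff.contDiffAt
    · exact contDiffAt_const.congr_of_eventuallyEq (hout (x, y, z) hz)
  have hv0 : ∀ x y z : ℝ, x ^ 2 + y ^ 2 ≤ 1 → 0 ≤ v (x, y, z) := by
    intro x y z hxy
    simp only [hv]
    split_ifs
    · rw [T_apply]; exact hw0 _ _ _ hxy
    · exact le_rfl
  have hvM : ∀ x y z : ℝ, x ^ 2 + y ^ 2 ≤ 1 → L / s ≤ |z| → v (x, y, z) = 0 := by
    intro x y z _ hz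
    simp only [hv]
    rw [if_neg]
    rintro ⟨ha, hb⟩
    have hz0 : 0 < z := by
      by_contra h
      push Not at h
      nlinarith
    rw [abs_of_pos hz0, div_le_iff₀ hs0] at hz
    linarith
  have main := hemi_line v hvC hv0 (L / s) hvM
  have hDm : MeasurableSet {p : ℝ × ℝ × ℝ | p.1 ^ 2 + p.2.1 ^ 2 < 1} :=
    (isOpen_lt (by fun_prop) (by fun_prop)).measurableSet
  -- left side
  have hA : ∀ p : ℝ × ℝ × ℝ, Ah (T s p) = Ah p := by
    intro p
    rw [T_apply]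
    rfl
  have hleft : ∫ p in {p : ℝ × ℝ × ℝ | p.1 ^ 2 + p.2.1 ^ 2 < 1}, Ah p * v p ^ 6 =
      s⁻¹ * ∫ p in Cyl L, Ah p * w p ^ 6 := by
    rw [← integral_indicator hDm, ← integral_indicator (measurableSet_Cyl L), ← int_T s hs0]
    congr 1
    funext p
    by_cases hp : p.1 ^ 2 + p.2.1 ^ 2 < 1
    · rw [indicator_of_mem (show p ∈ {p : ℝ × ℝ × ℝ | p.1 ^ 2 + p.2.1 ^ 2 < 1} from hp)]
      by_cases hz : 0 < s * p.2.2 ∧ s * p.2.2 < L
      · rw [indicator_of_mem, hA]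
        · simp only [hv]
          rw [if_pos hz]
        · rw [T_apply]; exact ⟨hp, hz⟩
      · rw [indicator_of_notMem]
        · simp only [hv]
          rw [if_neg hz]
          simp
        · rw [T_apply]; exact fun h => hz h.2
    · rw [indicator_of_notMem (show p ∉ {p : ℝ × ℝ × ℝ | p.1 ^ 2 + p.2.1 ^ 2 < 1} from hp),
        indicator_of_notMem]
      rw [T_apply]; exact fun h => hp h.1
  have hright : ∫ p in {p : ℝ × ℝ × ℝ | p.1 ^ 2 + p.2.1 ^ 2 < 1},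
      (8 * ((D1 v p) ^ 2 + (D2 v p) ^ 2) + Ah p * (8 * (D3 v p) ^ 2 + 2 * (v p) ^ 2)) =
      s⁻¹ * Eh c L w := by
    rw [Eh_eq, ← integral_indicator hDm, ← integral_indicator (measurableSet_Cyl L),
      ← int_T s hs0]
    congr 1
    funext p
    by_cases hp : p.1 ^ 2 + p.2.1 ^ 2 < 1
    · rw [indicator_of_mem (show p ∈ {p : ℝ × ℝ × ℝ | p.1 ^ 2 + p.2.1 ^ 2 < 1} from hp)]
      by_cases hz : 0 < s * p.2.2 ∧ s * p.2.2 < L
      · have hTp : T s p ∈ Cyl L := by rw [T_apply]; exact ⟨hp, hz⟩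
        rw [indicator_of_mem hTp]
        have hd : HasFDerivAt w (fderiv ℝ w (T s p)) (T s p) :=
          ((hw.at hTp.1.le).differentiableAt (by norm_num)).hasFDerivAt
        have hd2 : fderiv ℝ v p = (fderiv ℝ w (T s p)).comp (T s) := by
          rw [(hin p hz).fderiv_eq]
          exact (hd.comp p (T s).hasFDerivAt).fderiv
        have d1 : D1 v p = D1 w (T s p) := by
          unfold D1
          rw [hd2, ContinuousLinearMap.comp_apply, T_apply s (1, 0, 0)]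
          simp
        have d2 : D2 v p = D2 w (T s p) := by
          unfold D2
          rw [hd2, ContinuousLinearMap.comp_apply, T_apply s (0, 1, 0)]
          simp
        have d3 : D3 v p = s * D3 w (T s p) := by
          unfold D3
          rw [hd2, ContinuousLinearMap.comp_apply, T_apply s (0, 0, 1)]
          have : (((0 : ℝ), (0 : ℝ), s * 1) : ℝ × ℝ × ℝ) = s • ((0, 0, 1) : ℝ × ℝ × ℝ) := by
            simp
          simp only at this ⊢
          rw [this, map_smul, smul_eq_mul]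
        have dv : v p = w (T s p) := by
          simp only [hv]
          rw [if_pos hz]
        rw [d1, d2, d3, dv]
        unfold dens
        rw [hA, ← hs2]
        ring
      · rw [indicator_of_notMem]
        · have hd2 : fderiv ℝ v p = 0 := by
            rw [(hout p hz).fderiv_eq]
            simp
          have dv : v p = 0 := by
            simp only [hv]
            rw [if_neg hz]
          unfold D1 D2 D3
          rw [hd2, dv]
          simp
        · rw [T_apply]; exact fun h => hz h.2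
    · rw [indicator_of_notMem (show p ∉ {p : ℝ × ℝ × ℝ | p.1 ^ 2 + p.2.1 ^ 2 < 1} from hp),
        indicator_of_notMem]
      rw [T_apply]; exact fun h => hp h.1
  rw [hleft, hright] at main
  have hE0 : 0 ≤ Eh c L w := by
    rw [Eh_eq]
    exact integral_nonneg fun p => dens_nonneg hc.le w p
  have hI0 : 0 ≤ ∫ p in Cyl L, Ah p * w p ^ 6 := by
    refine integral_nonneg fun p => ?_
    have := Ah_pos p
    simp only [Pi.zero_apply]
    positivity
  have hI : ∫ p in Cyl L, c * Ah p * w p ^ 6 = c * ∫ p in Cyl L, Ah p * w p ^ 6 := by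
    rw [← integral_const_mul]
    refine integral_congr_ae (ae_of_all _ fun p => ?_)
    simp only
    ring
  rw [hI]
  set I : ℝ := ∫ p in Cyl L, Ah p * w p ^ 6 with hId
  have h3 : (6 * π ^ (4 / 3 : ℝ) * (c * I) ^ (1 / 3 : ℝ)) ^ 3 = 216 * π ^ 4 * (c * I) := by
    rw [mul_pow, mul_pow, ← Real.rpow_natCast (π ^ (4 / 3 : ℝ)) 3,
      ← Real.rpow_natCast ((c * I) ^ (1 / 3 : ℝ)) 3, ← Real.rpow_mul pi_pos.le,
      ← Real.rpow_mul (by positivity)]
    norm_num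
  have h4 : (6 * π ^ (4 / 3 : ℝ) * (c * I) ^ (1 / 3 : ℝ)) ^ 3 ≤ (Eh c L w) ^ 3 := by
    rw [h3]
    have h5 : 216 * π ^ 4 * (c * I) = s ^ 3 * (216 * π ^ 4 * (s⁻¹ * I)) := by
      rw [← hs2]
      field_simp
    have h6 : s ^ 3 * (s⁻¹ * Eh c L w) ^ 3 = (Eh c L w) ^ 3 := by
      field_simp
    rw [h5, ← h6]
    exact mul_le_mul_of_nonneg_left main (by positivity)
  exact le_of_pow_le_pow_left₀ (by norm_num) hE0 h4

end Pool.Agent.TH558.YT743
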