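import Mathlib
import Pool.Agent.TH600.YT.Defs
import Pool.Agent.TH600.YT.Basic
import Pool.Agent.TH558.J743a

/-!
Job 743 (helper600, MP_e875d0_gt): periodic version by IMS localization and Minkowski.
-/

set_option autoImplicit false

open MeasureTheory Real Set Filter
open scoped ContDiff Topology

namespace Pool.Agent.TH558.YT743

open Pool.Agent.TH600.YT

/-- Minkowski inequality in `L^3` on the cylinder -/
theorem mink (L : ℝ) (m a b : ℝ × ℝ × ℝ → ℝ) (hm : ContinuousOn m (cCyl L))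
    (ha : ContinuousOn a (cCyl L)) (hb : ContinuousOn b (cCyl L)) (hm0 : ∀ p, 0 ≤ m p)
    (ha0 : ∀ p, 0 ≤ a p) (hb0 : ∀ p, 0 ≤ b p) :
    (∫ p in Cyl L, m p * (a p + b p) ^ 3) ^ (1 / 3 : ℝ) ≤
      (∫ p in Cyl L, m p * a p ^ 3) ^ (1 / 3 : ℝ) + (∫ p in Cyl L, m p * b p ^ 3) ^ (1 / 3 : ℝ) := by
  have key : ∀ f : ℝ × ℝ × ℝ → ℝ, ContinuousOn f (cCyl L) → (∀ p, 0 ≤ f p) →
      (∫⁻ p in Cyl L, ENNReal.ofReal (m p ^ (1 / 3 : ℝ) * f p) ^ (3 : ℝ)) ^ (1 / (3 : ℝ)) =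
        ENNReal.ofReal ((∫ p in Cyl L, m p * f p ^ 3) ^ (1 / 3 : ℝ)) := by
    intro f hf hf0
    have h1 : ∀ p, ENNReal.ofReal (m p ^ (1 / 3 : ℝ) * f p) ^ (3 : ℝ) =
        ENNReal.ofReal (m p * f p ^ 3) := by
      intro p
      rw [ENNReal.ofReal_rpow_of_nonneg (mul_nonneg (Real.rpow_nonneg (hm0 p) _) (hf0 p))
        (by norm_num), Real.mul_rpow (Real.rpow_nonneg (hm0 p) _) (hf0 p),
        ← Real.rpow_mul (hm0 p)]
      norm_num
    have h2 : IntegrableOn (fun p => m p * f p ^ 3) (Cyl L) := intOn (hm.mul (hf.pow 3))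
    have h3 : 0 ≤ ∫ p in Cyl L, m p * f p ^ 3 :=
      integral_nonneg fun p => mul_nonneg (hm0 p) (pow_nonneg (hf0 p) 3)
    rw [lintegral_congr h1, ← ofReal_integral_eq_lintegral_ofReal h2
      (ae_of_all _ fun p => mul_nonneg (hm0 p) (pow_nonneg (hf0 p) 3)),
      ENNReal.ofReal_rpow_of_nonneg h3 (by norm_num)]
  have hmeas : ∀ f : ℝ × ℝ × ℝ → ℝ, ContinuousOn f (cCyl L) →
      AEMeasurable (fun p => ENNReal.ofReal (m p ^ (1 / 3 : ℝ) * f p)) (volume.restrict (Cyl L)) := by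
    intro f hf
    have h1 : ContinuousOn (fun p => m p ^ (1 / 3 : ℝ) * f p) (Cyl L) :=
      ((hm.rpow_const (fun p _ => Or.inr (by norm_num))).mul hf).mono (Cyl_subset L)
    exact (h1.aemeasurable (measurableSet_Cyl L)).ennreal_ofReal
  have h := ENNReal.lintegral_Lp_add_le (μ := volume.restrict (Cyl L)) (p := 3)
    (hmeas a ha) (hmeas b hb) (by norm_num)
  rw [key a ha ha0, key b hb hb0] at h
  have h2 : ∀ p, ((fun p => ENNReal.ofReal (m p ^ (1 / 3 : ℝ) * a p)) +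
      (fun p => ENNReal.ofReal (m p ^ (1 / 3 : ℝ) * b p))) p =
      ENNReal.ofReal (m p ^ (1 / 3 : ℝ) * (a p + b p)) := by
    intro p
    simp only [Pi.add_apply]
    rw [← ENNReal.ofReal_add (mul_nonneg (Real.rpow_nonneg (hm0 p) _) (ha0 p))
      (mul_nonneg (Real.rpow_nonneg (hm0 p) _) (hb0 p)), mul_add]
  simp only [h2] at h
  rw [key (fun p => a p + b p) (ha.add hb) (fun p => add_nonneg (ha0 p) (hb0 p)),
    ← ENNReal.ofReal_add, ENNReal.ofReal_le_ofReal_iff] at h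
  · exact h
  · apply add_nonneg
    · exact Real.rpow_nonneg (integral_nonneg fun p => mul_nonneg (hm0 p) (pow_nonneg (ha0 p) 3)) _
    · exact Real.rpow_nonneg (integral_nonneg fun p => mul_nonneg (hm0 p) (pow_nonneg (hb0 p) 3)) _
  · exact Real.rpow_nonneg (integral_nonneg fun p => mul_nonneg (hm0 p) (pow_nonneg (ha0 p) 3)) _
  · exact Real.rpow_nonneg (integral_nonneg fun p => mul_nonneg (hm0 p) (pow_nonneg (hb0 p) 3)) _

/-- shift in the third variable -/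
def sh (a : ℝ) (p : ℝ × ℝ × ℝ) : ℝ × ℝ × ℝ := p + (0, 0, a)

theorem sh_apply (a : ℝ) (p : ℝ × ℝ × ℝ) : sh a p = (p.1, p.2.1, p.2.2 + a) := by
  obtain ⟨x, y, z⟩ := p
  simp [sh]

/-- invariance of the integral over a period -/
theorem int_shift {L : ℝ} (hL : 0 ≤ L) (a : ℝ) (F : ℝ × ℝ × ℝ → ℝ)
    (hF : ∀ p : ℝ × ℝ × ℝ, p.1 ^ 2 + p.2.1 ^ 2 ≤ 1 → ContinuousAt F p)
    (hper : ∀ x y z : ℝ, F (x, y, z + L) = F (x, y, z)) :
    ∫ p in Cyl L, F (sh a p) = ∫ p in Cyl L, F p := by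
  have h1 : ContinuousOn F (cCyl L) := fun p hp => (hF p hp.1).continuousWithinAt
  have h2 : ContinuousOn (fun p => F (sh a p)) (cCyl L) := by
    intro p hp
    have h3 : ContinuousAt F (sh a p) := hF _ (by rw [sh_apply]; exact hp.1)
    have h4 : ContinuousAt (sh a) p := by unfold sh; fun_prop
    exact (h3.comp h4).continuousWithinAt
  rw [cyl_fubini hL h1, cyl_fubini hL h2]
  simp only [sh_apply]
  set G : ℝ → ℝ := fun z => ∫ q in Dsc, F (q.1, q.2, z) with hG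
  have hGp : Function.Periodic G L := by
    intro z
    simp only [hG, hper]
  have h5 : ∫ z in (0 : ℝ)..L, G (z + a) = ∫ z in (0 : ℝ)..L, G z := by
    rw [intervalIntegral.integral_comp_add_right]
    have := hGp.intervalIntegral_add_eq a 0
    rw [zero_add] at this ⊢
    rw [← this, add_comm L a]
  exact h5

/-- `C^1` continuity of the density -/
theorem C1.contAt_dens {w : ℝ × ℝ × ℝ → ℝ} (hw : C1 w) (c : ℝ) {p : ℝ × ℝ × ℝ}
    (hp : p.1 ^ 2 + p.2.1 ^ 2 ≤ 1) : ContinuousAt (dens c w) p := by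
  have h := (hw.at hp).fderiv_right (m := 0) (by norm_num)
  have h1 : ContinuousAt (D1 w) p := h.continuousAt.clm_apply continuousAt_const
  have h2 : ContinuousAt (D2 w) p := h.continuousAt.clm_apply continuousAt_const
  have h3 : ContinuousAt (D3 w) p := h.continuousAt.clm_apply continuousAt_const
  have h4 : ContinuousAt w p := (hw.at hp).continuousAt
  have h5 : ContinuousAt Ah p := continuous_Ah.continuousAt
  unfold dens
  fun_prop

theorem fderiv_sh (w : ℝ × ℝ × ℝ → ℝ) (a : ℝ) (p : ℝ × ℝ × ℝ) :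
    fderiv ℝ (fun q => w (sh a q)) p = fderiv ℝ w (sh a p) := by
  unfold sh
  exact fderiv_comp_add_right _

theorem dens_sh (c : ℝ) (w : ℝ × ℝ × ℝ → ℝ) (a : ℝ) (p : ℝ × ℝ × ℝ) :
    dens c (fun q => w (sh a q)) p = dens c w (sh a p) := by
  have hA : Ah (sh a p) = Ah p := by
    rw [sh_apply]; rfl
  unfold dens D1 D2 D3
  rw [fderiv_sh, hA]

theorem per_fderiv {L : ℝ} {w : ℝ × ℝ × ℝ → ℝ}
    (hper : ∀ x y z : ℝ, w (x, y, z + L) = w (x, y, z)) (p : ℝ × ℝ × ℝ) :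
    fderiv ℝ w (sh L p) = fderiv ℝ w p := by
  rw [← fderiv_sh]
  congr 1
  funext q
  rw [sh_apply]
  exact hper _ _ _

theorem per_dens {L c : ℝ} {w : ℝ × ℝ × ℝ → ℝ}
    (hper : ∀ x y z : ℝ, w (x, y, z + L) = w (x, y, z)) (x y z : ℝ) :
    dens c w (x, y, z + L) = dens c w (x, y, z) := by
  have h : ((x, y, z + L) : ℝ × ℝ × ℝ) = sh L (x, y, z) := by rw [sh_apply]
  rw [h]
  have hA : Ah (sh L (x, y, z)) = Ah (x, y, z) := by
    rw [sh_apply]; rfl
  have hw : w (sh L (x, y, z)) = w (x, y, z) := by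
    rw [sh_apply]; exact hper _ _ _
  unfold dens D1 D2 D3
  rw [per_fderiv hper, hA, hw]

/-- a cut off function of the third variable times `w` -/
def cut (χ : ℝ → ℝ) (w : ℝ × ℝ × ℝ → ℝ) (p : ℝ × ℝ × ℝ) : ℝ := χ p.2.2 * w p

theorem cut_C1 {χ : ℝ → ℝ} (hχ : ContDiff ℝ 1 χ) {w : ℝ × ℝ × ℝ → ℝ} (hw : C1 w) :
    C1 (cut χ w) := by
  intro x y z hxy
  unfold cut
  have h1 : ContDiff ℝ 1 (fun p : ℝ × ℝ × ℝ => χ p.2.2) := hχ.comp (by fun_prop)
  exact h1.contDiffAt.mul (hw x y z hxy)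

theorem cut_D {χ : ℝ → ℝ} (hχ : ContDiff ℝ 1 χ) {w : ℝ × ℝ × ℝ → ℝ} {p : ℝ × ℝ × ℝ}
    (hw : DifferentiableAt ℝ w p) :
    D1 (cut χ w) p = χ p.2.2 * D1 w p ∧ D2 (cut χ w) p = χ p.2.2 * D2 w p ∧
      D3 (cut χ w) p = χ p.2.2 * D3 w p + deriv χ p.2.2 * w p := by
  have h1 : HasDerivAt χ (deriv χ p.2.2) p.2.2 :=
    (hχ.differentiable (by norm_num)).differentiableAt.hasDerivAt
  have h2 : HasFDerivAt (fun p : ℝ × ℝ × ℝ => p.2.2)
      ((ContinuousLinearMap.snd ℝ ℝ ℝ).comp (ContinuousLinearMap.snd ℝ ℝ (ℝ × ℝ))) p :=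
    ((ContinuousLinearMap.snd ℝ ℝ ℝ).comp (ContinuousLinearMap.snd ℝ ℝ (ℝ × ℝ))).hasFDerivAt
  have h3 := h1.comp_hasFDerivAt p h2
  have h4 := h3.mul hw.hasFDerivAt
  have h5 : fderiv ℝ (cut χ w) p = _ := h4.fderiv
  unfold D1 D2 D3
  rw [h5]
  refine ⟨?_, ?_, ?_⟩
  · simp
  · simp
  · simp
    ring

/-- the angle -/
noncomputable def Th (t : ℝ) : ℝ := π / 2 * Real.smoothTransition (2 * sin (π * t) ^ 2 - 1 / 2)

theorem Th_contDiff : ContDiff ℝ ∞ Th := by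
  unfold Th
  refine contDiff_const.mul (Real.smoothTransition.contDiff.comp ?_)
  fun_prop

theorem Th_per : Function.Periodic Th 1 := by
  intro t
  unfold Th
  have : sin (π * (t + 1)) = -sin (π * t) := by
    rw [mul_add, mul_one, sin_add_pi]
  rw [this, neg_sq]

theorem Th_mem (t : ℝ) : 0 ≤ Th t ∧ Th t ≤ π / 2 := by
  unfold Th
  have h1 := Real.smoothTransition.nonneg (2 * sin (π * t) ^ 2 - 1 / 2)
  have h2 := Real.smoothTransition.le_one (2 * sin (π * t) ^ 2 - 1 / 2)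
  have := pi_pos
  constructor
  · positivity
  · nlinarith

theorem Th_bd : ∃ K : ℝ, 0 ≤ K ∧ ∀ t, |deriv Th t| ≤ K := by
  have hc : Continuous (deriv Th) := Th_contDiff.continuous_deriv (by norm_num)
  have hp : Function.Periodic (deriv Th) 1 := by
    intro t
    have h1 : (fun x => Th (x + 1)) = Th := funext fun x => Th_per x
    have h2 := deriv_comp_add_const Th 1 t
    rw [h1] at h2
    exact h2.symm
  obtain ⟨K, hK⟩ := isCompact_Icc.exists_bound_of_continuousOn (s := Icc (0 : ℝ) 1) hc.continuousOn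
  have hK' : ∀ t, ‖deriv Th t‖ ≤ K := by
    intro t
    obtain ⟨y, hy, hty⟩ := hp.exists_mem_Ico₀ one_pos t
    rw [hty]
    exact hK y ⟨hy.1, hy.2.le⟩
  exact ⟨K, (norm_nonneg _).trans (hK' 0), hK'⟩

theorem hemi_periodic
    (hemi_line : ∀ (w : ℝ × ℝ × ℝ → ℝ),
      (∀ x y z : ℝ, x ^ 2 + y ^ 2 ≤ 1 → ContDiffAt ℝ 1 w (x, y, z)) →
      (∀ x y z : ℝ, x ^ 2 + y ^ 2 ≤ 1 → 0 ≤ w (x, y, z)) → ∀ M : ℝ,
      (∀ x y z : ℝ, x ^ 2 + y ^ 2 ≤ 1 → M ≤ |z| → w (x, y, z) = 0) →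
      216 * π ^ 4 * (∫ p in {p : ℝ × ℝ × ℝ | p.1 ^ 2 + p.2.1 ^ 2 < 1}, Ah p * w p ^ 6) ≤
        (∫ p in {p : ℝ × ℝ × ℝ | p.1 ^ 2 + p.2.1 ^ 2 < 1},
          (8 * ((D1 w p) ^ 2 + (D2 w p) ^ 2) + Ah p * (8 * (D3 w p) ^ 2 + 2 * (w p) ^ 2))) ^ 3)
    (c : ℝ) (hc : 0 < c) : ∃ C : ℝ, 0 ≤ C ∧ ∀ L : ℝ, 1 ≤ L →
    ∀ w : ℝ × ℝ × ℝ → ℝ, Adm L w →
    6 * π ^ (4 / 3 : ℝ) * (∫ p in Cyl L, c * Ah p * w p ^ 6) ^ (1 / 3 : ℝ) ≤
      Eh c L w + C / L ^ 2 * ∫ p in Cyl L, w p ^ 2 := by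
  obtain ⟨K, hK0, hK⟩ := Th_bd
  refine ⟨32 * c * K ^ 2, by positivity, ?_⟩
  intro L hL w hwA
  have hL0 : 0 < L := by linarith
  have hw : C1 w := fun x y z hxy => (hwA.smooth x y z hxy).of_le (by norm_num)
  have hper := hwA.periodic
  -- the angle
  set θ : ℝ → ℝ := fun z => Th (z / L) with hθ
  have hθC : ContDiff ℝ 1 θ := (Th_contDiff.of_le (by norm_num)).comp (by fun_prop)
  have hθd : ∀ z, HasDerivAt θ (deriv θ z) z := fun z =>
    (hθC.differentiable (by norm_num)).differentiableAt.hasDerivAt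
  have hθb : ∀ z, |deriv θ z| ≤ K / L := by
    intro z
    have h1 : HasDerivAt Th (deriv Th (z / L)) (z / L) :=
      (Th_contDiff.differentiable (by norm_num)).differentiableAt.hasDerivAt
    have h2 : HasDerivAt (fun z : ℝ => z / L) (1 / L) z := (hasDerivAt_id z).div_const L
    have h3' : HasDerivAt (Th ∘ fun z : ℝ => z / L) (deriv Th (z / L) * (1 / L)) z :=
      HasDerivAt.comp z h1 h2
    have h3 : deriv θ z = deriv Th (z / L) * (1 / L) := h3'.deriv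
    rw [h3, abs_mul, abs_of_pos (by positivity : (0 : ℝ) < 1 / L), mul_one_div]
    exact div_le_div_of_nonneg_right (hK _) hL0.le
  have hθp : ∀ z, θ (z + L) = θ z := by
    intro z
    simp only [hθ]
    rw [add_div, div_self hL0.ne']
    exact Th_per _
  set χ₁ : ℝ → ℝ := fun z => cos (θ z) with hχ₁
  set χ₂ : ℝ → ℝ := fun z => sin (θ z) with hχ₂
  have hχ₁C : ContDiff ℝ 1 χ₁ := Real.contDiff_cos.comp hθC
  have hχ₂C : ContDiff ℝ 1 χ₂ := Real.contDiff_sin.comp hθC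
  have hχ₁d : ∀ z, deriv χ₁ z = -sin (θ z) * deriv θ z := fun z => (hθd z).cos.deriv
  have hχ₂d : ∀ z, deriv χ₂ z = cos (θ z) * deriv θ z := fun z => (hθd z).sin.deriv
  have hχ₁0 : ∀ z, 0 ≤ χ₁ z := by
    intro z
    obtain ⟨h1, h2⟩ := Th_mem (z / L)
    exact cos_nonneg_of_neg_pi_div_two_le_of_le (by have := pi_pos; simp only [hθ]; linarith) h2
  have hχ₂0 : ∀ z, 0 ≤ χ₂ z := by
    intro z
    obtain ⟨h1, h2⟩ := Th_mem (z / L)
    exact sin_nonneg_of_nonneg_of_le_pi h1 (by have := pi_pos; simp only [hθ]; linarith)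
  set u₁ := cut χ₁ w with hu₁
  set u₂ := cut χ₂ w with hu₂
  have hu₁C : C1 u₁ := cut_C1 hχ₁C hw
  have hu₂C : C1 u₂ := cut_C1 hχ₂C hw
  have hw0 : ∀ x y z : ℝ, x ^ 2 + y ^ 2 ≤ 1 → 0 ≤ w (x, y, z) := fun x y z h => (hwA.pos x y z h).le
  have hu₁per : ∀ x y z : ℝ, u₁ (x, y, z + L) = u₁ (x, y, z) := by
    intro x y z
    simp only [hu₁, cut, hχ₁, hθp, hper]
  -- second function
  have hzero : ∀ z, 2 * sin (π * (z / L)) ^ 2 - 1 / 2 < 0 → χ₂ z = 0 := by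
    intro z hz
    simp only [hχ₂, hθ, Th]
    rw [Real.smoothTransition.zero_of_nonpos hz.le, mul_zero, sin_zero]
  have hone : ∀ z, 1 < 2 * sin (π * (z / L)) ^ 2 - 1 / 2 → χ₁ z = 0 := by
    intro z hz
    simp only [hχ₁, hθ, Th]
    rw [Real.smoothTransition.one_of_one_le hz.le, mul_one, cos_pi_div_two]
  have hcont : Continuous (fun z : ℝ => 2 * sin (π * (z / L)) ^ 2 - 1 / 2) := by fun_prop
  have hcont2 : Continuous (fun z : ℝ => 2 * sin (π * ((z + L / 2) / L)) ^ 2 - 1 / 2) := by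
    fun_prop
  have r2 := ends_zero hemi_line c hc L hL0 u₂ hu₂C
    (fun x y z h => mul_nonneg (hχ₂0 z) (hw0 x y z h))
    (by
      have h1 : (fun z : ℝ => 2 * sin (π * (z / L)) ^ 2 - 1 / 2) 0 < 0 := by simp
      filter_upwards [hcont.continuousAt.eventually_lt_const h1] with z hz x y
      simp only [hu₂, cut]
      rw [hzero z hz, zero_mul])
    (by
      have h1 : (fun z : ℝ => 2 * sin (π * (z / L)) ^ 2 - 1 / 2) L < 0 := by
        simp only
        rw [div_self hL0.ne', mul_one, sin_pi]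
        norm_num
      filter_upwards [hcont.continuousAt.eventually_lt_const h1] with z hz x y
      simp only [hu₂, cut]
      rw [hzero z hz, zero_mul])
  -- first function, shifted
  set v₁ : ℝ × ℝ × ℝ → ℝ := fun q => u₁ (sh (L / 2) q) with hv₁
  have hv₁C : C1 v₁ := by
    intro x y z hxy
    have h1 : ContDiffAt ℝ 1 u₁ (sh (L / 2) (x, y, z)) := by
      apply hu₁C.at
      rw [sh_apply]
      exact hxy
    have h2 : ContDiff ℝ 1 (sh (L / 2)) := by unfold sh; fun_prop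
    exact h1.comp (x, y, z) h2.contDiffAt
  have r1 := ends_zero hemi_line c hc L hL0 v₁ hv₁C
    (fun x y z h => by
      simp only [hv₁, sh_apply]
      exact mul_nonneg (hχ₁0 _) (hw0 _ _ _ h))
    (by
      have h1 : 1 < (fun z : ℝ => 2 * sin (π * ((z + L / 2) / L)) ^ 2 - 1 / 2) 0 := by
        simp only
        have : π * ((0 + L / 2) / L) = π / 2 := by field_simp; ring
        rw [this, sin_pi_div_two]
        norm_num
      filter_upwards [hcont2.continuousAt.eventually_const_lt h1] with z hz x y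
      simp only [hv₁, sh_apply, hu₁, cut]
      rw [hone _ hz, zero_mul])
    (by
      have h1 : 1 < (fun z : ℝ => 2 * sin (π * ((z + L / 2) / L)) ^ 2 - 1 / 2) L := by
        simp only
        have : π * ((L + L / 2) / L) = π / 2 + π := by field_simp; ring
        rw [this, sin_add_pi, sin_pi_div_two]
        norm_num
      filter_upwards [hcont2.continuousAt.eventually_const_lt h1] with z hz x y
      simp only [hv₁, sh_apply, hu₁, cut]
      rw [hone _ hz, zero_mul])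
  have e1 : Eh c L v₁ = Eh c L u₁ := by
    rw [Eh_eq, Eh_eq]
    simp only [hv₁, dens_sh]
    exact int_shift hL0.le (L / 2) (dens c u₁) (fun p hp => hu₁C.contAt_dens c hp)
      (fun x y z => per_dens hu₁per x y z)
  have e2 : ∫ p in Cyl L, c * Ah p * v₁ p ^ 6 = ∫ p in Cyl L, c * Ah p * u₁ p ^ 6 := by
    have h1 : ∀ p, c * Ah p * v₁ p ^ 6 = (fun p => c * Ah p * u₁ p ^ 6) (sh (L / 2) p) := by
      intro p
      have hA : Ah (sh (L / 2) p) = Ah p := by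
        rw [sh_apply]; rfl
      simp only [hv₁, hA]
    simp only [h1]
    refine int_shift hL0.le (L / 2) (fun p => c * Ah p * u₁ p ^ 6) (fun p hp => ?_) ?_
    · have h4 : ContinuousAt u₁ p := (hu₁C.at hp).continuousAt
      have h5 : ContinuousAt Ah p := continuous_Ah.continuousAt
      fun_prop
    · intro x y z
      have hA : Ah (x, y, z + L) = Ah (x, y, z) := rfl
      simp only [hu₁per, hA]
  rw [e1, e2] at r1
  -- Minkowski
  have hcA : ContinuousOn (fun p => c * Ah p) (cCyl L) := by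
    have := continuous_Ah
    fun_prop
  have hmk := mink L (fun p => c * Ah p) (fun p => u₁ p ^ 2) (fun p => u₂ p ^ 2) hcA
    ((hu₁C.cont L).pow 2) ((hu₂C.cont L).pow 2) (fun p => (mul_pos hc (Ah_pos p)).le)
    (fun p => sq_nonneg _) (fun p => sq_nonneg _)
  have m0 : ∀ p, c * Ah p * (u₁ p ^ 2 + u₂ p ^ 2) ^ 3 = c * Ah p * w p ^ 6 := by
    intro p
    have h1 : u₁ p ^ 2 + u₂ p ^ 2 = w p ^ 2 := by
      simp only [hu₁, hu₂, cut, hχ₁, hχ₂]
      have := sin_sq_add_cos_sq (θ p.2.2)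
      linear_combination (w p ^ 2) * this
    rw [h1]
    ring
  have m1 : ∀ p, c * Ah p * (u₁ p ^ 2) ^ 3 = c * Ah p * u₁ p ^ 6 := fun p => by ring
  have m2 : ∀ p, c * Ah p * (u₂ p ^ 2) ^ 3 = c * Ah p * u₂ p ^ 6 := fun p => by ring
  simp only [m0, m1, m2] at hmk
  -- the energy identity
  have hdens : ∀ p ∈ Cyl L, dens c u₁ p + dens c u₂ p ≤ dens c w p + 32 * c * K ^ 2 / L ^ 2 * w p ^ 2 := by
    intro p hp
    have hd : DifferentiableAt ℝ w p := (hw.at hp.1.le).differentiableAt (by norm_num)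
    obtain ⟨a1, a2, a3⟩ := cut_D hχ₁C hd
    obtain ⟨b1, b2, b3⟩ := cut_D hχ₂C hd
    have hA4 : Ah p ≤ 4 := by
      unfold Ah
      rw [div_le_iff₀ (by have := sq_nonneg' p; positivity)]
      have := sq_nonneg' p
      nlinarith
    have hA0 := Ah_pos p
    have hid : dens c u₁ p + dens c u₂ p = dens c w p + 8 * c * Ah p * (deriv θ p.2.2) ^ 2 * w p ^ 2 := by
      unfold dens
      rw [a1, a2, a3, b1, b2, b3, hχ₁d, hχ₂d]
      simp only [hu₁, hu₂, cut, hχ₁, hχ₂]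
      have hcs := sin_sq_add_cos_sq (θ p.2.2)
      generalize sin (θ p.2.2) = S at hcs ⊢
      generalize cos (θ p.2.2) = Co at hcs ⊢
      linear_combination (8 * (D1 w p ^ 2 + D2 w p ^ 2) +
        Ah p * (8 * c * (D3 w p ^ 2 + deriv θ p.2.2 ^ 2 * w p ^ 2) + 2 * w p ^ 2)) * hcs
    rw [hid]
    have h2 : (deriv θ p.2.2) ^ 2 ≤ K ^ 2 / L ^ 2 := by
      rw [← div_pow, ← sq_abs (deriv θ p.2.2)]
      exact pow_le_pow_left₀ (abs_nonneg _) (hθb _) 2
    have h3 : 8 * c * Ah p * (deriv θ p.2.2) ^ 2 * w p ^ 2 ≤ 32 * c * K ^ 2 / L ^ 2 * w p ^ 2 := by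
      apply mul_le_mul_of_nonneg_right _ (sq_nonneg _)
      calc 8 * c * Ah p * (deriv θ p.2.2) ^ 2 ≤ 8 * c * 4 * (K ^ 2 / L ^ 2) := by
            gcongr
        _ = 32 * c * K ^ 2 / L ^ 2 := by ring
    linarith
  have hsum : Eh c L u₁ + Eh c L u₂ ≤ Eh c L w + 32 * c * K ^ 2 / L ^ 2 * ∫ p in Cyl L, w p ^ 2 := by
    have i1 : IntegrableOn (dens c u₁) (Cyl L) := intOn (hu₁C.cont_dens c L)
    have i2 : IntegrableOn (dens c u₂) (Cyl L) := intOn (hu₂C.cont_dens c L)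
    have i3 : IntegrableOn (dens c w) (Cyl L) := intOn (hw.cont_dens c L)
    have i4 : IntegrableOn (fun p => 32 * c * K ^ 2 / L ^ 2 * w p ^ 2) (Cyl L) :=
      intOn (continuousOn_const.mul ((hw.cont L).pow 2))
    rw [Eh_eq, Eh_eq, Eh_eq, ← integral_add i1 i2, ← integral_const_mul, ← integral_add i3 i4]
    exact setIntegral_mono_on (i1.add i2) (i3.add i4) (measurableSet_Cyl L) hdens
  have hpi : 0 < 6 * π ^ (4 / 3 : ℝ) := by
    have := Real.rpow_pos_of_pos pi_pos (4 / 3)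
    positivity
  calc 6 * π ^ (4 / 3 : ℝ) * (∫ p in Cyl L, c * Ah p * w p ^ 6) ^ (1 / 3 : ℝ)
      ≤ 6 * π ^ (4 / 3 : ℝ) * ((∫ p in Cyl L, c * Ah p * u₁ p ^ 6) ^ (1 / 3 : ℝ) +
          (∫ p in Cyl L, c * Ah p * u₂ p ^ 6) ^ (1 / 3 : ℝ)) :=
        mul_le_mul_of_nonneg_left hmk hpi.le
    _ ≤ Eh c L u₁ + Eh c L u₂ := by
        rw [mul_add]
        exact add_le_add r1 r2
    _ ≤ _ := hsum

end Pool.Agent.TH558.YT743
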