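import Pool.Agent.TH32.H.Stmts

set_option autoImplicit false

namespace Pool.Agent.TH558.TZH

open Pool.Agent.H260TZ Pool.Agent.TH32

section

variable {R : Type} [CommRing R] [IsDomain R] (D : DV R)

open Classical in
/-- the number of classes at a given level -/
theorem cnt_lev (k : ℕ) (a : R) (g : ℕ) (hg : g ≤ k) :
    ((Finset.univ.filter (fun z : D.Q k => D.lev k (D.lift z - a) = g)).card : ENNReal) =
      cz D.q (k - g) := by
  have hcard : ∀ j ≤ k, (Finset.univ.filter (fun z : D.Q k => D.t ^ j ∣ D.lift z - a)).card =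
      D.q ^ (k - j) := by
    intro j hj
    rw [← D.card_near hj a, Nat.card_eq_fintype_card, Fintype.card_subtype]
  unfold cz
  by_cases h : k - g = 0
  · have hgk : g = k := by omega
    subst hgk
    rw [if_pos h]
    have e : (Finset.univ.filter (fun z : D.Q g => D.lev g (D.lift z - a) = g)) =
        (Finset.univ.filter (fun z : D.Q g => D.t ^ g ∣ D.lift z - a)) := by
      apply Finset.filter_congr
      intro z _
      rw [D.dvd_iff_lev le_rfl]
      have := D.lev_le g (D.lift z - a)
      omega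
    rw [e, hcard g le_rfl, Nat.sub_self, pow_zero, Nat.cast_one]
  · rw [if_neg h]
    have hgk : g + 1 ≤ k := by omega
    have e : (Finset.univ.filter (fun z : D.Q k => D.lev k (D.lift z - a) = g)) =
        (Finset.univ.filter (fun z : D.Q k => D.t ^ g ∣ D.lift z - a)) \
        (Finset.univ.filter (fun z : D.Q k => D.t ^ (g + 1) ∣ D.lift z - a)) := by
      ext z
      rw [Finset.mem_sdiff, Finset.mem_filter, Finset.mem_filter, Finset.mem_filter,
        D.dvd_iff_lev hg, D.dvd_iff_lev hgk]
      simp only [Finset.mem_univ, true_and]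
      omega
    have hsub : (Finset.univ.filter (fun z : D.Q k => D.t ^ (g + 1) ∣ D.lift z - a)) ⊆
        (Finset.univ.filter (fun z : D.Q k => D.t ^ g ∣ D.lift z - a)) := by
      intro z hz
      rw [Finset.mem_filter] at hz ⊢
      exact ⟨hz.1, (pow_dvd_pow _ (Nat.le_succ g)).trans hz.2⟩
    rw [e, Finset.card_sdiff_of_subset hsub, hcard g hg, hcard (g + 1) hgk]
    have hq : (D.q : ℝ) ≠ 0 := by
      have := D.q_pos
      positivity
    have hle : D.q ^ (k - (g + 1)) ≤ D.q ^ (k - g) := Nat.pow_le_pow_right D.q_pos (by omega)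
    rw [← ENNReal.ofReal_natCast, Nat.cast_sub hle]
    congr 1
    push_cast
    have e2 : k - g = (k - (g + 1)) + 1 := by omega
    rw [e2, pow_succ]
    field_simp

open Classical in
theorem lev_zero_of_not_dvd {k : ℕ} {a : R} (h : ¬ D.t ∣ a) : D.lev k a = 0 := by
  by_contra h2
  have h3 : 1 ≤ D.lev k a := Nat.one_le_iff_ne_zero.2 h2
  have hk : 1 ≤ k := h3.trans (D.lev_le k a)
  have := (D.dvd_iff_lev hk a).2 h3
  rw [pow_one] at this
  exact h this

theorem lev_mul_t (k : ℕ) (a : R) : D.lev (k + 1) (D.t * a) = 1 + D.lev k a := by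
  apply le_antisymm
  · by_contra h
    push Not at h
    have h1 : 2 + D.lev k a ≤ D.lev (k + 1) (D.t * a) := by omega
    have h2 : 2 + D.lev k a ≤ k + 1 := h1.trans (D.lev_le _ _)
    have h3 := (D.dvd_iff_lev h2 _).2 h1
    rw [show 2 + D.lev k a = (D.lev k a + 1) + 1 by ring, pow_succ'] at h3
    have h4 := (mul_dvd_mul_iff_left D.t_ne).1 h3
    have h5 := (D.dvd_iff_lev (n := k) (i := D.lev k a + 1) (by omega) a).1 h4
    omega
  · have h1 := D.lev_le k a
    rw [← D.dvd_iff_lev (by omega), add_comm, pow_succ']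
    exact mul_dvd_mul_left _ (D.lev_dvd k a)

open Classical in
/-- sums over one level function -/
theorem sum_one (k : ℕ) (a : R) (F : ℕ → ENNReal) :
    ∑ z : D.Q k, F (D.lev k (D.lift z - a)) =
      ∑ g ∈ Finset.range (k + 1), cz D.q (k - g) * F g := by
  rw [← Finset.sum_fiberwise_of_maps_to (s := Finset.univ) (t := Finset.range (k + 1))
    (g := fun z : D.Q k => D.lev k (D.lift z - a))
    (fun z _ => Finset.mem_range.2 (Nat.lt_succ_of_le (D.lev_le k _)))]
  apply Finset.sum_congr rfl
  intro g hg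
  rw [Finset.mem_range] at hg
  rw [Finset.sum_congr rfl (g := fun _ => F g) (fun z hz => by
    rw [(Finset.mem_filter.1 hz).2]), Finset.sum_const, nsmul_eq_mul, cnt_lev D k a g (by omega)]

open Classical in
theorem cz1 (k : ℕ) (f : ℕ → ℕ → ENNReal) :
    (∑ z : D.Q k, f (D.lev k (D.lift z)) (D.lev k (1 + D.lift z))) =
      if k = 0 then f 0 0 else
        (∑ g ∈ Finset.Icc 1 k, cz D.q (k - g) * (f g 0 + f 0 g)) +
          ENNReal.ofReal ((1 - 2 * (D.q : ℝ)⁻¹) * (D.q : ℝ) ^ k) * f 0 0 := by
  by_cases hk : k = 0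
  · subst hk
    rw [if_pos rfl]
    have h1 : ∀ a : R, D.lev 0 a = 0 := fun a => Nat.le_zero.1 (D.lev_le 0 a)
    simp only [h1]
    rw [Finset.sum_const, Finset.card_univ, D.card_Q, pow_zero, one_smul]
  · rw [if_neg hk]
    have hk1 : 1 ≤ k := Nat.one_le_iff_ne_zero.2 hk
    set A : Finset (D.Q k) := Finset.univ.filter (fun z => D.t ∣ D.lift z) with hA
    set B : Finset (D.Q k) := Finset.univ.filter (fun z => D.t ∣ 1 + D.lift z) with hB
    have hdisj : Disjoint A B := by
      rw [Finset.disjoint_left]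
      intro z hz hz2
      rw [hA, Finset.mem_filter] at hz
      rw [hB, Finset.mem_filter] at hz2
      have := (dvd_add_left hz.2).1 hz2.2
      exact D.not_dvd_one this
    have hcA : A.card = D.q ^ (k - 1) := by
      rw [← D.card_near hk1 0, Nat.card_eq_fintype_card, Fintype.card_subtype, hA]
      congr 1
      apply Finset.filter_congr
      intro z _
      rw [pow_one, sub_zero]
    have hcB : B.card = D.q ^ (k - 1) := by
      rw [← D.card_near hk1 (-1), Nat.card_eq_fintype_card, Fintype.card_subtype, hB]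
      congr 1
      apply Finset.filter_congr
      intro z _
      rw [pow_one, sub_neg_eq_add, add_comm]
    have hsplit : ∀ G : D.Q k → ENNReal, ∑ z, G z =
        ∑ z ∈ A, G z + ∑ z ∈ B, G z + ∑ z ∈ Finset.univ \ (A ∪ B), G z := by
      intro G
      rw [← Finset.sum_union hdisj, add_comm]
      exact (Finset.sum_sdiff (Finset.subset_univ _)).symm
    have hlevA : ∀ z ∈ A, D.lev k (1 + D.lift z) = 0 := by
      intro z hz
      rw [hA, Finset.mem_filter] at hz
      apply lev_zero_of_not_dvd
      intro h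
      exact D.not_dvd_one ((dvd_add_left hz.2).1 h)
    have hlevB : ∀ z ∈ B, D.lev k (D.lift z) = 0 := by
      intro z hz
      rw [hB, Finset.mem_filter] at hz
      apply lev_zero_of_not_dvd
      intro h
      exact D.not_dvd_one ((dvd_add_left h).1 hz.2)
    -- the sum over `A`
    have hsumA : ∀ F : ℕ → ENNReal, ∑ z ∈ A, F (D.lev k (D.lift z)) =
        ∑ g ∈ Finset.Icc 1 k, cz D.q (k - g) * F g := by
      intro F
      have h1 := sum_one D k 0 (fun g => if g = 0 then 0 else F g)
      simp only [sub_zero] at h1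
      rw [Finset.range_eq_Ico, Finset.sum_eq_sum_Ico_succ_bot (by omega)] at h1
      simp only [if_true, mul_zero, zero_add] at h1
      have h2 : ∑ z : D.Q k, (if D.lev k (D.lift z) = 0 then (0 : ENNReal) else F (D.lev k (D.lift z)))
          = ∑ z ∈ A, F (D.lev k (D.lift z)) := by
        rw [hA, Finset.sum_filter]
        apply Finset.sum_congr rfl
        intro z _
        have h3 : D.t ∣ D.lift z ↔ 1 ≤ D.lev k (D.lift z) := by
          have := D.dvd_iff_lev hk1 (D.lift z)
          rwa [pow_one] at this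
        by_cases h4 : D.lev k (D.lift z) = 0
        · rw [if_pos h4, if_neg (by rw [h3]; omega)]
        · rw [if_neg h4, if_pos (by rw [h3]; omega)]
      rw [← h2, h1]
      apply Finset.sum_congr
      · ext g
        simp only [Finset.mem_Ico, Finset.mem_Icc]
        omega
      · intro g hg
        rw [Finset.mem_Icc] at hg
        rw [if_neg (by omega)]
    have hsumB : ∀ F : ℕ → ENNReal, ∑ z ∈ B, F (D.lev k (1 + D.lift z)) =
        ∑ g ∈ Finset.Icc 1 k, cz D.q (k - g) * F g := by
      intro F
      have h1 := sum_one D k (-1) (fun g => if g = 0 then 0 else F g)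
      have h5 : ∀ z : D.Q k, D.lift z - -1 = 1 + D.lift z := fun z => by ring
      simp only [h5] at h1
      rw [Finset.range_eq_Ico, Finset.sum_eq_sum_Ico_succ_bot (by omega)] at h1
      simp only [if_true, mul_zero, zero_add] at h1
      have h2 : ∑ z : D.Q k, (if D.lev k (1 + D.lift z) = 0 then (0 : ENNReal)
          else F (D.lev k (1 + D.lift z))) = ∑ z ∈ B, F (D.lev k (1 + D.lift z)) := by
        rw [hB, Finset.sum_filter]
        apply Finset.sum_congr rfl
        intro z _
        have h3 : D.t ∣ 1 + D.lift z ↔ 1 ≤ D.lev k (1 + D.lift z) := by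
          have := D.dvd_iff_lev hk1 (1 + D.lift z)
          rwa [pow_one] at this
        by_cases h4 : D.lev k (1 + D.lift z) = 0
        · rw [if_pos h4, if_neg (by rw [h3]; omega)]
        · rw [if_neg h4, if_pos (by rw [h3]; omega)]
      rw [← h2, h1]
      apply Finset.sum_congr
      · ext g
        simp only [Finset.mem_Ico, Finset.mem_Icc]
        omega
      · intro g hg
        rw [Finset.mem_Icc] at hg
        rw [if_neg (by omega)]
    rw [hsplit]
    have e1 : ∑ z ∈ A, f (D.lev k (D.lift z)) (D.lev k (1 + D.lift z)) =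
        ∑ g ∈ Finset.Icc 1 k, cz D.q (k - g) * f g 0 := by
      rw [← hsumA (fun g => f g 0)]
      exact Finset.sum_congr rfl fun z hz => by rw [hlevA z hz]
    have e2 : ∑ z ∈ B, f (D.lev k (D.lift z)) (D.lev k (1 + D.lift z)) =
        ∑ g ∈ Finset.Icc 1 k, cz D.q (k - g) * f 0 g := by
      rw [← hsumB (fun g => f 0 g)]
      exact Finset.sum_congr rfl fun z hz => by rw [hlevB z hz]
    have e3 : ∑ z ∈ Finset.univ \ (A ∪ B), f (D.lev k (D.lift z)) (D.lev k (1 + D.lift z)) =
        ENNReal.ofReal ((1 - 2 * (D.q : ℝ)⁻¹) * (D.q : ℝ) ^ k) * f 0 0 := by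
      have h1 : ∀ z ∈ Finset.univ \ (A ∪ B), f (D.lev k (D.lift z)) (D.lev k (1 + D.lift z)) =
          f 0 0 := by
        intro z hz
        rw [Finset.mem_sdiff, Finset.mem_union, not_or, hA, hB, Finset.mem_filter,
          Finset.mem_filter] at hz
        rw [lev_zero_of_not_dvd D (fun h => hz.2.1 ⟨Finset.mem_univ _, h⟩),
          lev_zero_of_not_dvd D (fun h => hz.2.2 ⟨Finset.mem_univ _, h⟩)]
      rw [Finset.sum_congr rfl h1, Finset.sum_const, nsmul_eq_mul]
      congr 1
      rw [Finset.card_sdiff_of_subset (Finset.subset_univ _), Finset.card_union_of_disjoint hdisj,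
        hcA, hcB, Finset.card_univ, D.card_Q]
      have hq : (D.q : ℝ) ≠ 0 := by
        have := D.q_pos
        positivity
      have e4 : k = (k - 1) + 1 := by omega
      have hle : D.q ^ (k - 1) + D.q ^ (k - 1) ≤ D.q ^ k := by
        conv_rhs => rw [e4, pow_succ]
        have := D.two_le
        nlinarith [Nat.zero_le (D.q ^ (k - 1))]
      rw [← ENNReal.ofReal_natCast, Nat.cast_sub hle]
      congr 1
      push_cast
      conv_lhs => rw [show (D.q : ℝ) ^ k = (D.q : ℝ) ^ ((k - 1) + 1) by rw [← e4]]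
      conv_rhs => rw [show (D.q : ℝ) ^ k = (D.q : ℝ) ^ ((k - 1) + 1) by rw [← e4]]
      rw [pow_succ]
      field_simp
      ring
    rw [e1, e2, e3, ← Finset.sum_add_distrib]
    congr 1
    exact Finset.sum_congr rfl fun g _ => by rw [mul_add]

theorem cz2 (k : ℕ) (f : ℕ → ℕ → ENNReal) :
    (∑ z : D.Q k, f (D.lev (k + 1) (D.t * D.lift z)) (D.lev (k + 1) (1 + D.t * D.lift z))) =
        ∑ g ∈ Finset.Icc 1 (k + 1), cz D.q (k + 1 - g) * f g 0 := by
  have h1 : ∀ z : D.Q k, f (D.lev (k + 1) (D.t * D.lift z)) (D.lev (k + 1) (1 + D.t * D.lift z)) =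
      (fun g => f (1 + g) 0) (D.lev k (D.lift z - 0)) := by
    intro z
    have h2 : D.lev (k + 1) (1 + D.t * D.lift z) = 0 := by
      apply lev_zero_of_not_dvd
      intro h
      exact D.not_dvd_one ((dvd_add_left (Dvd.intro _ rfl)).1 h)
    rw [sub_zero, lev_mul_t, h2]
  rw [Finset.sum_congr rfl fun z _ => h1 z, sum_one D k 0 (fun g => f (1 + g) 0)]
  refine Finset.sum_nbij (fun g => 1 + g) ?_ ?_ ?_ ?_
  · intro g hg
    rw [Finset.mem_range] at hg
    rw [Finset.mem_Icc]
    omega
  · intro a _ b _ h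
    simpa using h
  · intro g hg
    rw [Finset.mem_coe, Finset.mem_Icc] at hg
    refine ⟨g - 1, ?_, ?_⟩
    · rw [Finset.mem_coe, Finset.mem_range]
      omega
    · simp only
      omega
  · intro g hg
    congr 2
    omega

end

/-- TZH-CZ -/
theorem czStmt : CZStmt := by
  refine ⟨?_, ?_⟩
  · intro R _ _ D k f
    exact cz1 D k f
  · intro R _ _ D k f
    exact cz2 D k f

end Pool.Agent.TH558.TZH
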